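import Pool.Agent.H471.ZP.Ker
import Pool.Agent.H471.QP.Mom

set_option autoImplicit false

/-!
The error term of the approximation of `|ζ|²`, with the exponent `-1/2 + ε`.
-/

namespace Pool.Agent.H471.ZP

open Complex MeasureTheory Set
open Pool.Agent.Y969.GP (ff ht lam FR PX cr V mB co)
open Pool.Agent.Y587.GP (gs gs_pos gs_int gs_cont gs_total V_eq c0_pos c0_inv_le)
open Pool.Agent.Y620.SX (FF FF_bound gs_exp_int lin_int lin_val repr term_int)
open Pool.Agent.H471.GS (mem_FR' ht_pos ff_cont)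
open Pool.Agent.H471.QP

/-- the pointwise bound -/
lemma pt1 (ε : ℝ) (hε : 0 < ε) (X : ℕ) (u : ℝ) (hu : 1 ≤ u) (hX : u ^ (1 + ε) ≤ (X : ℝ)) (v : ℝ) :
    |FF X 1 (√(u / (2 * Real.pi * ((1 : ℕ) : ℝ))) * Real.exp (v / 2)) -
      (2 * Real.log √(u / (2 * Real.pi * ((1 : ℕ) : ℝ))) + 2 * Real.eulerMascheroniConstant + v)| ≤
      u ^ (-(1 / 2) : ℝ) * (12 * Real.exp (-(1 / 2) * v) +
        2 * Real.exp ((1 / 2 + 1 / ε) * v)) := by
  have hpi := Real.pi_pos
  have hpi3 := Real.pi_gt_three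
  have hpi4 := Real.pi_lt_four
  have hu0 : 0 < u := by linarith
  set G := √(u / (2 * Real.pi * ((1 : ℕ) : ℝ))) with hG
  have hG0 : 0 < G := Real.sqrt_pos.2 (by positivity)
  have hG2 : G ^ 2 = u / (2 * Real.pi * ((1 : ℕ) : ℝ)) := Real.sq_sqrt (by positivity)
  have hE := Real.exp_pos (v / 2)
  have hb := FF_bound X 1 le_rfl (G * Real.exp (v / 2)) (by positivity)
  have hlog : 2 * (Real.log (G * Real.exp (v / 2)) + Real.eulerMascheroniConstant) =
      2 * Real.log G + 2 * Real.eulerMascheroniConstant + v := by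
    rw [Real.log_mul hG0.ne' hE.ne', Real.log_exp]
    ring
  rw [hlog] at hb
  refine hb.trans ?_
  have hq2 : u ^ (1 / 2 : ℝ) * u ^ (1 / 2 : ℝ) = u := by
    rw [← Real.rpow_add hu0]
    norm_num
  have hq4 : 0 < u ^ (1 / 2 : ℝ) := Real.rpow_pos_of_pos hu0 _
  have hqm : u ^ (-(1 / 2) : ℝ) = (u ^ (1 / 2 : ℝ))⁻¹ := Real.rpow_neg hu0.le _
  -- the first term
  have h1 : 4 / (G * Real.exp (v / 2)) ≤ u ^ (-(1 / 2) : ℝ) * (12 * Real.exp (-(1 / 2) * v)) := by
    have a1 : u ^ (1 / 2 : ℝ) ≤ 3 * G := by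
      refine (sq_le_sq₀ hq4.le (by positivity)).1 ?_
      rw [sq, hq2, mul_pow, hG2]
      push_cast
      rw [mul_one, ← mul_div_assoc, le_div_iff₀ (by positivity)]
      nlinarith
    have a2 : Real.exp (-(1 / 2) * v) = (Real.exp (v / 2))⁻¹ := by
      rw [← Real.exp_neg]
      congr 1
      ring
    rw [a2, hqm, div_le_iff₀ (by positivity)]
    have a3 : (u ^ (1 / 2 : ℝ))⁻¹ * (12 * (Real.exp (v / 2))⁻¹) * (G * Real.exp (v / 2)) =
        12 * G / u ^ (1 / 2 : ℝ) := by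
      field_simp
    rw [a3, le_div_iff₀ hq4]
    linarith
  -- the second term
  have h2 : (if (X : ℝ) < (G * Real.exp (v / 2)) ^ 2 * ((1 : ℕ) : ℝ) then 2 * (G * Real.exp (v / 2)) else 0) ≤
      u ^ (-(1 / 2) : ℝ) * (2 * Real.exp ((1 / 2 + 1 / ε) * v)) := by
    split_ifs with hc
    · have b1 : (G * Real.exp (v / 2)) ^ 2 * ((1 : ℕ) : ℝ) = u * Real.exp v / (2 * Real.pi) := by
        have b2 : Real.exp (v / 2) ^ 2 = Real.exp v := by
          rw [← Real.exp_nat_mul]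
          congr 1
          push_cast
          ring
        rw [mul_pow, hG2, b2]
        push_cast
        field_simp
      rw [b1] at hc
      have b2 : u ^ ε ≤ Real.exp v := by
        have b3 : u * u ^ ε ≤ u * Real.exp v / (2 * Real.pi) := by
          have : u * u ^ ε = u ^ (1 + ε) := by rw [Real.rpow_add hu0, Real.rpow_one]
          rw [this]
          linarith
        rw [le_div_iff₀ (by positivity)] at b3
        have b4 : u * (u ^ ε * (2 * Real.pi)) ≤ u * Real.exp v := by linarith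
        have b5 := le_of_mul_le_mul_left b4 hu0
        have b6 : u ^ ε * 1 ≤ u ^ ε * (2 * Real.pi) :=
          mul_le_mul_of_nonneg_left (by linarith) (Real.rpow_nonneg hu0.le _)
        linarith
      have b3 : u ≤ Real.exp (1 / ε * v) := by
        have b4 : (u ^ ε) ^ (1 / ε) ≤ (Real.exp v) ^ (1 / ε) :=
          Real.rpow_le_rpow (Real.rpow_nonneg hu0.le _) b2 (by positivity)
        rw [← Real.rpow_mul hu0.le, ← Real.exp_mul] at b4
        rw [show ε * (1 / ε) = 1 by field_simp, Real.rpow_one] at b4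
        rw [mul_comm (1 / ε) v]
        exact b4
      have b4 : G ≤ u ^ (1 / 2 : ℝ) := by
        refine (sq_le_sq₀ hG0.le (Real.rpow_nonneg hu0.le _)).1 ?_
        rw [hG2, sq, hq2, div_le_iff₀ (by positivity)]
        push_cast
        nlinarith
      have b5 : Real.exp ((1 / 2 + 1 / ε) * v) = Real.exp (v / 2) * Real.exp (1 / ε * v) := by
        rw [← Real.exp_add]
        congr 1
        ring
      have b6 : G ≤ u ^ (-(1 / 2) : ℝ) * Real.exp (1 / ε * v) := by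
        have b7 : G * u ^ (1 / 2 : ℝ) ≤ Real.exp (1 / ε * v) := by
          refine le_trans ?_ b3
          calc G * u ^ (1 / 2 : ℝ) ≤ u ^ (1 / 2 : ℝ) * u ^ (1 / 2 : ℝ) := by gcongr
            _ = u := hq2
        rw [hqm, inv_mul_eq_div, le_div_iff₀ hq4]
        exact b7
      rw [b5]
      have b8 : G * Real.exp (v / 2) ≤
          u ^ (-(1 / 2) : ℝ) * Real.exp (1 / ε * v) * Real.exp (v / 2) :=
        mul_le_mul_of_nonneg_right b6 hE.le
      linarith
    · have := Real.rpow_pos_of_pos hu0 (-(1 / 2) : ℝ)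
      positivity
  rw [mul_add]
  exact add_le_add h1 h2

/-- the diagonal coefficient -/
theorem cra1 : ∀ ε : ℝ, 0 < ε → ∃ C : ℝ, 0 < C ∧ ∀ (X : ℕ) (u : ℝ), 1 ≤ u → u ^ (1 + ε) ≤ (X : ℝ) →
    |cr X (1, 1) u - LL u| ≤ C * u ^ (-(1 / 2) : ℝ) := by
  intro ε hε
  have hB : Integrable fun v : ℝ => gs v * (12 * Real.exp (-(1 / 2) * v) +
      2 * Real.exp ((1 / 2 + 1 / ε) * v)) := by
    have h := ((gs_exp_int (-(1 / 2))).const_mul 12).add
      ((gs_exp_int (1 / 2 + 1 / ε)).const_mul 2)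
    refine h.congr (Filter.Eventually.of_forall fun v => ?_)
    show 12 * (gs v * Real.exp (-(1 / 2) * v)) + 2 * (gs v * Real.exp ((1 / 2 + 1 / ε) * v)) = _
    ring
  have hB0 : 0 ≤ ∫ v : ℝ, gs v * (12 * Real.exp (-(1 / 2) * v) +
      2 * Real.exp ((1 / 2 + 1 / ε) * v)) :=
    integral_nonneg fun v => mul_nonneg (gs_pos v).le (by positivity)
  have hc0 := c0_pos
  refine ⟨(2 * √Real.pi)⁻¹ * (∫ v : ℝ, gs v * (12 * Real.exp (-(1 / 2) * v) +
      2 * Real.exp ((1 / 2 + 1 / ε) * v))) + 1, by positivity, ?_⟩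
  intro X u hu hX
  have hpi := Real.pi_pos
  have hu0 : 0 < u := by linarith
  have e0 : ht (1, 1) = ((1 : ℕ) : ℝ) := by
    unfold Pool.Agent.Y969.GP.ht
    push_cast
    ring
  have hr := repr X (1, 1) u le_rfl le_rfl hu0
  rw [e0] at hr
  rw [show √(((1 : ℕ) : ℝ)) = 1 by simp, one_mul] at hr
  rw [show (((1, 1) : ℕ × ℕ).1 * ((1, 1) : ℕ × ℕ).2) = 1 from rfl] at hr
  set G := √(u / (2 * Real.pi * ((1 : ℕ) : ℝ))) with hG
  have hlogG : Real.log (u / (2 * Real.pi)) = 2 * Real.log G := by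
    rw [hG, Real.log_sqrt (by positivity)]
    push_cast
    rw [mul_one]
    ring
  have hpt := pt1 ε hε X u hu hX
  rw [← hG] at hpt
  unfold LL
  rw [hlogG, hr]
  have hFint : Integrable fun v : ℝ => gs v * FF X 1 (G * Real.exp (v / 2)) := by
    have hym : Measurable fun v : ℝ => G * Real.exp (v / 2) := by fun_prop
    have h := integrable_finsetSum ((Finset.Icc 1 X).filter (fun g => g * g * 1 ≤ X))
      (f := fun (g : ℕ) (v : ℝ) =>
        gs v * (if (g : ℝ) < G * Real.exp (v / 2) then 2 / (g : ℝ) else 0))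
      fun g _ => term_int _ hym g (2 / (g : ℝ))
    refine h.congr (Filter.Eventually.of_forall fun v => ?_)
    show ∑ g ∈ (Finset.Icc 1 X).filter (fun g => g * g * 1 ≤ X),
      gs v * (if (g : ℝ) < G * Real.exp (v / 2) then 2 / (g : ℝ) else 0) =
        gs v * FF X 1 (G * Real.exp (v / 2))
    unfold FF
    rw [Finset.mul_sum]
  have hmain : 2 * Real.log G + 2 * Real.eulerMascheroniConstant = (2 * √Real.pi)⁻¹ *
      ∫ v : ℝ, gs v * (2 * Real.log G + 2 * Real.eulerMascheroniConstant + v) := (lin_val _).symm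
  rw [hmain, ← mul_sub, ← integral_sub hFint (lin_int _), abs_mul, abs_of_pos (inv_pos.2 hc0)]
  have hle : |∫ v : ℝ, (gs v * FF X 1 (G * Real.exp (v / 2)) -
      gs v * (2 * Real.log G + 2 * Real.eulerMascheroniConstant + v))| ≤
      ∫ v : ℝ, u ^ (-(1 / 2) : ℝ) * (gs v * (12 * Real.exp (-(1 / 2) * v) +
        2 * Real.exp ((1 / 2 + 1 / ε) * v))) := by
    rw [← Real.norm_eq_abs]
    refine norm_integral_le_of_norm_le (hB.const_mul _)
      (Filter.Eventually.of_forall fun v => ?_)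
    rw [← mul_sub, Real.norm_eq_abs, abs_mul, abs_of_pos (gs_pos v)]
    have h3 := mul_le_mul_of_nonneg_left (hpt v) (gs_pos v).le
    refine h3.trans (le_of_eq ?_)
    ring
  rw [integral_const_mul] at hle
  have h4 := mul_le_mul_of_nonneg_left hle (inv_pos.2 hc0).le
  have h5 := Real.rpow_pos_of_pos hu0 (-(1 / 2) : ℝ)
  refine h4.trans ?_
  rw [add_mul, one_mul]
  have h6 : (2 * √Real.pi)⁻¹ * (u ^ (-(1 / 2) : ℝ) * ∫ v : ℝ, gs v *
      (12 * Real.exp (-(1 / 2) * v) + 2 * Real.exp ((1 / 2 + 1 / ε) * v))) =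
      (2 * √Real.pi)⁻¹ * (∫ v : ℝ, gs v * (12 * Real.exp (-(1 / 2) * v) +
        2 * Real.exp ((1 / 2 + 1 / ε) * v))) * u ^ (-(1 / 2) : ℝ) := by ring
  rw [h6]
  linarith

/-- the approximation of `|ζ|²` -/
lemma PO_err (ε : ℝ) (hε : 0 < ε) : ∃ C : ℝ, 0 < C ∧ ∀ (X : ℕ) (u : ℝ), 1 ≤ u →
    u ^ (1 + ε) ≤ (X : ℝ) → ‖(ff u : ℂ) - (LL u : ℂ) - PO X u‖ ≤ C * u ^ (-(1 / 2) + ε) := by
  obtain ⟨C1, hC1, h1⟩ := Pool.Agent.Y891.GP.t_AFE Pool.Agent.Y587.GP.t_V Pool.Agent.Y587.GP.Chi.t_CHI ε hε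
  obtain ⟨C3, hC3, h3⟩ := cra1 ε hε
  obtain ⟨hgr, -⟩ := Pool.Agent.Y545.GP.t_CR Pool.Agent.Y587.GP.t_V
  refine ⟨C1 + C3, by positivity, fun X u hu hX => ?_⟩
  have hu0 : 0 < u := by linarith
  have hX1 : (1 : ℝ) ≤ X := le_trans (Real.one_le_rpow hu (by linarith)) hX
  have hXn : 1 ≤ X := by exact_mod_cast hX1
  have s1 := h1 u X hu hX
  have s2 := h3 X u hu hX
  have e2 : PX X u = (cr X (1, 1) u : ℂ) + PO X u := by
    rw [hgr, FR_FO hXn]
    have : lam (1, 1) = 0 := by unfold lam; simp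
    rw [this]
    unfold PO ex
    simp
  have e3 : (ff u : ℂ) - (LL u : ℂ) - PO X u = ((ff u : ℂ) - PX X u) + ((cr X (1, 1) u - LL u : ℝ) : ℂ) := by
    rw [e2]
    push_cast
    ring
  rw [e3]
  refine (norm_add_le _ _).trans ?_
  rw [Complex.norm_real, Real.norm_eq_abs]
  have s3 : u ^ (-(1 / 2) : ℝ) ≤ u ^ (-(1 / 2) + ε) := Real.rpow_le_rpow_of_exponent_le hu (by linarith)
  calc ‖(ff u : ℂ) - PX X u‖ + |cr X (1, 1) u - LL u| ≤ C1 * u ^ (-(1 / 2) + ε) + C3 * u ^ (-(1 / 2) : ℝ) :=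
        add_le_add s1 s2
    _ ≤ C1 * u ^ (-(1 / 2) + ε) + C3 * u ^ (-(1 / 2) + ε) := by gcongr
    _ = _ := by ring

end Pool.Agent.H471.ZP
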