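import Pool.Agent.H471.ZP.Asy

set_option autoImplicit false

/-!
Integration of an asymptotic formula against a real power of the logarithm.
-/

namespace Pool.Agent.H471.ZP

open MeasureTheory Set Filter Topology

lemma loglog_zero : Tendsto (fun T : ℝ => Real.log (Real.log T) / Real.log T) atTop (𝓝 0) := by
  have h1 : Tendsto (fun x : ℝ => Real.log x / x) atTop (𝓝 0) := by
    have := Real.isLittleO_log_id_atTop
    exact this.tendsto_div_nhds_zero
  exact h1.comp Real.tendsto_log_atTop

/-- `S = T / (log T) ^ M` -/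
lemma sT_atTop (M : ℝ) : Tendsto (fun T : ℝ => T / Real.log T ^ M) atTop atTop := by
  have h1 : Tendsto (fun x : ℝ => Real.exp x / x ^ M) atTop atTop := tendsto_exp_div_rpow_atTop M
  have h2 := h1.comp Real.tendsto_log_atTop
  refine h2.congr' ?_
  filter_upwards [eventually_gt_atTop 0] with T hT
  simp only [Function.comp]
  rw [Real.exp_log hT]

lemma sT_ratio (M : ℝ) : Tendsto (fun T : ℝ => Real.log (T / Real.log T ^ M) / Real.log T) atTop (𝓝 1) := by
  have h3 : Tendsto (fun T : ℝ => 1 - M * (Real.log (Real.log T) / Real.log T)) atTop (𝓝 (1 - M * 0)) :=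
    tendsto_const_nhds.sub (loglog_zero.const_mul M)
  rw [mul_zero, sub_zero] at h3
  refine h3.congr' ?_
  filter_upwards [eventually_gt_atTop 1] with T hT
  have hl : 0 < Real.log T := Real.log_pos hT
  rw [Real.log_div (by linarith) (by positivity), Real.log_rpow hl]
  field_simp

/-- powers near one -/
lemma pow_near {x y α : ℝ} (hx : 0 < x) (hxy : x ≤ y) (hy : y ≤ 1) : |y ^ α - 1| ≤ |x ^ α - 1| := by
  have hy0 : 0 < y := hx.trans_le hxy
  rcases le_total 0 α with h | h
  · have h1 : x ^ α ≤ y ^ α := Real.rpow_le_rpow hx.le hxy h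
    have h2 : y ^ α ≤ 1 := Real.rpow_le_one hy0.le hy h
    rw [abs_of_nonpos (by linarith), abs_of_nonpos (by linarith)]
    linarith
  · have h1 : y ^ α ≤ x ^ α := Real.rpow_le_rpow_of_nonpos hx hxy h
    have h2 : 1 ≤ y ^ α := Real.one_le_rpow_of_pos_of_le_one_of_nonpos hy0 hy h
    rw [abs_of_nonneg (by linarith), abs_of_nonneg (by linarith)]
    linarith

/-- **integration against a function asymptotic to a power of the logarithm** -/
theorem asyR (f g : ℝ → ℝ) (α β T0 c R : ℝ) (hT0 : 2 ≤ T0) (hf : ∀ t, T0 ≤ t → 0 ≤ f t)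
    (hfi : ∀ T, T0 ≤ T → IntervalIntegrable f volume T0 T)
    (hfg : ∀ T, T0 ≤ T → IntervalIntegrable (fun t => f t * g t) volume T0 T)
    (hF : Tendsto (fun T => (∫ t in T0..T, f t) / (T * Real.log T ^ β)) atTop (𝓝 c))
    (hg : Tendsto (fun t => g t / Real.log t ^ α) atTop (𝓝 R)) :
    Tendsto (fun T => (∫ t in T0..T, f t * g t) / (T * Real.log T ^ (β + α))) atTop (𝓝 (c * R)) := by
  have hL := Real.tendsto_log_atTop
  obtain ⟨M, hM⟩ : ∃ M : ℝ, M = 2 * |α| + 1 := ⟨_, rfl⟩
  have hM0 : 0 ≤ M := by rw [hM]; positivity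
  have hS := sT_atTop M
  have hr := sT_ratio M
  obtain ⟨c', hc'⟩ : ∃ c' : ℝ, c' = |c| + 1 := ⟨_, rfl⟩
  have hc0 : 0 < c' := by rw [hc']; positivity
  have hcc : c < c' := by rw [hc']; linarith [le_abs_self c]
  have hden : ∀ b : ℝ, Tendsto (fun T : ℝ => T * Real.log T ^ b) atTop atTop := by
    intro b
    have h1 := sT_atTop (|b|)
    refine tendsto_atTop_mono' _ ?_ h1
    filter_upwards [hL.eventually_ge_atTop 1, eventually_ge_atTop 0] with T hl hT
    rw [div_eq_mul_inv, ← Real.rpow_neg (by linarith)]
    apply mul_le_mul_of_nonneg_left _ hT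
    exact Real.rpow_le_rpow_of_exponent_le hl (neg_abs_le b)
  -- the remainder
  have key : Tendsto (fun T => (∫ t in T0..T, f t * (g t - R * Real.log T ^ α)) / (T * Real.log T ^ (β + α)))
      atTop (𝓝 0) := by
    rw [Metric.tendsto_nhds]
    intro ε hε
    obtain ⟨δ, hδ⟩ : ∃ δ : ℝ, δ = min 1 (ε / (8 * c' * (|R| + 2))) := ⟨_, rfl⟩
    have hR0 := abs_nonneg R
    have hδ0 : 0 < δ := by rw [hδ]; positivity
    have hδ1 : δ ≤ 1 := by rw [hδ]; exact min_le_left _ _
    have hδε : c' * (|R| + 2) * δ ≤ ε / 8 := by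
      have h1 : δ ≤ ε / (8 * c' * (|R| + 2)) := by rw [hδ]; exact min_le_right _ _
      calc c' * (|R| + 2) * δ ≤ c' * (|R| + 2) * (ε / (8 * c' * (|R| + 2))) :=
            mul_le_mul_of_nonneg_left h1 (by positivity)
        _ = ε / 8 := by field_simp
    have g1 : ∀ᶠ t in atTop, |g t / Real.log t ^ α - R| < δ := by
      have := (Metric.tendsto_nhds.1 hg) δ hδ0
      simpa only [Real.dist_eq] using this
    obtain ⟨T1, hT1⟩ := eventually_atTop.1 (g1.and (eventually_ge_atTop (max T0 3)))
    have hT1' : max T0 3 ≤ T1 := (hT1 T1 le_rfl).2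
    have hT10 : T0 ≤ T1 := (le_max_left _ _).trans hT1'
    have hT13 : 3 ≤ T1 := (le_max_right _ _).trans hT1'
    obtain ⟨C1, hC1⟩ : ∃ C1 : ℝ, C1 = |∫ t in T0..T1, f t * g t| := ⟨_, rfl⟩
    obtain ⟨C2, hC2⟩ : ∃ C2 : ℝ, C2 = |R| * |∫ t in T0..T1, f t| := ⟨_, rfl⟩
    have hC10 : 0 ≤ C1 := by rw [hC1]; positivity
    have hC20 : 0 ≤ C2 := by rw [hC2]; positivity
    have hF1 : ∀ᶠ T in atTop, (∫ t in T0..T, f t) / (T * Real.log T ^ β) < c' := (tendsto_order.1 hF).2 _ hcc
    have hra : Tendsto (fun T : ℝ => (Real.log (T / Real.log T ^ M) / Real.log T) ^ α) atTop (𝓝 (1 ^ α)) :=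
      hr.rpow_const (Or.inl one_ne_zero)
    have hrb : Tendsto (fun T : ℝ => (Real.log (T / Real.log T ^ M) / Real.log T) ^ β) atTop (𝓝 (1 ^ β)) :=
      hr.rpow_const (Or.inl one_ne_zero)
    rw [Real.one_rpow] at hra hrb
    have hra1 : ∀ᶠ T : ℝ in atTop, |(Real.log (T / Real.log T ^ M) / Real.log T) ^ α - 1| < δ := by
      have := (Metric.tendsto_nhds.1 hra) δ hδ0
      simpa only [Real.dist_eq] using this
    have hrb1 : ∀ᶠ T : ℝ in atTop, (Real.log (T / Real.log T ^ M) / Real.log T) ^ β < 2 :=
      (tendsto_order.1 hrb).2 _ one_lt_two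
    filter_upwards [eventually_ge_atTop T1, hS.eventually_ge_atTop T1, hF1, hS.eventually hF1, hra1, hrb1,
      hL.eventually_ge_atTop 1, hL.eventually_ge_atTop (16 * c' * (2 * |R| + 1) / ε),
      (hden (β + α)).eventually_ge_atTop (8 * C1 / ε), (hden β).eventually_ge_atTop (8 * C2 / ε)]
      with T hT hTS hFT hFS hra2 hrb2 hlT hlT2 hd1 hd2
    obtain ⟨S, hSe⟩ : ∃ S : ℝ, S = T / Real.log T ^ M := ⟨_, rfl⟩
    rw [← hSe] at hTS hFS hra2 hrb2
    obtain ⟨L, hLe⟩ : ∃ L : ℝ, L = Real.log T := ⟨_, rfl⟩
    rw [← hLe] at hlT hlT2 hd1 hd2 hFT hra2 hrb2 hSe ⊢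
    have hT0' : T0 ≤ T := hT10.trans hT
    have hTS0 : T0 ≤ S := hT10.trans hTS
    have hTp : 0 < T := by linarith
    have hSp : 0 < S := by linarith
    have hlp : 0 < L := by linarith
    have hLa : 0 < L ^ α := by positivity
    have hLb : 0 < L ^ β := by positivity
    have hD : 0 < T * L ^ (β + α) := by positivity
    have hDab : L ^ (β + α) = L ^ β * L ^ α := Real.rpow_add hlp _ _
    have hST : S ≤ T := by
      rw [hSe]
      exact div_le_self hTp.le (Real.one_le_rpow hlT hM0)
    have hlS1 : 1 ≤ Real.log S := by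
      rw [Real.le_log_iff_exp_le hSp]
      have := Real.exp_one_lt_d9
      linarith
    have hlS : 0 < Real.log S := by linarith
    have hlSL : Real.log S ≤ L := by rw [hLe]; exact Real.log_le_log hSp hST
    -- the three pieces
    have hi : ∀ x, T0 ≤ x → IntervalIntegrable (fun t => f t * (g t - R * L ^ α)) volume T0 x := by
      intro x hx
      have := (hfg x hx).sub ((hfi x hx).mul_const (R * L ^ α))
      refine this.congr fun t _ => ?_
      ring
    have e1 : ∫ t in T0..T, f t * (g t - R * L ^ α) = (∫ t in T0..T1, f t * (g t - R * L ^ α)) +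
        ((∫ t in T1..S, f t * (g t - R * L ^ α)) + ∫ t in S..T, f t * (g t - R * L ^ α)) := by
      rw [intervalIntegral.integral_add_adjacent_intervals ((hi T1 hT10).symm.trans (hi S hTS0))
        ((hi S hTS0).symm.trans (hi T hT0')),
        intervalIntegral.integral_add_adjacent_intervals (hi T1 hT10) ((hi T1 hT10).symm.trans (hi T hT0'))]
    -- first piece
    have b1 : |∫ t in T0..T1, f t * (g t - R * L ^ α)| ≤ ε / 4 * (T * L ^ (β + α)) := by
      have e2 : ∫ t in T0..T1, f t * (g t - R * L ^ α) =
          (∫ t in T0..T1, f t * g t) - (∫ t in T0..T1, f t) * (R * L ^ α) := by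
        rw [← intervalIntegral.integral_mul_const, ← intervalIntegral.integral_sub (hfg T1 hT10)
          ((hfi T1 hT10).mul_const _)]
        congr 1
        funext t
        ring
      rw [e2]
      have h1 : |(∫ t in T0..T1, f t * g t) - (∫ t in T0..T1, f t) * (R * L ^ α)| ≤ C1 + C2 * L ^ α := by
        refine (abs_sub _ _).trans ?_
        rw [abs_mul, abs_mul, abs_of_pos hLa, hC1, hC2]
        apply le_of_eq
        ring
      have h2 : C1 ≤ ε / 8 * (T * L ^ (β + α)) := by
        rw [div_le_iff₀ hε] at hd1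
        linarith
      have h3 : C2 ≤ ε / 8 * (T * L ^ β) := by
        rw [div_le_iff₀ hε] at hd2
        linarith
      have h4 : C2 * L ^ α ≤ ε / 8 * (T * L ^ (β + α)) := by
        calc C2 * L ^ α ≤ ε / 8 * (T * L ^ β) * L ^ α := mul_le_mul_of_nonneg_right h3 hLa.le
          _ = ε / 8 * (T * L ^ (β + α)) := by rw [hDab]; ring
      linarith
    -- monotonicity of the integral of f
    have hmono : ∀ x y, T0 ≤ x → x ≤ y → ∫ t in x..y, f t ≤ ∫ t in T0..y, f t := by
      intro x y hx hxy
      have h1 := intervalIntegral.integral_add_adjacent_intervals (hfi x hx)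
        ((hfi x hx).symm.trans (hfi y (hx.trans hxy)))
      have h2 : 0 ≤ ∫ t in T0..x, f t := intervalIntegral.integral_nonneg hx fun t ht => hf t ht.1
      linarith
    -- second piece
    have b2 : |∫ t in T1..S, f t * (g t - R * L ^ α)| ≤ ε / 8 * (T * L ^ (β + α)) := by
      have h1 : ‖∫ t in T1..S, f t * (g t - R * L ^ α)‖ ≤ ∫ t in T1..S, ((2 * |R| + 1) * L ^ |α|) * f t := by
        apply intervalIntegral.norm_integral_le_of_norm_le hTS
        · apply Filter.Eventually.of_forall
          intro t ht
          have ht1 : T1 ≤ t := ht.1.le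
          have hlt1 : 1 ≤ Real.log t := by
            rw [Real.le_log_iff_exp_le (by linarith)]
            have := Real.exp_one_lt_d9
            linarith
          have hltL : Real.log t ≤ L := by
            rw [hLe]
            exact Real.log_le_log (by linarith) (ht.2.trans hST)
          have hlta : 0 < Real.log t ^ α := by positivity
          have h3 := (hT1 t ht1).1
          have h4 : Real.log t ^ α ≤ L ^ |α| :=
            (Real.rpow_le_rpow_of_exponent_le hlt1 (le_abs_self α)).trans
              (Real.rpow_le_rpow (by linarith) hltL (abs_nonneg α))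
          have h5 : L ^ α ≤ L ^ |α| := Real.rpow_le_rpow_of_exponent_le hlT (le_abs_self α)
          have h6 : |g t / Real.log t ^ α| ≤ |R| + 1 := by
            have := abs_sub_abs_le_abs_sub (g t / Real.log t ^ α) R
            linarith
          have h7 : |g t| ≤ (|R| + 1) * L ^ |α| := by
            have e3 : g t = g t / Real.log t ^ α * Real.log t ^ α := by field_simp
            rw [e3, abs_mul, abs_of_pos hlta]
            exact mul_le_mul h6 h4 hlta.le (by positivity)
          have h8 : |g t - R * L ^ α| ≤ (2 * |R| + 1) * L ^ |α| := by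
            refine (abs_sub _ _).trans ?_
            rw [abs_mul, abs_of_pos hLa]
            have h9 := mul_le_mul_of_nonneg_left h5 hR0
            linarith
          rw [norm_mul, Real.norm_eq_abs, Real.norm_eq_abs, abs_of_nonneg (hf t (hT10.trans ht1)), mul_comm]
          exact mul_le_mul_of_nonneg_right h8 (hf t (hT10.trans ht1))
        · exact ((hfi T1 hT10).symm.trans (hfi S hTS0)).const_mul _
      rw [Real.norm_eq_abs, intervalIntegral.integral_const_mul] at h1
      have h2 : ∫ t in T1..S, f t ≤ c' * (S * Real.log S ^ β) := by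
        refine (hmono T1 S hT10 hTS).trans ?_
        have h3 : 0 < S * Real.log S ^ β := by positivity
        rw [div_lt_iff₀ h3] at hFS
        exact hFS.le
      have h4 : Real.log S ^ β ≤ 2 * L ^ β := by
        have e4 : Real.log S ^ β = (Real.log S / L) ^ β * L ^ β := by
          rw [Real.div_rpow hlS.le hlp.le]
          field_simp
        rw [e4]
        exact mul_le_mul_of_nonneg_right hrb2.le hLb.le
      have h5 : S * Real.log S ^ β ≤ T / L ^ M * (2 * L ^ β) := by
        rw [← hSe]
        exact mul_le_mul_of_nonneg_left h4 hSp.le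
      have h6 : |∫ t in T1..S, f t * (g t - R * L ^ α)| ≤
          (2 * |R| + 1) * L ^ |α| * (c' * (T / L ^ M * (2 * L ^ β))) := by
        refine h1.trans ?_
        apply mul_le_mul_of_nonneg_left _ (by positivity)
        exact h2.trans (mul_le_mul_of_nonneg_left h5 hc0.le)
      have h7 : L ^ |α| / L ^ M * L ^ β ≤ L⁻¹ * L ^ (β + α) := by
        rw [← Real.rpow_sub hlp, ← Real.rpow_add hlp, ← Real.rpow_neg_one L, ← Real.rpow_add hlp]
        apply Real.rpow_le_rpow_of_exponent_le hlT
        rw [hM]
        have := neg_abs_le α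
        linarith
      have h8 : 2 * (2 * |R| + 1) * c' * L⁻¹ ≤ ε / 8 := by
        rw [div_le_iff₀ hε] at hlT2
        rw [← div_eq_mul_inv, div_le_iff₀ hlp]
        linarith
      calc |∫ t in T1..S, f t * (g t - R * L ^ α)|
          ≤ (2 * |R| + 1) * L ^ |α| * (c' * (T / L ^ M * (2 * L ^ β))) := h6
        _ = 2 * (2 * |R| + 1) * c' * T * (L ^ |α| / L ^ M * L ^ β) := by ring
        _ ≤ 2 * (2 * |R| + 1) * c' * T * (L⁻¹ * L ^ (β + α)) := by
            apply mul_le_mul_of_nonneg_left h7 (by positivity)
        _ = 2 * (2 * |R| + 1) * c' * L⁻¹ * (T * L ^ (β + α)) := by ring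
        _ ≤ ε / 8 * (T * L ^ (β + α)) := mul_le_mul_of_nonneg_right h8 hD.le
    -- third piece
    have b3 : |∫ t in S..T, f t * (g t - R * L ^ α)| ≤ ε / 8 * (T * L ^ (β + α)) := by
      have h1 : ‖∫ t in S..T, f t * (g t - R * L ^ α)‖ ≤ ∫ t in S..T, ((|R| + 2) * δ * L ^ α) * f t := by
        apply intervalIntegral.norm_integral_le_of_norm_le hST
        · apply Filter.Eventually.of_forall
          intro t ht
          have ht1 : T1 ≤ t := hTS.trans ht.1.le
          have hlt : Real.log S ≤ Real.log t := Real.log_le_log hSp ht.1.le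
          have hlt0 : 0 < Real.log t := by linarith
          have hltL : Real.log t ≤ L := by
            rw [hLe]
            exact Real.log_le_log (by linarith) ht.2
          have hlta : 0 < Real.log t ^ α := by positivity
          have h3 := (hT1 t ht1).1
          have h4 : |(Real.log t / L) ^ α - 1| ≤ δ :=
            (pow_near (x := Real.log S / L) (by positivity) (by gcongr)
              ((div_le_one hlp).2 hltL)).trans hra2.le
          have e3 : Real.log t ^ α = (Real.log t / L) ^ α * L ^ α := by
            rw [Real.div_rpow hlt0.le hlp.le]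
            field_simp
          have h5 : |Real.log t ^ α - L ^ α| ≤ δ * L ^ α := by
            have e4 : Real.log t ^ α - L ^ α = ((Real.log t / L) ^ α - 1) * L ^ α := by
              rw [sub_mul, one_mul, ← e3]
            rw [e4, abs_mul, abs_of_pos hLa]
            exact mul_le_mul_of_nonneg_right h4 hLa.le
          have h6 : Real.log t ^ α ≤ 2 * L ^ α := by
            have h7 := (abs_le.1 h5).2
            nlinarith
          have h8 : |g t - R * Real.log t ^ α| ≤ δ * (2 * L ^ α) := by
            have e5 : g t - R * Real.log t ^ α = (g t / Real.log t ^ α - R) * Real.log t ^ α := by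
              field_simp
            rw [e5, abs_mul, abs_of_pos hlta]
            exact mul_le_mul h3.le h6 hlta.le hδ0.le
          have h9 : |g t - R * L ^ α| ≤ (|R| + 2) * δ * L ^ α := by
            have e6 : g t - R * L ^ α = (g t - R * Real.log t ^ α) + R * (Real.log t ^ α - L ^ α) := by ring
            rw [e6]
            refine (abs_add_le _ _).trans ?_
            rw [abs_mul R]
            have h10 := mul_le_mul_of_nonneg_left h5 hR0
            linarith
          rw [norm_mul, Real.norm_eq_abs, Real.norm_eq_abs, abs_of_nonneg (hf t (hT10.trans ht1)), mul_comm]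
          exact mul_le_mul_of_nonneg_right h9 (hf t (hT10.trans ht1))
        · exact ((hfi S hTS0).symm.trans (hfi T hT0')).const_mul _
      rw [Real.norm_eq_abs, intervalIntegral.integral_const_mul] at h1
      have h2 : ∫ t in S..T, f t ≤ c' * (T * L ^ β) := by
        refine (hmono S T hTS0 hST).trans ?_
        have h3 : 0 < T * L ^ β := by positivity
        rw [div_lt_iff₀ h3] at hFT
        exact hFT.le
      calc |∫ t in S..T, f t * (g t - R * L ^ α)| ≤ (|R| + 2) * δ * L ^ α * ∫ t in S..T, f t := h1
        _ ≤ (|R| + 2) * δ * L ^ α * (c' * (T * L ^ β)) := mul_le_mul_of_nonneg_left h2 (by positivity)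
        _ = c' * (|R| + 2) * δ * (T * L ^ (β + α)) := by rw [hDab]; ring
        _ ≤ ε / 8 * (T * L ^ (β + α)) := mul_le_mul_of_nonneg_right hδε hD.le
    rw [Real.dist_eq, sub_zero, abs_div, abs_of_pos hD, div_lt_iff₀ hD, e1]
    have b4 := abs_add_le (∫ t in T0..T1, f t * (g t - R * L ^ α))
      ((∫ t in T1..S, f t * (g t - R * L ^ α)) + ∫ t in S..T, f t * (g t - R * L ^ α))
    have b5 := abs_add_le (∫ t in T1..S, f t * (g t - R * L ^ α)) (∫ t in S..T, f t * (g t - R * L ^ α))
    nlinarith
  have h1 := (hF.mul_const R).add key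
  rw [add_zero] at h1
  refine h1.congr' ?_
  filter_upwards [eventually_ge_atTop T0, hL.eventually_ge_atTop 1] with T hT hlT
  have hlp : 0 < Real.log T := by linarith
  have hTp : 0 < T := by linarith
  have e2 : ∫ t in T0..T, f t * (g t - R * Real.log T ^ α) =
      (∫ t in T0..T, f t * g t) - (∫ t in T0..T, f t) * (R * Real.log T ^ α) := by
    rw [← intervalIntegral.integral_mul_const, ← intervalIntegral.integral_sub (hfg T hT)
      ((hfi T hT).mul_const _)]
    congr 1
    funext t
    ring
  rw [e2, Real.rpow_add hlp]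
  have h3 : 0 < Real.log T ^ α := by positivity
  have h4 : 0 < Real.log T ^ β := by positivity
  generalize Real.log T ^ α = x at *
  generalize Real.log T ^ β = z at *
  generalize (∫ t in T0..T, f t) = I1
  generalize (∫ t in T0..T, f t * g t) = I2
  field_simp
  ring

end Pool.Agent.H471.ZP
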