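import Pool.Agent.H471.ZP.Fix

set_option autoImplicit false

/-!
Integration of an asymptotic formula against a slowly varying weight.
-/

namespace Pool.Agent.H471.ZP

open MeasureTheory Set Filter Topology

lemma tl_atTop : Tendsto (fun T : ℝ => T / Real.log T) atTop atTop := by
  have h1 : Tendsto (fun x : ℝ => Real.exp x / x ^ 1) atTop atTop := Real.tendsto_exp_div_pow_atTop 1
  have h2 := h1.comp Real.tendsto_log_atTop
  refine h2.congr' ?_
  filter_upwards [eventually_gt_atTop 0] with T hT
  simp only [Function.comp, pow_one]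
  rw [Real.exp_log hT]

lemma log_ratio : Tendsto (fun T : ℝ => Real.log (T / Real.log T) / Real.log T) atTop (𝓝 1) := by
  have h1 : Tendsto (fun x : ℝ => Real.log x / x) atTop (𝓝 0) := by
    have := Real.isLittleO_log_id_atTop
    exact this.tendsto_div_nhds_zero
  have h2 := h1.comp Real.tendsto_log_atTop
  have h3 : Tendsto (fun T : ℝ => 1 - Real.log (Real.log T) / Real.log T) atTop (𝓝 (1 - 0)) :=
    tendsto_const_nhds.sub h2
  rw [sub_zero] at h3
  refine h3.congr' ?_
  filter_upwards [eventually_gt_atTop 1] with T hT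
  have hl : 0 < Real.log T := Real.log_pos hT
  rw [Real.log_div (by linarith) hl.ne']
  field_simp

lemma alg (k : ℕ) (I1 I2 A B S T : ℝ) (hA : 0 < A) (hB : 0 < B) (hS : 0 < S) (h : S * B = T) :
    (A / B) ^ k * ((I1 + I2) / (T * B ^ 4) - I1 / (S * A ^ 4) * (B⁻¹ * (A / B) ^ 4)) =
      (I2 * A ^ k) / (T * B ^ (4 + k)) := by
  subst h
  rw [pow_add, div_pow, div_pow]
  have h1 : 0 < A ^ k := pow_pos hA k
  have h2 : 0 < B ^ k := pow_pos hB k
  generalize A ^ k = x at *
  generalize B ^ k = y at *
  field_simp
  ring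

/-- integration against `log ^ k` -/
theorem asy_log (f : ℝ → ℝ) (k : ℕ) (T0 : ℝ) (hT0 : 2 ≤ T0) (c : ℝ) (hf : ∀ t, 0 ≤ f t)
    (hfi : ∀ T, T0 ≤ T → IntervalIntegrable f volume T0 T)
    (hF : Tendsto (fun T => (∫ t in T0..T, f t) / (T * Real.log T ^ 4)) atTop (𝓝 c)) :
    Tendsto (fun T => (∫ t in T0..T, f t * Real.log t ^ k) / (T * Real.log T ^ (4 + k))) atTop (𝓝 c) := by
  have hS := tl_atTop
  have hL := Real.tendsto_log_atTop
  have hcont : ∀ T : ℝ, T0 ≤ T → ContinuousOn (fun t : ℝ => Real.log t ^ k) (uIcc T0 T) := by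
    intro T hT
    apply ContinuousOn.pow
    apply Real.continuousOn_log.mono
    intro t ht
    rw [uIcc_of_le hT] at ht
    simp only [mem_compl_iff, mem_singleton_iff]
    have := ht.1
    linarith
  have hfk : ∀ T : ℝ, T0 ≤ T → IntervalIntegrable (fun t => f t * Real.log t ^ k) volume T0 T := fun T hT =>
    (hfi T hT).mul_continuousOn (hcont T hT)
  -- the lower bound
  have hlow : Tendsto (fun T : ℝ => (Real.log (T / Real.log T) / Real.log T) ^ k *
      ((∫ t in T0..T, f t) / (T * Real.log T ^ 4) -
        (∫ t in T0..(T / Real.log T), f t) / (T / Real.log T * Real.log (T / Real.log T) ^ 4) *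
          ((Real.log T)⁻¹ * (Real.log (T / Real.log T) / Real.log T) ^ 4))) atTop
      (𝓝 (1 ^ k * (c - c * (0 * 1 ^ 4)))) := by
    apply Tendsto.mul (log_ratio.pow k)
    apply hF.sub
    apply Tendsto.mul (hF.comp hS)
    exact (tendsto_inv_atTop_zero.comp hL).mul (log_ratio.pow 4)
  have e0 : (1:ℝ) ^ k * (c - c * (0 * 1 ^ 4)) = c := by simp
  rw [e0] at hlow
  refine tendsto_of_tendsto_of_tendsto_of_le_of_le' hlow hF ?_ ?_
  · filter_upwards [eventually_ge_atTop T0, hS.eventually_ge_atTop T0, hL.eventually_ge_atTop 1,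
      hS.eventually_gt_atTop 1] with T hT hTS hlT hS1
    obtain ⟨S, hSe⟩ : ∃ S : ℝ, S = T / Real.log T := ⟨_, rfl⟩
    rw [← hSe] at hTS hS1 ⊢
    have hT2 : 0 < T := by linarith
    have hlp : 0 < Real.log T := by linarith
    have hST : S ≤ T := by
      rw [hSe]
      exact div_le_self hT2.le hlT
    have hlS : 0 < Real.log S := Real.log_pos hS1
    have hiS := hfi S hTS
    have hiT := hfi T hT
    have hST' : IntervalIntegrable f volume S T := hiS.symm.trans hiT
    have hSTk : IntervalIntegrable (fun t => f t * Real.log t ^ k) volume S T :=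
      (hfk S hTS).symm.trans (hfk T hT)
    have e1 : ∫ t in T0..T, f t * Real.log t ^ k =
        (∫ t in T0..S, f t * Real.log t ^ k) + ∫ t in S..T, f t * Real.log t ^ k :=
      (intervalIntegral.integral_add_adjacent_intervals (hfk S hTS) hSTk).symm
    have e2 : ∫ t in T0..T, f t = (∫ t in T0..S, f t) + ∫ t in S..T, f t :=
      (intervalIntegral.integral_add_adjacent_intervals hiS hST').symm
    have b1 : 0 ≤ ∫ t in T0..S, f t * Real.log t ^ k := by
      apply intervalIntegral.integral_nonneg hTS
      intro t ht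
      exact mul_nonneg (hf t) (pow_nonneg (Real.log_nonneg (by linarith [ht.1])) _)
    have b2 : (∫ t in S..T, f t) * Real.log S ^ k ≤ ∫ t in S..T, f t * Real.log t ^ k := by
      rw [← intervalIntegral.integral_mul_const]
      apply intervalIntegral.integral_mono_on hST (hST'.mul_const _) hSTk
      intro t ht
      apply mul_le_mul_of_nonneg_left _ (hf t)
      exact pow_le_pow_left₀ hlS.le (Real.log_le_log (by linarith) ht.1) _
    have e4 : S * Real.log T = T := by rw [hSe]; field_simp
    have e3 : (Real.log S / Real.log T) ^ k *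
        ((∫ t in T0..T, f t) / (T * Real.log T ^ 4) -
          (∫ t in T0..S, f t) / (S * Real.log S ^ 4) *
            ((Real.log T)⁻¹ * (Real.log S / Real.log T) ^ 4)) =
        ((∫ t in S..T, f t) * Real.log S ^ k) / (T * Real.log T ^ (4 + k)) := by
      rw [e2]
      exact alg k _ _ _ _ _ _ hlS hlp (by linarith) e4
    rw [e3]
    apply div_le_div_of_nonneg_right _ (by positivity)
    rw [e1]
    linarith
  · filter_upwards [eventually_ge_atTop T0, hL.eventually_ge_atTop 1] with T hT hlT
    have hT2 : 0 < T := by linarith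
    have hlp : 0 < Real.log T := by linarith
    have e5 : (∫ t in T0..T, f t) / (T * Real.log T ^ 4) =
        ((∫ t in T0..T, f t) * Real.log T ^ k) / (T * Real.log T ^ (4 + k)) := by
      rw [pow_add]
      field_simp
    rw [e5]
    apply div_le_div_of_nonneg_right _ (by positivity)
    rw [← intervalIntegral.integral_mul_const]
    apply intervalIntegral.integral_mono_on hT (hfk T hT) ((hfi T hT).mul_const _)
    intro t ht
    apply mul_le_mul_of_nonneg_left _ (hf t)
    exact pow_le_pow_left₀ (Real.log_nonneg (by linarith [ht.1])) (Real.log_le_log (by linarith [ht.1]) ht.2) _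

/-- integration against a function asymptotic to `R log ^ k` -/
theorem asy_int (f g : ℝ → ℝ) (k : ℕ) (T0 : ℝ) (hT0 : 2 ≤ T0) (c R : ℝ) (hf : ∀ t, 0 ≤ f t)
    (hfi : ∀ T, T0 ≤ T → IntervalIntegrable f volume T0 T)
    (hfg : ∀ T, T0 ≤ T → IntervalIntegrable (fun t => f t * g t) volume T0 T)
    (hF : Tendsto (fun T => (∫ t in T0..T, f t) / (T * Real.log T ^ 4)) atTop (𝓝 c))
    (hg : Tendsto (fun t => g t / Real.log t ^ k) atTop (𝓝 R)) :
    Tendsto (fun T => (∫ t in T0..T, f t * g t) / (T * Real.log T ^ (4 + k))) atTop (𝓝 (c * R)) := by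
  have hL := Real.tendsto_log_atTop
  have h1 := asy_log f k T0 hT0 c hf hfi hF
  have hcont : ∀ T : ℝ, T0 ≤ T → ContinuousOn (fun t : ℝ => Real.log t ^ k) (uIcc T0 T) := by
    intro T hT
    apply ContinuousOn.pow
    apply Real.continuousOn_log.mono
    intro t ht
    rw [uIcc_of_le hT] at ht
    simp only [mem_compl_iff, mem_singleton_iff]
    have := ht.1
    linarith
  have hfk : ∀ T : ℝ, T0 ≤ T → IntervalIntegrable (fun t => f t * Real.log t ^ k) volume T0 T := fun T hT =>
    (hfi T hT).mul_continuousOn (hcont T hT)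
  have hh : ∀ T : ℝ, T0 ≤ T → IntervalIntegrable (fun t => f t * g t - R * (f t * Real.log t ^ k)) volume T0 T :=
    fun T hT => (hfg T hT).sub ((hfk T hT).const_mul R)
  -- the remainder
  have h2 : Tendsto (fun T => (∫ t in T0..T, (f t * g t - R * (f t * Real.log t ^ k))) /
      (T * Real.log T ^ (4 + k))) atTop (𝓝 0) := by
    rw [Metric.tendsto_nhds]
    intro ε hε
    obtain ⟨c', hc'⟩ : ∃ c' : ℝ, c' = |c| + 1 := ⟨_, rfl⟩
    have hc0 : 0 < c' := by rw [hc']; positivity
    have g1 : ∀ᶠ t in atTop, |g t / Real.log t ^ k - R| < ε / (4 * c') := by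
      have := (Metric.tendsto_nhds.1 hg) (ε / (4 * c')) (by positivity)
      simpa only [Real.dist_eq] using this
    obtain ⟨T1, hT1⟩ := eventually_atTop.1 (g1.and (eventually_ge_atTop (max T0 3)))
    have hT1' : max T0 3 ≤ T1 := (hT1 T1 le_rfl).2
    have hT10 : T0 ≤ T1 := (le_max_left _ _).trans hT1'
    have hT13 : 3 ≤ T1 := (le_max_right _ _).trans hT1'
    obtain ⟨C1, hC1⟩ : ∃ C1 : ℝ, C1 = |∫ t in T0..T1, (f t * g t - R * (f t * Real.log t ^ k))| := ⟨_, rfl⟩
    have hden : Tendsto (fun T : ℝ => T * Real.log T ^ (4 + k)) atTop atTop := by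
      apply Tendsto.atTop_mul_atTop₀ tendsto_id
      exact (tendsto_pow_atTop (by omega)).comp hL
    have hF1 : ∀ᶠ T in atTop, (∫ t in T0..T, f t) / (T * Real.log T ^ 4) < c' := by
      apply (tendsto_order.1 hF).2
      rw [hc']
      have := le_abs_self c
      linarith
    filter_upwards [eventually_ge_atTop T1, hden.eventually_gt_atTop (4 * C1 / ε), hF1,
      hL.eventually_ge_atTop 1] with T hT hd hFT hlT
    have hT0' : T0 ≤ T := hT10.trans hT
    have hTp : 0 < T := by linarith
    have hlp : 0 < Real.log T := by linarith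
    have hD : 0 < T * Real.log T ^ (4 + k) := by positivity
    have e1 : ∫ t in T0..T, (f t * g t - R * (f t * Real.log t ^ k)) =
        (∫ t in T0..T1, (f t * g t - R * (f t * Real.log t ^ k))) +
          ∫ t in T1..T, (f t * g t - R * (f t * Real.log t ^ k)) :=
      (intervalIntegral.integral_add_adjacent_intervals (hh T1 hT10) ((hh T1 hT10).symm.trans (hh T hT0'))).symm
    have hfT1 : IntervalIntegrable f volume T1 T := (hfi T1 hT10).symm.trans (hfi T hT0')
    have b1 : |∫ t in T1..T, (f t * g t - R * (f t * Real.log t ^ k))| ≤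
        ε / (4 * c') * Real.log T ^ k * ∫ t in T1..T, f t := by
      have b2 : ‖∫ t in T1..T, (f t * g t - R * (f t * Real.log t ^ k))‖ ≤
          ∫ t in T1..T, (ε / (4 * c') * Real.log T ^ k) * f t := by
        apply intervalIntegral.norm_integral_le_of_norm_le hT
        · apply Filter.Eventually.of_forall
          intro t ht
          have ht1 : T1 ≤ t := ht.1.le
          have hlt : 0 < Real.log t := Real.log_pos (by linarith)
          have h3 := (hT1 t ht1).1
          have e2 : f t * g t - R * (f t * Real.log t ^ k) =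
              (g t / Real.log t ^ k - R) * (f t * Real.log t ^ k) := by
            field_simp
          rw [e2, norm_mul, Real.norm_eq_abs, Real.norm_eq_abs,
            abs_of_nonneg (mul_nonneg (hf t) (pow_nonneg hlt.le _))]
          have h4 : Real.log t ^ k ≤ Real.log T ^ k :=
            pow_le_pow_left₀ hlt.le (Real.log_le_log (by linarith) ht.2) _
          calc |g t / Real.log t ^ k - R| * (f t * Real.log t ^ k)
              ≤ ε / (4 * c') * (f t * Real.log T ^ k) := by
                apply mul_le_mul h3.le (mul_le_mul_of_nonneg_left h4 (hf t))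
                  (mul_nonneg (hf t) (pow_nonneg hlt.le _)) (by positivity)
            _ = (ε / (4 * c') * Real.log T ^ k) * f t := by ring
        · exact hfT1.const_mul _
      rw [Real.norm_eq_abs, intervalIntegral.integral_const_mul] at b2
      exact b2
    have b3 : ∫ t in T1..T, f t ≤ ∫ t in T0..T, f t := by
      apply intervalIntegral.integral_mono_interval hT10 hT le_rfl
      · exact Filter.Eventually.of_forall fun t => hf t
      · exact hfi T hT0'
    have b4 : ∫ t in T0..T, f t ≤ c' * (T * Real.log T ^ 4) := by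
      rw [div_lt_iff₀ (by positivity)] at hFT
      exact hFT.le
    have b5 : |∫ t in T1..T, (f t * g t - R * (f t * Real.log t ^ k))| ≤ ε / 4 * (T * Real.log T ^ (4 + k)) := by
      refine b1.trans ?_
      calc ε / (4 * c') * Real.log T ^ k * ∫ t in T1..T, f t
          ≤ ε / (4 * c') * Real.log T ^ k * (c' * (T * Real.log T ^ 4)) :=
            mul_le_mul_of_nonneg_left (b3.trans b4) (by positivity)
        _ = ε / 4 * (T * Real.log T ^ (4 + k)) := by
            rw [pow_add]
            field_simp
    have b6 : C1 < ε / 4 * (T * Real.log T ^ (4 + k)) := by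
      rw [div_lt_iff₀ hε] at hd
      linarith
    rw [Real.dist_eq, sub_zero, abs_div, abs_of_pos hD, div_lt_iff₀ hD, e1]
    have b7 := abs_add_le (∫ t in T0..T1, (f t * g t - R * (f t * Real.log t ^ k)))
      (∫ t in T1..T, (f t * g t - R * (f t * Real.log t ^ k)))
    rw [← hC1] at b7
    nlinarith
  have h3 := (h1.const_mul R).add h2
  rw [add_zero] at h3
  rw [mul_comm c R]
  refine h3.congr' ?_
  filter_upwards [eventually_ge_atTop T0] with T hT
  rw [intervalIntegral.integral_sub (hfg T hT) ((hfk T hT).const_mul R), intervalIntegral.integral_const_mul]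
  ring

end Pool.Agent.H471.ZP
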