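import Pool.Agent.H471.QP.Box

set_option autoImplicit false

/-!
Second moments of weighted sums of products of functions of independent variables.
-/

namespace Pool.Agent.H471.ZP

open MeasureTheory Set
open Pool.Agent.H471.QP (bx bx_cpt inv_diff_sum)

lemma smw {Θ : Type} [MeasurableSpace Θ] (μ : Measure Θ) [SigmaFinite μ] {k : ℕ} (I : Finset ℕ) (w : ℕ → ℂ)
    (g : ℕ → Fin k → Θ → ℂ)
    (hg : ∀ n ∈ I, ∀ m ∈ I, ∀ j, Integrable (fun θ => g n j θ * (starRingEnd ℂ) (g m j θ)) μ) :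
    Integrable (fun θ : Fin k → Θ => ‖∑ n ∈ I, w n * ∏ j, g n j (θ j)‖ ^ 2) (Measure.pi fun _ => μ) ∧
    ∫ θ : Fin k → Θ, ‖∑ n ∈ I, w n * ∏ j, g n j (θ j)‖ ^ 2 ∂(Measure.pi fun _ => μ) ≤
      ∑ n ∈ I, ∑ m ∈ I, ‖w n‖ * ‖w m‖ * ∏ j, ‖∫ θ, g n j θ * (starRingEnd ℂ) (g m j θ) ∂μ‖ := by
  have e1 : ∀ θ : Fin k → Θ, ((‖∑ n ∈ I, w n * ∏ j, g n j (θ j)‖ ^ 2 : ℝ) : ℂ) =
      ∑ n ∈ I, ∑ m ∈ I, (w n * (starRingEnd ℂ) (w m)) * ∏ j, (g n j (θ j) * (starRingEnd ℂ) (g m j (θ j))) := by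
    intro θ
    have h := Complex.mul_conj (∑ n ∈ I, w n * ∏ j, g n j (θ j))
    rw [Complex.normSq_eq_norm_sq] at h
    rw [← h, map_sum, Finset.sum_mul_sum]
    refine Finset.sum_congr rfl fun n _ => Finset.sum_congr rfl fun m _ => ?_
    rw [map_mul, map_prod, Finset.prod_mul_distrib]
    ring
  have h2 : ∀ n ∈ I, ∀ m ∈ I, Integrable (fun θ : Fin k → Θ => (w n * (starRingEnd ℂ) (w m)) *
      ∏ j, (g n j (θ j) * (starRingEnd ℂ) (g m j (θ j)))) (Measure.pi fun _ => μ) := by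
    intro n hn m hm
    exact (Integrable.fintype_prod (f := fun j θ => g n j θ * (starRingEnd ℂ) (g m j θ)) (hg n hn m hm)).const_mul _
  have h3 : Integrable (fun θ : Fin k → Θ => ((‖∑ n ∈ I, w n * ∏ j, g n j (θ j)‖ ^ 2 : ℝ) : ℂ))
      (Measure.pi fun _ => μ) := by
    simp_rw [e1]
    exact integrable_finsetSum _ fun n hn => integrable_finsetSum _ fun m hm => h2 n hn m hm
  have h4 : Integrable (fun θ : Fin k → Θ => ‖∑ n ∈ I, w n * ∏ j, g n j (θ j)‖ ^ 2) (Measure.pi fun _ => μ) := by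
    have := h3.re
    refine this.congr (Filter.Eventually.of_forall fun θ => ?_)
    exact Complex.ofReal_re _
  refine ⟨h4, ?_⟩
  have h5 : ((∫ θ : Fin k → Θ, ‖∑ n ∈ I, w n * ∏ j, g n j (θ j)‖ ^ 2 ∂(Measure.pi fun _ => μ) : ℝ) : ℂ) =
      ∑ n ∈ I, ∑ m ∈ I, (w n * (starRingEnd ℂ) (w m)) * ∏ j, ∫ θ, g n j θ * (starRingEnd ℂ) (g m j θ) ∂μ := by
    rw [← integral_complex_ofReal]
    simp_rw [e1]
    rw [integral_finsetSum _ fun n hn => integrable_finsetSum _ fun m hm => h2 n hn m hm]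
    refine Finset.sum_congr rfl fun n hn => ?_
    rw [integral_finsetSum _ fun m hm => h2 n hn m hm]
    refine Finset.sum_congr rfl fun m hm => ?_
    rw [integral_const_mul, integral_fintype_prod_eq_prod (fun j θ => g n j θ * (starRingEnd ℂ) (g m j θ))]
  have h6 : 0 ≤ ∫ θ : Fin k → Θ, ‖∑ n ∈ I, w n * ∏ j, g n j (θ j)‖ ^ 2 ∂(Measure.pi fun _ => μ) :=
    integral_nonneg fun _ => by positivity
  have h7 : ∫ θ : Fin k → Θ, ‖∑ n ∈ I, w n * ∏ j, g n j (θ j)‖ ^ 2 ∂(Measure.pi fun _ => μ) =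
      ‖∑ n ∈ I, ∑ m ∈ I, (w n * (starRingEnd ℂ) (w m)) * ∏ j, ∫ θ, g n j θ * (starRingEnd ℂ) (g m j θ) ∂μ‖ := by
    rw [← h5, Complex.norm_real, Real.norm_of_nonneg h6]
  rw [h7]
  refine (norm_sum_le _ _).trans (Finset.sum_le_sum fun n _ => (norm_sum_le _ _).trans
    (Finset.sum_le_sum fun m _ => ?_))
  rw [norm_mul, norm_mul, norm_prod, RCLike.norm_conj]

/-- the majorant of the correlations -/
noncomputable def kp (n m : ℕ) : ℝ := if n = m then 1 else 2 / |(n : ℝ) - m|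

lemma kp_nn (n m : ℕ) : 0 ≤ kp n m := by
  unfold kp
  split_ifs <;> positivity

lemma kp_comm (n m : ℕ) : kp n m = kp m n := by
  unfold kp
  rw [abs_sub_comm]
  by_cases h : n = m
  · rw [if_pos h, if_pos h.symm]
  · rw [if_neg h, if_neg (Ne.symm h)]

/-- Schur's test -/
lemma schur (M H : ℕ) (a : ℕ → ℝ) :
    ∑ n ∈ Finset.Ico M (M + H), ∑ m ∈ Finset.Ico M (M + H), a n * a m * kp n m ≤
      (5 + 4 * Real.log (H + 1)) * ∑ n ∈ Finset.Ico M (M + H), a n ^ 2 := by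
  have h1 : ∑ n ∈ Finset.Ico M (M + H), ∑ m ∈ Finset.Ico M (M + H), a n * a m * kp n m ≤
      ∑ n ∈ Finset.Ico M (M + H), ∑ m ∈ Finset.Ico M (M + H), (a n ^ 2 * kp n m / 2 + a m ^ 2 * kp n m / 2) := by
    refine Finset.sum_le_sum fun n _ => Finset.sum_le_sum fun m _ => ?_
    have := kp_nn n m
    nlinarith [sq_nonneg (a n - a m), mul_nonneg this (sq_nonneg (a n - a m))]
  refine h1.trans ?_
  simp_rw [Finset.sum_add_distrib]
  have h2 : ∀ n ∈ Finset.Ico M (M + H), ∑ m ∈ Finset.Ico M (M + H), kp n m ≤ 5 + 4 * Real.log (H + 1) := by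
    intro n hn
    unfold kp
    exact inv_diff_sum M H n hn
  have h3 : ∑ n ∈ Finset.Ico M (M + H), ∑ m ∈ Finset.Ico M (M + H), a n ^ 2 * kp n m / 2 ≤
      (5 + 4 * Real.log (H + 1)) * (∑ n ∈ Finset.Ico M (M + H), a n ^ 2) / 2 := by
    calc _ = ∑ n ∈ Finset.Ico M (M + H), a n ^ 2 / 2 * ∑ m ∈ Finset.Ico M (M + H), kp n m := by
          refine Finset.sum_congr rfl fun n _ => ?_
          rw [Finset.mul_sum]
          refine Finset.sum_congr rfl fun m _ => ?_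
          ring
      _ ≤ ∑ n ∈ Finset.Ico M (M + H), a n ^ 2 / 2 * (5 + 4 * Real.log (H + 1)) :=
          Finset.sum_le_sum fun n hn => mul_le_mul_of_nonneg_left (h2 n hn) (by positivity)
      _ = _ := by
          rw [← Finset.sum_mul, ← Finset.sum_div]
          ring
  have h4 : ∑ n ∈ Finset.Ico M (M + H), ∑ m ∈ Finset.Ico M (M + H), a m ^ 2 * kp n m / 2 =
      ∑ n ∈ Finset.Ico M (M + H), ∑ m ∈ Finset.Ico M (M + H), a n ^ 2 * kp n m / 2 := by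
    rw [Finset.sum_comm]
    refine Finset.sum_congr rfl fun n _ => Finset.sum_congr rfl fun m _ => ?_
    rw [kp_comm]
  rw [h4]
  linarith

lemma blkw {k : ℕ} {α β γ : ℝ} (g : ℕ → Fin k → ℝ × ℝ → ℂ) (w : ℕ → ℂ) (M H : ℕ)
    (hc : ∀ n ∈ Finset.Ico M (M + H), ∀ j, ContinuousOn (g n j) (bx α β γ)) (i : Fin k) (Z : Fin k → ℝ)
    (hZ : ∀ j, 0 ≤ Z j) (U : ℝ) (hU : 0 ≤ U)
    (h1 : ∀ n ∈ Finset.Ico M (M + H), ∀ m ∈ Finset.Ico M (M + H), ∀ j, j ≠ i →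
      ‖∫ θ in bx α β γ, g n j θ * (starRingEnd ℂ) (g m j θ)‖ ≤ Z j)
    (h2 : ∀ n ∈ Finset.Ico M (M + H), ∀ m ∈ Finset.Ico M (M + H),
      ‖∫ θ in bx α β γ, g n i θ * (starRingEnd ℂ) (g m i θ)‖ ≤ Z i * U * kp n m) :
    Integrable (fun θ : Fin k → ℝ × ℝ => ‖∑ n ∈ Finset.Ico M (M + H), w n * ∏ j, g n j (θ j)‖ ^ 2)
      (Measure.pi fun _ => volume.restrict (bx α β γ)) ∧
    ∫ θ : Fin k → ℝ × ℝ, ‖∑ n ∈ Finset.Ico M (M + H), w n * ∏ j, g n j (θ j)‖ ^ 2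
      ∂(Measure.pi fun _ => volume.restrict (bx α β γ)) ≤
      (∏ j, Z j) * U * ((5 + 4 * Real.log (H + 1)) * ∑ n ∈ Finset.Ico M (M + H), ‖w n‖ ^ 2) := by
  obtain ⟨s1, s2⟩ := smw (volume.restrict (bx α β γ)) (Finset.Ico M (M + H)) w g (by
    intro n hn m hm j
    exact ((hc n hn j).mul (RCLike.continuous_conj.comp_continuousOn (hc m hm j))).integrableOn_compact
      (bx_cpt α β γ))
  refine ⟨s1, s2.trans ?_⟩
  have h3 : ∀ n ∈ Finset.Ico M (M + H), ∀ m ∈ Finset.Ico M (M + H),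
      ‖w n‖ * ‖w m‖ * ∏ j, ‖∫ θ in bx α β γ, g n j θ * (starRingEnd ℂ) (g m j θ)‖ ≤
        (∏ j, Z j) * U * (‖w n‖ * ‖w m‖ * kp n m) := by
    intro n hn m hm
    have h4 : ∏ j, ‖∫ θ in bx α β γ, g n j θ * (starRingEnd ℂ) (g m j θ)‖ ≤ (∏ j, Z j) * U * kp n m := by
      rw [← Finset.mul_prod_erase _ _ (Finset.mem_univ i), ← Finset.mul_prod_erase _ Z (Finset.mem_univ i)]
      have h5 : ∏ j ∈ Finset.univ.erase i, ‖∫ θ in bx α β γ, g n j θ * (starRingEnd ℂ) (g m j θ)‖ ≤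
          ∏ j ∈ Finset.univ.erase i, Z j := Finset.prod_le_prod (fun _ _ => norm_nonneg _) (by
            intro j hj
            exact h1 n hn m hm j (Finset.ne_of_mem_erase hj))
      calc _ ≤ (Z i * U * kp n m) * ∏ j ∈ Finset.univ.erase i, Z j := mul_le_mul (h2 n hn m hm) h5
            (Finset.prod_nonneg fun _ _ => norm_nonneg _)
            (mul_nonneg (mul_nonneg (hZ i) hU) (kp_nn n m))
        _ = _ := by ring
    calc _ ≤ ‖w n‖ * ‖w m‖ * ((∏ j, Z j) * U * kp n m) :=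
          mul_le_mul_of_nonneg_left h4 (by positivity)
      _ = _ := by ring
  calc _ ≤ ∑ n ∈ Finset.Ico M (M + H), ∑ m ∈ Finset.Ico M (M + H), (∏ j, Z j) * U * (‖w n‖ * ‖w m‖ * kp n m) :=
        Finset.sum_le_sum fun n hn => Finset.sum_le_sum fun m hm => h3 n hn m hm
    _ = (∏ j, Z j) * U * ∑ n ∈ Finset.Ico M (M + H), ∑ m ∈ Finset.Ico M (M + H), ‖w n‖ * ‖w m‖ * kp n m := by
        simp_rw [Finset.mul_sum]
    _ ≤ _ := by
        have := schur M H (fun n => ‖w n‖)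
        have h0 : 0 ≤ (∏ j, Z j) * U := mul_nonneg (Finset.prod_nonneg fun j _ => hZ j) hU
        exact mul_le_mul_of_nonneg_left this h0

end Pool.Agent.H471.ZP
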