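import Pool.Agent.H471.ZP.Fac
import Pool.Agent.H471.ZP.Smw

set_option autoImplicit false

/-!
Mean squares over blocks.
-/

namespace Pool.Agent.H471.ZP

open Complex MeasureTheory Set
open Pool.Agent.Y969.GP (ht lam FR PS cr PX ff)
open Pool.Agent.H471.GS (mem_FR' ht_pos ff_cont)
open Pool.Agent.H471.QP (LL PO FO rt bx rt_cont one_log bx_cpt gi tri tel2 cs_int)

/-- the difference of the products at the time `t` -/
noncomputable def GG {k : ℕ} (α β : ℝ) (P Q y : Fin k → ℝ → ℝ) (t : ℝ) (θ : Fin k → ℝ × ℝ) : ℂ :=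
  ∏ j, gF α β (y j t) (Q j t) (P j t) (θ j) - ∏ j, gL α β (y j t) (Q j t) (P j t) (θ j)

lemma gF_meas {α β y A' A : ℝ} : Measurable (gF α β y A' A) := by
  unfold gF
  exact ((Complex.continuous_ofReal.comp (rt_cont α β)).mul
    (Complex.continuous_ofReal.comp (ff_cont.comp (hu_cont y A' A)))).measurable

lemma LL_meas : Measurable LL := by
  unfold LL
  exact (Real.measurable_log.comp (measurable_id.div_const _)).add_const _

lemma gL_meas {α β y A' A : ℝ} : Measurable (gL α β y A' A) := by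
  unfold gL
  apply Measurable.mul
  · exact (Complex.continuous_ofReal.comp (rt_cont α β)).measurable
  · apply Complex.measurable_ofReal.comp
    exact LL_meas.comp (hu_cont y A' A).measurable

lemma GG_meas {k : ℕ} (α β : ℝ) (P Q y : Fin k → ℝ → ℝ) (t : ℝ) : Measurable (GG α β P Q y t) := by
  unfold GG
  apply Measurable.sub
  · exact Finset.measurable_fun_prod _ fun j _ => gF_meas.comp (measurable_pi_apply j)
  · exact Finset.measurable_fun_prod _ fun j _ => gL_meas.comp (measurable_pi_apply j)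

theorem block {k : ℕ} (α β γ : ℝ) (hα : 0 < α) (hαβ : α ≤ β) (hγ : 0 ≤ γ) (P Q y : Fin k → ℝ → ℝ)
    (D d : Fin k → ℝ) (e t0 : ℝ) (HF : ∀ j, FD (P j) (Q j) (y j) (D j) (d j) e t0) (he1 : e ≤ 1)
    (heD : ∀ j, e ≤ D j) (ε : ℝ) (hε : 0 < ε) :
    ∃ (C : ℝ) (n0 : ℕ), 0 < C ∧ 1 ≤ n0 ∧ ∀ (τ : ℝ) (w : ℕ → ℂ) (M H : ℕ), 0 ≤ τ → τ ≤ 1 → n0 ≤ M → H ≤ M →
      Integrable (fun θ : Fin k → ℝ × ℝ => ‖∑ n ∈ Finset.Ico M (M + H), w n * GG α β P Q y (n + τ) θ‖ ^ 2)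
        (Measure.pi fun _ => volume.restrict (bx α β γ)) ∧
      ∫ θ : Fin k → ℝ × ℝ, ‖∑ n ∈ Finset.Ico M (M + H), w n * GG α β P Q y (n + τ) θ‖ ^ 2
        ∂(Measure.pi fun _ => volume.restrict (bx α β γ)) ≤
        C * (M : ℝ) ^ (∑ j, (D j - d j) + 1 - e + ε) * ∑ n ∈ Finset.Ico M (M + H), ‖w n‖ ^ 2 := by
  have hk0 : (0 : ℝ) ≤ k := Nat.cast_nonneg k
  obtain ⟨δ, hδ⟩ : ∃ δ : ℝ, δ = ε / (2 * (k + 1)) := ⟨_, rfl⟩
  have hδ0 : 0 < δ := by rw [hδ]; positivity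
  have hδk : k * δ ≤ ε / 2 := by
    rw [hδ, ← mul_div_assoc, div_le_div_iff₀ (by positivity) (by norm_num)]
    nlinarith
  choose C x0 X hC hx0 hA hK using fun j => fac α β γ hα hαβ hγ (P j) (Q j) (y j) (D j) (d j) e t0 (HF j) δ hδ0
  obtain ⟨A, hAdef⟩ : ∃ A : ℝ, A = 1 + ∑ j, C j := ⟨_, rfl⟩
  have hAC : ∀ j, C j ≤ A := by
    intro j
    have := Finset.single_le_sum (f := C) (fun j _ => (hC j).le) (Finset.mem_univ j)
    rw [hAdef]
    linarith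
  have hA1 : 1 ≤ A := by
    have : 0 ≤ ∑ j, C j := Finset.sum_nonneg fun j _ => (hC j).le
    rw [hAdef]
    linarith
  have hA0 : 0 < A := by linarith
  obtain ⟨ρ, hρ⟩ : ∃ ρ : ℝ, ρ = ∑ j, (D j - d j) := ⟨_, rfl⟩
  have hDd : ∀ j, 0 ≤ D j - d j := fun j => by linarith [(HF j).dD]
  have hρ0 : 0 ≤ ρ := by rw [hρ]; exact Finset.sum_nonneg fun j _ => hDd j
  obtain ⟨n0, hn0⟩ : ∃ n0 : ℕ, n0 = ⌈∑ j, |x0 j|⌉₊ + 1 := ⟨_, rfl⟩
  have hxn0 : ∀ x : ℝ, (n0 : ℝ) ≤ x → ∀ j, x0 j ≤ x := by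
    intro x hx j
    have h1 := Finset.single_le_sum (f := fun j => |x0 j|) (fun j _ => abs_nonneg _) (Finset.mem_univ j)
    have h2 : ∑ j, |x0 j| ≤ (⌈∑ j, |x0 j|⌉₊ : ℝ) := Nat.le_ceil _
    have h3 := le_abs_self (x0 j)
    rw [hn0] at hx
    push_cast at hx
    linarith
  obtain ⟨E0, hE0⟩ : ∃ E0 : ℝ, E0 = 2 ^ (ρ + 1 - e + k * δ) := ⟨_, rfl⟩
  have hE00 : 0 < E0 := by rw [hE0]; positivity
  refine ⟨2 * k * (k * (2 * (A ^ k * E0 * (5 * ((1 + 1 / (ε / 2)) * 2 ^ (ε / 2)))))) + 1, n0, by positivity,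
    by omega, fun τ w M H hτ0 hτ1 hM hH => ?_⟩
  have hM1 : (1 : ℝ) ≤ M := by
    have : 1 ≤ M := by omega
    exact_mod_cast this
  have hM0 : (0 : ℝ) < M := by linarith
  -- notation
  obtain ⟨F, hF⟩ : ∃ F : ℕ → Fin k → ℝ × ℝ → ℂ, F = fun (n : ℕ) j => gF α β (y j ((n : ℝ) + τ)) (Q j ((n : ℝ) + τ)) (P j ((n : ℝ) + τ)) :=
    ⟨_, rfl⟩
  obtain ⟨L, hL⟩ : ∃ L : ℕ → Fin k → ℝ × ℝ → ℂ, L = fun (n : ℕ) j => gL α β (y j ((n : ℝ) + τ)) (Q j ((n : ℝ) + τ)) (P j ((n : ℝ) + τ)) :=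
    ⟨_, rfl⟩
  obtain ⟨R, hR⟩ : ∃ R : ℕ → Fin k → ℝ × ℝ → ℂ, R = fun (n : ℕ) j =>
    gP α β (X j ((n : ℝ) + τ)) (y j ((n : ℝ) + τ)) (Q j ((n : ℝ) + τ)) (P j ((n : ℝ) + τ)) := ⟨_, rfl⟩
  obtain ⟨E, hE⟩ : ∃ E : ℕ → Fin k → ℝ × ℝ → ℂ, E = fun (n : ℕ) j =>
    gE α β (X j ((n : ℝ) + τ)) (y j ((n : ℝ) + τ)) (Q j ((n : ℝ) + τ)) (P j ((n : ℝ) + τ)) := ⟨_, rfl⟩
  -- the times
  have ht : ∀ n ∈ Finset.Ico M (M + H), (M : ℝ) ≤ n + τ ∧ (n : ℝ) + τ ≤ 2 * M := by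
    intro n hn
    rw [Finset.mem_Ico] at hn
    have h1 : (M : ℝ) ≤ n := by exact_mod_cast hn.1
    have h2 : n + 1 ≤ 2 * M := by omega
    have h3 : ((n + 1 : ℕ) : ℝ) ≤ ((2 * M : ℕ) : ℝ) := by exact_mod_cast h2
    push_cast at h3
    constructor <;> linarith
  have htn : ∀ n ∈ Finset.Ico M (M + H), (n0 : ℝ) ≤ n + τ := by
    intro n hn
    have h1 := (ht n hn).1
    have h2 : (n0 : ℝ) ≤ M := by exact_mod_cast hM
    linarith
  have ht0 : ∀ n ∈ Finset.Ico M (M + H), ∀ j, t0 ≤ (n : ℝ) + τ := fun n hn j =>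
    (hx0 j).trans (hxn0 _ (htn n hn) j)
  have hpos : ∀ n ∈ Finset.Ico M (M + H), ∀ j, 0 < P j (n + τ) ∧ 0 ≤ Q j (n + τ) ∧ 0 ≤ y j (n + τ) := by
    intro n hn j
    have h1 := ht0 n hn j
    have h2 := (HF j).one _ h1
    have h3 := (HF j).QP _ h1
    have h4 := (HF j).y0 _ h1
    exact ⟨by linarith, by linarith, h4⟩
  have cF : ∀ n ∈ Finset.Ico M (M + H), ∀ j, ContinuousOn (F n j) (bx α β γ) := fun n _ j => by
    rw [hF]; exact gF_cont
  have cL : ∀ n ∈ Finset.Ico M (M + H), ∀ j, ContinuousOn (L n j) (bx α β γ) := fun n hn j => by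
    rw [hL]
    obtain ⟨p1, p2, p3⟩ := hpos n hn j
    exact gL_cont hα p1 p2 p3
  have cR : ∀ n ∈ Finset.Ico M (M + H), ∀ j, ContinuousOn (R n j) (bx α β γ) := fun n hn j => by
    rw [hR]
    obtain ⟨p1, p2, p3⟩ := hpos n hn j
    exact gP_cont hα p1 p2 p3
  have cE : ∀ n ∈ Finset.Ico M (M + H), ∀ j, ContinuousOn (E n j) (bx α β γ) := fun n hn j => by
    rw [hE]
    obtain ⟨p1, p2, p3⟩ := hpos n hn j
    exact gE_cont hα p1 p2 p3
  -- the sizes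
  obtain ⟨Z, hZ⟩ : ∃ Z : Fin k → ℝ, Z = fun j => A * (2 * (M : ℝ)) ^ (D j - d j + δ) := ⟨_, rfl⟩
  have hZ0 : ∀ j, 0 < Z j := fun j => by rw [hZ]; positivity
  obtain ⟨U, hU⟩ : ∃ U : ℝ, U = (2 * (M : ℝ)) ^ (1 - e) := ⟨_, rfl⟩
  have h2M : 1 ≤ 2 * (M : ℝ) := by linarith
  have hU1 : 1 ≤ U := by rw [hU]; exact Real.one_le_rpow h2M (by linarith)
  have hpw : ∀ n ∈ Finset.Ico M (M + H), ∀ z : ℝ, 0 ≤ z → ((n : ℝ) + τ) ^ z ≤ (2 * (M : ℝ)) ^ z := by
    intro n hn z hz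
    obtain ⟨h1, h2⟩ := ht n hn
    exact Real.rpow_le_rpow (by linarith) h2 hz
  -- second moments
  have mF : ∀ n ∈ Finset.Ico M (M + H), ∀ j, ∫ θ in bx α β γ, ‖F n j θ‖ ^ 2 ≤ Z j := by
    intro n hn j
    rw [hF, hZ]
    refine (hA j _ (hxn0 _ (htn n hn) j)).1.trans ?_
    have h1 := hpw n hn (D j - d j + δ) (by linarith [hDd j])
    have h2 : 0 ≤ ((n : ℝ) + τ) ^ (D j - d j + δ) := Real.rpow_nonneg (by linarith [(ht n hn).1]) _
    exact mul_le_mul (hAC j) h1 h2 hA0.le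
  have mL : ∀ n ∈ Finset.Ico M (M + H), ∀ j, ∫ θ in bx α β γ, ‖L n j θ‖ ^ 2 ≤ Z j := by
    intro n hn j
    rw [hL, hZ]
    refine (hA j _ (hxn0 _ (htn n hn) j)).2.1.trans ?_
    have h1 := hpw n hn (D j - d j + δ) (by linarith [hDd j])
    have h2 : 0 ≤ ((n : ℝ) + τ) ^ (D j - d j + δ) := Real.rpow_nonneg (by linarith [(ht n hn).1]) _
    exact mul_le_mul (hAC j) h1 h2 hA0.le
  have mR : ∀ n ∈ Finset.Ico M (M + H), ∀ j, ∫ θ in bx α β γ, ‖R n j θ‖ ^ 2 ≤ Z j := by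
    intro n hn j
    rw [hR, hZ]
    refine (hA j _ (hxn0 _ (htn n hn) j)).2.2.1.trans ?_
    have h1 := hpw n hn (D j - d j + δ) (by linarith [hDd j])
    have h2 : 0 ≤ ((n : ℝ) + τ) ^ (D j - d j + δ) := Real.rpow_nonneg (by linarith [(ht n hn).1]) _
    exact mul_le_mul (hAC j) h1 h2 hA0.le
  have mE : ∀ n ∈ Finset.Ico M (M + H), ∀ j, ∫ θ in bx α β γ, ‖E n j θ‖ ^ 2 ≤
      A * ((M : ℝ) ^ (-(d j)) * (2 * (M : ℝ)) ^ δ) := by
    intro n hn j
    rw [hE]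
    refine (hA j _ (hxn0 _ (htn n hn) j)).2.2.2.trans ?_
    obtain ⟨h1, h2⟩ := ht n hn
    have h3 : 0 < (n : ℝ) + τ := by linarith
    rw [Real.rpow_add h3]
    have h4 : ((n : ℝ) + τ) ^ (-(d j)) ≤ (M : ℝ) ^ (-(d j)) :=
      Real.rpow_le_rpow_of_nonpos hM0 h1 (by linarith [(HF j).d_pos])
    have h5 := hpw n hn δ hδ0.le
    have h6 : 0 ≤ ((n : ℝ) + τ) ^ δ := Real.rpow_nonneg h3.le _
    have h7 : 0 ≤ ((n : ℝ) + τ) ^ (-(d j)) := Real.rpow_nonneg h3.le _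
    exact mul_le_mul (hAC j) (mul_le_mul h4 h5 h6 (by positivity)) (by positivity) hA0.le
  -- off position
  have off : ∀ (G : ℕ → Fin k → ℝ × ℝ → ℂ) (i : Fin k), ∀ n ∈ Finset.Ico M (M + H), ∀ m ∈ Finset.Ico M (M + H),
      ∀ j, j ≠ i → ‖∫ θ in bx α β γ, gi F L G i n j θ * (starRingEnd ℂ) (gi F L G i m j θ)‖ ≤ Z j := by
    intro G i n hn m hm j hj
    have hsq : √(Z j * Z j) ≤ Z j := by rw [Real.sqrt_mul_self (hZ0 j).le]
    unfold gi
    by_cases h : j < i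
    · simp only [if_pos h]
      exact (cs_int (cL n hn j) (cL m hm j) (hZ0 j) (hZ0 j) (mL n hn j) (mL m hm j)).trans hsq
    · simp only [if_neg h, if_neg hj]
      exact (cs_int (cF n hn j) (cF m hm j) (hZ0 j) (hZ0 j) (mF n hn j) (mF m hm j)).trans hsq
  -- the polynomial
  have onRlt : ∀ (i : Fin k), ∀ n ∈ Finset.Ico M (M + H), ∀ m ∈ Finset.Ico M (M + H), n < m →
      ‖∫ θ in bx α β γ, R n i θ * (starRingEnd ℂ) (R m i θ)‖ ≤ Z i * U * kp n m := by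
    intro i n hn m hm hnm
    obtain ⟨a1, a2⟩ := ht n hn
    obtain ⟨b1, b2⟩ := ht m hm
    have hmn : (1 : ℝ) ≤ (m : ℝ) - n := by
      have : n + 1 ≤ m := hnm
      have h2 : ((n + 1 : ℕ) : ℝ) ≤ m := by exact_mod_cast this
      push_cast at h2
      linarith
    have g2 := hK i (n + τ) (m + τ) (hxn0 _ (htn n hn) i) (by linarith) (by linarith)
    rw [hR]
    refine g2.trans ?_
    have e1 : (m : ℝ) + τ - (n + τ) = (m : ℝ) - n := by ring
    have e2 : kp n m = 2 / ((m : ℝ) - n) := by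
      unfold kp
      rw [if_neg hnm.ne, abs_sub_comm, abs_of_pos (by linarith)]
    rw [e1, e2]
    have g3 : C i * ((n : ℝ) + τ) ^ (D i - d i + 1 - e + δ) ≤ Z i * U := by
      have h1 := hpw n hn (D i - d i + 1 - e + δ) (by linarith [hDd i])
      have h2 : 0 ≤ ((n : ℝ) + τ) ^ (D i - d i + 1 - e + δ) := Real.rpow_nonneg (by linarith) _
      refine (mul_le_mul (hAC i) h1 h2 hA0.le).trans (le_of_eq ?_)
      rw [hZ, hU]
      simp only
      rw [mul_assoc, ← Real.rpow_add (by linarith)]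
      congr 2
      ring
    have h4 : (0:ℝ) < (m : ℝ) - n := by linarith
    have hZU : 0 ≤ Z i * U := mul_nonneg (hZ0 i).le (by linarith)
    calc C i * ((n : ℝ) + τ) ^ (D i - d i + 1 - e + δ) / ((m : ℝ) - n) ≤ Z i * U / ((m : ℝ) - n) := by gcongr
      _ ≤ Z i * U * (2 / ((m : ℝ) - n)) := by
          rw [div_eq_mul_inv, div_eq_mul_inv]
          have : 0 ≤ ((m : ℝ) - n)⁻¹ := by positivity
          have h5 : ((m : ℝ) - n)⁻¹ ≤ 2 * ((m : ℝ) - n)⁻¹ := by linarith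
          exact mul_le_mul_of_nonneg_left h5 hZU
  have onR : ∀ (i : Fin k), ∀ n ∈ Finset.Ico M (M + H), ∀ m ∈ Finset.Ico M (M + H),
      ‖∫ θ in bx α β γ, R n i θ * (starRingEnd ℂ) (R m i θ)‖ ≤ Z i * U * kp n m := by
    intro i n hn m hm
    rcases lt_trichotomy n m with h | h | h
    · exact onRlt i n hn m hm h
    · subst h
      have hsq : √(Z i * Z i) ≤ Z i := by rw [Real.sqrt_mul_self (hZ0 i).le]
      have h1 := (cs_int (cR n hn i) (cR n hn i) (hZ0 i) (hZ0 i) (mR n hn i) (mR n hn i)).trans hsq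
      have h2 : kp n n = 1 := by unfold kp; rw [if_pos rfl]
      rw [h2, mul_one]
      calc _ ≤ Z i := h1
        _ = Z i * 1 := by ring
        _ ≤ _ := mul_le_mul_of_nonneg_left hU1 (hZ0 i).le
    · have h1 := onRlt i m hm n hn h
      have h2 : ∫ θ in bx α β γ, R n i θ * (starRingEnd ℂ) (R m i θ) =
          (starRingEnd ℂ) (∫ θ in bx α β γ, R m i θ * (starRingEnd ℂ) (R n i θ)) := by
        rw [← integral_conj]
        congr 1
        funext θ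
        rw [map_mul, Complex.conj_conj]
        ring
      rw [h2, RCLike.norm_conj, kp_comm]
      exact h1
  have onE : ∀ (i : Fin k), ∀ n ∈ Finset.Ico M (M + H), ∀ m ∈ Finset.Ico M (M + H),
      ‖∫ θ in bx α β γ, E n i θ * (starRingEnd ℂ) (E m i θ)‖ ≤ Z i * U * kp n m := by
    intro i n hn m hm
    have hW : 0 < A * ((M : ℝ) ^ (-(d i)) * (2 * (M : ℝ)) ^ δ) := by positivity
    have h1 := cs_int (cE n hn i) (cE m hm i) hW hW (mE n hn i) (mE m hm i)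
    rw [Real.sqrt_mul_self hW.le] at h1
    refine h1.trans ?_
    have h2 : (M : ℝ)⁻¹ ≤ kp n m := by
      unfold kp
      split_ifs with h
      · exact inv_le_one_of_one_le₀ hM1
      · have h3 : |(n : ℝ) - m| ≤ M := by
          obtain ⟨a1, a2⟩ := ht n hn
          obtain ⟨b1, b2⟩ := ht m hm
          rw [abs_le]
          constructor <;> linarith
        have h4 : 0 < |(n : ℝ) - m| := by
          rw [abs_pos, sub_ne_zero]
          exact_mod_cast h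
        calc (M : ℝ)⁻¹ ≤ |(n : ℝ) - m|⁻¹ := inv_anti₀ h4 h3
          _ ≤ 2 / |(n : ℝ) - m| := by
            rw [div_eq_mul_inv]
            have : 0 ≤ |(n : ℝ) - m|⁻¹ := by positivity
            linarith
    have h3 : (M : ℝ) ^ (-(d i)) ≤ (2 * (M : ℝ)) ^ (D i - d i) * U * (M : ℝ)⁻¹ := by
      rw [hU, ← Real.rpow_add (by linarith), ← Real.rpow_neg_one (M : ℝ)]
      have h5 : (M : ℝ) ^ (D i - d i + (1 - e)) ≤ (2 * (M : ℝ)) ^ (D i - d i + (1 - e)) :=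
        Real.rpow_le_rpow hM0.le (by linarith) (by linarith [hDd i])
      calc (M : ℝ) ^ (-(d i)) ≤ (M : ℝ) ^ (D i - d i + (1 - e)) * (M : ℝ) ^ (-1 : ℝ) := by
            rw [← Real.rpow_add hM0]
            apply Real.rpow_le_rpow_of_exponent_le hM1
            linarith [heD i]
        _ ≤ _ := by gcongr
    have hZU : 0 ≤ Z i * U := mul_nonneg (hZ0 i).le (by linarith)
    calc A * ((M : ℝ) ^ (-(d i)) * (2 * (M : ℝ)) ^ δ) ≤
          A * ((2 * (M : ℝ)) ^ (D i - d i) * U * (M : ℝ)⁻¹ * (2 * (M : ℝ)) ^ δ) := by gcongr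
      _ = Z i * U * (M : ℝ)⁻¹ := by
          rw [hZ]
          simp only
          rw [Real.rpow_add (by linarith)]
          ring
      _ ≤ _ := mul_le_mul_of_nonneg_left h2 hZU
  -- the blocks
  have kP := fun i : Fin k => blkw (α := α) (β := β) (γ := γ) (gi F L R i) w M H (by
    intro n hn j
    unfold gi
    split_ifs
    · exact cL n hn j
    · exact cR n hn j
    · exact cF n hn j) i Z (fun j => (hZ0 j).le) U (by linarith) (off R i) (by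
    intro n hn m hm
    have := onR i n hn m hm
    unfold gi
    simpa only [lt_irrefl, if_false, if_true] using this)
  have kE := fun i : Fin k => blkw (α := α) (β := β) (γ := γ) (gi F L E i) w M H (by
    intro n hn j
    unfold gi
    split_ifs
    · exact cL n hn j
    · exact cE n hn j
    · exact cF n hn j) i Z (fun j => (hZ0 j).le) U (by linarith) (off E i) (by
    intro n hn m hm
    have := onE i n hn m hm
    unfold gi
    simpa only [lt_irrefl, if_false, if_true] using this)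
  -- the pointwise bound
  have pt : ∀ θ : Fin k → ℝ × ℝ, ‖∑ n ∈ Finset.Ico M (M + H), w n * GG α β P Q y (n + τ) θ‖ ^ 2 ≤
      2 * k * ∑ i, (‖∑ n ∈ Finset.Ico M (M + H), w n * ∏ j, gi F L R i n j (θ j)‖ ^ 2 +
        ‖∑ n ∈ Finset.Ico M (M + H), w n * ∏ j, gi F L E i n j (θ j)‖ ^ 2) := by
    intro θ
    have e1 : ∑ n ∈ Finset.Ico M (M + H), w n * GG α β P Q y (n + τ) θ =
        ∑ i, ((∑ n ∈ Finset.Ico M (M + H), w n * ∏ j, gi F L R i n j (θ j)) +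
          (∑ n ∈ Finset.Ico M (M + H), w n * ∏ j, gi F L E i n j (θ j))) := by
      simp_rw [← Finset.sum_add_distrib]
      rw [Finset.sum_comm]
      refine Finset.sum_congr rfl fun n _ => ?_
      have := tel2 (fun j => F n j (θ j)) (fun j => L n j (θ j)) (fun j => R n j (θ j)) (fun j => E n j (θ j)) (by
        intro j
        rw [hF, hL, hR, hE]
        rfl)
      have e2 : GG α β P Q y (n + τ) θ = ∏ j, F n j (θ j) - ∏ j, L n j (θ j) := by rw [hF, hL]; rfl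
      rw [e2, this, Finset.mul_sum]
      refine Finset.sum_congr rfl fun i _ => ?_
      rw [mul_add]
      congr 2
      · refine Finset.prod_congr rfl fun j _ => ?_
        unfold gi
        split_ifs <;> rfl
      · refine Finset.prod_congr rfl fun j _ => ?_
        unfold gi
        split_ifs <;> rfl
    rw [e1]
    exact tri _ _
  have iR : Integrable (fun θ : Fin k → ℝ × ℝ => 2 * (k : ℝ) *
      ∑ i, (‖∑ n ∈ Finset.Ico M (M + H), w n * ∏ j, gi F L R i n j (θ j)‖ ^ 2 +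
        ‖∑ n ∈ Finset.Ico M (M + H), w n * ∏ j, gi F L E i n j (θ j)‖ ^ 2))
      (Measure.pi fun _ => volume.restrict (bx α β γ)) := by
    apply Integrable.const_mul
    exact integrable_finsetSum _ fun i _ => (kP i).1.add (kE i).1
  have iL : Integrable (fun θ : Fin k → ℝ × ℝ => ‖∑ n ∈ Finset.Ico M (M + H), w n * GG α β P Q y (n + τ) θ‖ ^ 2)
      (Measure.pi fun _ => volume.restrict (bx α β γ)) := by
    refine iR.mono' ?_ (Filter.Eventually.of_forall fun θ => ?_)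
    · exact ((Finset.measurable_fun_sum _ fun (n : ℕ) _ => (GG_meas α β P Q y ((n : ℝ) + τ)).const_mul
        (w n)).norm.pow_const 2).aestronglyMeasurable
    · rw [Real.norm_of_nonneg (by positivity)]
      exact pt θ
  refine ⟨iL, ?_⟩
  have h1 := integral_mono iL iR pt
  have iPE : ∀ i ∈ (Finset.univ : Finset (Fin k)), Integrable (fun θ : Fin k → ℝ × ℝ =>
      ‖∑ n ∈ Finset.Ico M (M + H), w n * ∏ j, gi F L R i n j (θ j)‖ ^ 2 +
        ‖∑ n ∈ Finset.Ico M (M + H), w n * ∏ j, gi F L E i n j (θ j)‖ ^ 2)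
      (Measure.pi fun _ => volume.restrict (bx α β γ)) := fun i _ => (kP i).1.add (kE i).1
  rw [integral_const_mul, integral_finsetSum _ iPE] at h1
  have hS0 : 0 ≤ ∑ n ∈ Finset.Ico M (M + H), ‖w n‖ ^ 2 := by positivity
  have hlog : 0 ≤ Real.log ((H : ℝ) + 1) := Real.log_nonneg (by linarith [(Nat.cast_nonneg H : (0:ℝ) ≤ H)])
  have h2 : ∀ i : Fin k, ∫ θ : Fin k → ℝ × ℝ,
      (‖∑ n ∈ Finset.Ico M (M + H), w n * ∏ j, gi F L R i n j (θ j)‖ ^ 2 +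
        ‖∑ n ∈ Finset.Ico M (M + H), w n * ∏ j, gi F L E i n j (θ j)‖ ^ 2)
      ∂(Measure.pi fun _ => volume.restrict (bx α β γ)) ≤
      2 * ((∏ j, Z j) * U * ((5 + 4 * Real.log (H + 1)) * ∑ n ∈ Finset.Ico M (M + H), ‖w n‖ ^ 2)) := by
    intro i
    rw [integral_add (kP i).1 (kE i).1]
    linarith [(kP i).2, (kE i).2]
  have hZU : (∏ j, Z j) * U = A ^ k * (E0 * (M : ℝ) ^ (ρ + 1 - e + k * δ)) := by
    rw [hZ, hU, Finset.prod_mul_distrib, Finset.prod_const, Finset.card_fin, mul_assoc,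
      ← Real.rpow_sum_of_pos (by linarith), ← Real.rpow_add (by linarith), Finset.sum_add_distrib, Finset.sum_const,
      Finset.card_fin, nsmul_eq_mul, ← hρ, hE0, ← Real.mul_rpow (by norm_num) hM0.le]
    congr 2
    ring
  have hLg : 5 + 4 * Real.log (H + 1) ≤ 5 * ((1 + 1 / (ε / 2)) * 2 ^ (ε / 2)) * (M : ℝ) ^ (ε / 2) := by
    have b0 : 5 + 4 * Real.log ((H : ℝ) + 1) ≤ 5 * (1 + Real.log ((H : ℝ) + 1)) := by linarith
    have b2 := one_log (by positivity : 0 < ε / 2) (by linarith [(Nat.cast_nonneg H : (0:ℝ) ≤ H)] : (1:ℝ) ≤ H + 1)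
    have b3 : (H : ℝ) + 1 ≤ 2 * M := by
      have : (H : ℝ) ≤ M := by exact_mod_cast hH
      linarith
    have b4 : ((H : ℝ) + 1) ^ (ε / 2) ≤ 2 ^ (ε / 2) * (M : ℝ) ^ (ε / 2) := by
      rw [← Real.mul_rpow (by norm_num) hM0.le]
      exact Real.rpow_le_rpow (by linarith [(Nat.cast_nonneg H : (0:ℝ) ≤ H)]) b3 (by positivity)
    calc _ ≤ 5 * (1 + Real.log ((H : ℝ) + 1)) := b0
      _ ≤ 5 * ((1 + 1 / (ε / 2)) * (2 ^ (ε / 2) * (M : ℝ) ^ (ε / 2))) := by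
          have h0 : 0 ≤ 1 + 1 / (ε / 2) := by positivity
          have := mul_le_mul_of_nonneg_left b4 h0
          linarith
      _ = _ := by ring
  have hMM : (M : ℝ) ^ (ρ + 1 - e + k * δ) * (M : ℝ) ^ (ε / 2) ≤ (M : ℝ) ^ (ρ + 1 - e + ε) := by
    rw [← Real.rpow_add hM0]
    apply Real.rpow_le_rpow_of_exponent_le hM1
    linarith
  have hMp : 0 < (M : ℝ) ^ (ρ + 1 - e + ε) := by positivity
  rw [← hρ]
  calc _ ≤ 2 * (k : ℝ) * ∑ i : Fin k, ∫ θ : Fin k → ℝ × ℝ,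
      (‖∑ n ∈ Finset.Ico M (M + H), w n * ∏ j, gi F L R i n j (θ j)‖ ^ 2 +
        ‖∑ n ∈ Finset.Ico M (M + H), w n * ∏ j, gi F L E i n j (θ j)‖ ^ 2)
      ∂(Measure.pi fun _ => volume.restrict (bx α β γ)) := h1
    _ ≤ 2 * (k : ℝ) * ∑ i : Fin k,
        2 * ((∏ j, Z j) * U * ((5 + 4 * Real.log (H + 1)) * ∑ n ∈ Finset.Ico M (M + H), ‖w n‖ ^ 2)) := by
        gcongr with i _
        exact h2 i
    _ = 2 * k * (k * (2 * (A ^ k * E0 * ((M : ℝ) ^ (ρ + 1 - e + k * δ) * (5 + 4 * Real.log (H + 1)))))) *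
          ∑ n ∈ Finset.Ico M (M + H), ‖w n‖ ^ 2 := by
        rw [Finset.sum_const, Finset.card_fin, nsmul_eq_mul, hZU]
        ring
    _ ≤ 2 * k * (k * (2 * (A ^ k * E0 * ((M : ℝ) ^ (ρ + 1 - e + k * δ) *
          (5 * ((1 + 1 / (ε / 2)) * 2 ^ (ε / 2)) * (M : ℝ) ^ (ε / 2)))))) *
          ∑ n ∈ Finset.Ico M (M + H), ‖w n‖ ^ 2 := by
        gcongr
    _ = 2 * k * (k * (2 * (A ^ k * E0 * (5 * ((1 + 1 / (ε / 2)) * 2 ^ (ε / 2)))))) *
          ((M : ℝ) ^ (ρ + 1 - e + k * δ) * (M : ℝ) ^ (ε / 2)) *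
          ∑ n ∈ Finset.Ico M (M + H), ‖w n‖ ^ 2 := by ring
    _ ≤ 2 * k * (k * (2 * (A ^ k * E0 * (5 * ((1 + 1 / (ε / 2)) * 2 ^ (ε / 2)))))) *
          (M : ℝ) ^ (ρ + 1 - e + ε) * ∑ n ∈ Finset.Ico M (M + H), ‖w n‖ ^ 2 := by
        gcongr
    _ ≤ _ := by
        gcongr
        linarith

end Pool.Agent.H471.ZP
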