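import Pool.Agent.H471.ZP.GKw

set_option autoImplicit false

/-!
Auxiliary facts: sequences of nonnegative functions with small mean values; integrals over short intervals.
-/

namespace Pool.Agent.H471.ZP

open MeasureTheory Set

/-- **single terms** -/
theorem dy {Ω : Type} [MeasurableSpace Ω] (μ : Measure Ω) (g : ℕ → Ω → ENNReal) (hgm : ∀ n, Measurable (g n))
    {ε C A β κ : ℝ} (hε : 0 < ε) (hC : 0 ≤ C) (hA : 0 ≤ A) (hβ : 0 ≤ β) (hκ : 0 ≤ κ)
    (a : ℕ → ℝ) (ha : ∀ n, 0 ≤ a n) (haN : ∀ N : ℕ, 1 ≤ N → ∑ n ∈ Finset.range N, a n ≤ A * (N : ℝ) ^ κ)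
    (hb : ∀ n : ℕ, 1 ≤ n → ∫⁻ ω, g n ω ∂μ ≤ ENNReal.ofReal (C * (n : ℝ) ^ β * a n)) :
    ∀ᵐ ω ∂μ, ∃ K : ℝ, 0 ≤ K ∧ ∀ n : ℕ, 1 ≤ n → g n ω ≤ ENNReal.ofReal (K * (n : ℝ) ^ (β + κ + ε)) := by
  set S : ℕ → Ω → ENNReal := fun J ω => ∑ n ∈ Finset.Ico (2 ^ J) (2 ^ (J + 1)), g n ω with hS
  have hSm : ∀ J, Measurable (S J) := fun J => Finset.measurable_fun_sum _ fun n _ => hgm n
  obtain ⟨C1, hC1⟩ : ∃ C1 : ℝ, C1 = C * A * 2 ^ (β + κ) := ⟨_, rfl⟩
  have hC10 : 0 ≤ C1 := by rw [hC1]; positivity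
  have hSb : ∀ J, ∫⁻ ω, S J ω ∂μ ≤ ENNReal.ofReal (C1 * ((2 : ℝ) ^ J) ^ (β + κ)) := by
    intro J
    simp only [hS]
    rw [lintegral_finsetSum _ (fun n _ => hgm n)]
    have h1 : ∀ n ∈ Finset.Ico (2 ^ J) (2 ^ (J + 1)), ∫⁻ ω, g n ω ∂μ ≤
        ENNReal.ofReal (C * ((2 : ℝ) ^ (J + 1)) ^ β * a n) := by
      intro n hn
      rw [Finset.mem_Ico] at hn
      have h2 : 1 ≤ n := le_trans Nat.one_le_two_pow hn.1
      refine (hb n h2).trans (ENNReal.ofReal_le_ofReal ?_)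
      have h3 : (n : ℝ) ≤ 2 ^ (J + 1) := by exact_mod_cast hn.2.le
      have := ha n
      gcongr
    refine (Finset.sum_le_sum h1).trans ?_
    rw [← ENNReal.ofReal_sum_of_nonneg (fun n _ => by have := ha n; positivity), ← Finset.mul_sum]
    apply ENNReal.ofReal_le_ofReal
    have h4 : ∑ n ∈ Finset.Ico (2 ^ J) (2 ^ (J + 1)), a n ≤ A * ((2 : ℝ) ^ (J + 1)) ^ κ := by
      have h5 := haN (2 ^ (J + 1)) Nat.one_le_two_pow
      push_cast at h5
      refine le_trans ?_ h5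
      rw [Finset.range_eq_Ico]
      exact Finset.sum_le_sum_of_subset_of_nonneg (Finset.Ico_subset_Ico_left (Nat.zero_le _)) (fun n _ _ => ha n)
    calc C * ((2 : ℝ) ^ (J + 1)) ^ β * ∑ n ∈ Finset.Ico (2 ^ J) (2 ^ (J + 1)), a n ≤
          C * ((2 : ℝ) ^ (J + 1)) ^ β * (A * ((2 : ℝ) ^ (J + 1)) ^ κ) := by gcongr
      _ = C * A * (((2 : ℝ) ^ (J + 1)) ^ β * ((2 : ℝ) ^ (J + 1)) ^ κ) := by ring
      _ = C * A * ((2 : ℝ) ^ (J + 1)) ^ (β + κ) := by rw [← Real.rpow_add (by positivity)]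
      _ = _ := by
          rw [hC1, pow_succ, Real.mul_rpow (by positivity) (by norm_num)]
          ring
  set v : ℕ → ℝ := fun J => ((2 : ℝ) ^ J) ^ (-(β + κ + ε)) with hv
  have hv0 : ∀ J, 0 < v J := fun J => by rw [hv]; positivity
  have hvS : ∀ J, ∫⁻ ω, ENNReal.ofReal (v J) * S J ω ∂μ ≤ ENNReal.ofReal (C1 * ((2 : ℝ) ^ (-ε)) ^ J) := by
    intro J
    rw [lintegral_const_mul _ (hSm J)]
    refine (mul_le_mul_right (hSb J) _).trans ?_
    rw [← ENNReal.ofReal_mul (hv0 J).le]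
    apply ENNReal.ofReal_le_ofReal
    have e1 : v J * ((2 : ℝ) ^ J) ^ (β + κ) = ((2 : ℝ) ^ (-ε)) ^ J := by
      simp only [hv]
      have h2 : (0:ℝ) < 2 ^ J := by positivity
      rw [← Real.rpow_add h2, ← Real.rpow_natCast, ← Real.rpow_natCast, ← Real.rpow_mul (by norm_num),
        ← Real.rpow_mul (by norm_num)]
      congr 1
      ring
    apply le_of_eq
    calc v J * (C1 * ((2 : ℝ) ^ J) ^ (β + κ)) = C1 * (v J * ((2 : ℝ) ^ J) ^ (β + κ)) := by ring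
      _ = _ := by rw [e1]
  have hr : (2 : ℝ) ^ (-ε) < 1 := Real.rpow_lt_one_of_one_lt_of_neg (by norm_num) (by linarith)
  have hsum : Summable (fun J : ℕ => C1 * ((2 : ℝ) ^ (-ε)) ^ J) :=
    (summable_geometric_of_lt_one (by positivity) hr).mul_left C1
  have hl : ∫⁻ ω, ∑' J, ENNReal.ofReal (v J) * S J ω ∂μ < ⊤ := by
    rw [lintegral_tsum (fun J => ((hSm J).const_mul _).aemeasurable)]
    refine (ENNReal.tsum_le_tsum hvS).trans_lt ?_
    rw [← ENNReal.ofReal_tsum_of_nonneg (fun J => by positivity) hsum]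
    exact ENNReal.ofReal_lt_top
  have hae := ae_lt_top' (AEMeasurable.tsum fun J => ((hSm J).const_mul _).aemeasurable) hl.ne
  filter_upwards [hae] with ω hω
  set K0 : ENNReal := ∑' J, ENNReal.ofReal (v J) * S J ω with hK0
  refine ⟨K0.toReal, ENNReal.toReal_nonneg, fun n hn => ?_⟩
  set J := Nat.log 2 n with hJ
  have h1 : 2 ^ J ≤ n := Nat.pow_log_le_self 2 (by omega)
  have h2 : n < 2 ^ (J + 1) := Nat.lt_pow_succ_log_self (by norm_num) n
  have h3 : g n ω ≤ S J ω :=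
    Finset.single_le_sum (f := fun n => g n ω) (fun _ _ => zero_le) (Finset.mem_Ico.2 ⟨h1, h2⟩)
  have h4 : ENNReal.ofReal (v J) * S J ω ≤ K0 := ENNReal.le_tsum (f := fun J => ENNReal.ofReal (v J) * S J ω) J
  have h5 : g n ω ≤ ENNReal.ofReal ((v J)⁻¹) * K0 := by
    calc g n ω ≤ S J ω := h3
      _ = ENNReal.ofReal ((v J)⁻¹) * (ENNReal.ofReal (v J) * S J ω) := by
          rw [← mul_assoc, ← ENNReal.ofReal_mul (inv_pos.2 (hv0 J)).le, inv_mul_cancel₀ (hv0 J).ne',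
            ENNReal.ofReal_one, one_mul]
      _ ≤ _ := by gcongr
  refine h5.trans ?_
  rw [← ENNReal.ofReal_toReal hω.ne, ← ENNReal.ofReal_mul (inv_pos.2 (hv0 J)).le]
  apply ENNReal.ofReal_le_ofReal
  rw [mul_comm]
  have h6 : (v J)⁻¹ = ((2 : ℝ) ^ J) ^ (β + κ + ε) := by
    simp only [hv]
    rw [Real.rpow_neg (by positivity), inv_inv]
  rw [h6, ENNReal.toReal_ofReal ENNReal.toReal_nonneg]
  have h7 : (2 : ℝ) ^ J ≤ n := by exact_mod_cast h1
  have h8 : 0 ≤ K0.toReal := ENNReal.toReal_nonneg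
  gcongr

/-- Jensen's inequality on an interval of length at most one -/
lemma jens (S : ℝ → ℂ) (hS : Measurable S) {a b : ℝ} (hab : a ≤ b) (hb : b ≤ a + 1) :
    ENNReal.ofReal (‖∫ t in a..b, S t‖ ^ 2) ≤ ∫⁻ t in Ioc a b, ENNReal.ofReal (‖S t‖ ^ 2) := by
  rw [intervalIntegral.integral_of_le hab]
  set ν := (volume : Measure ℝ).restrict (Ioc a b) with hν
  have h1 : ‖∫ t, S t ∂ν‖ₑ ≤ eLpNorm S 1 ν := by
    rw [eLpNorm_one_eq_lintegral_enorm]
    exact enorm_integral_le_lintegral_enorm S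
  have h2 : eLpNorm S 1 ν ≤ eLpNorm S 2 ν := by
    have h3 := eLpNorm_le_eLpNorm_mul_rpow_measure_univ (p := 1) (q := 2) (μ := ν) (f := S) (by norm_num)
      hS.aestronglyMeasurable
    refine h3.trans ?_
    have h4 : ν univ ≤ 1 := by
      rw [hν, Measure.restrict_apply MeasurableSet.univ, univ_inter, Real.volume_Ioc]
      rw [← ENNReal.ofReal_one]
      exact ENNReal.ofReal_le_ofReal (by linarith)
    have h5 : ν univ ^ (1 / (1 : ENNReal).toReal - 1 / (2 : ENNReal).toReal) ≤ 1 := by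
      apply ENNReal.rpow_le_one h4
      norm_num
    calc _ ≤ eLpNorm S 2 ν * 1 := by gcongr
      _ = _ := mul_one _
  have h6 : eLpNorm S 2 ν ^ 2 = ∫⁻ t, ENNReal.ofReal (‖S t‖ ^ 2) ∂ν := by
    rw [eLpNorm_eq_lintegral_rpow_enorm_toReal (by norm_num) (by norm_num)]
    rw [← ENNReal.rpow_natCast, ← ENNReal.rpow_mul]
    have h7 : 1 / (2 : ENNReal).toReal * ((2 : ℕ) : ℝ) = 1 := by norm_num
    rw [h7, ENNReal.rpow_one]
    apply lintegral_congr
    intro t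
    rw [ENNReal.ofReal_pow (norm_nonneg _), ofReal_norm]
    have h8 : (2 : ENNReal).toReal = ((2 : ℕ) : ℝ) := by norm_num
    rw [h8, ENNReal.rpow_natCast]
  rw [ENNReal.ofReal_pow (norm_nonneg _), ofReal_norm, ← h6]
  gcongr
  exact h1.trans h2

/-- square integrable functions on short intervals are integrable -/
lemma int_of_sq (S : ℝ → ℂ) (hS : Measurable S) {a b : ℝ} (hab : a ≤ b)
    (h : ∫⁻ t in Ioc a b, ENNReal.ofReal (‖S t‖ ^ 2) < ⊤) : IntervalIntegrable S volume a b := by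
  rw [intervalIntegrable_iff_integrableOn_Ioc_of_le hab]
  refine ⟨hS.aestronglyMeasurable, ?_⟩
  rw [hasFiniteIntegral_iff_enorm]
  have h1 : ∀ t, ‖S t‖ₑ ≤ 1 + ENNReal.ofReal (‖S t‖ ^ 2) := by
    intro t
    rw [← ofReal_norm, ← ENNReal.ofReal_one, ← ENNReal.ofReal_add (by norm_num) (by positivity)]
    apply ENNReal.ofReal_le_ofReal
    nlinarith [sq_nonneg (‖S t‖ - 1), norm_nonneg (S t)]
  refine (lintegral_mono h1).trans_lt ?_
  rw [lintegral_add_left measurable_const]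
  refine ENNReal.add_lt_top.2 ⟨?_, h⟩
  rw [lintegral_const, one_mul, Measure.restrict_apply MeasurableSet.univ, univ_inter, Real.volume_Ioc]
  exact ENNReal.ofReal_lt_top

end Pool.Agent.H471.ZP
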