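import Pool.Agent.H471.ZP.Blk
import Pool.Agent.H471.ZP.Dy

set_option autoImplicit false

/-!
Continuous time.
-/

namespace Pool.Agent.H471.ZP

open Complex MeasureTheory Set
open Pool.Agent.Y969.GP (ht lam FR PS cr PX ff)
open Pool.Agent.H471.GS (mem_FR' ht_pos ff_cont)
open Pool.Agent.H471.QP (LL PO FO rt bx rt_cont one_log bx_cpt gi tri tel2 cs_int blk)

lemma GG_meas2 {k : ℕ} (α β : ℝ) (P Q y : Fin k → ℝ → ℝ) (hP : ∀ j, Measurable (P j)) (hQ : ∀ j, Measurable (Q j))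
    (hy : ∀ j, Measurable (y j)) : Measurable fun z : ℝ × (Fin k → ℝ × ℝ) => GG α β P Q y z.1 z.2 := by
  have hθ : ∀ j, Measurable fun z : ℝ × (Fin k → ℝ × ℝ) => z.2 j := fun j =>
    (measurable_pi_apply j).comp measurable_snd
  have hh : ∀ j, Measurable fun z : ℝ × (Fin k → ℝ × ℝ) => hu (y j z.1) (Q j z.1) (P j z.1) (z.2 j) := by
    intro j
    unfold hu
    have h1 : Measurable fun z : ℝ × (Fin k → ℝ × ℝ) => y j z.1 := (hy j).comp measurable_fst
    have h2 : Measurable fun z : ℝ × (Fin k → ℝ × ℝ) => Q j z.1 := (hQ j).comp measurable_fst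
    have h3 : Measurable fun z : ℝ × (Fin k → ℝ × ℝ) => P j z.1 := (hP j).comp measurable_fst
    exact (h1.add ((hθ j).snd.mul h2)).add ((hθ j).fst.mul h3)
  have hr : ∀ j, Measurable fun z : ℝ × (Fin k → ℝ × ℝ) => (rt α β (z.2 j) : ℂ) := fun j =>
    Complex.measurable_ofReal.comp ((rt_cont α β).measurable.comp (hθ j))
  unfold GG
  apply Measurable.sub
  · refine Finset.measurable_fun_prod _ fun j _ => ?_
    unfold gF
    exact (hr j).mul (Complex.measurable_ofReal.comp (ff_cont.measurable.comp (hh j)))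
  · refine Finset.measurable_fun_prod _ fun j _ => ?_
    unfold gL
    exact (hr j).mul (Complex.measurable_ofReal.comp (LL_meas.comp (hh j)))

section
variable {k : ℕ} (α β γ : ℝ) (P Q y : Fin k → ℝ → ℝ) (w : ℝ → ℂ)

/-- the integral over a unit interval -/
noncomputable def Iu (n : ℕ) (θ : Fin k → ℝ × ℝ) : ℂ := ∫ t in (n : ℝ)..(n + 1), w t * GG α β P Q y t θ

/-- the square integral over a unit interval -/
noncomputable def Ju (n : ℕ) (θ : Fin k → ℝ × ℝ) : ENNReal :=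
  ∫⁻ t in Ioc (n : ℝ) (n + 1), ENNReal.ofReal (‖w t * GG α β P Q y t θ‖ ^ 2)

end

lemma wG_meas {k : ℕ} {α β : ℝ} {P Q y : Fin k → ℝ → ℝ} (hP : ∀ j, Measurable (P j)) (hQ : ∀ j, Measurable (Q j))
    (hy : ∀ j, Measurable (y j)) {w : ℝ → ℂ} (hw : Measurable w) :
    Measurable fun z : ℝ × (Fin k → ℝ × ℝ) => w z.1 * GG α β P Q y z.1 z.2 :=
  (hw.comp measurable_fst).mul (GG_meas2 α β P Q y hP hQ hy)

lemma Iu_meas {k : ℕ} {α β : ℝ} {P Q y : Fin k → ℝ → ℝ} (hP : ∀ j, Measurable (P j)) (hQ : ∀ j, Measurable (Q j))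
    (hy : ∀ j, Measurable (y j)) {w : ℝ → ℂ} (hw : Measurable w) (n : ℕ) : Measurable (Iu α β P Q y w n) := by
  unfold Iu
  simp only [intervalIntegral.integral_of_le (by linarith : (n : ℝ) ≤ n + 1)]
  have h := (wG_meas (α := α) (β := β) hP hQ hy hw).comp (measurable_swap (α := Fin k → ℝ × ℝ) (β := ℝ))
  exact (StronglyMeasurable.integral_prod_right (ν := volume.restrict (Ioc (n : ℝ) (n + 1)))
    (f := fun (θ : Fin k → ℝ × ℝ) (t : ℝ) => w t * GG α β P Q y t θ) h.stronglyMeasurable).measurable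

lemma Ju_meas {k : ℕ} {α β : ℝ} {P Q y : Fin k → ℝ → ℝ} (hP : ∀ j, Measurable (P j)) (hQ : ∀ j, Measurable (Q j))
    (hy : ∀ j, Measurable (y j)) {w : ℝ → ℂ} (hw : Measurable w) (n : ℕ) : Measurable (Ju α β P Q y w n) := by
  unfold Ju
  have h := (((wG_meas (α := α) (β := β) hP hQ hy hw).comp
    (measurable_swap (α := Fin k → ℝ × ℝ) (β := ℝ))).norm.pow_const 2).ennreal_ofReal
  exact Measurable.lintegral_prod_right' (ν := volume.restrict (Ioc (n : ℝ) (n + 1))) h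

/-- the mean square over a block at the times `n + τ`, integrated over `τ` -/
lemma tau {k : ℕ} {α β γ : ℝ} {P Q y : Fin k → ℝ → ℝ} (hP : ∀ j, Measurable (P j)) (hQ : ∀ j, Measurable (Q j))
    (hy : ∀ j, Measurable (y j)) {w : ℝ → ℂ} (hw : Measurable w) (M H : ℕ) {c : ℝ} (hc : 0 ≤ c)
    (hw2 : ∀ n ∈ Finset.Ico M (M + H), IntegrableOn (fun t => ‖w t‖ ^ 2) (Ioc (n : ℝ) (n + 1)))
    (hb : ∀ τ : ℝ, 0 ≤ τ → τ ≤ 1 →
      Integrable (fun θ : Fin k → ℝ × ℝ => ‖∑ n ∈ Finset.Ico M (M + H), w (n + τ) * GG α β P Q y (n + τ) θ‖ ^ 2)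
        (Measure.pi fun _ => volume.restrict (bx α β γ)) ∧
      ∫ θ : Fin k → ℝ × ℝ, ‖∑ n ∈ Finset.Ico M (M + H), w (n + τ) * GG α β P Q y (n + τ) θ‖ ^ 2
        ∂(Measure.pi fun _ => volume.restrict (bx α β γ)) ≤
        c * ∑ n ∈ Finset.Ico M (M + H), ‖w (n + τ)‖ ^ 2) :
    ∫⁻ θ : Fin k → ℝ × ℝ, (∫⁻ τ in Ioc (0:ℝ) 1,
      ENNReal.ofReal (‖∑ n ∈ Finset.Ico M (M + H), w (n + τ) * GG α β P Q y (n + τ) θ‖ ^ 2))
        ∂(Measure.pi fun _ => volume.restrict (bx α β γ)) ≤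
      ENNReal.ofReal (c * ∑ n ∈ Finset.Ico M (M + H), ∫ t in (n : ℝ)..(n + 1), ‖w t‖ ^ 2) := by
  have hm : Measurable (fun z : (Fin k → ℝ × ℝ) × ℝ =>
      ENNReal.ofReal (‖∑ n ∈ Finset.Ico M (M + H), w (n + z.2) * GG α β P Q y (n + z.2) z.1‖ ^ 2)) := by
    apply Measurable.ennreal_ofReal
    apply Measurable.pow_const
    apply Measurable.norm
    refine Finset.measurable_fun_sum _ fun n _ => ?_
    exact (wG_meas (α := α) (β := β) hP hQ hy hw).comp
      (f := fun z : (Fin k → ℝ × ℝ) × ℝ => (((n : ℝ) + z.2), z.1))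
      ((measurable_const.add measurable_snd).prodMk measurable_fst)
  rw [lintegral_lintegral_swap hm.aemeasurable]
  have h1 : ∀ τ ∈ Ioc (0:ℝ) 1, ∫⁻ θ : Fin k → ℝ × ℝ,
      ENNReal.ofReal (‖∑ n ∈ Finset.Ico M (M + H), w (n + τ) * GG α β P Q y (n + τ) θ‖ ^ 2)
        ∂(Measure.pi fun _ => volume.restrict (bx α β γ)) ≤
      ENNReal.ofReal (c * ∑ n ∈ Finset.Ico M (M + H), ‖w (n + τ)‖ ^ 2) := by
    intro τ hτ
    obtain ⟨k1, k2⟩ := hb τ hτ.1.le hτ.2
    rw [← ofReal_integral_eq_lintegral_ofReal k1 (Filter.Eventually.of_forall fun θ => by positivity)]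
    exact ENNReal.ofReal_le_ofReal k2
  refine (setLIntegral_mono' measurableSet_Ioc h1).trans ?_
  have h2 : ∀ n ∈ Finset.Ico M (M + H), IntegrableOn (fun τ : ℝ => ‖w (n + τ)‖ ^ 2) (Ioc 0 1) := by
    intro n hn
    have h3 : IntervalIntegrable (fun t => ‖w t‖ ^ 2) volume (n : ℝ) (n + 1) := by
      rw [intervalIntegrable_iff_integrableOn_Ioc_of_le (by linarith)]
      exact hw2 n hn
    have h4 := h3.comp_add_left (n : ℝ)
    simp only [sub_self, add_sub_cancel_left] at h4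
    rw [intervalIntegrable_iff_integrableOn_Ioc_of_le (by norm_num)] at h4
    exact h4
  have h5 : IntegrableOn (fun τ : ℝ => c * ∑ n ∈ Finset.Ico M (M + H), ‖w (n + τ)‖ ^ 2) (Ioc 0 1) :=
    (integrable_finsetSum _ h2).const_mul c
  rw [← ofReal_integral_eq_lintegral_ofReal h5 (Filter.Eventually.of_forall fun τ => by positivity)]
  apply ENNReal.ofReal_le_ofReal
  rw [integral_const_mul, integral_finsetSum _ h2]
  apply le_of_eq
  congr 1
  refine Finset.sum_congr rfl fun n _ => ?_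
  rw [← intervalIntegral.integral_of_le (by norm_num : (0:ℝ) ≤ 1),
    intervalIntegral.integral_comp_add_left (fun t => ‖w t‖ ^ 2) (n : ℝ), add_zero]

/-- change of variable on a unit interval -/
lemma Ju_eq {k : ℕ} (α β : ℝ) (P Q y : Fin k → ℝ → ℝ) (w : ℝ → ℂ) (n : ℕ) (θ : Fin k → ℝ × ℝ) :
    Ju α β P Q y w n θ = ∫⁻ τ in Ioc (0:ℝ) 1, ENNReal.ofReal (‖w (n + τ) * GG α β P Q y (n + τ) θ‖ ^ 2) := by
  unfold Ju
  have h1 : MeasurePreserving (fun τ : ℝ => (n : ℝ) + τ) volume volume := measurePreserving_add_left volume (n : ℝ)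
  have h2 := h1.setLIntegral_comp_preimage_emb (MeasurableEquiv.addLeft (n : ℝ)).measurableEmbedding
    (fun t => ENNReal.ofReal (‖w t * GG α β P Q y t θ‖ ^ 2)) (Ioc (n : ℝ) (n + 1))
  rw [← h2]
  have h3 : (fun τ : ℝ => (n : ℝ) + τ) ⁻¹' Ioc (n : ℝ) (n + 1) = Ioc 0 1 := by
    ext x
    simp only [mem_preimage, mem_Ioc]
    constructor <;> intro h <;> constructor <;> linarith [h.1, h.2]
  rw [h3]

/-- the sum of the integrals over the unit intervals of a block -/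
lemma blkI {k : ℕ} {α β : ℝ} {P Q y : Fin k → ℝ → ℝ} (hP : ∀ j, Measurable (P j)) (hQ : ∀ j, Measurable (Q j))
    (hy : ∀ j, Measurable (y j)) {w : ℝ → ℂ} (hw : Measurable w) (I : Finset ℕ) (θ : Fin k → ℝ × ℝ)
    (hJ : ∀ n ∈ I, Ju α β P Q y w n θ < ⊤) :
    ENNReal.ofReal (‖∑ n ∈ I, Iu α β P Q y w n θ‖ ^ 2) ≤
      ∫⁻ τ in Ioc (0:ℝ) 1, ENNReal.ofReal (‖∑ n ∈ I, w (n + τ) * GG α β P Q y (n + τ) θ‖ ^ 2) := by
  have hθm : Measurable fun t : ℝ => w t * GG α β P Q y t θ :=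
    (wG_meas (α := α) (β := β) hP hQ hy hw).comp (f := fun t : ℝ => (t, θ)) (measurable_id.prodMk measurable_const)
  have h1 : ∀ n ∈ I, IntervalIntegrable (fun τ : ℝ => w (n + τ) * GG α β P Q y (n + τ) θ) volume 0 1 := by
    intro n hn
    have h2 := hJ n hn
    rw [Ju_eq] at h2
    exact int_of_sq _ (hθm.comp (measurable_const.add measurable_id)) (by norm_num) h2
  have h3 : ∑ n ∈ I, Iu α β P Q y w n θ = ∫ τ in (0:ℝ)..1, ∑ n ∈ I, w (n + τ) * GG α β P Q y (n + τ) θ := by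
    rw [intervalIntegral.integral_finsetSum h1]
    refine Finset.sum_congr rfl fun n _ => ?_
    unfold Iu
    rw [intervalIntegral.integral_comp_add_left (fun t => w t * GG α β P Q y t θ) (n : ℝ), add_zero]
  rw [h3]
  apply jens _ _ (by norm_num) (by norm_num)
  exact Finset.measurable_fun_sum _ fun n _ => hθm.comp (measurable_const.add measurable_id)

/-- **almost all parameters in a box** -/
theorem on_box {k : ℕ} (α β γ : ℝ) (hα : 0 < α) (hαβ : α ≤ β) (hγ : 0 ≤ γ) (P Q y : Fin k → ℝ → ℝ)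
    (hP : ∀ j, Measurable (P j)) (hQ : ∀ j, Measurable (Q j)) (hy : ∀ j, Measurable (y j))
    (D d : Fin k → ℝ) (e t0 : ℝ) (ht0 : 1 ≤ t0) (HF : ∀ j, FD (P j) (Q j) (y j) (D j) (d j) e t0) (he1 : e ≤ 1)
    (heD : ∀ j, e ≤ D j) (w : ℝ → ℂ) (hw : Measurable w) (κ : ℝ) (hκ : 0 ≤ κ)
    (hw2 : ∀ T, t0 ≤ T → IntegrableOn (fun t => ‖w t‖ ^ 2) (Ioc t0 T))
    (hwk : ∀ ε : ℝ, 0 < ε → ∃ C : ℝ, ∀ T, t0 ≤ T → ∫ t in t0..T, ‖w t‖ ^ 2 ≤ C * T ^ (κ + ε))
    (ε : ℝ) (hε : 0 < ε) :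
    ∃ n1 : ℕ, t0 ≤ n1 ∧ ∀ᵐ θ : Fin k → ℝ × ℝ ∂(Measure.pi fun _ => volume.restrict (bx α β γ)),
      (∀ T : ℝ, n1 ≤ T → IntervalIntegrable (fun t => w t * GG α β P Q y t θ) volume n1 T) ∧
      ∃ K : ℝ, ∀ T : ℝ, n1 ≤ T → ‖∫ t in (n1 : ℝ)..T, w t * GG α β P Q y t θ‖ ≤
        K * T ^ ((∑ j, (D j - d j) + 1 - e + κ) / 2 + ε) := by
  obtain ⟨C, n0, hC, hn0, hblock⟩ := block α β γ hα hαβ hγ P Q y D d e t0 HF he1 heD (ε / 2) (by positivity)
  obtain ⟨A0, hA0⟩ := hwk (ε / 2) (by positivity)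
  obtain ⟨A, hA⟩ : ∃ A : ℝ, A = |A0| * 2 ^ (κ + ε / 2) := ⟨_, rfl⟩
  have hAp : 0 ≤ A := by rw [hA]; positivity
  obtain ⟨i0, hi0⟩ : ∃ i0 : ℕ, i0 = max n0 ⌈t0⌉₊ := ⟨_, rfl⟩
  obtain ⟨n1, hn1⟩ : ∃ n1 : ℕ, n1 = 2 ^ i0 := ⟨_, rfl⟩
  have hi0n : i0 < n1 := by rw [hn1]; exact Nat.lt_two_pow_self
  have hn01 : n0 ≤ n1 := by
    have : n0 ≤ i0 := by rw [hi0]; exact le_max_left _ _
    omega
  have ht01 : t0 ≤ n1 := by
    have h1 : ⌈t0⌉₊ ≤ i0 := by rw [hi0]; exact le_max_right _ _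
    have h2 : t0 ≤ (⌈t0⌉₊ : ℝ) := Nat.le_ceil _
    have h3 : (⌈t0⌉₊ : ℝ) ≤ n1 := by exact_mod_cast (by omega : ⌈t0⌉₊ ≤ n1)
    linarith
  have hn11 : 1 ≤ n1 := by omega
  refine ⟨n1, ht01, ?_⟩
  -- exponents
  have hρ0 : 0 ≤ ∑ j, (D j - d j) := Finset.sum_nonneg fun j _ => by linarith [(HF j).dD]
  obtain ⟨b, hb⟩ : ∃ b : ℝ, b = ∑ j, (D j - d j) + 1 - e + ε / 2 := ⟨_, rfl⟩
  rw [← hb] at hblock
  have hb0 : 0 ≤ b := by rw [hb]; linarith
  -- the weights
  have hw3 : ∀ n : ℕ, n1 ≤ n → IntegrableOn (fun t => ‖w t‖ ^ 2) (Ioc (n : ℝ) (n + 1)) := by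
    intro n hn
    have h1 : (n1 : ℝ) ≤ n := by exact_mod_cast hn
    exact (hw2 (n + 1) (by linarith)).mono_set (Ioc_subset_Ioc_left (by linarith))
  obtain ⟨a, ha⟩ : ∃ a : ℕ → ℝ, a = fun n : ℕ => if n1 ≤ n then ∫ t in (n : ℝ)..(n + 1), ‖w t‖ ^ 2 else 0 := ⟨_, rfl⟩
  have ha0 : ∀ n, 0 ≤ a n := by
    intro n
    rw [ha]
    simp only
    split_ifs
    · exact intervalIntegral.integral_nonneg (by linarith) fun _ _ => by positivity
    · exact le_rfl
  have haN : ∀ N : ℕ, 1 ≤ N → ∑ n ∈ Finset.range N, a n ≤ A * (N : ℝ) ^ (κ + ε / 2) := by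
    intro N hN
    rcases lt_or_ge N n1 with h | h
    · have h1 : ∑ n ∈ Finset.range N, a n = 0 := by
        refine Finset.sum_eq_zero fun n hn => ?_
        rw [Finset.mem_range] at hn
        rw [ha]
        simp only
        rw [if_neg (by omega)]
      rw [h1]
      positivity
    · have h1 : ∑ n ∈ Finset.range N, a n = ∑ n ∈ Finset.Ico n1 N, ∫ t in (n : ℝ)..((n + 1 : ℕ) : ℝ), ‖w t‖ ^ 2 := by
        rw [Finset.range_eq_Ico, ← Finset.sum_Ico_consecutive a (Nat.zero_le n1) h]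
        have h2 : ∑ n ∈ Finset.Ico 0 n1, a n = 0 := by
          refine Finset.sum_eq_zero fun n hn => ?_
          rw [Finset.mem_Ico] at hn
          rw [ha]
          simp only
          rw [if_neg (by omega)]
        rw [h2, zero_add]
        refine Finset.sum_congr rfl fun n hn => ?_
        rw [Finset.mem_Ico] at hn
        rw [ha]
        simp only
        rw [if_pos hn.1]
        push_cast
        rfl
      rw [h1, intervalIntegral.sum_integral_adjacent_intervals_Ico h (fun n hn => by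
        rw [intervalIntegrable_iff_integrableOn_Ioc_of_le (by push_cast; linarith)]
        have := hw3 n hn.1
        push_cast
        exact this)]
      have hN1 : (n1 : ℝ) ≤ N := by exact_mod_cast h
      have h3 : ∫ t in (n1 : ℝ)..(N : ℝ), ‖w t‖ ^ 2 ≤ ∫ t in t0..(N : ℝ), ‖w t‖ ^ 2 := by
        apply intervalIntegral.integral_mono_interval ht01 hN1 le_rfl
        · exact Filter.Eventually.of_forall fun t => by positivity
        · rw [intervalIntegrable_iff_integrableOn_Ioc_of_le (by linarith)]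
          exact hw2 N (by linarith)
      refine h3.trans ((hA0 N (by linarith)).trans ?_)
      have h4 : 0 ≤ (N : ℝ) ^ (κ + ε / 2) := by positivity
      have h5 : (1:ℝ) ≤ 2 ^ (κ + ε / 2) := Real.one_le_rpow (by norm_num) (by positivity)
      have h6 : A0 ≤ A := by
        rw [hA]
        have := le_abs_self A0
        have h7 : |A0| * 1 ≤ |A0| * 2 ^ (κ + ε / 2) := by gcongr
        linarith
      gcongr
  -- the mean squares over the blocks
  have hsec : ∀ M H : ℕ, n1 ≤ M → H ≤ M → ∫⁻ θ : Fin k → ℝ × ℝ, (∫⁻ τ in Ioc (0:ℝ) 1,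
      ENNReal.ofReal (‖∑ n ∈ Finset.Ico M (M + H), w (n + τ) * GG α β P Q y (n + τ) θ‖ ^ 2))
        ∂(Measure.pi fun _ => volume.restrict (bx α β γ)) ≤
      ENNReal.ofReal (C * (M : ℝ) ^ b * ∑ n ∈ Finset.Ico M (M + H), a n) := by
    intro M H hM hH
    have h1 := tau (γ := γ) (α := α) (β := β) hP hQ hy hw M H (c := C * (M : ℝ) ^ b) (by positivity)
      (fun n hn => hw3 n (by rw [Finset.mem_Ico] at hn; omega))
      (fun τ hτ0 hτ1 => hblock τ (fun n => w (n + τ)) M H hτ0 hτ1 (by omega) hH)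
    refine h1.trans (le_of_eq ?_)
    congr 2
    refine Finset.sum_congr rfl fun n hn => ?_
    rw [Finset.mem_Ico] at hn
    rw [ha]
    simp only
    rw [if_pos (by omega)]
  -- single unit intervals
  have hJ := dy (Measure.pi fun _ : Fin k => volume.restrict (bx α β γ))
    (fun n θ => if n1 ≤ n then Ju α β P Q y w n θ else 0) (by
      intro n
      split_ifs
      · exact Ju_meas hP hQ hy hw n
      · exact measurable_const) (ε := ε) (C := C) (A := A) (β := b) (κ := κ + ε / 2) hε hC.le hAp hb0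
      (by positivity) a ha0 haN (by
      intro n hn
      by_cases h : n1 ≤ n
      · simp only [if_pos h]
        have h1 := hsec n 1 h hn
        simp only [Nat.Ico_succ_singleton, Finset.sum_singleton] at h1
        refine le_trans (le_of_eq ?_) h1
        apply lintegral_congr
        intro θ
        rw [Ju_eq]
      · simp only [if_neg h, lintegral_zero]
        exact zero_le)
  have hJfin : ∀ᵐ θ : Fin k → ℝ × ℝ ∂(Measure.pi fun _ => volume.restrict (bx α β γ)),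
      ∀ n, n1 ≤ n → Ju α β P Q y w n θ < ⊤ := by
    filter_upwards [hJ] with θ hθ n hn
    obtain ⟨K, -, hK⟩ := hθ
    have h1 := hK n (by omega)
    simp only [if_pos hn] at h1
    exact h1.trans_lt ENNReal.ofReal_lt_top
  -- the sums
  have hS := gkw (Measure.pi fun _ : Fin k => volume.restrict (bx α β γ))
    (fun n θ => if n1 ≤ n then Iu α β P Q y w n θ else 0) (by
      intro n
      split_ifs
      · exact Iu_meas hP hQ hy hw n
      · exact measurable_const) (by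
      intro θ
      rw [if_neg (by omega)]) (ε := ε / 2) (C := C) (A := A) (β := b) (κ := κ + ε / 2) (by positivity) hC.le hAp hb0
      (by positivity) a ha0 haN (by
      intro i j hj
      have hblk : blk i j = Finset.Ico (j * 2 ^ i) (j * 2 ^ i + 2 ^ i) := by
        unfold blk
        congr 1
        ring
      rcases lt_or_ge (j * 2 ^ i) n1 with h | h
      · have h1 : (j + 1) * 2 ^ i ≤ n1 := by
          have hii : i < i0 := by
            rw [hn1] at h
            have h2 : 2 ^ i < 2 ^ i0 := by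
              calc 2 ^ i = 1 * 2 ^ i := by ring
                _ ≤ j * 2 ^ i := Nat.mul_le_mul_right _ hj
                _ < _ := h
            exact (Nat.pow_lt_pow_iff_right (by norm_num : 1 < 2)).1 h2
          have h3 : n1 = 2 ^ (i0 - i) * 2 ^ i := by rw [hn1, ← pow_add]; congr 1; omega
          rw [h3] at h ⊢
          have h4 : j < 2 ^ (i0 - i) := lt_of_mul_lt_mul_right h (Nat.zero_le _)
          exact Nat.mul_le_mul_right _ h4
        have h5 : ∀ θ : Fin k → ℝ × ℝ, ∑ n ∈ blk i j, (if n1 ≤ n then Iu α β P Q y w n θ else 0) = 0 := by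
          intro θ
          refine Finset.sum_eq_zero fun n hn => ?_
          unfold blk at hn
          rw [Finset.mem_Ico] at hn
          rw [if_neg (by omega)]
        simp only [h5, norm_zero]
        norm_num
      · have h1 := hsec (j * 2 ^ i) (2 ^ i) h (Nat.le_mul_of_pos_left _ (by omega))
        rw [← hblk] at h1
        refine le_trans ?_ h1
        apply lintegral_mono_ae
        filter_upwards [hJfin] with θ hθ
        have h2 : ∀ n ∈ blk i j, n1 ≤ n := by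
          intro n hn
          unfold blk at hn
          rw [Finset.mem_Ico] at hn
          omega
        have h3 : ∑ n ∈ blk i j, (if n1 ≤ n then Iu α β P Q y w n θ else 0) = ∑ n ∈ blk i j, Iu α β P Q y w n θ := by
          refine Finset.sum_congr rfl fun n hn => ?_
          rw [if_pos (h2 n hn)]
        rw [h3]
        exact blkI hP hQ hy hw (blk i j) θ (fun n hn => hθ n (h2 n hn)))
  filter_upwards [hJ, hJfin, hS] with θ hθJ hθfin hθS
  obtain ⟨K1, hK1, hθJ⟩ := hθJ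
  obtain ⟨K2, hK2⟩ := hθS
  have hθm : Measurable fun t : ℝ => w t * GG α β P Q y t θ :=
    (wG_meas (α := α) (β := β) hP hQ hy hw).comp (f := fun t : ℝ => (t, θ)) (measurable_id.prodMk measurable_const)
  have hint : ∀ n, n1 ≤ n → IntervalIntegrable (fun t => w t * GG α β P Q y t θ) volume (n : ℝ) ((n + 1 : ℕ) : ℝ) := by
    intro n hn
    have h1 := hθfin n hn
    unfold Ju at h1
    push_cast
    exact int_of_sq _ hθm (by linarith) h1
  have hintN : ∀ N, n1 ≤ N → IntervalIntegrable (fun t => w t * GG α β P Q y t θ) volume (n1 : ℝ) (N : ℝ) := by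
    intro N hN
    induction N, hN using Nat.le_induction with
    | base => exact IntervalIntegrable.refl
    | succ N hN ih => exact ih.trans (hint N hN)
  have hintT : ∀ T : ℝ, n1 ≤ T → IntervalIntegrable (fun t => w t * GG α β P Q y t θ) volume (n1 : ℝ) T := by
    intro T hT
    have h1 : n1 ≤ ⌈T⌉₊ := by
      have : (n1 : ℝ) ≤ ⌈T⌉₊ := hT.trans (Nat.le_ceil T)
      exact_mod_cast this
    refine (hintN _ h1).mono_set ?_
    rw [uIcc_of_le hT, uIcc_of_le (hT.trans (Nat.le_ceil T))]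
    exact Icc_subset_Icc_right (Nat.le_ceil T)
  refine ⟨hintT, |K2| + √K1, fun T hT => ?_⟩
  have hT1 : 1 ≤ T := by
    have : (1:ℝ) ≤ n1 := by exact_mod_cast hn11
    linarith
  have hT0 : 0 < T := by linarith
  obtain ⟨N, hN⟩ : ∃ N : ℕ, N = ⌊T⌋₊ := ⟨_, rfl⟩
  have hNT : (N : ℝ) ≤ T := by rw [hN]; exact Nat.floor_le hT0.le
  have hTN : T < N + 1 := by rw [hN]; exact Nat.lt_floor_add_one T
  have hn1N : n1 ≤ N := by rw [hN]; exact Nat.le_floor hT
  have hN1 : 1 ≤ N := hn11.trans hn1N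
  have hN1' : (1:ℝ) ≤ N := by exact_mod_cast hN1
  have hNTi : IntervalIntegrable (fun t => w t * GG α β P Q y t θ) volume (N : ℝ) T :=
    (hintN N hn1N).symm.trans (hintT T hT)
  rw [← intervalIntegral.integral_add_adjacent_intervals (hintN N hn1N) hNTi]
  have hex : (∑ j, (D j - d j) + 1 - e + κ) / 2 + ε = (b + (κ + ε / 2)) / 2 + ε / 2 := by rw [hb]; ring
  rw [hex]
  have p1 : ‖∫ t in (n1 : ℝ)..(N : ℝ), w t * GG α β P Q y t θ‖ ≤ |K2| * T ^ ((b + (κ + ε / 2)) / 2 + ε / 2) := by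
    have h1 := hK2 N
    have h2 : ∑ n ∈ Finset.range N, (if n1 ≤ n then Iu α β P Q y w n θ else 0) =
        ∫ t in (n1 : ℝ)..(N : ℝ), w t * GG α β P Q y t θ := by
      rw [← intervalIntegral.sum_integral_adjacent_intervals_Ico hn1N (fun n hn => hint n hn.1),
        Finset.range_eq_Ico, ← Finset.sum_Ico_consecutive _ (Nat.zero_le n1) hn1N]
      have h3 : ∑ n ∈ Finset.Ico 0 n1, (if n1 ≤ n then Iu α β P Q y w n θ else 0) = 0 := by
        refine Finset.sum_eq_zero fun n hn => ?_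
        rw [Finset.mem_Ico] at hn
        rw [if_neg (by omega)]
      rw [h3, zero_add]
      refine Finset.sum_congr rfl fun n hn => ?_
      rw [Finset.mem_Ico] at hn
      rw [if_pos hn.1]
      unfold Iu
      push_cast
      rfl
    rw [h2] at h1
    refine h1.trans ?_
    have h4 : (N : ℝ) ^ ((b + (κ + ε / 2)) / 2 + ε / 2) ≤ T ^ ((b + (κ + ε / 2)) / 2 + ε / 2) :=
      Real.rpow_le_rpow (by linarith) hNT (by positivity)
    have h5 : 0 ≤ (N : ℝ) ^ ((b + (κ + ε / 2)) / 2 + ε / 2) := by positivity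
    calc K2 * (N : ℝ) ^ ((b + (κ + ε / 2)) / 2 + ε / 2) ≤ |K2| * (N : ℝ) ^ ((b + (κ + ε / 2)) / 2 + ε / 2) := by
          gcongr
          exact le_abs_self K2
      _ ≤ _ := by gcongr
  have p2 : ‖∫ t in (N : ℝ)..T, w t * GG α β P Q y t θ‖ ≤ √K1 * T ^ ((b + (κ + ε / 2)) / 2 + ε / 2) := by
    have h1 := jens (fun t => w t * GG α β P Q y t θ) hθm hNT hTN.le
    have h2 : ∫⁻ t in Ioc (N : ℝ) T, ENNReal.ofReal (‖w t * GG α β P Q y t θ‖ ^ 2) ≤ Ju α β P Q y w N θ := by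
      unfold Ju
      exact lintegral_mono_set (Ioc_subset_Ioc_right hTN.le)
    have h3 := hθJ N hN1
    simp only [if_pos hn1N] at h3
    have h4 := (h1.trans h2).trans h3
    rw [ENNReal.ofReal_le_ofReal_iff (by positivity)] at h4
    have h5 : √K1 * T ^ ((b + (κ + ε / 2)) / 2 + ε / 2) = √(K1 * T ^ (b + (κ + ε / 2) + ε)) := by
      rw [Real.sqrt_mul hK1, Real.sqrt_eq_rpow (T ^ (b + (κ + ε / 2) + ε)), ← Real.rpow_mul hT0.le]
      congr 2
      ring
    rw [h5]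
    apply Real.le_sqrt_of_sq_le
    refine h4.trans ?_
    have h6 : (N : ℝ) ^ (b + (κ + ε / 2) + ε) ≤ T ^ (b + (κ + ε / 2) + ε) :=
      Real.rpow_le_rpow (by linarith) hNT (by positivity)
    gcongr
  calc _ ≤ ‖∫ t in (n1 : ℝ)..(N : ℝ), w t * GG α β P Q y t θ‖ + ‖∫ t in (N : ℝ)..T, w t * GG α β P Q y t θ‖ :=
        norm_add_le _ _
    _ ≤ |K2| * T ^ ((b + (κ + ε / 2)) / 2 + ε / 2) + √K1 * T ^ ((b + (κ + ε / 2)) / 2 + ε / 2) := add_le_add p1 p2
    _ = _ := by ring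

end Pool.Agent.H471.ZP
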