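import Pool.Agent.H471.ZP.Rel
import Pool.Agent.H471.ZP.AsR

set_option autoImplicit false

/-!
The conjecture of order `lam` and the mixed moment of order `lam + 2k`.
-/

namespace Pool.Agent.H471.ZP

open MeasureTheory Set Filter Topology
open Pool.Agent.Y969.GP (ff)
open Pool.Agent.H471.QP (LL)
open Pool.Agent.Helper156_SP (az az_nonneg az_cont azp_cont azp_int mom_low)

lemma tlb_atTop (b : ℝ) : Tendsto (fun T : ℝ => T * Real.log T ^ b) atTop atTop := by
  refine (sT_atTop (-b)).congr' ?_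
  filter_upwards [eventually_gt_atTop 1] with T hT
  have hl : 0 < Real.log T := Real.log_pos hT
  rw [Real.rpow_neg hl.le, div_inv_eq_mul]

/-- a power saving is negligible -/
lemma err_zero (b δ K T0 : ℝ) (hδ : 0 < δ) (E : ℝ → ℝ) (hE : ∀ T : ℝ, T0 ≤ T → |E T| ≤ K * T ^ (1 - δ)) :
    Tendsto (fun T : ℝ => E T / (T * Real.log T ^ b)) atTop (𝓝 0) := by
  have h1 : Tendsto (fun T : ℝ => |K| * (Real.log T ^ (-b) / T ^ δ)) atTop (𝓝 (|K| * 0)) := by
    apply Tendsto.const_mul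
    exact (isLittleO_log_rpow_rpow_atTop (-b) hδ).tendsto_div_nhds_zero
  rw [mul_zero] at h1
  refine squeeze_zero_norm' ?_ h1
  filter_upwards [eventually_ge_atTop T0, eventually_gt_atTop 1] with T hT hT1
  have hTp : 0 < T := by linarith
  have hl : 0 < Real.log T := Real.log_pos hT1
  have h2 := hE T hT
  have h3 : K * T ^ (1 - δ) ≤ |K| * T ^ (1 - δ) := mul_le_mul_of_nonneg_right (le_abs_self K) (by positivity)
  rw [norm_div, Real.norm_eq_abs, Real.norm_eq_abs, abs_of_pos (show 0 < T * Real.log T ^ b by positivity),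
    div_le_iff₀ (by positivity)]
  have e1 : |K| * (Real.log T ^ (-b) / T ^ δ) * (T * Real.log T ^ b) = |K| * T ^ (1 - δ) := by
    rw [Real.rpow_neg hl.le, Real.rpow_sub hTp, Real.rpow_one]
    field_simp
  rw [e1]
  exact h2.trans h3

/-- initial pieces and error terms do not matter -/
lemma lim_iff (b X c0 : ℝ) (F G E : ℝ → ℝ) (h : ∀ᶠ T : ℝ in atTop, F T = c0 + G T + E T)
    (hE : Tendsto (fun T : ℝ => E T / (T * Real.log T ^ b)) atTop (𝓝 0)) :
    Tendsto (fun T : ℝ => F T / (T * Real.log T ^ b)) atTop (𝓝 X) ↔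
      Tendsto (fun T : ℝ => G T / (T * Real.log T ^ b)) atTop (𝓝 X) := by
  have h0 : Tendsto (fun T : ℝ => c0 / (T * Real.log T ^ b)) atTop (𝓝 0) :=
    tendsto_const_nhds.div_atTop (tlb_atTop b)
  constructor
  · intro h1
    have h2 := (h1.sub h0).sub hE
    rw [sub_zero, sub_zero] at h2
    refine h2.congr' ?_
    filter_upwards [h] with T hT
    rw [hT, ← sub_div, ← sub_div]
    congr 1
    ring
  · intro h1
    have h2 := (h1.add h0).add hE
    rw [add_zero, add_zero] at h2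
    refine h2.congr' ?_
    filter_upwards [h] with T hT
    rw [hT, ← add_div, ← add_div]
    congr 1
    ring

variable {k : ℕ} (θ η D : Fin k → ℝ) (m : Fin k → ℕ)

/-- **the equivalence** -/
theorem real_iff (lam : ℝ) (hl : 0 < lam) (hη : ∀ j, 0 < η j) (hηθ : ∀ j, η j ≤ θ j)
    (hm : ∀ j, η j < θ j ∨ 1 ≤ m j) (hD : ∀ j, θ j ≤ D j)
    (y : Fin k → ℝ → ℝ) (hym : ∀ j, Measurable (y j)) (Y : ℝ)
    (hy : ∀ j t, 2 ≤ t → 0 ≤ y j t ∧ y j t ≤ Y * t ^ D j) (c0 : ℝ) (hc0 : 0 < c0)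
    (hlow : ∀ j t, 2 ≤ t → c0 * t ^ D j ≤ y j t + t ^ θ j)
    (e : ℝ) (he1 : e ≤ 1) (he : ∀ j, e ≤ η j)
    (hδ : ∑ j, (D j - θ j) + (1 - e) + max 0 ((lam - 2) / 3) < 1) :
    ∀ᵐ c : Fin k → ℝ × ℝ, (∀ j, 0 < (c j).1) → ∀ β C : ℝ,
      (Tendsto (fun T : ℝ => (∫ t in (2:ℝ)..T, az t ^ lam) / (T * Real.log T ^ β)) atTop (𝓝 C) ↔
        Tendsto (fun T : ℝ => (∫ t in (2:ℝ)..T, az t ^ lam * ∏ j, ff (hgt θ η m y c j t)) /
          (T * Real.log T ^ (β + k))) atTop (𝓝 (C * ∏ j, D j))) := by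
  have hwm : Measurable fun t : ℝ => ((az t ^ lam : ℝ) : ℂ) :=
    Complex.measurable_ofReal.comp (azp_cont hl).measurable
  have h := real_main θ η D m lam hl hη hηθ hm hD y hym Y hy c0 hc0 hlow e he1 he hδ
    (fun t => ((az t ^ lam : ℝ) : ℂ)) hwm (by
      intro t _
      rw [Complex.norm_real, Real.norm_of_nonneg (by have := az_nonneg t; positivity)])
  filter_upwards [h] with c hc hj
  obtain ⟨⟨T0, hT0, hint, hbd⟩, hff, -⟩ := hc hj
  intro β C
  have e1 : (fun t => ((az t ^ lam : ℝ) : ℂ) *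
      (∏ j, (ff (hgt θ η m y c j t) : ℂ) - ∏ j, (LL (hgt θ η m y c j t) : ℂ))) =
      fun t => ((az t ^ lam * (∏ j, ff (hgt θ η m y c j t) - ∏ j, LL (hgt θ η m y c j t)) : ℝ) : ℂ) := by
    funext t
    push_cast
    rfl
  rw [e1] at hint hbd
  have hint' : ∀ T : ℝ, T0 ≤ T → IntervalIntegrable (fun t => az t ^ lam *
      (∏ j, ff (hgt θ η m y c j t) - ∏ j, LL (hgt θ η m y c j t))) volume T0 T := by
    intro T hT
    have h1 := hint T hT
    rw [intervalIntegrable_iff] at h1 ⊢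
    exact h1.re
  have hff' : ∀ T : ℝ, 2 ≤ T → IntervalIntegrable (fun t => az t ^ lam * ∏ j, ff (hgt θ η m y c j t)) volume 2 T := by
    intro T hT
    have h1 := hff T hT
    have e2 : (fun t => ((az t ^ lam : ℝ) : ℂ) * ((∏ j, ff (hgt θ η m y c j t) : ℝ) : ℂ)) =
        fun t => ((az t ^ lam * ∏ j, ff (hgt θ η m y c j t) : ℝ) : ℂ) := by
      funext t
      push_cast
      rfl
    rw [e2, intervalIntegrable_iff] at h1
    rw [intervalIntegrable_iff]
    exact h1.re
  have hffT : ∀ T : ℝ, T0 ≤ T →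
      IntervalIntegrable (fun t => az t ^ lam * ∏ j, ff (hgt θ η m y c j t)) volume T0 T :=
    fun T hT => (hff' T0 hT0).symm.trans (hff' T (hT0.trans hT))
  have hLLi : ∀ T : ℝ, T0 ≤ T →
      IntervalIntegrable (fun t => az t ^ lam * ∏ j, LL (hgt θ η m y c j t)) volume T0 T := by
    intro T hT
    have h1 := (hffT T hT).sub (hint' T hT)
    refine h1.congr fun t _ => ?_
    ring
  have hR : 0 < ∏ j, D j := Finset.prod_pos fun j _ => by linarith [hη j, hηθ j, hD j]
  have hLL : Tendsto (fun t => (∏ j, LL (hgt θ η m y c j t)) / Real.log t ^ (k : ℝ)) atTop (𝓝 (∏ j, D j)) := by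
    have := prodLL_asy θ η D m hηθ hm hD y Y hy c0 hc0 hlow c hj
    simpa only [Real.rpow_natCast] using this
  obtain ⟨δ, hδe⟩ : ∃ δ : ℝ, δ = (1 - (∑ j, (D j - θ j) + (1 - e) + max 0 ((lam - 2) / 3))) / 4 := ⟨_, rfl⟩
  have hδ0 : 0 < δ := by rw [hδe]; linarith
  obtain ⟨K, hK⟩ := hbd δ hδ0
  have hE : ∀ T : ℝ, T0 ≤ T → |∫ t in T0..T, az t ^ lam *
      (∏ j, ff (hgt θ η m y c j t) - ∏ j, LL (hgt θ η m y c j t))| ≤ K * T ^ (1 - δ) := by
    intro T hT
    have h1 := hK T hT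
    rw [intervalIntegral.integral_ofReal, Complex.norm_real, Real.norm_eq_abs] at h1
    have e3 : (∑ j, (D j - θ j) + 1 - e + (1 + max 0 ((lam - 2) / 3))) / 2 + δ = 1 - δ := by
      rw [hδe]
      ring
    rwa [e3] at h1
  have hE0 := err_zero (β + k) δ K T0 hδ0 _ hE
  -- the mixed moment
  have i1 := lim_iff (β + k) (C * ∏ j, D j) (∫ t in (2:ℝ)..T0, az t ^ lam * ∏ j, ff (hgt θ η m y c j t))
    (fun T => ∫ t in (2:ℝ)..T, az t ^ lam * ∏ j, ff (hgt θ η m y c j t))
    (fun T => ∫ t in T0..T, az t ^ lam * ∏ j, LL (hgt θ η m y c j t)) _ (by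
      filter_upwards [eventually_ge_atTop T0] with T hT
      rw [← intervalIntegral.integral_add_adjacent_intervals (hff' T0 hT0) (hffT T hT), add_assoc,
        ← intervalIntegral.integral_add (hLLi T hT) (hint' T hT)]
      congr 1
      congr 1
      funext t
      ring) hE0
  rw [i1]
  have z0 : ∀ b : ℝ, Tendsto (fun T : ℝ => (0:ℝ) / (T * Real.log T ^ b)) atTop (𝓝 0) := by
    intro b
    simp only [zero_div]
    exact tendsto_const_nhds
  constructor
  · intro h1
    have i2 := (lim_iff β C (∫ t in (2:ℝ)..T0, az t ^ lam) (fun T => ∫ t in (2:ℝ)..T, az t ^ lam)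
      (fun T => ∫ t in T0..T, az t ^ lam) (fun _ => 0) (by
        filter_upwards with T
        rw [add_zero, intervalIntegral.integral_add_adjacent_intervals (azp_int hl _ _) (azp_int hl _ _)])
      (z0 β)).1 h1
    exact asyR _ _ k β T0 C _ hT0 (fun t _ => by have := az_nonneg t; positivity)
      (fun T _ => azp_int hl _ _) hLLi i2 hLL
  · intro h1
    have hpos : ∀ᶠ t : ℝ in atTop, 0 < ∏ j, LL (hgt θ η m y c j t) := by
      filter_upwards [(tendsto_order.1 hLL).1 0 hR, eventually_gt_atTop 1] with t ht ht1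
      have hlt : 0 < Real.log t := Real.log_pos ht1
      by_contra hcon
      push Not at hcon
      have h2 : (∏ j, LL (hgt θ η m y c j t)) / Real.log t ^ (k : ℝ) ≤ 0 :=
        div_nonpos_of_nonpos_of_nonneg hcon (by positivity)
      linarith
    obtain ⟨T1', hT1'⟩ := eventually_atTop.1 hpos
    obtain ⟨T1, hT1e⟩ : ∃ T1 : ℝ, T1 = max T0 T1' := ⟨_, rfl⟩
    have hT10 : T0 ≤ T1 := by rw [hT1e]; exact le_max_left _ _
    have hP : ∀ t, T1 ≤ t → 0 < ∏ j, LL (hgt θ η m y c j t) := fun t ht =>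
      hT1' t ((by rw [hT1e]; exact le_max_right _ _ : T1' ≤ T1).trans ht)
    have hLL1 : ∀ T : ℝ, T1 ≤ T →
        IntervalIntegrable (fun t => az t ^ lam * ∏ j, LL (hgt θ η m y c j t)) volume T1 T :=
      fun T hT => (hLLi T1 hT10).symm.trans (hLLi T (hT10.trans hT))
    have i2 := (lim_iff (β + k) (C * ∏ j, D j) (∫ t in T0..T1, az t ^ lam * ∏ j, LL (hgt θ η m y c j t))
      (fun T => ∫ t in T0..T, az t ^ lam * ∏ j, LL (hgt θ η m y c j t))
      (fun T => ∫ t in T1..T, az t ^ lam * ∏ j, LL (hgt θ η m y c j t)) (fun _ => 0) (by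
        filter_upwards [eventually_ge_atTop T1] with T hT
        rw [add_zero, intervalIntegral.integral_add_adjacent_intervals (hLLi T1 hT10) (hLL1 T hT)])
      (z0 (β + k))).1 h1
    have hinv : Tendsto (fun t => (∏ j, LL (hgt θ η m y c j t))⁻¹ / Real.log t ^ (-(k : ℝ))) atTop
        (𝓝 (∏ j, D j)⁻¹) := by
      refine (hLL.inv₀ hR.ne').congr' ?_
      filter_upwards [eventually_gt_atTop 1] with t ht
      have hlt : 0 < Real.log t := Real.log_pos ht
      rw [Real.rpow_neg hlt.le, inv_div, div_inv_eq_mul, div_eq_mul_inv, mul_comm]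
    have hfg : ∀ t, T1 ≤ t → az t ^ lam * (∏ j, LL (hgt θ η m y c j t)) * (∏ j, LL (hgt θ η m y c j t))⁻¹ =
        az t ^ lam := by
      intro t ht
      rw [mul_assoc, mul_inv_cancel₀ (hP t ht).ne', mul_one]
    have i3 := asyR (fun t => az t ^ lam * ∏ j, LL (hgt θ η m y c j t))
      (fun t => (∏ j, LL (hgt θ η m y c j t))⁻¹) (-(k : ℝ)) (β + k) T1 (C * ∏ j, D j) (∏ j, D j)⁻¹
      (hT0.trans hT10) (fun t ht => by
        have := az_nonneg t
        have := (hP t ht).le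
        positivity) hLL1 (fun T hT => by
        refine (azp_int hl T1 T).congr fun t ht => ?_
        rw [uIoc_of_le hT] at ht
        exact (hfg t ht.1.le).symm) i2 hinv
    have i4 : Tendsto (fun T => (∫ t in T1..T, az t ^ lam) / (T * Real.log T ^ β)) atTop (𝓝 C) := by
      have e4 : β + k + -(k : ℝ) = β := by ring
      have e5 : C * (∏ j, D j) * (∏ j, D j)⁻¹ = C := by rw [mul_assoc, mul_inv_cancel₀ hR.ne', mul_one]
      rw [e4, e5] at i3
      refine i3.congr' ?_
      filter_upwards [eventually_ge_atTop T1] with T hT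
      congr 1
      apply intervalIntegral.integral_congr
      intro t ht
      rw [uIcc_of_le hT] at ht
      exact hfg t ht.1
    exact (lim_iff β C (∫ t in (2:ℝ)..T1, az t ^ lam) (fun T => ∫ t in (2:ℝ)..T, az t ^ lam)
      (fun T => ∫ t in T1..T, az t ^ lam) (fun _ => 0) (by
        filter_upwards with T
        rw [add_zero, intervalIntegral.integral_add_adjacent_intervals (azp_int hl _ _) (azp_int hl _ _)])
      (z0 β)).2 i4

end Pool.Agent.H471.ZP
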