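import Pool.Agent.H471.ZP.Num

set_option autoImplicit false

/-!
The facts on one factor, in terms of powers of the time.
-/

namespace Pool.Agent.H471.ZP

open Complex MeasureTheory Set
open Pool.Agent.Y969.GP (ht lam FR PS cr PX ff)
open Pool.Agent.H471.GS (mem_FR' ht_pos ff_cont)
open Pool.Agent.H471.QP (LL PO FO rt bx rt_cont one_log bx_cpt)

/-- admissible data for one factor: the height is `y t + a P t + b Q t` -/
structure FD (P Q y : ℝ → ℝ) (D d e t0 : ℝ) : Prop where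
  t0_ge : 1 ≤ t0
  d_pos : 0 < d
  dD : d ≤ D
  one : ∀ t, t0 ≤ t → 1 ≤ Q t
  QP : ∀ t, t0 ≤ t → Q t ≤ P t
  y0 : ∀ t, t0 ≤ t → 0 ≤ y t
  up : ∃ K, 0 < K ∧ ∀ t, t0 ≤ t → P t ≤ K * t ^ D ∧ y t ≤ K * t ^ D
  low : ∀ ε, 0 < ε → ∃ c, 0 < c ∧ ∀ t, t0 ≤ t → c * t ^ (d - ε) ≤ P t
  gap : ∀ ε, 0 < ε → ∃ c, 0 < c ∧ ∀ t s, t0 ≤ t → t < s → s ≤ 2 * t →
    c * t ^ (d + e - 1 - ε) * (s - t) ≤ |Q t * P s - P t * Q s|

/-- length of the approximate functional equation -/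
noncomputable def XL (K D ε x : ℝ) : ℕ := ⌈(K * x ^ D) ^ (1 + ε)⌉₊

lemma XL_lb (K D ε x : ℝ) : (K * x ^ D) ^ (1 + ε) ≤ XL K D ε x := Nat.le_ceil _

lemma XL_ub {K D ε x : ℝ} (hK : 1 ≤ K) (hD : 0 ≤ D) (hε : 0 < ε) (hx : 1 ≤ x) :
    (XL K D ε x : ℝ) ≤ 2 * (K * x ^ D) ^ (1 + ε) := by
  have h0 : 1 ≤ K * x ^ D := one_le_mul_of_one_le_of_one_le hK (Real.one_le_rpow hx hD)
  have h1 : 1 ≤ (K * x ^ D) ^ (1 + ε) := Real.one_le_rpow h0 (by linarith)
  have h2 := Nat.ceil_lt_add_one (a := (K * x ^ D) ^ (1 + ε)) (by positivity)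
  unfold XL
  linarith

lemma XL_ge {K D ε x : ℝ} (hK : 1 ≤ K) (hD : 0 ≤ D) (hε : 0 < ε) (hx : 1 ≤ x) : K * x ^ D ≤ XL K D ε x := by
  have h0 : 1 ≤ K * x ^ D := one_le_mul_of_one_le_of_one_le hK (Real.one_le_rpow hx hD)
  have h1 : (K * x ^ D) ^ (1 : ℝ) ≤ (K * x ^ D) ^ (1 + ε) := Real.rpow_le_rpow_of_exponent_le h0 (by linarith)
  rw [Real.rpow_one] at h1
  exact h1.trans (XL_lb K D ε x)

/-- **the facts on one factor** -/
theorem fac (α β γ : ℝ) (hα : 0 < α) (hαβ : α ≤ β) (hγ : 0 ≤ γ) (P Q y : ℝ → ℝ) (D d e t0 : ℝ)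
    (H : FD P Q y D d e t0) (ε : ℝ) (hε : 0 < ε) :
    ∃ (C x0 : ℝ) (X : ℝ → ℕ), 0 < C ∧ t0 ≤ x0 ∧
    (∀ x : ℝ, x0 ≤ x →
      ∫ θ in bx α β γ, ‖gF α β (y x) (Q x) (P x) θ‖ ^ 2 ≤ C * x ^ (D - d + ε) ∧
      ∫ θ in bx α β γ, ‖gL α β (y x) (Q x) (P x) θ‖ ^ 2 ≤ C * x ^ (D - d + ε) ∧
      ∫ θ in bx α β γ, ‖gP α β (X x) (y x) (Q x) (P x) θ‖ ^ 2 ≤ C * x ^ (D - d + ε) ∧
      ∫ θ in bx α β γ, ‖gE α β (X x) (y x) (Q x) (P x) θ‖ ^ 2 ≤ C * x ^ (-d + ε)) ∧
    (∀ t s : ℝ, x0 ≤ t → t < s → s ≤ 2 * t →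
      ‖∫ θ in bx α β γ, gP α β (X t) (y t) (Q t) (P t) θ * (starRingEnd ℂ) (gP α β (X s) (y s) (Q s) (P s) θ)‖ ≤
        C * t ^ (D - d + 1 - e + ε) / (s - t)) := by
  have hβ : 0 < β := by linarith
  have hd := H.d_pos
  have hD : 0 < D := by linarith [H.dD]
  obtain ⟨K0, hK0, hup⟩ := H.up
  obtain ⟨K, hK⟩ : ∃ K : ℝ, K = K0 + γ * K0 + β * K0 + 1000 := ⟨_, rfl⟩
  have hK1000 : 1000 ≤ K := by
    have : 0 ≤ K0 + γ * K0 + β * K0 := by positivity
    linarith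
  have hK1 : 1 ≤ K := by linarith
  have hKp : 0 < K := by linarith
  obtain ⟨ε', hε'⟩ : ∃ ε' : ℝ, ε' = min (1 / 4) (ε / (8 * D)) := ⟨_, rfl⟩
  have hε'0 : 0 < ε' := by rw [hε']; exact lt_min (by norm_num) (by positivity)
  have hε'4 : ε' ≤ 1 / 4 := by rw [hε']; exact min_le_left _ _
  have hDε : D * ε' ≤ ε / 8 := by
    have h1 : ε' ≤ ε / (8 * D) := by rw [hε']; exact min_le_right _ _
    calc D * ε' ≤ D * (ε / (8 * D)) := by gcongr
      _ = ε / 8 := by field_simp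
  obtain ⟨CF, hCF, hF⟩ := numF α β γ hα hαβ hγ
  obtain ⟨CL, hCL, hL⟩ := numL α β γ hα hαβ
  obtain ⟨CE, hCE, hE⟩ := numE α β γ ε' hα hαβ hε'0 hε'4
  obtain ⟨CK, hCK, hKK⟩ := numK α β γ hα hαβ hγ
  obtain ⟨c1, hc1, hlow⟩ := H.low (ε / 2) (by positivity)
  obtain ⟨c2, hc2, hlow2⟩ := H.low (d / 2) (by positivity)
  obtain ⟨c3, hc3, hgap⟩ := H.gap (ε / 2) (by positivity)
  obtain ⟨η, hη⟩ : ∃ η : ℝ, η = ε / (8 * D) := ⟨_, rfl⟩
  have hη0 : 0 < η := by rw [hη]; positivity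
  obtain ⟨ω, hω⟩ : ∃ ω : ℝ, ω = ε / (48 * D) := ⟨_, rfl⟩
  have hω0 : 0 < ω := by rw [hω]; positivity
  -- constants
  obtain ⟨KF, hKF⟩ : ∃ KF : ℝ, KF = CF * (K / c1 * ((1 + 1 / η) ^ 4 * K ^ (4 * η))) := ⟨_, rfl⟩
  obtain ⟨KL, hKL⟩ : ∃ KL : ℝ, KL = CL * ((1 + 1 / η) ^ 4 * K ^ (4 * η)) := ⟨_, rfl⟩
  obtain ⟨KE, hKE⟩ : ∃ KE : ℝ, KE = CE * c1 ^ (-1 + 2 * ε') := ⟨_, rfl⟩
  obtain ⟨N2, hN2⟩ : ∃ N2 : ℝ, N2 = K * 2 ^ D := ⟨_, rfl⟩
  have hN20 : 0 < N2 := by rw [hN2]; positivity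
  obtain ⟨KX, hKX⟩ : ∃ KX : ℝ, KX = CK * ((1 + 1 / ω) ^ 6 * (2 * N2 ^ (1 + ε')) ^ (1 + 6 * ω)) / c3 := ⟨_, rfl⟩
  have hKF0 : 0 < KF := by rw [hKF]; positivity
  have hKL0 : 0 < KL := by rw [hKL]; positivity
  have hKE0 : 0 < KE := by rw [hKE]; positivity
  have hKX0 : 0 < KX := by rw [hKX]; positivity
  refine ⟨3 * (KF + KL + KE) + KX, max t0 ((1 / (α * c2)) ^ (2 / d)), XL K D ε', by positivity,
    le_max_left _ _, ?_, ?_⟩
  · intro x hx
    have hxt : t0 ≤ x := (le_max_left _ _).trans hx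
    have hx1 : 1 ≤ x := H.t0_ge.trans hxt
    have hx0 : 0 < x := by linarith
    have hQ1 := H.one x hxt
    have hQP := H.QP x hxt
    have hy0 := H.y0 x hxt
    obtain ⟨hPu, hyu⟩ := hup x hxt
    have hQ0 : 0 ≤ Q x := by linarith
    have hP0 : 0 < P x := by linarith
    have hxD : 1 ≤ x ^ D := Real.one_le_rpow hx1 hD.le
    obtain ⟨N, hN⟩ : ∃ N : ℝ, N = K * x ^ D := ⟨_, rfl⟩
    have hNu : y x + γ * Q x + β * P x ≤ N := by
      have a1 : γ * Q x ≤ γ * (K0 * x ^ D) := by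
        have : Q x ≤ K0 * x ^ D := hQP.trans hPu
        gcongr
      have a2 : β * P x ≤ β * (K0 * x ^ D) := by gcongr
      rw [hN, hK]
      nlinarith
    have hN1000 : 1000 ≤ N := by
      rw [hN]
      nlinarith
    have hN1 : 1 ≤ N := by linarith
    have hN0 : 0 < N := by linarith
    have hαP : 1 ≤ α * P x := by
      have b1 : (1 / (α * c2)) ^ (2 / d) ≤ x := (le_max_right _ _).trans hx
      have b2 : 1 / (α * c2) ≤ x ^ (d / 2) := by
        have b3 := Real.rpow_le_rpow (by positivity) b1 (by positivity : 0 ≤ d / 2)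
        rw [← Real.rpow_mul (by positivity)] at b3
        have b4 : 2 / d * (d / 2) = 1 := by field_simp
        rw [b4, Real.rpow_one] at b3
        exact b3
      have b5 := hlow2 x hxt
      have b6 : d - d / 2 = d / 2 := by ring
      rw [b6] at b5
      rw [div_le_iff₀ (by positivity)] at b2
      calc (1:ℝ) ≤ x ^ (d / 2) * (α * c2) := b2
        _ = α * (c2 * x ^ (d / 2)) := by ring
        _ ≤ _ := by gcongr
    have hlN : 0 ≤ Real.log N := Real.log_nonneg hN1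
    have hlog4 : (1 + Real.log N) ^ 4 ≤ (1 + 1 / η) ^ 4 * K ^ (4 * η) * x ^ (ε / 2) := by
      have k1 := one_log hη0 hN1
      calc (1 + Real.log N) ^ 4 ≤ ((1 + 1 / η) * N ^ η) ^ 4 := by gcongr
        _ = (1 + 1 / η) ^ 4 * (N ^ η) ^ 4 := by ring
        _ = (1 + 1 / η) ^ 4 * K ^ (4 * η) * x ^ (ε / 2) := by
            have k2 : (N ^ η) ^ 4 = K ^ (4 * η) * x ^ (ε / 2) := by
              rw [hN, ← Real.rpow_natCast, ← Real.rpow_mul (by positivity), Real.mul_rpow hKp.le (by positivity),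
                ← Real.rpow_mul hx0.le]
              congr 2
              · push_cast; ring
              · rw [hη]; push_cast; field_simp; norm_num
            rw [k2]
            ring
    have hx2 : x ^ (ε / 2) ≤ x ^ (D - d + ε) := Real.rpow_le_rpow_of_exponent_le hx1 (by linarith [H.dD])
    have hc : 0 < x ^ (D - d + ε) := by positivity
    -- F
    have bF : ∫ θ in bx α β γ, ‖gF α β (y x) (Q x) (P x) θ‖ ^ 2 ≤ KF * x ^ (D - d + ε) := by
      refine (hF (y x) (Q x) (P x) N hQ1 hQP hy0 hNu hN1000).trans ?_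
      have a1 : N / P x ≤ K / c1 * x ^ (D - d + ε / 2) := by
        rw [div_le_iff₀ hP0]
        have a2 := hlow x hxt
        have a3 : x ^ (D - d + ε / 2) * x ^ (d - ε / 2) = x ^ D := by
          rw [← Real.rpow_add hx0]
          congr 1
          ring
        calc N = K / c1 * x ^ (D - d + ε / 2) * (c1 * x ^ (d - ε / 2)) := by
              rw [hN, ← a3]
              field_simp
          _ ≤ _ := by gcongr
      calc CF * (N / P x * (1 + Real.log N) ^ 4) ≤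
            CF * (K / c1 * x ^ (D - d + ε / 2) * ((1 + 1 / η) ^ 4 * K ^ (4 * η) * x ^ (ε / 2))) := by gcongr
        _ = KF * (x ^ (D - d + ε / 2) * x ^ (ε / 2)) := by rw [hKF]; ring
        _ = _ := by
            rw [← Real.rpow_add hx0]
            congr 2
            ring
    -- L
    have bL : ∫ θ in bx α β γ, ‖gL α β (y x) (Q x) (P x) θ‖ ^ 2 ≤ KL * x ^ (D - d + ε) := by
      refine (hL (y x) (Q x) (P x) N hQ0 hP0 hy0 hαP hNu).trans ?_
      have a1 : (1 + Real.log N) ^ 2 ≤ (1 + Real.log N) ^ 4 := pow_le_pow_right₀ (by linarith) (by norm_num)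
      calc CL * (1 + Real.log N) ^ 2 ≤ CL * ((1 + 1 / η) ^ 4 * K ^ (4 * η) * x ^ (ε / 2)) := by
            gcongr
            exact a1.trans hlog4
        _ = KL * x ^ (ε / 2) := by rw [hKL]; ring
        _ ≤ _ := by gcongr
    -- E
    have bE : ∫ θ in bx α β γ, ‖gE α β (XL K D ε' x) (y x) (Q x) (P x) θ‖ ^ 2 ≤ KE * x ^ (-d + ε) := by
      refine (hE (y x) (Q x) (P x) N (XL K D ε' x) hQ0 hP0 hy0 hαP hNu (by rw [hN]; exact XL_lb _ _ _ _)).trans ?_
      have a2 := hlow x hxt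
      have a3 : P x ^ (-1 + 2 * ε') ≤ (c1 * x ^ (d - ε / 2)) ^ (-1 + 2 * ε') :=
        Real.rpow_le_rpow_of_nonpos (by positivity) a2 (by linarith)
      rw [Real.mul_rpow hc1.le (by positivity), ← Real.rpow_mul hx0.le] at a3
      have a4 : (d - ε / 2) * (-1 + 2 * ε') ≤ -d + ε := by
        have h1 : d * ε' ≤ ε / 8 := by
          have : d * ε' ≤ D * ε' := by
            have := H.dD
            gcongr
          linarith
        have h2 : 0 ≤ ε * ε' := by positivity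
        nlinarith
      calc CE * P x ^ (-1 + 2 * ε') ≤ CE * (c1 ^ (-1 + 2 * ε') * x ^ ((d - ε / 2) * (-1 + 2 * ε'))) := by gcongr
        _ ≤ CE * (c1 ^ (-1 + 2 * ε') * x ^ (-d + ε)) := by gcongr
        _ = _ := by rw [hKE]; ring
    -- P
    have bP : ∫ θ in bx α β γ, ‖gP α β (XL K D ε' x) (y x) (Q x) (P x) θ‖ ^ 2 ≤
        3 * (KF + KL + KE) * x ^ (D - d + ε) := by
      have k1 := numP (α := α) (β := β) (γ := γ) (X := XL K D ε' x) hα hP0 hQ0 hy0
      have k3 : KE * x ^ (-d + ε) ≤ KE * x ^ (D - d + ε) := by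
        have : x ^ (-d + ε) ≤ x ^ (D - d + ε) := Real.rpow_le_rpow_of_exponent_le hx1 (by linarith)
        gcongr
      linarith
    have hxd : 0 < x ^ (-d + ε) := by positivity
    refine ⟨bF.trans ?_, bL.trans ?_, bP.trans ?_, bE.trans ?_⟩
    · gcongr
      linarith
    · gcongr
      linarith
    · gcongr
      linarith
    · gcongr
      linarith
  · intro t s ht hts hs2
    have htt : t0 ≤ t := (le_max_left _ _).trans ht
    have hst' : t0 ≤ s := htt.trans hts.le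
    have ht1 : 1 ≤ t := H.t0_ge.trans htt
    have ht0 : 0 < t := by linarith
    have hs1 : 1 ≤ s := by linarith
    have hs0 : 0 < s := by linarith
    have hst : 0 < s - t := by linarith
    have htD : 1 ≤ t ^ D := Real.one_le_rpow ht1 hD.le
    have hsD : 1 ≤ s ^ D := Real.one_le_rpow hs1 hD.le
    have hΔ := hgap t s htt hts hs2
    have hΔ0 : 0 < c3 * t ^ (d + e - 1 - ε / 2) * (s - t) := by positivity
    have hΔ1 : 0 < |Q t * P s - P t * Q s| := hΔ0.trans_le hΔ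
    have hPX : ∀ x, t0 ≤ x → P x ≤ XL K D ε' x := by
      intro x hx
      have hx1 : 1 ≤ x := H.t0_ge.trans hx
      refine (hup x hx).1.trans (le_trans ?_ (XL_ge hK1 hD.le hε'0 hx1))
      have : K0 ≤ K := by
        have : 0 ≤ γ * K0 + β * K0 := by positivity
        rw [hK]; linarith
      have : 0 ≤ x ^ D := by positivity
      gcongr
    have k1 := hKK (P t) (Q t) (P s) (Q s) (y t) (y s) (XL K D ε' t) (XL K D ε' s) (H.one t htt) (H.QP t htt)
      (H.one s hst') (H.QP s hst') (H.y0 t htt) (H.y0 s hst') (hPX t htt) (hPX s hst') hΔ1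
    refine k1.trans ?_
    obtain ⟨W, hW⟩ : ∃ W : ℝ, W = 2 * (N2 * t ^ D) ^ (1 + ε') := ⟨_, rfl⟩
    have hXt1 : (1:ℝ) ≤ XL K D ε' t := (H.one t htt).trans ((H.QP t htt).trans (hPX t htt))
    have hXs1 : (1:ℝ) ≤ XL K D ε' s := (H.one s hst').trans ((H.QP s hst').trans (hPX s hst'))
    have hXsW : (XL K D ε' s : ℝ) ≤ W := by
      refine (XL_ub hK1 hD.le hε'0 hs1).trans ?_
      rw [hW, hN2]
      have : s ^ D ≤ 2 ^ D * t ^ D := by
        rw [← Real.mul_rpow (by norm_num) ht0.le]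
        exact Real.rpow_le_rpow hs0.le hs2 hD.le
      have h3 : K * s ^ D ≤ K * 2 ^ D * t ^ D := by
        rw [mul_assoc]
        gcongr
      gcongr
    have hXtW : (XL K D ε' t : ℝ) ≤ W := by
      refine (XL_ub hK1 hD.le hε'0 ht1).trans ?_
      rw [hW, hN2]
      have h2 : (1:ℝ) ≤ 2 ^ D := Real.one_le_rpow (by norm_num) hD.le
      have h3 : K * t ^ D ≤ K * 2 ^ D * t ^ D := by
        rw [mul_assoc]
        have : t ^ D ≤ 2 ^ D * t ^ D := by nlinarith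
        gcongr
      gcongr
    have hW1 : 1 ≤ W := hXt1.trans hXtW
    have hW0 : 0 < W := by linarith
    have hl1 : 0 ≤ Real.log (XL K D ε' t : ℝ) := Real.log_nonneg hXt1
    have hl2 : 0 ≤ Real.log (XL K D ε' s : ℝ) := Real.log_nonneg hXs1
    have hlW : 0 ≤ Real.log W := Real.log_nonneg hW1
    have g1 : Real.log (XL K D ε' t : ℝ) ≤ Real.log W := Real.log_le_log (by linarith) hXtW
    have g2 : Real.log (XL K D ε' s : ℝ) ≤ Real.log W := Real.log_le_log (by linarith) hXsW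
    have g3 : √((XL K D ε' t : ℝ) * XL K D ε' s) ≤ W := by
      apply Real.sqrt_le_iff.2
      refine ⟨hW0.le, ?_⟩
      rw [sq]
      gcongr
    have g4 : ((1 + Real.log (XL K D ε' t)) * (1 + Real.log (XL K D ε' s))) ^ 3 ≤ (1 + 1 / ω) ^ 6 * W ^ (6 * ω) := by
      calc ((1 + Real.log (XL K D ε' t)) * (1 + Real.log (XL K D ε' s))) ^ 3 ≤
            ((1 + Real.log W) * (1 + Real.log W)) ^ 3 := by gcongr
        _ = (1 + Real.log W) ^ 6 := by ring
        _ ≤ ((1 + 1 / ω) * W ^ ω) ^ 6 := by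
            have := one_log hω0 hW1
            gcongr
        _ = _ := by
            rw [mul_pow, ← Real.rpow_natCast (W ^ ω), ← Real.rpow_mul hW0.le]
            congr 2
            push_cast
            ring
    have g5 : W ^ (6 * ω) * W = W ^ (1 + 6 * ω) := by
      rw [Real.rpow_add hW0, Real.rpow_one]
      ring
    have g6 : W ^ (1 + 6 * ω) ≤ (2 * N2 ^ (1 + ε')) ^ (1 + 6 * ω) * t ^ (D + ε / 2) := by
      have e1 : W = (2 * N2 ^ (1 + ε')) * t ^ (D * (1 + ε')) := by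
        rw [hW, Real.mul_rpow hN20.le (by positivity), ← Real.rpow_mul ht0.le]
        ring
      rw [e1, Real.mul_rpow (by positivity) (by positivity), ← Real.rpow_mul ht0.le]
      have e2 : D * (1 + ε') * (1 + 6 * ω) ≤ D + ε / 2 := by
        have h1 : D * ω = ε / 48 := by rw [hω]; field_simp
        have h2 : D * (1 + ε') * (1 + 6 * ω) = D + D * ε' + 6 * (D * ω) + 6 * ε' * (D * ω) := by ring
        rw [h2, h1]
        have h3 : ε' * ε ≤ 1 / 4 * ε := by gcongr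
        linarith
      gcongr
    have q0 : 0 ≤ √((XL K D ε' t : ℝ) * XL K D ε' s) := Real.sqrt_nonneg _
    calc CK * ((1 + Real.log (XL K D ε' t)) * (1 + Real.log (XL K D ε' s))) ^ 3 *
          (√((XL K D ε' t : ℝ) * XL K D ε' s) / |Q t * P s - P t * Q s|) ≤
          CK * ((1 + 1 / ω) ^ 6 * W ^ (6 * ω)) * (W / (c3 * t ^ (d + e - 1 - ε / 2) * (s - t))) := by
            gcongr
      _ = CK * (1 + 1 / ω) ^ 6 / c3 * (W ^ (6 * ω) * W) / (t ^ (d + e - 1 - ε / 2) * (s - t)) := by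
          field_simp
      _ ≤ CK * (1 + 1 / ω) ^ 6 / c3 * ((2 * N2 ^ (1 + ε')) ^ (1 + 6 * ω) * t ^ (D + ε / 2)) /
          (t ^ (d + e - 1 - ε / 2) * (s - t)) := by
          rw [g5]
          gcongr
      _ = KX * (t ^ (D + ε / 2) / t ^ (d + e - 1 - ε / 2)) / (s - t) := by
          rw [hKX]
          field_simp
      _ = KX * t ^ (D - d + 1 - e + ε) / (s - t) := by
          rw [← Real.rpow_sub ht0]
          congr 3
          ring
      _ ≤ _ := by
          gcongr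
          have : 0 ≤ 3 * (KF + KL + KE) := by positivity
          linarith

end Pool.Agent.H471.ZP
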