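import Pool.Agent.H471.ZP.Fin

set_option autoImplicit false

/-!
The pairs of functions `t ^ θ`, `t ^ η / (log t) ^ m`.
-/

namespace Pool.Agent.H471.ZP

open Complex MeasureTheory Set
open Pool.Agent.H471.QP (one_log pow_gap)

/-- powers against logarithms -/
lemma log_pow (m : ℕ) (ε : ℝ) (hε : 0 < ε) : ∃ C : ℝ, 0 < C ∧ ∀ t s : ℝ, 3 ≤ t → t ≤ s → s ≤ 2 * t →
    Real.log s ^ m ≤ C * t ^ ε := by
  obtain ⟨ω, hω⟩ : ∃ ω : ℝ, ω = ε / (m + 1) := ⟨_, rfl⟩
  have hm : (0:ℝ) ≤ m := Nat.cast_nonneg m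
  have hω0 : 0 < ω := by rw [hω]; positivity
  refine ⟨((1 + 1 / ω) * 2 ^ ω) ^ m, by positivity, fun t s ht hts hs => ?_⟩
  have ht0 : 0 < t := by linarith
  have hs1 : 1 ≤ s := by linarith
  have hl : 0 ≤ Real.log s := Real.log_nonneg hs1
  have h1 := one_log hω0 hs1
  have h2 : s ^ ω ≤ 2 ^ ω * t ^ ω := by
    rw [← Real.mul_rpow (by norm_num) ht0.le]
    exact Real.rpow_le_rpow (by linarith) hs hω0.le
  have h3 : Real.log s ≤ (1 + 1 / ω) * 2 ^ ω * t ^ ω := by
    have : (1 + 1 / ω) * s ^ ω ≤ (1 + 1 / ω) * (2 ^ ω * t ^ ω) := by gcongr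
    linarith
  calc Real.log s ^ m ≤ ((1 + 1 / ω) * 2 ^ ω * t ^ ω) ^ m := by gcongr
    _ = ((1 + 1 / ω) * 2 ^ ω) ^ m * (t ^ ω) ^ m := by rw [mul_pow]
    _ ≤ ((1 + 1 / ω) * 2 ^ ω) ^ m * t ^ ε := by
        gcongr
        rw [← Real.rpow_natCast, ← Real.rpow_mul ht0.le]
        apply Real.rpow_le_rpow_of_exponent_le (by linarith)
        rw [hω, div_mul_eq_mul_div, div_le_iff₀ (by positivity)]
        nlinarith

lemma pow_diff {δ : ℝ} (hδ : 0 < δ) {t s : ℝ} (ht : 0 < t) (hts : t < s) (hs : s ≤ 2 * t) :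
    δ * 2 ^ (-δ - 1) * t ^ (-δ - 1) * (s - t) ≤ t ^ (-δ) - s ^ (-δ) := by
  obtain ⟨c, hc, hc2⟩ := exists_hasDerivAt_eq_slope (fun x : ℝ => -x ^ (-δ)) (fun x : ℝ => δ * x ^ (-δ - 1)) hts
    (by
      intro x hx
      have hx0 : 0 < x := ht.trans_le hx.1
      exact ((Real.continuousAt_rpow_const x (-δ) (Or.inl hx0.ne')).neg).continuousWithinAt)
    (by
      intro x hx
      have hx0 : 0 < x := ht.trans hx.1
      have h := (Real.hasDerivAt_rpow_const (x := x) (p := -δ) (Or.inl hx0.ne')).neg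
      have e : -(-δ * x ^ (-δ - 1)) = δ * x ^ (-δ - 1) := by ring
      rw [e] at h
      exact h)
  have hst : 0 < s - t := by linarith
  rw [eq_div_iff hst.ne'] at hc2
  have e1 : t ^ (-δ) - s ^ (-δ) = δ * c ^ (-δ - 1) * (s - t) := by rw [hc2]; ring
  rw [e1]
  have hc0 : 0 < c := ht.trans hc.1
  have h2 : (2 * t) ^ (-δ - 1) ≤ c ^ (-δ - 1) :=
    Real.rpow_le_rpow_of_nonpos hc0 (by linarith [hc.2]) (by linarith)
  rw [Real.mul_rpow (by norm_num) ht.le] at h2
  have h3 : δ * 2 ^ (-δ - 1) * t ^ (-δ - 1) = δ * (2 ^ (-δ - 1) * t ^ (-δ - 1)) := by ring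
  rw [h3]
  gcongr

/-- the gap -/
lemma fam_gap (θ η : ℝ) (m : ℕ) (hη : 0 < η) (hηθ : η ≤ θ) (hm : η < θ ∨ 1 ≤ m) (ε : ℝ) (hε : 0 < ε) :
    ∃ c, 0 < c ∧ ∀ t s : ℝ, 3 ≤ t → t < s → s ≤ 2 * t →
      c * t ^ (θ + η - 1 - ε) * (s - t) ≤
        |t ^ η / Real.log t ^ m * s ^ θ - t ^ θ * (s ^ η / Real.log s ^ m)| := by
  have hθ : 0 < θ := hη.trans_le hηθ
  -- basic facts
  have basic : ∀ t s : ℝ, 3 ≤ t → t < s → s ≤ 2 * t → 1 ≤ Real.log t ∧ Real.log t ≤ Real.log s := by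
    intro t s ht hts _
    constructor
    · rw [Real.le_log_iff_exp_le (by linarith)]
      have := Real.exp_one_lt_d9
      linarith
    · exact Real.log_le_log (by linarith) hts.le
  rcases hm with hm | hm
  · obtain ⟨C, hC, hL⟩ := log_pow m ε hε
    obtain ⟨δ, hδ⟩ : ∃ δ : ℝ, δ = θ - η := ⟨_, rfl⟩
    have hδ0 : 0 < δ := by rw [hδ]; linarith
    refine ⟨δ * 2 ^ (-δ - 1) / C, by positivity, fun t s ht hts hs => ?_⟩
    have ht0 : 0 < t := by linarith
    have hs0 : 0 < s := by linarith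
    obtain ⟨b1, b2⟩ := basic t s ht hts hs
    have hLt : 0 < Real.log t ^ m := by positivity
    have hLs1 : 1 ≤ Real.log s := b1.trans b2
    have hLs : 0 < Real.log s ^ m := by positivity
    have hst : 0 < s - t := by linarith
    have k1 := pow_diff hδ0 ht0 hts hs
    have k2 := hL t s ht hts.le hs
    have k3 : Real.log t ^ m ≤ Real.log s ^ m := pow_le_pow_left₀ (by linarith) b2 m
    refine le_trans ?_ (le_abs_self _)
    have e1 : t ^ η = t ^ θ * t ^ (-δ) := by rw [← Real.rpow_add ht0]; congr 1; rw [hδ]; ring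
    have e2 : s ^ η = s ^ θ * s ^ (-δ) := by rw [← Real.rpow_add hs0]; congr 1; rw [hδ]; ring
    have p1 : 0 < t ^ (-δ) := by positivity
    have p2 : 0 < t ^ θ := by positivity
    have p3 : 0 < s ^ θ := by positivity
    have k4 : t ^ θ ≤ s ^ θ := Real.rpow_le_rpow ht0.le hts.le hθ.le
    have e3 : t ^ θ * t ^ θ * t ^ (-δ - 1) * t ^ (-ε) = t ^ (θ + η - 1 - ε) := by
      rw [← Real.rpow_add ht0, ← Real.rpow_add ht0, ← Real.rpow_add ht0]
      congr 1
      rw [hδ]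
      ring
    have e4 : t ^ ε * t ^ (-ε) = 1 := by
      rw [← Real.rpow_add ht0, add_neg_cancel, Real.rpow_zero]
    have p4 : 0 < t ^ (-ε) := by positivity
    have k5 : (C * t ^ ε)⁻¹ ≤ (Real.log s ^ m)⁻¹ := inv_anti₀ hLs k2
    have e5 : (C * t ^ ε)⁻¹ = C⁻¹ * t ^ (-ε) := by
      rw [mul_inv, ← Real.rpow_neg ht0.le]
    rw [e5] at k5
    have p5 : 0 ≤ δ * 2 ^ (-δ - 1) * t ^ (-δ - 1) * (s - t) := by positivity
    calc δ * 2 ^ (-δ - 1) / C * t ^ (θ + η - 1 - ε) * (s - t) =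
          (t ^ θ * t ^ θ) * ((δ * 2 ^ (-δ - 1) * t ^ (-δ - 1) * (s - t)) * (C⁻¹ * t ^ (-ε))) := by
          rw [← e3]
          field_simp
      _ ≤ (t ^ θ * s ^ θ) * ((t ^ (-δ) - s ^ (-δ)) * (Real.log s ^ m)⁻¹) := by
          gcongr
          exact p5.trans k1
      _ ≤ (t ^ θ * s ^ θ) * (t ^ (-δ) * (Real.log t ^ m)⁻¹ - s ^ (-δ) * (Real.log s ^ m)⁻¹) := by
          gcongr
          rw [sub_mul]
          have : (Real.log s ^ m)⁻¹ ≤ (Real.log t ^ m)⁻¹ := inv_anti₀ hLt k3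
          gcongr
      _ = _ := by
          rw [e1, e2]
          field_simp
  · obtain ⟨C, hC, hL⟩ := log_pow (2 * m) ε hε
    refine ⟨1 / (2 * C), by positivity, fun t s ht hts hs => ?_⟩
    have ht0 : 0 < t := by linarith
    have hs0 : 0 < s := by linarith
    obtain ⟨b1, b2⟩ := basic t s ht hts hs
    have hLt : 0 < Real.log t ^ m := by positivity
    have hLs1 : 1 ≤ Real.log s := b1.trans b2
    have hLs : 0 < Real.log s ^ m := by positivity
    have hst : 0 < s - t := by linarith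
    have k2 := hL t s ht hts.le hs
    refine le_trans ?_ (le_abs_self _)
    have k3 : t ^ η * s ^ θ ≥ t ^ θ * s ^ η := by
      have e1 : s ^ θ = s ^ η * s ^ (θ - η) := by rw [← Real.rpow_add hs0]; congr 1; ring
      have e2 : t ^ θ = t ^ η * t ^ (θ - η) := by rw [← Real.rpow_add ht0]; congr 1; ring
      have e3 : t ^ (θ - η) ≤ s ^ (θ - η) := Real.rpow_le_rpow ht0.le hts.le (by linarith)
      rw [e1, e2]
      have : 0 ≤ t ^ η * s ^ η := by positivity
      calc t ^ η * t ^ (θ - η) * s ^ η = t ^ η * s ^ η * t ^ (θ - η) := by ring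
        _ ≤ t ^ η * s ^ η * s ^ (θ - η) := by gcongr
        _ = _ := by ring
    have k4 : (s - t) / (2 * t) ≤ Real.log s - Real.log t := by
      have h1 : Real.log (t / s) ≤ t / s - 1 := Real.log_le_sub_one_of_pos (by positivity)
      rw [Real.log_div ht0.ne' hs0.ne'] at h1
      have h2 : (s - t) / (2 * t) ≤ 1 - t / s := by
        have : 1 - t / s = (s - t) / s := by field_simp
        rw [this]
        gcongr
      linarith
    have k5 : Real.log s - Real.log t ≤ Real.log s ^ m - Real.log t ^ m := by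
      have h1 := pow_gap (by linarith : 0 ≤ Real.log t) b2 hm
      have h2 : 1 ≤ Real.log s ^ (m - 1) := one_le_pow₀ hLs1
      nlinarith
    have k6 : 1 / Real.log t ^ m - 1 / Real.log s ^ m ≥ (s - t) / (2 * t) * (C * t ^ ε)⁻¹ := by
      have e1 : 1 / Real.log t ^ m - 1 / Real.log s ^ m =
          (Real.log s ^ m - Real.log t ^ m) * (Real.log t ^ m * Real.log s ^ m)⁻¹ := by
        field_simp
      rw [e1]
      have k7 : Real.log t ^ m * Real.log s ^ m ≤ C * t ^ ε := by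
        refine le_trans ?_ k2
        rw [two_mul, pow_add]
        have : Real.log t ^ m ≤ Real.log s ^ m := pow_le_pow_left₀ (by linarith) b2 m
        gcongr
      have k8 : (C * t ^ ε)⁻¹ ≤ (Real.log t ^ m * Real.log s ^ m)⁻¹ := inv_anti₀ (by positivity) k7
      have k9 : 0 ≤ (s - t) / (2 * t) := by positivity
      have k10 : (s - t) / (2 * t) ≤ Real.log s ^ m - Real.log t ^ m := k4.trans k5
      exact mul_le_mul k10 k8 (by positivity) (k9.trans k10)
    have e5 : (C * t ^ ε)⁻¹ = C⁻¹ * t ^ (-ε) := by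
      rw [mul_inv, ← Real.rpow_neg ht0.le]
    rw [e5] at k6
    have e6 : t ^ θ * t ^ η * t ^ (-1 : ℝ) * t ^ (-ε) = t ^ (θ + η - 1 - ε) := by
      rw [← Real.rpow_add ht0, ← Real.rpow_add ht0, ← Real.rpow_add ht0]
      congr 1
    have k11 : t ^ η ≤ s ^ η := Real.rpow_le_rpow ht0.le hts.le hη.le
    have p0 : 0 < t ^ θ := by positivity
    calc 1 / (2 * C) * t ^ (θ + η - 1 - ε) * (s - t) =
          (t ^ θ * t ^ η) * ((s - t) / (2 * t) * (C⁻¹ * t ^ (-ε))) := by
          rw [← e6, Real.rpow_neg_one]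
          field_simp
      _ ≤ (t ^ θ * s ^ η) * (1 / Real.log t ^ m - 1 / Real.log s ^ m) := by
          gcongr
      _ = (t ^ θ * s ^ η) / Real.log t ^ m - (t ^ θ * s ^ η) / Real.log s ^ m := by ring
      _ ≤ (t ^ η * s ^ θ) / Real.log t ^ m - (t ^ θ * s ^ η) / Real.log s ^ m := by
          gcongr
      _ = _ := by ring

lemma fam_inf (θ η : ℝ) (m : ℕ) (hηθ : η ≤ θ) (hm : η < θ ∨ 1 ≤ m) (R : ℝ) (hR : 0 < R) :
    ∃ t1 : ℝ, ∀ t, t1 ≤ t → R * (t ^ η / Real.log t ^ m) ≤ t ^ θ := by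
  rcases hm with hm | hm
  · refine ⟨max 3 (R ^ (1 / (θ - η))), fun t ht => ?_⟩
    have ht3 : 3 ≤ t := (le_max_left _ _).trans ht
    have ht0 : 0 < t := by linarith
    have hl : 1 ≤ Real.log t := by
      rw [Real.le_log_iff_exp_le ht0]
      have := Real.exp_one_lt_d9
      linarith
    have h1 : R ≤ t ^ (θ - η) := by
      have h2 : R ^ (1 / (θ - η)) ≤ t := (le_max_right _ _).trans ht
      have h3 := Real.rpow_le_rpow (by positivity) h2 (by linarith : 0 ≤ θ - η)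
      rw [← Real.rpow_mul hR.le] at h3
      have h4 : 1 / (θ - η) * (θ - η) = 1 := by
        have : θ - η ≠ 0 := by linarith
        field_simp
      rwa [h4, Real.rpow_one] at h3
    have h5 : t ^ η / Real.log t ^ m ≤ t ^ η := div_le_self (by positivity) (one_le_pow₀ hl)
    calc R * (t ^ η / Real.log t ^ m) ≤ t ^ (θ - η) * t ^ η := by gcongr
      _ = t ^ θ := by rw [← Real.rpow_add ht0]; congr 1; ring
  · refine ⟨max 3 (Real.exp R), fun t ht => ?_⟩
    have ht3 : 3 ≤ t := (le_max_left _ _).trans ht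
    have ht0 : 0 < t := by linarith
    have hl : 1 ≤ Real.log t := by
      rw [Real.le_log_iff_exp_le ht0]
      have := Real.exp_one_lt_d9
      linarith
    have h1 : R ≤ Real.log t := by
      rw [Real.le_log_iff_exp_le ht0]
      exact (le_max_right _ _).trans ht
    have h2 : Real.log t ≤ Real.log t ^ m := le_self_pow₀ hl (by omega)
    have h3 : t ^ η ≤ t ^ θ := Real.rpow_le_rpow_of_exponent_le (by linarith) hηθ
    rw [mul_div_assoc', div_le_iff₀ (by positivity)]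
    calc R * t ^ η ≤ Real.log t ^ m * t ^ θ := by
          have : R ≤ Real.log t ^ m := h1.trans h2
          gcongr
      _ = _ := by ring

/-- the family is admissible -/
lemma fam_FD (θ η D : ℝ) (m : ℕ) (hη : 0 < η) (hηθ : η ≤ θ) (hm : η < θ ∨ 1 ≤ m) (hD : θ ≤ D) :
    ∃ t1 : ℝ, 3 ≤ t1 ∧ ∀ (y : ℝ → ℝ) (Y t0 e : ℝ), t1 ≤ t0 → e ≤ η → (∀ t, t0 ≤ t → 0 ≤ y t ∧ y t ≤ Y * t ^ D) →
      FD (fun t => t ^ θ) (fun t => t ^ η / Real.log t ^ m) y D θ e t0 := by
  have hθ : 0 < θ := hη.trans_le hηθ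
  have h1 : ∃ t1 : ℝ, ∀ t, t1 ≤ t → 3 ≤ t → Real.log t ^ m ≤ t ^ η := by
    obtain ⟨C, hC, hL⟩ := log_pow m (η / 2) (by positivity)
    refine ⟨C ^ (2 / η), fun t ht ht3 => ?_⟩
    have ht0 : 0 < t := by linarith
    have h2 := hL t t ht3 le_rfl (by linarith)
    have h3 : C ≤ t ^ (η / 2) := by
      have h4 := Real.rpow_le_rpow (by positivity) ht (by positivity : 0 ≤ η / 2)
      rw [← Real.rpow_mul hC.le] at h4
      have h5 : 2 / η * (η / 2) = 1 := by field_simp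
      rwa [h5, Real.rpow_one] at h4
    calc Real.log t ^ m ≤ C * t ^ (η / 2) := h2
      _ ≤ t ^ (η / 2) * t ^ (η / 2) := by gcongr
      _ = t ^ η := by rw [← Real.rpow_add ht0]; congr 1; ring
  obtain ⟨t1, ht1⟩ := h1
  refine ⟨max 3 t1, le_max_left _ _, fun y Y t0 e ht0 he hy => ?_⟩
  have h3t : ∀ t, t0 ≤ t → 3 ≤ t := fun t ht => (le_max_left _ _).trans (ht0.trans ht)
  have hlt : ∀ t, t0 ≤ t → 1 ≤ Real.log t := by
    intro t ht
    have := h3t t ht
    rw [Real.le_log_iff_exp_le (by linarith)]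
    have := Real.exp_one_lt_d9
    linarith
  refine ⟨by linarith [h3t t0 le_rfl], hθ, hD, ?_, ?_, fun t ht => (hy t ht).1, ?_, ?_, ?_⟩
  · intro t ht
    have ht3 := h3t t ht
    have hl := hlt t ht
    rw [le_div_iff₀ (by positivity), one_mul]
    exact ht1 t ((le_max_right _ _).trans (ht0.trans ht)) ht3
  · intro t ht
    have ht3 := h3t t ht
    have hl := hlt t ht
    have h5 : t ^ η / Real.log t ^ m ≤ t ^ η := div_le_self (by positivity) (one_le_pow₀ hl)
    exact h5.trans (Real.rpow_le_rpow_of_exponent_le (by linarith) hηθ)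
  · refine ⟨1 + |Y|, by positivity, fun t ht => ?_⟩
    have ht3 := h3t t ht
    have h5 : t ^ θ ≤ t ^ D := Real.rpow_le_rpow_of_exponent_le (by linarith) hD
    have h6 : 0 ≤ t ^ D := by positivity
    have h7 : Y * t ^ D ≤ |Y| * t ^ D := by
      gcongr
      exact le_abs_self Y
    have h8 : 0 ≤ |Y| * t ^ D := by positivity
    constructor
    · linarith
    · linarith [(hy t ht).2]
  · intro ε hε
    refine ⟨1, one_pos, fun t ht => ?_⟩
    have ht3 := h3t t ht
    rw [one_mul]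
    exact Real.rpow_le_rpow_of_exponent_le (by linarith) (by linarith)
  · intro ε hε
    obtain ⟨c, hc, hg⟩ := fam_gap θ η m hη hηθ hm ε hε
    refine ⟨c, hc, fun t s ht hts hs => le_trans ?_ (hg t s (h3t t ht) hts hs)⟩
    have ht3 := h3t t ht
    have h5 : t ^ (θ + e - 1 - ε) ≤ t ^ (θ + η - 1 - ε) :=
      Real.rpow_le_rpow_of_exponent_le (by linarith) (by linarith)
    have : 0 ≤ s - t := by linarith
    gcongr

lemma fam_P_meas (θ : ℝ) : Measurable fun t : ℝ => t ^ θ := by fun_prop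

lemma fam_Q_meas (η : ℝ) (m : ℕ) : Measurable fun t : ℝ => t ^ η / Real.log t ^ m := by
  have h1 : Measurable fun t : ℝ => t ^ η := by fun_prop
  exact h1.div (Real.measurable_log.pow_const m)

end Pool.Agent.H471.ZP
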