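import Pool.Agent.H471.ZP.Cont

set_option autoImplicit false

/-!
From the box to all parameters.
-/

namespace Pool.Agent.H471.ZP

open Complex MeasureTheory Set
open Pool.Agent.Y969.GP (ht lam FR PS cr PX ff)
open Pool.Agent.H471.GS (mem_FR' ht_pos ff_cont)
open Pool.Agent.H471.QP (LL PO FO rt bx rt_cont one_log bx_cpt gi tri tel2 cs_int blk)

lemma FD.mono {P Q y : ℝ → ℝ} {D d e t0 t1 : ℝ} (H : FD P Q y D d e t0) (h : t0 ≤ t1) : FD P Q y D d e t1 where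
  t0_ge := H.t0_ge.trans h
  d_pos := H.d_pos
  dD := H.dD
  one := fun t ht => H.one t (h.trans ht)
  QP := fun t ht => H.QP t (h.trans ht)
  y0 := fun t ht => H.y0 t (h.trans ht)
  up := by
    obtain ⟨K, hK, hK2⟩ := H.up
    exact ⟨K, hK, fun t ht => hK2 t (h.trans ht)⟩
  low := fun ε hε => by
    obtain ⟨c, hc, hc2⟩ := H.low ε hε
    exact ⟨c, hc, fun t ht => hc2 t (h.trans ht)⟩
  gap := fun ε hε => by
    obtain ⟨c, hc, hc2⟩ := H.gap ε hε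
    exact ⟨c, hc, fun t s ht => hc2 t s (h.trans ht)⟩

/-- the integrand -/
noncomputable def SS {k : ℕ} (P Q y : Fin k → ℝ → ℝ) (w : ℝ → ℂ) (t : ℝ) (θ : Fin k → ℝ × ℝ) : ℂ :=
  w t * (∏ j, (ff (hu (y j t) (Q j t) (P j t) (θ j)) : ℂ) - ∏ j, (LL (hu (y j t) (Q j t) (P j t) (θ j)) : ℂ))

lemma SS_mul {k : ℕ} (α β : ℝ) (P Q y : Fin k → ℝ → ℝ) (w : ℝ → ℂ) (t : ℝ) (θ : Fin k → ℝ × ℝ) :
    w t * GG α β P Q y t θ = (∏ j, (rt α β (θ j) : ℂ)) * SS P Q y w t θ := by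
  unfold GG gF gL SS
  rw [Finset.prod_mul_distrib, Finset.prod_mul_distrib]
  ring

/-- the conclusion for one choice of the parameters -/
def Good {k : ℕ} (P Q y : Fin k → ℝ → ℝ) (w : ℝ → ℂ) (s t0 : ℝ) (θ : Fin k → ℝ × ℝ) : Prop :=
  ∃ T0 K : ℝ, t0 ≤ T0 ∧ ∀ T : ℝ, T0 ≤ T → IntervalIntegrable (fun t => SS P Q y w t θ) volume T0 T ∧
    ‖∫ t in T0..T, SS P Q y w t θ‖ ≤ K * T ^ s

theorem on_box' {k : ℕ} (α β γ : ℝ) (hα : 0 < α) (hαβ : α ≤ β) (hγ : 0 ≤ γ) (P Q y : Fin k → ℝ → ℝ)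
    (hP : ∀ j, Measurable (P j)) (hQ : ∀ j, Measurable (Q j)) (hy : ∀ j, Measurable (y j))
    (D d : Fin k → ℝ) (e t0 : ℝ) (ht0 : 1 ≤ t0) (HF : ∀ j, FD (P j) (Q j) (y j) (D j) (d j) e t0) (he1 : e ≤ 1)
    (heD : ∀ j, e ≤ D j) (w : ℝ → ℂ) (hw : Measurable w) (κ : ℝ) (hκ : 0 ≤ κ)
    (hw2 : ∀ T, t0 ≤ T → IntegrableOn (fun t => ‖w t‖ ^ 2) (Ioc t0 T))
    (hwk : ∀ ε : ℝ, 0 < ε → ∃ C : ℝ, ∀ T, t0 ≤ T → ∫ t in t0..T, ‖w t‖ ^ 2 ≤ C * T ^ (κ + ε))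
    (ε : ℝ) (hε : 0 < ε) :
    ∀ᵐ θ : Fin k → ℝ × ℝ, (∀ j, θ j ∈ Ioo α β ×ˢ Icc 0 γ) →
      Good P Q y w ((∑ j, (D j - d j) + 1 - e + κ) / 2 + ε) t0 θ := by
  obtain ⟨n1, hn1, h1⟩ := on_box α β γ hα hαβ hγ P Q y hP hQ hy D d e t0 ht0 HF he1 heD w hw κ hκ hw2 hwk ε hε
  rw [← Measure.restrict_pi_pi, ae_restrict_iff' (MeasurableSet.univ_pi fun _ => (bx_cpt α β γ).measurableSet)] at h1
  rw [volume_pi]
  filter_upwards [h1] with θ hθ hj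
  obtain ⟨hI, K, hK⟩ := hθ (by
    intro j _
    exact ⟨Ioo_subset_Icc_self (hj j).1, (hj j).2⟩)
  have hR : 0 < ∏ j, rt α β (θ j) := by
    apply Finset.prod_pos
    intro j _
    unfold rt Pool.Agent.H471.QP.eta
    apply Real.sqrt_pos.2
    have := (hj j).1
    exact mul_pos (by linarith [this.1]) (by linarith [this.2])
  have hRc : (∏ j, (rt α β (θ j) : ℂ)) ≠ 0 := by
    rw [← Complex.ofReal_prod]
    exact_mod_cast hR.ne'
  refine ⟨n1, K / ∏ j, rt α β (θ j), hn1, fun T hT => ⟨?_, ?_⟩⟩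
  · have h2 := (hI T hT).const_mul (∏ j, (rt α β (θ j) : ℂ))⁻¹
    refine h2.congr ?_
    intro t _
    show (∏ j, (rt α β (θ j) : ℂ))⁻¹ * (w t * GG α β P Q y t θ) = SS P Q y w t θ
    rw [SS_mul, ← mul_assoc, inv_mul_cancel₀ hRc, one_mul]
  · have h3 := hK T hT
    simp only [SS_mul] at h3
    rw [intervalIntegral.integral_const_mul, norm_mul] at h3
    have e3 : ‖∏ j, (rt α β (θ j) : ℂ)‖ = ∏ j, rt α β (θ j) := by
      rw [← Complex.ofReal_prod, Complex.norm_real, Real.norm_of_nonneg hR.le]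
    rw [e3] at h3
    rw [div_mul_eq_mul_div, le_div_iff₀ hR]
    linarith

theorem all_nn {k : ℕ} (P Q y : Fin k → ℝ → ℝ)
    (hP : ∀ j, Measurable (P j)) (hQ : ∀ j, Measurable (Q j)) (hy : ∀ j, Measurable (y j))
    (D d : Fin k → ℝ) (e t0 : ℝ) (ht0 : 1 ≤ t0) (HF : ∀ j, FD (P j) (Q j) (y j) (D j) (d j) e t0) (he1 : e ≤ 1)
    (heD : ∀ j, e ≤ D j) (w : ℝ → ℂ) (hw : Measurable w) (κ : ℝ) (hκ : 0 ≤ κ)
    (hw2 : ∀ T, t0 ≤ T → IntegrableOn (fun t => ‖w t‖ ^ 2) (Ioc t0 T))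
    (hwk : ∀ ε : ℝ, 0 < ε → ∃ C : ℝ, ∀ T, t0 ≤ T → ∫ t in t0..T, ‖w t‖ ^ 2 ≤ C * T ^ (κ + ε))
    (ε : ℝ) (hε : 0 < ε) :
    ∀ᵐ θ : Fin k → ℝ × ℝ, (∀ j, 0 < (θ j).1 ∧ 0 ≤ (θ j).2) →
      Good P Q y w ((∑ j, (D j - d j) + 1 - e + κ) / 2 + ε) t0 θ := by
  have h1 : ∀ r : ℕ, ∀ᵐ θ : Fin k → ℝ × ℝ, (∀ j, θ j ∈ Ioo (1 / ((r : ℝ) + 1)) ((r : ℝ) + 1) ×ˢ Icc (0:ℝ) r) →
      Good P Q y w ((∑ j, (D j - d j) + 1 - e + κ) / 2 + ε) t0 θ := by
    intro r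
    have hr : (0 : ℝ) ≤ r := Nat.cast_nonneg r
    exact on_box' (1 / ((r : ℝ) + 1)) ((r : ℝ) + 1) r (by positivity) (by
      rw [div_le_iff₀ (by positivity)]
      nlinarith) hr P Q y hP hQ hy D d e t0 ht0 HF he1 heD w hw κ hκ hw2 hwk ε hε
  rw [← ae_all_iff] at h1
  filter_upwards [h1] with θ hθ hj
  obtain ⟨r, hr⟩ : ∃ r : ℕ, ∀ j, 1 / (θ j).1 < r ∧ (θ j).1 < r ∧ (θ j).2 ≤ r := by
    obtain ⟨r, hr⟩ := exists_nat_gt (∑ j, (1 / (θ j).1 + (θ j).1 + (θ j).2))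
    refine ⟨r, fun j => ?_⟩
    have h2 := Finset.single_le_sum (f := fun j => 1 / (θ j).1 + (θ j).1 + (θ j).2) (fun j _ => by
      obtain ⟨a1, a2⟩ := hj j
      positivity) (Finset.mem_univ j)
    obtain ⟨a1, a2⟩ := hj j
    have a3 : 0 < 1 / (θ j).1 := by positivity
    refine ⟨?_, ?_, ?_⟩ <;> linarith
  refine hθ r fun j => ?_
  obtain ⟨a1, a2⟩ := hj j
  obtain ⟨b1, b2, b3⟩ := hr j
  refine ⟨⟨?_, by linarith⟩, a2, b3⟩
  rw [div_lt_iff₀ a1] at b1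
  rw [div_lt_iff₀ (by positivity)]
  nlinarith

/-- **all parameters** -/
theorem all {k : ℕ} (P Q y : Fin k → ℝ → ℝ)
    (hP : ∀ j, Measurable (P j)) (hQ : ∀ j, Measurable (Q j)) (hy : ∀ j, Measurable (y j))
    (D d : Fin k → ℝ) (e t0 : ℝ) (HF : ∀ j, FD (P j) (Q j) (y j) (D j) (d j) e t0) (ht0 : 1 ≤ t0) (he1 : e ≤ 1)
    (heD : ∀ j, e ≤ D j) (hQP : ∀ j, ∀ R : ℝ, 0 < R → ∃ t1 : ℝ, ∀ t, t1 ≤ t → R * Q j t ≤ P j t)
    (w : ℝ → ℂ) (hw : Measurable w) (κ : ℝ) (hκ : 0 ≤ κ)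
    (hw2 : ∀ T, t0 ≤ T → IntegrableOn (fun t => ‖w t‖ ^ 2) (Ioc t0 T))
    (hwk : ∀ ε : ℝ, 0 < ε → ∃ C : ℝ, ∀ T, t0 ≤ T → ∫ t in t0..T, ‖w t‖ ^ 2 ≤ C * T ^ (κ + ε)) :
    ∀ᵐ θ : Fin k → ℝ × ℝ, (∀ j, 0 < (θ j).1) → ∀ ε : ℝ, 0 < ε →
      Good P Q y w ((∑ j, (D j - d j) + 1 - e + κ) / 2 + ε) t0 θ := by
  have h1 : ∀ r m : ℕ, ∀ᵐ θ : Fin k → ℝ × ℝ, (∀ j, 1 / ((r : ℝ) + 1) < (θ j).1 ∧ -((r : ℝ) + 1) ≤ (θ j).2) →
      Good P Q y w ((∑ j, (D j - d j) + 1 - e + κ) / 2 + 1 / ((m : ℝ) + 1)) t0 θ := by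
    intro r m
    have hr : (0 : ℝ) ≤ r := Nat.cast_nonneg r
    have hm : (0 : ℝ) ≤ m := Nat.cast_nonneg m
    obtain ⟨R, hR⟩ : ∃ R : ℝ, R = (r : ℝ) + 1 := ⟨_, rfl⟩
    have hR1 : 1 ≤ R := by rw [hR]; linarith
    have hR0 : 0 < R := by linarith
    choose t1 ht1 using fun j => hQP j (2 * R ^ 2) (by positivity)
    obtain ⟨tt, htt⟩ : ∃ tt : ℝ, tt = t0 + ∑ j, |t1 j| := ⟨_, rfl⟩
    have hs0 : 0 ≤ ∑ j, |t1 j| := Finset.sum_nonneg fun _ _ => abs_nonneg _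
    have htt0 : t0 ≤ tt := by rw [htt]; linarith
    have htt1 : ∀ j, t1 j ≤ tt := by
      intro j
      have h2 := Finset.single_le_sum (f := fun j => |t1 j|) (fun j _ => abs_nonneg _) (Finset.mem_univ j)
      have h3 := le_abs_self (t1 j)
      rw [htt]
      linarith
    obtain ⟨y', hy'⟩ : ∃ y' : Fin k → ℝ → ℝ, y' = fun j t => y j t + 1 / (2 * R) * P j t - R * Q j t := ⟨_, rfl⟩
    have hRQ : ∀ j t, tt ≤ t → R * Q j t ≤ 1 / (2 * R) * P j t := by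
      intro j t ht
      have h2 := ht1 j t ((htt1 j).trans ht)
      calc R * Q j t = 1 / (2 * R) * (2 * R ^ 2 * Q j t) := by field_simp
        _ ≤ _ := by gcongr
    have HF' : ∀ j, FD (P j) (Q j) (y' j) (D j) (d j) e tt := by
      intro j
      have H := (HF j).mono htt0
      refine ⟨H.t0_ge, H.d_pos, H.dD, H.one, H.QP, ?_, ?_, H.low, H.gap⟩
      · intro t ht
        rw [hy']
        simp only
        linarith [H.y0 t ht, hRQ j t ht]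
      · obtain ⟨K, hK, hK2⟩ := H.up
        refine ⟨K + 1 / (2 * R) * K, by positivity, fun t ht => ?_⟩
        obtain ⟨q1, q2⟩ := hK2 t ht
        have ht1 : 1 ≤ t := H.t0_ge.trans ht
        have q3 : 0 ≤ t ^ D j := by positivity
        have q4 : 0 ≤ R * Q j t := by
          have := H.one t ht
          positivity
        have q5 : 1 / (2 * R) * P j t ≤ 1 / (2 * R) * (K * t ^ D j) := by gcongr
        have q6 : 0 ≤ 1 / (2 * R) * (K * t ^ D j) := by positivity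
        constructor
        · linarith
        · rw [hy']
          simp only
          linarith
    have hy'm : ∀ j, Measurable (y' j) := by
      intro j
      rw [hy']
      exact ((hy j).add ((hP j).const_mul _)).sub ((hQ j).const_mul _)
    have hwi : IntervalIntegrable (fun t => ‖w t‖ ^ 2) volume t0 tt := by
      rw [intervalIntegrable_iff_integrableOn_Ioc_of_le htt0]
      exact hw2 tt htt0
    have h2 := all_nn P Q y' hP hQ hy'm D d e tt (ht0.trans htt0) HF' he1 heD w hw κ hκ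
      (fun T hT => (hw2 T (htt0.trans hT)).mono_set (Ioc_subset_Ioc_left htt0))
      (by
        intro ε hε
        obtain ⟨C, hC⟩ := hwk ε hε
        refine ⟨C, fun T hT => le_trans ?_ (hC T (htt0.trans hT))⟩
        apply intervalIntegral.integral_mono_interval htt0 hT le_rfl
        · exact Filter.Eventually.of_forall fun t => by positivity
        · rw [intervalIntegrable_iff_integrableOn_Ioc_of_le (htt0.trans hT)]
          exact hw2 T (htt0.trans hT)) (1 / ((m : ℝ) + 1)) (by positivity)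
    have h3 := (measurePreserving_add_right (volume : Measure (Fin k → ℝ × ℝ))
      (fun _ => (-(1 / (2 * R)), R))).quasiMeasurePreserving.ae h2
    filter_upwards [h3] with θ hθ hj
    rw [← hR] at hj
    obtain ⟨T0, K, hT0, hK⟩ := hθ (by
      intro j
      obtain ⟨a1, a2⟩ := hj j
      simp only [Pi.add_apply, Prod.fst_add, Prod.snd_add]
      have : 1 / (2 * R) < 1 / R := by
        apply one_div_lt_one_div_of_lt hR0
        linarith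
      constructor <;> linarith)
    have key : ∀ t, SS P Q y' w t (θ + (fun _ => (-(1 / (2 * R)), R) : Fin k → ℝ × ℝ)) = SS P Q y w t θ := by
      intro t
      have : ∀ j, hu (y' j t) (Q j t) (P j t) ((θ + (fun _ => (-(1 / (2 * R)), R) : Fin k → ℝ × ℝ)) j) =
          hu (y j t) (Q j t) (P j t) (θ j) := by
        intro j
        rw [hy']
        unfold hu
        simp only [Pi.add_apply, Prod.fst_add, Prod.snd_add]
        ring
      unfold SS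
      simp only [this]
    simp only [key] at hK
    exact ⟨T0, K, htt0.trans hT0, hK⟩
  have h2 : ∀ᵐ θ : Fin k → ℝ × ℝ, ∀ r m : ℕ, (∀ j, 1 / ((r : ℝ) + 1) < (θ j).1 ∧ -((r : ℝ) + 1) ≤ (θ j).2) →
      Good P Q y w ((∑ j, (D j - d j) + 1 - e + κ) / 2 + 1 / ((m : ℝ) + 1)) t0 θ := by
    rw [ae_all_iff]
    intro r
    rw [ae_all_iff]
    exact h1 r
  filter_upwards [h2] with θ hθ hj ε hε
  obtain ⟨r, hr⟩ : ∃ r : ℕ, ∀ j, 1 / (θ j).1 < r ∧ -(θ j).2 ≤ r := by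
    obtain ⟨r, hr⟩ := exists_nat_gt (∑ j, (1 / (θ j).1 + |(θ j).2|))
    refine ⟨r, fun j => ?_⟩
    have h2 := Finset.single_le_sum (f := fun j => 1 / (θ j).1 + |(θ j).2|) (fun j _ => by
      have a1 := hj j
      positivity) (Finset.mem_univ j)
    have a1 := hj j
    have a3 : 0 < 1 / (θ j).1 := by positivity
    have a4 := neg_abs_le (θ j).2
    have a5 := abs_nonneg (θ j).2
    refine ⟨?_, ?_⟩ <;> linarith
  obtain ⟨m, hm⟩ := exists_nat_one_div_lt hε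
  obtain ⟨T0, K, hT0, hK⟩ := hθ r m (by
    intro j
    obtain ⟨b1, b2⟩ := hr j
    have a1 := hj j
    constructor
    · rw [div_lt_iff₀ a1] at b1
      rw [div_lt_iff₀ (by positivity)]
      nlinarith
    · linarith)
  refine ⟨T0, |K|, hT0, fun T hT => ⟨(hK T hT).1, (hK T hT).2.trans ?_⟩⟩
  have hT1 : 1 ≤ T := ht0.trans (hT0.trans hT)
  have h5 : T ^ ((∑ j, (D j - d j) + 1 - e + κ) / 2 + 1 / ((m : ℝ) + 1)) ≤
      T ^ ((∑ j, (D j - d j) + 1 - e + κ) / 2 + ε) := Real.rpow_le_rpow_of_exponent_le hT1 (by linarith)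
  have h6 : 0 ≤ T ^ ((∑ j, (D j - d j) + 1 - e + κ) / 2 + 1 / ((m : ℝ) + 1)) := by positivity
  calc K * T ^ ((∑ j, (D j - d j) + 1 - e + κ) / 2 + 1 / ((m : ℝ) + 1)) ≤
        |K| * T ^ ((∑ j, (D j - d j) + 1 - e + κ) / 2 + 1 / ((m : ℝ) + 1)) := by
        gcongr
        exact le_abs_self K
    _ ≤ _ := by gcongr

end Pool.Agent.H471.ZP
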