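import Pool.Agent.H471.ZP.Gen

set_option autoImplicit false

/-!
The lower limit of the integral does not depend on `ε`.
-/

namespace Pool.Agent.H471.ZP

open Complex MeasureTheory Set

/-- one lower limit for all `ε` -/
theorem fix (f : ℝ → ℂ) (E : ℝ) (hE : 0 ≤ E)
    (h : ∀ ε : ℝ, 0 < ε → ∃ T0 K : ℝ, 2 ≤ T0 ∧ ∀ T : ℝ, T0 ≤ T → IntervalIntegrable f volume T0 T ∧
      ‖∫ t in T0..T, f t‖ ≤ K * T ^ (E + ε)) :
    ∃ T0 : ℝ, 2 ≤ T0 ∧ (∀ T : ℝ, T0 ≤ T → IntervalIntegrable f volume T0 T) ∧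
      ∀ ε : ℝ, 0 < ε → ∃ K : ℝ, ∀ T : ℝ, T0 ≤ T → ‖∫ t in T0..T, f t‖ ≤ K * T ^ (E + ε) := by
  obtain ⟨T1, K1, hT1, h1⟩ := h 1 one_pos
  refine ⟨T1, hT1, fun T hT => (h1 T hT).1, ?_⟩
  intro ε hε
  obtain ⟨T2, K2, hT2, h2⟩ := h ε hε
  obtain ⟨M, hM⟩ : ∃ M : ℝ, M = max T1 T2 := ⟨_, rfl⟩
  have hM1 : T1 ≤ M := by rw [hM]; exact le_max_left _ _
  have hM2 : T2 ≤ M := by rw [hM]; exact le_max_right _ _
  refine ⟨(∫ t in T1..M, ‖f t‖) + 2 * |K2|, fun T hT => ?_⟩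
  have hT1' : (1:ℝ) ≤ T := by linarith
  have hpow : (1:ℝ) ≤ T ^ (E + ε) := Real.one_le_rpow hT1' (by linarith)
  have hC : 0 ≤ ∫ t in T1..M, ‖f t‖ :=
    intervalIntegral.integral_nonneg hM1 fun t _ => norm_nonneg _
  rcases le_total T M with hTM | hTM
  · have h3 : ‖∫ t in T1..T, f t‖ ≤ ∫ t in T1..T, ‖f t‖ :=
      intervalIntegral.norm_integral_le_integral_norm hT
    have h4 : ∫ t in T1..T, ‖f t‖ ≤ ∫ t in T1..M, ‖f t‖ := by
      apply intervalIntegral.integral_mono_interval le_rfl hT hTM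
      · exact Filter.Eventually.of_forall fun t => norm_nonneg _
      · exact (h1 M hM1).1.norm
    have h5 : (∫ t in T1..M, ‖f t‖) ≤ ((∫ t in T1..M, ‖f t‖) + 2 * |K2|) * 1 := by
      have := abs_nonneg K2
      linarith
    have h6 : ((∫ t in T1..M, ‖f t‖) + 2 * |K2|) * 1 ≤ ((∫ t in T1..M, ‖f t‖) + 2 * |K2|) * T ^ (E + ε) := by
      apply mul_le_mul_of_nonneg_left hpow
      have := abs_nonneg K2
      linarith
    linarith
  · have hi1 := (h1 M hM1).1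
    have hi2 := (h2 M hM2).1
    have hiT := (h2 T (hM2.trans hTM)).1
    have hiMT : IntervalIntegrable f volume M T := hi2.symm.trans hiT
    have e1 : ∫ t in T1..T, f t = (∫ t in T1..M, f t) + ∫ t in M..T, f t :=
      (intervalIntegral.integral_add_adjacent_intervals hi1 hiMT).symm
    have e2 : ∫ t in M..T, f t = (∫ t in T2..T, f t) - ∫ t in T2..M, f t := by
      have := intervalIntegral.integral_add_adjacent_intervals hi2 hiMT
      rw [← this]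
      ring
    have b1 : ‖∫ t in T1..M, f t‖ ≤ ∫ t in T1..M, ‖f t‖ := intervalIntegral.norm_integral_le_integral_norm hM1
    have b2 := (h2 T (hM2.trans hTM)).2
    have b3 := (h2 M hM2).2
    have hMT : M ^ (E + ε) ≤ T ^ (E + ε) := Real.rpow_le_rpow (by linarith) hTM (by linarith)
    have hMp : 0 ≤ M ^ (E + ε) := Real.rpow_nonneg (by linarith) _
    have c2 : ‖∫ t in T2..T, f t‖ ≤ |K2| * T ^ (E + ε) :=
      b2.trans (mul_le_mul_of_nonneg_right (le_abs_self _) (by linarith))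
    have c3 : ‖∫ t in T2..M, f t‖ ≤ |K2| * T ^ (E + ε) :=
      (b3.trans (mul_le_mul_of_nonneg_right (le_abs_self _) hMp)).trans
        (mul_le_mul_of_nonneg_left hMT (abs_nonneg _))
    have c1 : (∫ t in T1..M, ‖f t‖) ≤ (∫ t in T1..M, ‖f t‖) * T ^ (E + ε) := by
      nlinarith
    rw [e1, e2]
    calc ‖(∫ t in T1..M, f t) + ((∫ t in T2..T, f t) - ∫ t in T2..M, f t)‖
        ≤ ‖∫ t in T1..M, f t‖ + ‖(∫ t in T2..T, f t) - ∫ t in T2..M, f t‖ := norm_add_le _ _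
      _ ≤ ‖∫ t in T1..M, f t‖ + (‖∫ t in T2..T, f t‖ + ‖∫ t in T2..M, f t‖) :=
          add_le_add_right (norm_sub_le _ _) _
      _ ≤ _ := by nlinarith

end Pool.Agent.H471.ZP
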