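import Pool.Agent.H471.QP.GK

set_option autoImplicit false

/-!
From the mean squares of the block sums to almost sure bounds, with weights.
-/

namespace Pool.Agent.H471.ZP

open MeasureTheory Finset
open Pool.Agent.H471.QP (blk)

/-- the sum of the squares of the dyadic block sums below `2 ^ J`, without the blocks that start at `0` -/
noncomputable def QW (f : ℕ → ℂ) (J : ℕ) : ℝ :=
  ∑ i ∈ range J, ∑ j ∈ Ico 1 (2 ^ (J - i)), ‖∑ n ∈ blk i j, f n‖ ^ 2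

lemma QW_nn (f : ℕ → ℂ) (J : ℕ) : 0 ≤ QW f J := by
  unfold QW
  positivity

/-- the truncations -/
lemma trunc_step' (f : ℕ → ℂ) {J i N : ℕ} (hi : i < Nat.log 2 N) (hN : N < 2 ^ J) (hN0 : N ≠ 0) :
    ‖∑ n ∈ range (N / 2 ^ i * 2 ^ i), f n - ∑ n ∈ range (N / 2 ^ (i + 1) * 2 ^ (i + 1)), f n‖ ^ 2 ≤
      ∑ j ∈ Ico 1 (2 ^ (J - i)), ‖∑ n ∈ blk i j, f n‖ ^ 2 := by
  have h1 : N / 2 ^ (i + 1) = N / 2 ^ i / 2 := by rw [pow_succ, Nat.div_div_eq_div_mul]
  have hJ : i < J := by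
    have h2 : 2 ^ Nat.log 2 N ≤ N := Nat.pow_log_le_self 2 hN0
    have h3 : 2 ^ Nat.log 2 N < 2 ^ J := lt_of_le_of_lt h2 hN
    have h4 := (Nat.pow_lt_pow_iff_right (by norm_num : 1 < 2)).1 h3
    omega
  have hq : N / 2 ^ i < 2 ^ (J - i) := by
    rw [Nat.div_lt_iff_lt_mul (by positivity), ← pow_add]
    have : J - i + i = J := by omega
    rw [this]
    exact hN
  have hq2 : 2 ≤ N / 2 ^ i := by
    rw [Nat.le_div_iff_mul_le (by positivity)]
    calc 2 * 2 ^ i = 2 ^ (i + 1) := by ring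
      _ ≤ 2 ^ Nat.log 2 N := Nat.pow_le_pow_right (by norm_num) hi
      _ ≤ N := Nat.pow_log_le_self 2 hN0
  set q := N / 2 ^ i with hq'
  have h0 : 0 ≤ ∑ j ∈ Ico 1 (2 ^ (J - i)), ‖∑ n ∈ blk i j, f n‖ ^ 2 := by positivity
  rcases Nat.even_or_odd' q with ⟨m, hm | hm⟩
  · have e : N / 2 ^ (i + 1) * 2 ^ (i + 1) = q * 2 ^ i := by
      rw [h1, hm, Nat.mul_div_cancel_left _ (by norm_num), pow_succ]
      ring
    rw [e, sub_self, norm_zero]
    simpa using h0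
  · have e : N / 2 ^ (i + 1) * 2 ^ (i + 1) = (2 * m) * 2 ^ i := by
      rw [h1, hm, pow_succ]
      have : (2 * m + 1) / 2 = m := by omega
      rw [this]
      ring
    rw [e, hm, ← Finset.sum_sdiff_eq_sub (by
      apply range_subset_range.2
      gcongr
      omega)]
    have e2 : range ((2 * m + 1) * 2 ^ i) \ range (2 * m * 2 ^ i) = blk i (2 * m) := by
      unfold blk
      ext x
      simp only [mem_sdiff, mem_range, not_lt, mem_Ico]
      tauto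
    rw [e2]
    exact single_le_sum (f := fun j => ‖∑ n ∈ blk i j, f n‖ ^ 2) (fun _ _ => by positivity)
      (mem_Ico.2 ⟨by omega, by omega⟩)

lemma pow_sum (f : ℕ → ℂ) (h0 : f 0 = 0) (m : ℕ) :
    ∑ n ∈ range (2 ^ m), f n = ∑ i ∈ range m, ∑ n ∈ blk i 1, f n := by
  induction m with
  | zero => simp [h0]
  | succ m ih =>
    rw [sum_range_succ, ← ih, pow_succ, mul_two, range_eq_Ico, ← sum_Ico_consecutive f (Nat.zero_le _)
      (Nat.le_add_right (2 ^ m) (2 ^ m))]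
    have e1 : 1 * 2 ^ m = 2 ^ m := by ring
    have e2 : (1 + 1) * 2 ^ m = 2 ^ m + 2 ^ m := by ring
    congr 1
    · rw [range_eq_Ico]
    · unfold blk
      rw [e1, e2]

lemma partial_le' (f : ℕ → ℂ) (h0 : f 0 = 0) {J N : ℕ} (hN : N < 2 ^ J) :
    ‖∑ n ∈ range N, f n‖ ^ 2 ≤ 4 * J * QW f J := by
  rcases Nat.eq_zero_or_pos N with hN0 | hN0
  · subst hN0
    have h1 := QW_nn f J
    have h2 : 0 ≤ 4 * (J : ℝ) * QW f J := by positivity
    simpa using h2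
  have hN0' : N ≠ 0 := by omega
  set m := Nat.log 2 N with hm
  have h2m : 2 ^ m ≤ N := Nat.pow_log_le_self 2 hN0'
  have h2m' : N < 2 ^ (m + 1) := Nat.lt_pow_succ_log_self (by norm_num) N
  have hmJ : m < J := by
    have h3 : 2 ^ m < 2 ^ J := lt_of_le_of_lt h2m hN
    exact (Nat.pow_lt_pow_iff_right (by norm_num : 1 < 2)).1 h3
  have hdiv : N / 2 ^ m = 1 := by
    rw [Nat.div_eq_iff (by positivity)]
    constructor
    · omega
    · rw [pow_succ] at h2m'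
      omega
  have h1 : ∑ n ∈ range N, f n = ∑ n ∈ range (2 ^ m), f n + ∑ i ∈ range m, (∑ n ∈ range (N / 2 ^ i * 2 ^ i), f n -
      ∑ n ∈ range (N / 2 ^ (i + 1) * 2 ^ (i + 1)), f n) := by
    rw [Finset.sum_range_sub' (fun i => ∑ n ∈ range (N / 2 ^ i * 2 ^ i), f n) m]
    rw [hdiv]
    simp
  have a1 : ‖∑ n ∈ range (2 ^ m), f n‖ ^ 2 ≤ J * QW f J := by
    rw [pow_sum f h0]
    refine (pow_le_pow_left₀ (norm_nonneg _) (norm_sum_le _ _) 2).trans ?_
    refine (sq_sum_le_card_mul_sum_sq (s := range m)).trans ?_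
    rw [card_range]
    have hmJ' : (m : ℝ) ≤ J := by exact_mod_cast hmJ.le
    refine mul_le_mul hmJ' ?_ (by positivity) (Nat.cast_nonneg J)
    unfold QW
    calc ∑ i ∈ range m, ‖∑ n ∈ blk i 1, f n‖ ^ 2 ≤ ∑ i ∈ range J, ‖∑ n ∈ blk i 1, f n‖ ^ 2 :=
          sum_le_sum_of_subset_of_nonneg (range_subset_range.2 hmJ.le) (fun _ _ _ => by positivity)
      _ ≤ _ := by
          refine sum_le_sum fun i hi => ?_
          rw [mem_range] at hi
          have h5 : 1 < 2 ^ (J - i) := Nat.one_lt_two_pow (by omega)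
          exact single_le_sum (f := fun j => ‖∑ n ∈ blk i j, f n‖ ^ 2) (fun _ _ => by positivity)
            (mem_Ico.2 ⟨le_rfl, h5⟩)
  have a2 : ‖∑ i ∈ range m, (∑ n ∈ range (N / 2 ^ i * 2 ^ i), f n -
      ∑ n ∈ range (N / 2 ^ (i + 1) * 2 ^ (i + 1)), f n)‖ ^ 2 ≤ J * QW f J := by
    refine (pow_le_pow_left₀ (norm_nonneg _) (norm_sum_le _ _) 2).trans ?_
    refine (sq_sum_le_card_mul_sum_sq (s := range m)).trans ?_
    rw [card_range]
    have hmJ' : (m : ℝ) ≤ J := by exact_mod_cast hmJ.le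
    refine mul_le_mul hmJ' ?_ (by positivity) (Nat.cast_nonneg J)
    unfold QW
    calc _ ≤ ∑ i ∈ range m, ∑ j ∈ Ico 1 (2 ^ (J - i)), ‖∑ n ∈ blk i j, f n‖ ^ 2 :=
          sum_le_sum fun i hi => trunc_step' f (mem_range.1 hi) hN hN0'
      _ ≤ _ := sum_le_sum_of_subset_of_nonneg (range_subset_range.2 hmJ.le) (fun _ _ _ => by positivity)
  rw [h1]
  have h3 := norm_add_le (∑ n ∈ range (2 ^ m), f n) (∑ i ∈ range m, (∑ n ∈ range (N / 2 ^ i * 2 ^ i), f n -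
      ∑ n ∈ range (N / 2 ^ (i + 1) * 2 ^ (i + 1)), f n))
  have h4 := norm_nonneg (∑ n ∈ range (2 ^ m), f n + ∑ i ∈ range m, (∑ n ∈ range (N / 2 ^ i * 2 ^ i), f n -
      ∑ n ∈ range (N / 2 ^ (i + 1) * 2 ^ (i + 1)), f n))
  refine (pow_le_pow_left₀ h4 h3 2).trans ?_
  set u := ‖∑ n ∈ range (2 ^ m), f n‖
  set v := ‖∑ i ∈ range m, (∑ n ∈ range (N / 2 ^ i * 2 ^ i), f n -
      ∑ n ∈ range (N / 2 ^ (i + 1) * 2 ^ (i + 1)), f n)‖
  nlinarith [sq_nonneg (u - v)]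

/-- **the almost sure bound** -/
theorem gkw {Ω : Type} [MeasurableSpace Ω] (μ : Measure Ω) (f : ℕ → Ω → ℂ) (hfm : ∀ n, Measurable (f n))
    (h0 : ∀ ω, f 0 ω = 0) {ε C A β κ : ℝ} (hε : 0 < ε) (hC : 0 ≤ C) (hA : 0 ≤ A) (hβ : 0 ≤ β) (hκ : 0 ≤ κ)
    (a : ℕ → ℝ) (ha : ∀ n, 0 ≤ a n) (haN : ∀ N : ℕ, 1 ≤ N → ∑ n ∈ range N, a n ≤ A * (N : ℝ) ^ κ)
    (hb : ∀ i j : ℕ, 1 ≤ j → ∫⁻ ω, ENNReal.ofReal (‖∑ n ∈ blk i j, f n ω‖ ^ 2) ∂μ ≤
      ENNReal.ofReal (C * ((j * 2 ^ i : ℕ) : ℝ) ^ β * ∑ n ∈ blk i j, a n)) :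
    ∀ᵐ ω ∂μ, ∃ K : ℝ, ∀ N : ℕ, ‖∑ n ∈ range N, f n ω‖ ≤ K * (N : ℝ) ^ ((β + κ) / 2 + ε) := by
  have hm1 : ∀ i j, Measurable fun ω => ‖∑ n ∈ blk i j, f n ω‖ ^ 2 := fun i j =>
    (Finset.measurable_fun_sum _ fun n _ => hfm n).norm.pow_const 2
  have hQm : ∀ J, Measurable fun ω => QW (fun n => f n ω) J := by
    intro J
    unfold QW
    exact Finset.measurable_fun_sum _ fun i _ => Finset.measurable_fun_sum _ fun j _ => hm1 i j
  have hQb : ∀ J : ℕ, ∫⁻ ω, ENNReal.ofReal (QW (fun n => f n ω) J) ∂μ ≤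
      ENNReal.ofReal (C * A * J * ((2 : ℝ) ^ J) ^ (β + κ)) := by
    intro J
    have h2J : (1:ℝ) ≤ 2 ^ J := one_le_pow₀ (by norm_num)
    have h2J0 : (0:ℝ) < 2 ^ J := by linarith
    have e1 : ∫⁻ ω, ENNReal.ofReal (QW (fun n => f n ω) J) ∂μ = ∑ i ∈ range J, ∑ j ∈ Ico 1 (2 ^ (J - i)),
        ∫⁻ ω, ENNReal.ofReal (‖∑ n ∈ blk i j, f n ω‖ ^ 2) ∂μ := by
      have e2 : ∀ ω, ENNReal.ofReal (QW (fun n => f n ω) J) = ∑ i ∈ range J, ∑ j ∈ Ico 1 (2 ^ (J - i)),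
          ENNReal.ofReal (‖∑ n ∈ blk i j, f n ω‖ ^ 2) := by
        intro ω
        unfold QW
        rw [ENNReal.ofReal_sum_of_nonneg (fun i _ => by positivity)]
        refine sum_congr rfl fun i _ => ?_
        rw [ENNReal.ofReal_sum_of_nonneg (fun j _ => by positivity)]
      simp_rw [e2]
      rw [lintegral_finsetSum _ (fun i _ => Finset.measurable_fun_sum _ fun j _ => (hm1 i j).ennreal_ofReal)]
      refine sum_congr rfl fun i _ => ?_
      rw [lintegral_finsetSum _ (fun j _ => (hm1 i j).ennreal_ofReal)]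
    rw [e1]
    have e3 : ∀ i ∈ range J, ∑ j ∈ Ico 1 (2 ^ (J - i)), ∫⁻ ω, ENNReal.ofReal (‖∑ n ∈ blk i j, f n ω‖ ^ 2) ∂μ ≤
        ENNReal.ofReal (C * A * ((2 : ℝ) ^ J) ^ (β + κ)) := by
      intro i hi
      rw [mem_range] at hi
      have e4 : ∀ j ∈ Ico 1 (2 ^ (J - i)), ∫⁻ ω, ENNReal.ofReal (‖∑ n ∈ blk i j, f n ω‖ ^ 2) ∂μ ≤
          ENNReal.ofReal (C * ((2 : ℝ) ^ J) ^ β * ∑ n ∈ blk i j, a n) := by
        intro j hj
        rw [mem_Ico] at hj
        refine (hb i j hj.1).trans (ENNReal.ofReal_le_ofReal ?_)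
        have h2 : j * 2 ^ i ≤ 2 ^ J := by
          calc j * 2 ^ i ≤ 2 ^ (J - i) * 2 ^ i := Nat.mul_le_mul_right _ hj.2.le
            _ = 2 ^ J := by rw [← pow_add]; congr 1; omega
        have h3 : ((j * 2 ^ i : ℕ) : ℝ) ≤ 2 ^ J := by exact_mod_cast h2
        have h4 : 0 ≤ ∑ n ∈ blk i j, a n := sum_nonneg fun n _ => ha n
        gcongr
      refine (sum_le_sum e4).trans ?_
      rw [← ENNReal.ofReal_sum_of_nonneg (fun j _ => by
        have h4 : 0 ≤ ∑ n ∈ blk i j, a n := sum_nonneg fun n _ => ha n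
        positivity), ← mul_sum]
      apply ENNReal.ofReal_le_ofReal
      have h5 : ∑ j ∈ Ico 1 (2 ^ (J - i)), ∑ n ∈ blk i j, a n ≤ ∑ n ∈ range (2 ^ J), a n := by
        have e5 : ∀ m : ℕ, 1 ≤ m → ∑ j ∈ Ico 1 m, ∑ n ∈ blk i j, a n = ∑ n ∈ Ico (2 ^ i) (m * 2 ^ i), a n := by
          intro m hm
          induction m, hm using Nat.le_induction with
          | base => simp
          | succ m hm ih =>
            rw [sum_Ico_succ_top hm, ih]
            unfold blk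
            rw [sum_Ico_consecutive _ (Nat.le_mul_of_pos_left _ (by omega))
              (by gcongr; omega)]
        rw [e5 _ Nat.one_le_two_pow]
        have e6 : 2 ^ (J - i) * 2 ^ i = 2 ^ J := by rw [← pow_add]; congr 1; omega
        rw [e6, range_eq_Ico]
        exact sum_le_sum_of_subset_of_nonneg (Ico_subset_Ico_left (Nat.zero_le _)) (fun n _ _ => ha n)
      have h6 := haN (2 ^ J) Nat.one_le_two_pow
      push_cast at h6
      calc C * ((2 : ℝ) ^ J) ^ β * ∑ j ∈ Ico 1 (2 ^ (J - i)), ∑ n ∈ blk i j, a n ≤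
            C * ((2 : ℝ) ^ J) ^ β * (A * ((2 : ℝ) ^ J) ^ κ) := by
              gcongr
              exact h5.trans h6
        _ = C * A * (((2 : ℝ) ^ J) ^ β * ((2 : ℝ) ^ J) ^ κ) := by ring
        _ = _ := by rw [← Real.rpow_add h2J0]
    refine (sum_le_sum e3).trans ?_
    rw [sum_const, card_range, ← ENNReal.ofReal_nsmul]
    apply ENNReal.ofReal_le_ofReal
    rw [nsmul_eq_mul]
    apply le_of_eq
    ring
  -- summation over the scales
  set v : ℕ → ℝ := fun J => ((2 : ℝ) ^ J) ^ (-(β + κ + ε)) with hv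
  have hv0 : ∀ J, 0 < v J := fun J => by rw [hv]; positivity
  have hvQ : ∀ J, ∫⁻ ω, ENNReal.ofReal (v J * QW (fun n => f n ω) J) ∂μ ≤
      ENNReal.ofReal (C * A * (J * ((2 : ℝ) ^ (-ε)) ^ J)) := by
    intro J
    have h1 : ∀ ω, ENNReal.ofReal (v J * QW (fun n => f n ω) J) =
        ENNReal.ofReal (v J) * ENNReal.ofReal (QW (fun n => f n ω) J) := fun ω => ENNReal.ofReal_mul (hv0 J).le
    simp_rw [h1]
    rw [lintegral_const_mul _ (hQm J).ennreal_ofReal]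
    refine (mul_le_mul_right (hQb J) _).trans ?_
    rw [← ENNReal.ofReal_mul (hv0 J).le]
    apply ENNReal.ofReal_le_ofReal
    have e1 : v J * ((2 : ℝ) ^ J) ^ (β + κ) = ((2 : ℝ) ^ (-ε)) ^ J := by
      simp only [hv]
      have h2 : (0:ℝ) < 2 ^ J := by positivity
      rw [← Real.rpow_add h2, ← Real.rpow_natCast, ← Real.rpow_natCast, ← Real.rpow_mul (by norm_num),
        ← Real.rpow_mul (by norm_num)]
      congr 1
      ring
    apply le_of_eq
    calc v J * (C * A * J * ((2 : ℝ) ^ J) ^ (β + κ)) = C * A * (J * (v J * ((2 : ℝ) ^ J) ^ (β + κ))) := by ring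
      _ = _ := by rw [e1]
  have hr : ‖(2 : ℝ) ^ (-ε)‖ < 1 := by
    rw [Real.norm_of_nonneg (by positivity)]
    exact Real.rpow_lt_one_of_one_lt_of_neg (by norm_num) (by linarith)
  have hsum : Summable (fun J : ℕ => C * A * (J * ((2 : ℝ) ^ (-ε)) ^ J)) := by
    have := summable_pow_mul_geometric_of_norm_lt_one 1 hr
    simp only [pow_one] at this
    exact this.mul_left (C * A)
  have hnn : ∀ J ω, 0 ≤ v J * QW (fun n => f n ω) J := fun J ω => mul_nonneg (hv0 J).le (QW_nn _ _)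
  have hl : ∫⁻ ω, ∑' J, ENNReal.ofReal (v J * QW (fun n => f n ω) J) ∂μ < ⊤ := by
    rw [lintegral_tsum (fun J => ((hQm J).const_mul (v J)).ennreal_ofReal.aemeasurable)]
    refine (ENNReal.tsum_le_tsum hvQ).trans_lt ?_
    rw [← ENNReal.ofReal_tsum_of_nonneg (fun J => by positivity) hsum]
    exact ENNReal.ofReal_lt_top
  have hae := ae_lt_top' (AEMeasurable.tsum fun J =>
    ((hQm J).const_mul (v J)).ennreal_ofReal.aemeasurable) hl.ne
  filter_upwards [hae] with ω hω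
  set K0 : ℝ := (∑' J, ENNReal.ofReal (v J * QW (fun n => f n ω) J)).toReal with hK0
  have hK : ∀ J, v J * QW (fun n => f n ω) J ≤ K0 := by
    intro J
    have h1 := ENNReal.le_tsum (f := fun J => ENNReal.ofReal (v J * QW (fun n => f n ω) J)) J
    have h2 := ENNReal.toReal_mono hω.ne h1
    rw [ENNReal.toReal_ofReal (hnn J ω)] at h2
    exact h2
  have hK00 : 0 ≤ K0 := ENNReal.toReal_nonneg
  have hlog2 : 0 < Real.log 2 := Real.log_pos (by norm_num)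
  set c1 : ℝ := 1 / (ε * Real.log 2) with hc1
  have hc10 : 0 < c1 := by positivity
  refine ⟨√(4 * c1 * K0 * (2 : ℝ) ^ (β + κ + 2 * ε)), fun N => ?_⟩
  rcases Nat.eq_zero_or_pos N with hN | hN
  · subst hN
    simp only [range_zero, sum_empty, norm_zero]
    positivity
  set J := Nat.log 2 N + 1 with hJ
  have hNJ : N < 2 ^ J := Nat.lt_pow_succ_log_self (by norm_num) N
  have hJN : (2 : ℝ) ^ J ≤ 2 * N := by
    have h1 : 2 ^ (Nat.log 2 N) ≤ N := Nat.pow_log_le_self 2 (by omega)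
    have h2 : (2 : ℝ) ^ (Nat.log 2 N) ≤ N := by exact_mod_cast h1
    rw [hJ, pow_succ]
    linarith
  have h2J : (0:ℝ) < 2 ^ J := by positivity
  have h1 := partial_le' (fun n => f n ω) (h0 ω) hNJ
  have h2 : QW (fun n => f n ω) J ≤ K0 * ((2 : ℝ) ^ J) ^ (β + κ + ε) := by
    have h3 := hK J
    have h4 : v J * ((2 : ℝ) ^ J) ^ (β + κ + ε) = 1 := by
      simp only [hv]
      have h5 : -(β + κ + ε) + (β + κ + ε) = 0 := by ring
      rw [← Real.rpow_add h2J, h5, Real.rpow_zero]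
    calc QW (fun n => f n ω) J = (v J * QW (fun n => f n ω) J) * ((2 : ℝ) ^ J) ^ (β + κ + ε) := by
          rw [mul_right_comm, h4, one_mul]
      _ ≤ _ := by gcongr
  have h5 : (J : ℝ) ≤ c1 * ((2 : ℝ) ^ J) ^ ε := by
    have h6 : ((2 : ℝ) ^ J) ^ ε = Real.exp (ε * Real.log 2 * J) := by
      rw [Real.rpow_def_of_pos h2J, Real.log_pow]
      congr 1
      ring
    rw [h6, hc1]
    have h7 := Real.add_one_le_exp (ε * Real.log 2 * J)
    rw [div_mul_eq_mul_div, one_mul, le_div_iff₀ (by positivity)]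
    nlinarith
  have h8 : ‖∑ n ∈ range N, f n ω‖ ^ 2 ≤ 4 * c1 * K0 * (2 : ℝ) ^ (β + κ + 2 * ε) * (N : ℝ) ^ (β + κ + 2 * ε) := by
    calc ‖∑ n ∈ range N, f n ω‖ ^ 2 ≤ 4 * J * QW (fun n => f n ω) J := h1
      _ ≤ 4 * (c1 * ((2 : ℝ) ^ J) ^ ε) * (K0 * ((2 : ℝ) ^ J) ^ (β + κ + ε)) := by
          have := QW_nn (fun n => f n ω) J
          gcongr
      _ = 4 * c1 * K0 * ((2 : ℝ) ^ J) ^ (β + κ + 2 * ε) := by
          have : ((2 : ℝ) ^ J) ^ (β + κ + 2 * ε) = ((2 : ℝ) ^ J) ^ ε * ((2 : ℝ) ^ J) ^ (β + κ + ε) := by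
            rw [← Real.rpow_add h2J]; congr 1; ring
          rw [this]
          ring
      _ ≤ 4 * c1 * K0 * (2 * (N : ℝ)) ^ (β + κ + 2 * ε) := by gcongr
      _ = _ := by
          rw [Real.mul_rpow (by norm_num) (Nat.cast_nonneg N)]
          ring
  have h9 : (N : ℝ) ^ ((β + κ) / 2 + ε) = √((N : ℝ) ^ (β + κ + 2 * ε)) := by
    rw [Real.sqrt_eq_rpow, ← Real.rpow_mul (Nat.cast_nonneg N)]
    congr 1
    ring
  rw [h9, ← Real.sqrt_mul (by positivity)]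
  exact Real.le_sqrt_of_sq_le h8

end Pool.Agent.H471.ZP
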