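import Pool.Agent.H471.ZP.Fam

set_option autoImplicit false

/-!
The general theorem for the heights `y t + a t ^ θ + b t ^ η / (log t) ^ m`.
-/

namespace Pool.Agent.H471.ZP

open Complex MeasureTheory Set
open Pool.Agent.Y969.GP (ff)
open Pool.Agent.H471.QP (LL)

/-- the heights -/
noncomputable def hgt {k : ℕ} (θ η : Fin k → ℝ) (m : Fin k → ℕ) (y : Fin k → ℝ → ℝ) (c : Fin k → ℝ × ℝ) (j : Fin k)
    (t : ℝ) : ℝ :=
  y j t + (c j).1 * t ^ θ j + (c j).2 * (t ^ η j / Real.log t ^ m j)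

lemma hu_eq {k : ℕ} (θ η : Fin k → ℝ) (m : Fin k → ℕ) (y : Fin k → ℝ → ℝ) (c : Fin k → ℝ × ℝ) (j : Fin k) (t : ℝ) :
    hu (y j t) (t ^ η j / Real.log t ^ m j) (t ^ θ j) (c j) = hgt θ η m y c j t := by
  unfold hu hgt
  ring

/-- **general theorem** -/
theorem gen {k : ℕ} (θ η D : Fin k → ℝ) (m : Fin k → ℕ) (hη : ∀ j, 0 < η j) (hηθ : ∀ j, η j ≤ θ j)
    (hm : ∀ j, η j < θ j ∨ 1 ≤ m j) (hD : ∀ j, θ j ≤ D j) (y : Fin k → ℝ → ℝ) (hym : ∀ j, Measurable (y j))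
    (Y : ℝ) (hy : ∀ j t, 2 ≤ t → 0 ≤ y j t ∧ y j t ≤ Y * t ^ D j) (e : ℝ) (he1 : e ≤ 1) (he : ∀ j, e ≤ η j)
    (w : ℝ → ℂ) (hw : Measurable w) (κ : ℝ) (hκ : 0 ≤ κ)
    (hw2 : ∀ T, 2 ≤ T → IntegrableOn (fun t => ‖w t‖ ^ 2) (Ioc 2 T))
    (hwk : ∀ ε : ℝ, 0 < ε → ∃ C : ℝ, ∀ T, 2 ≤ T → ∫ t in (2:ℝ)..T, ‖w t‖ ^ 2 ≤ C * T ^ (κ + ε)) :
    ∀ᵐ c : Fin k → ℝ × ℝ, (∀ j, 0 < (c j).1) → ∀ ε : ℝ, 0 < ε → ∃ T0 K : ℝ, 2 ≤ T0 ∧ ∀ T : ℝ, T0 ≤ T →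
      IntervalIntegrable (fun t => w t * (∏ j, (ff (hgt θ η m y c j t) : ℂ) - ∏ j, (LL (hgt θ η m y c j t) : ℂ)))
        volume T0 T ∧
      ‖∫ t in T0..T, w t * (∏ j, (ff (hgt θ η m y c j t) : ℂ) - ∏ j, (LL (hgt θ η m y c j t) : ℂ))‖ ≤
        K * T ^ ((∑ j, (D j - θ j) + 1 - e + κ) / 2 + ε) := by
  choose t1 ht13 hF using fun j => fam_FD (θ j) (η j) (D j) (m j) (hη j) (hηθ j) (hm j) (hD j)
  obtain ⟨t0, ht0⟩ : ∃ t0 : ℝ, t0 = 3 + ∑ j, |t1 j| := ⟨_, rfl⟩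
  have hs0 : 0 ≤ ∑ j, |t1 j| := Finset.sum_nonneg fun _ _ => abs_nonneg _
  have ht03 : 3 ≤ t0 := by rw [ht0]; linarith
  have ht01 : ∀ j, t1 j ≤ t0 := by
    intro j
    have h2 := Finset.single_le_sum (f := fun j => |t1 j|) (fun j _ => abs_nonneg _) (Finset.mem_univ j)
    have h3 := le_abs_self (t1 j)
    rw [ht0]
    linarith
  have ht02 : (2:ℝ) ≤ t0 := by linarith
  have h1 := all (fun j t => t ^ θ j) (fun j t => t ^ η j / Real.log t ^ m j) y (fun j => fam_P_meas (θ j))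
    (fun j => fam_Q_meas (η j) (m j)) hym D θ e t0
    (fun j => hF j (y j) Y t0 e (ht01 j) (he j) (fun t ht => hy j t (ht02.trans ht))) (by linarith) he1
    (fun j => (he j).trans ((hηθ j).trans (hD j)))
    (fun j R hR => fam_inf (θ j) (η j) (m j) (hηθ j) (hm j) R hR) w hw κ hκ
    (fun T hT => (hw2 T (ht02.trans hT)).mono_set (Ioc_subset_Ioc_left ht02))
    (by
      intro ε hε
      obtain ⟨C, hC⟩ := hwk ε hε
      refine ⟨C, fun T hT => le_trans ?_ (hC T (ht02.trans hT))⟩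
      apply intervalIntegral.integral_mono_interval ht02 hT le_rfl
      · exact Filter.Eventually.of_forall fun t => by positivity
      · rw [intervalIntegrable_iff_integrableOn_Ioc_of_le (ht02.trans hT)]
        exact hw2 T (ht02.trans hT))
  filter_upwards [h1] with c hc hj ε hε
  obtain ⟨T0, K, hT0, hK⟩ := hc hj ε hε
  refine ⟨T0, K, ht02.trans hT0, fun T hT => ?_⟩
  have h2 := hK T hT
  unfold SS at h2
  simp only [hu_eq] at h2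
  exact h2

end Pool.Agent.H471.ZP
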