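import Pool.Agent.H471.QP.Ker2

set_option autoImplicit false

/-!
The bound for the kernel, for general pairs of functions.
-/

namespace Pool.Agent.H471.ZP

open Complex MeasureTheory Set
open Pool.Agent.Y969.GP (ht lam FR PS cr S_V S_CR)
open Pool.Agent.H471.GS (mem_FR' ht_pos)
open Pool.Agent.H471.QP

/-- **the bound for the kernel** -/
theorem ker (α β γ : ℝ) (hα : 0 < α) (hαβ : α ≤ β) (hγ : 0 ≤ γ) : ∃ C : ℝ, 0 < C ∧
    ∀ (A A' B B' y1 y2 : ℝ) (X1 X2 : ℕ), 1 ≤ A' → A' ≤ A → 1 ≤ B' → B' ≤ B → 0 ≤ y1 → 0 ≤ y2 →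
    A ≤ X1 → B ≤ X2 → 0 < |A' * B - A * B'| →
    ‖∫ a in α..β, ∫ b in (0:ℝ)..γ, (eta α β a : ℂ) * (PO X1 (y1 + b * A' + a * A) *
      (starRingEnd ℂ) (PO X2 (y2 + b * B' + a * B)))‖ ≤
    C * ((1 + Real.log X1) * (1 + Real.log X2)) ^ 3 * (√(X1 * X2) / |A' * B - A * B'|) := by
  obtain ⟨C0, hC0, hpq⟩ := pq α β γ hα hαβ hγ
  obtain ⟨C1, hC1, hsm⟩ := cr_sm
  refine ⟨C0 * C1 ^ 2 * 4032, by positivity, ?_⟩
  intro A A' B B' y1 y2 X1 X2 hA'1 hAA hB'1 hBB hy1 hy2 hX1 hX2 hΔ
  set Δ := |A' * B - A * B'| with hΔd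
  have hA1 : 1 ≤ A := hA'1.trans hAA
  have hB1 : 1 ≤ B := hB'1.trans hBB
  have hA0 : 0 < A := by linarith
  have hB0 : 0 < B := by linarith
  have hA'0 : 0 < A' := by linarith
  have hB'0 : 0 < B' := by linarith
  have hX1' : (1:ℝ) ≤ X1 := hA1.trans hX1
  have hX2' : (1:ℝ) ≤ X2 := hB1.trans hX2
  have hl1 : 0 ≤ Real.log X1 := Real.log_nonneg hX1'
  have hl2 : 0 ≤ Real.log X2 := Real.log_nonneg hX2'
  have hκB : 1 ≤ B / B' := by rw [le_div_iff₀ hB'0]; linarith
  have hκA : 1 ≤ A / A' := by rw [le_div_iff₀ hA'0]; linarith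
  -- the frequencies
  set XX : (ℕ × ℕ) × (ℕ × ℕ) → ℝ := fun z => A * lam z.1 - B * lam z.2 with hXX
  set YY : (ℕ × ℕ) × (ℕ × ℕ) → ℝ := fun z => A' * lam z.1 - B' * lam z.2 with hYY
  -- the size of the frequencies
  set R : ℝ := (A + B) * (X1 + X2) with hR
  have hR1 : 1 ≤ R := by
    rw [hR]
    nlinarith
  have hXR : ∀ p ∈ FO X1, ∀ q ∈ FO X2, |XX (p, q)| ≤ R := by
    intro p hp q hq
    have a1 := lam_abs (Finset.mem_of_mem_filter _ hp)
    have a2 := lam_abs (Finset.mem_of_mem_filter _ hq)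
    simp only [hXX]
    refine (abs_sub _ _).trans ?_
    rw [abs_mul, abs_mul, abs_of_pos hA0, abs_of_pos hB0]
    have b1 : A * |lam p| ≤ A * X1 := by gcongr
    have b2 : B * |lam q| ≤ B * X2 := by gcongr
    rw [hR]
    have : 0 ≤ A * X2 := by positivity
    have : 0 ≤ B * X1 := by positivity
    nlinarith
  -- logarithms
  have hlog : ∀ y : ℝ, 1 ≤ y → y ≤ 8 * (X1 * X2) ^ 3 → 1 + Real.log y ≤ 4 * ((1 + Real.log X1) * (1 + Real.log X2)) := by
    intro y hx hy
    have hy0 : 0 < y := by linarith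
    have h1 := Real.log_le_log hy0 hy
    rw [Real.log_mul (by norm_num) (by positivity), Real.log_pow, Real.log_mul (by positivity) (by positivity)] at h1
    have h2 : Real.log 8 ≤ 2.1 := by
      have : (8 : ℝ) = 2 ^ 3 := by norm_num
      rw [this, Real.log_pow]
      have := Real.log_two_lt_d9
      push_cast
      linarith
    push_cast at h1
    have : 0 ≤ Real.log X1 * Real.log X2 := by positivity
    nlinarith
  -- first sum
  set L := (1 + Real.log X1) * (1 + Real.log X2) with hL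
  have hL0 : 0 ≤ L := by positivity
  have hX12 : (X1 : ℝ) + X2 ≤ 2 * (X1 * X2) := by nlinarith
  have hAB12 : A + B ≤ 2 * (X1 * X2) := by linarith
  have hX1m : (X1 : ℝ) ≤ X1 * X2 := by nlinarith
  have hX2m : (X2 : ℝ) ≤ X1 * X2 := by nlinarith
  have P1 : ∀ p ∈ FO X1, ∑ q ∈ FO X2, DD 1 (XX (p, q)) (YY (p, q)) ≤
      2016 * L * (X2 / Δ) * |lam p|⁻¹ := by
    intro p hp
    have hlp : 0 < |lam p| := abs_pos.2 (lam_ne hp)
    have hρ : 0 < B / (2 * X2) := by positivity
    have hρ1 : B / (2 * X2) ≤ 1 := by rw [div_le_one (by positivity)]; linarith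
    have hZ : 0 < |lam p| * Δ / (2 * B) := by positivity
    have k := dsum (S := FO X2) (x := fun q => XX (p, q)) (y := fun q => YY (p, q))
      (D := fun q => DD 1 (XX (p, q)) (YY (p, q))) (ρ := B / (2 * X2)) (κ := B / B') (Z := |lam p| * Δ / (2 * B))
      (R := R) (τ := 1) hρ hρ1 (by
        intro q hq q' hq' hqq
        have h1 := Pool.Agent.Y379.GP.sp1 X2 q q' (Finset.mem_of_mem_filter _ hq) (Finset.mem_of_mem_filter _ hq') hqq
        have h2 : XX (p, q) - XX (p, q') = -(B * (lam q - lam q')) := by simp only [hXX]; ring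
        rw [h2, abs_neg, abs_mul, abs_of_pos hB0]
        calc B / (2 * X2) = B * (1 / (2 * X2)) := by ring
          _ ≤ _ := by gcongr) hκB hZ hR1 le_rfl (fun q hq => hXR p hp q hq) (by
        intro q hq
        have h1 : XX (p, q) - B / B' * YY (p, q) = -(lam p * ((A' * B - A * B') / B')) := by
          simp only [hXX, hYY]
          field_simp
          ring
        have h2 : |XX (p, q) - B / B' * YY (p, q)| ≤ |XX (p, q)| + B / B' * |YY (p, q)| := by
          refine (abs_sub _ _).trans ?_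
          rw [abs_mul, abs_of_pos (by linarith : 0 < B / B')]
        refine le_trans (le_of_eq ?_) h2
        rw [h1, abs_neg, abs_mul, abs_div, abs_of_pos hB'0, ← hΔd]
        field_simp) (fun q _ => DD_le1 _ _ _) (fun q _ h => DD_le2 _ _ _ h)
    refine k.trans ?_
    have k2 : R / (B / (2 * X2)) ≤ 8 * (X1 * X2) ^ 3 := by
      rw [hR, div_div_eq_mul_div, div_le_iff₀ hB0]
      calc (A + B) * (X1 + X2) * (2 * X2) ≤ (2 * (X1 * X2)) * (2 * (X1 * X2)) * (2 * (X1 * X2)) := by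
            gcongr
        _ = 8 * (X1 * X2) ^ 3 * 1 := by ring
        _ ≤ _ := by gcongr
    have k3 := hlog (R / (B / (2 * X2))) (by
      rw [le_div_iff₀ hρ]; linarith) k2
    calc 126 / (B / (2 * X2) * (|lam p| * Δ / (2 * B))) * (1 + Real.log (R / (B / (2 * X2)))) ≤
          126 / (B / (2 * X2) * (|lam p| * Δ / (2 * B))) * (4 * L) := by gcongr
      _ = _ := by
          field_simp
          ring
  have P2 : ∀ q ∈ FO X2, ∑ p ∈ FO X1, DD 1 (XX (p, q)) (YY (p, q)) ≤
      2016 * L * (X1 / Δ) * |lam q|⁻¹ := by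
    intro q hq
    have hlq : 0 < |lam q| := abs_pos.2 (lam_ne hq)
    have hρ : 0 < A / (2 * X1) := by positivity
    have hρ1 : A / (2 * X1) ≤ 1 := by rw [div_le_one (by positivity)]; linarith
    have hZ : 0 < |lam q| * Δ / (2 * A) := by positivity
    have k := dsum (S := FO X1) (x := fun p => XX (p, q)) (y := fun p => YY (p, q))
      (D := fun p => DD 1 (XX (p, q)) (YY (p, q))) (ρ := A / (2 * X1)) (κ := A / A') (Z := |lam q| * Δ / (2 * A))
      (R := R) (τ := 1) hρ hρ1 (by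
        intro p hp p' hp' hpp
        have h1 := Pool.Agent.Y379.GP.sp1 X1 p p' (Finset.mem_of_mem_filter _ hp) (Finset.mem_of_mem_filter _ hp') hpp
        have h2 : XX (p, q) - XX (p', q) = A * (lam p - lam p') := by simp only [hXX]; ring
        rw [h2, abs_mul, abs_of_pos hA0]
        calc A / (2 * X1) = A * (1 / (2 * X1)) := by ring
          _ ≤ _ := by gcongr) hκA hZ hR1 le_rfl (fun p hp => hXR p hp q hq) (by
        intro p hp
        have h1 : XX (p, q) - A / A' * YY (p, q) = -(lam q * ((A' * B - A * B') / A')) := by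
          simp only [hXX, hYY]
          field_simp
          ring
        have h2 : |XX (p, q) - A / A' * YY (p, q)| ≤ |XX (p, q)| + A / A' * |YY (p, q)| := by
          refine (abs_sub _ _).trans ?_
          rw [abs_mul, abs_of_pos (by linarith : 0 < A / A')]
        refine le_trans (le_of_eq ?_) h2
        rw [h1, abs_neg, abs_mul, abs_div, abs_of_pos hA'0, ← hΔd]
        field_simp) (fun p _ => DD_le1 _ _ _) (fun p _ h => DD_le2 _ _ _ h)
    refine k.trans ?_
    have k2 : R / (A / (2 * X1)) ≤ 8 * (X1 * X2) ^ 3 := by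
      rw [hR, div_div_eq_mul_div, div_le_iff₀ hA0]
      calc (A + B) * (X1 + X2) * (2 * X1) ≤ (2 * (X1 * X2)) * (2 * (X1 * X2)) * (2 * (X1 * X2)) := by
            gcongr
        _ = 8 * (X1 * X2) ^ 3 * 1 := by ring
        _ ≤ _ := by gcongr
    have k3 := hlog (R / (A / (2 * X1))) (by
      rw [le_div_iff₀ hρ]; linarith) k2
    calc 126 / (A / (2 * X1) * (|lam q| * Δ / (2 * A))) * (1 + Real.log (R / (A / (2 * X1)))) ≤
          126 / (A / (2 * X1) * (|lam q| * Δ / (2 * A))) * (4 * L) := by gcongr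
      _ = _ := by
          field_simp
          ring
  -- the double sum
  have hLp := ari X1
  have hLq := ari X2
  have cs := cs2 (FO X1) (FO X2) (f := fun p => (√(ht p))⁻¹) (g := fun q => (√(ht q))⁻¹)
    (D := fun p q => DD 1 (XX (p, q)) (YY (p, q))) (fun _ _ _ _ => DD_nn one_pos _ _)
    (P := 4032 * L * (X2 / Δ) * (1 + Real.log X1) ^ 2)
    (Q := 4032 * L * (X1 / Δ) * (1 + Real.log X2) ^ 2) (by
      calc ∑ p ∈ FO X1, (√(ht p))⁻¹ ^ 2 * ∑ q ∈ FO X2, DD 1 (XX (p, q)) (YY (p, q)) ≤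
            ∑ p ∈ FO X1, (ht p)⁻¹ * (2016 * L * (X2 / Δ) * |lam p|⁻¹) := by
            refine Finset.sum_le_sum fun p hp => ?_
            obtain ⟨a, b, -, -, -⟩ := mem_FO hp
            have hh := ht_pos a b
            rw [inv_pow, Real.sq_sqrt hh.le]
            exact mul_le_mul_of_nonneg_left (P1 p hp) (by positivity)
        _ = (2016 * L * (X2 / Δ)) * ∑ p ∈ FO X1, (ht p)⁻¹ * |lam p|⁻¹ := by
            rw [Finset.mul_sum]
            refine Finset.sum_congr rfl fun p _ => ?_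
            ring
        _ ≤ (2016 * L * (X2 / Δ)) * (2 * (1 + Real.log X1) ^ 2) := by gcongr
        _ = _ := by ring) (by
      calc ∑ q ∈ FO X2, (√(ht q))⁻¹ ^ 2 * ∑ p ∈ FO X1, DD 1 (XX (p, q)) (YY (p, q)) ≤
            ∑ q ∈ FO X2, (ht q)⁻¹ * (2016 * L * (X1 / Δ) * |lam q|⁻¹) := by
            refine Finset.sum_le_sum fun q hq => ?_
            obtain ⟨a, b, -, -, -⟩ := mem_FO hq
            have hh := ht_pos a b
            rw [inv_pow, Real.sq_sqrt hh.le]
            exact mul_le_mul_of_nonneg_left (P2 q hq) (by positivity)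
        _ = (2016 * L * (X1 / Δ)) * ∑ q ∈ FO X2, (ht q)⁻¹ * |lam q|⁻¹ := by
            rw [Finset.mul_sum]
            refine Finset.sum_congr rfl fun q _ => ?_
            ring
        _ ≤ (2016 * L * (X1 / Δ)) * (2 * (1 + Real.log X2) ^ 2) := by gcongr
        _ = _ := by ring)
  -- the terms
  rw [ker_exp hα hαβ hγ hy1 hy2 hA0 hA'0 hB0 hB'0]
  have tm : ∀ z ∈ FO X1 ×ˢ FO X2, ‖ex (y1 * lam z.1 - y2 * lam z.2) * ∫ a in α..β, ∫ b in (0:ℝ)..γ,
      (Gf (cr X1 z.1) (cr X2 z.2) α β y1 y2 A A' B B' a b : ℂ) *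
      ex (a * (A * lam z.1 - B * lam z.2)) * ex (b * (A' * lam z.1 - B' * lam z.2))‖ ≤
      (C0 * C1 ^ 2 * L) * ((√(ht z.1))⁻¹ * (√(ht z.2))⁻¹ * DD 1 (XX z) (YY z)) := by
    intro z hz
    rw [Finset.mem_product] at hz
    have h1 := hsm X1 z.1 (Finset.mem_of_mem_filter _ hz.1)
    have h2 := hsm X2 z.2 (Finset.mem_of_mem_filter _ hz.2)
    have hF1 := h1.nn
    have hF2 := h2.nn
    obtain ⟨k1, k2⟩ := hpq (cr X1 z.1) (cr X2 z.2) _ _ y1 y2 A A' B B' 1 (XX z) (YY z) h1 h2 hy1 hy2 hA0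
      hA'0 hB0 hB'0 one_pos (by linarith) (by linarith)
    rw [norm_mul, norm_ex, one_mul]
    have k3 := le_DD (by positivity) k1 k2
    refine k3.trans (le_of_eq ?_)
    rw [hL]
    ring
  refine (norm_sum_le _ _).trans ((Finset.sum_le_sum tm).trans ?_)
  rw [← Finset.mul_sum, Finset.sum_product]
  simp only
  refine (mul_le_mul_of_nonneg_left cs (by positivity)).trans (le_of_eq ?_)
  rw [← Real.sqrt_mul (by positivity)]
  have e1 : 4032 * L * (X2 / Δ) * (1 + Real.log X1) ^ 2 *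
      (4032 * L * (X1 / Δ) * (1 + Real.log X2) ^ 2) =
      (4032 * L ^ 2 / Δ) ^ 2 * (X1 * X2) := by
    rw [hL]
    field_simp
  rw [e1, Real.sqrt_mul (sq_nonneg _), Real.sqrt_sq (by positivity)]
  ring

end Pool.Agent.H471.ZP
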