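import Pool.Agent.H471.ZP.Afe
import Pool.Agent.H471.QP.Fac2

set_option autoImplicit false

/-!
The facts on one factor, in terms of numbers.
-/

namespace Pool.Agent.H471.ZP

open Complex MeasureTheory Set
open Pool.Agent.Y969.GP (ht lam FR PS cr PX ff)
open Pool.Agent.H471.GS (mem_FR' ht_pos ff_cont)
open Pool.Agent.H471.QP (LL PO FO eta rt bx rt_cont rt_sq eta_le fubR fubC one_log PO_cont LL_cont rtc bx_cpt int_sq
  sq_bd cs_int LL_le rt_le three)

/-- the height -/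
def hu (y A' A : ℝ) (θ : ℝ × ℝ) : ℝ := y + θ.2 * A' + θ.1 * A

lemma hu_lb {α β γ y A' A : ℝ} (hy : 0 ≤ y) (hA' : 0 ≤ A') (hA : 0 ≤ A) {θ : ℝ × ℝ} (hθ : θ ∈ bx α β γ) :
    α * A ≤ hu y A' A θ := by
  unfold hu
  obtain ⟨⟨h1, h2⟩, h3, h4⟩ := hθ
  have : α * A ≤ θ.1 * A := by gcongr
  have : 0 ≤ θ.2 * A' := by positivity
  linarith

lemma hu_ub {α β γ y A' A : ℝ} (hA' : 0 ≤ A') (hA : 0 ≤ A) {θ : ℝ × ℝ} (hθ : θ ∈ bx α β γ) :
    hu y A' A θ ≤ y + γ * A' + β * A := by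
  unfold hu
  obtain ⟨⟨h1, h2⟩, h3, h4⟩ := hθ
  have : θ.1 * A ≤ β * A := by gcongr
  have : θ.2 * A' ≤ γ * A' := by gcongr
  linarith

lemma hu_cont (y A' A : ℝ) : Continuous (hu y A' A) := by
  unfold hu
  fun_prop

noncomputable def gF (α β : ℝ) (y A' A : ℝ) (θ : ℝ × ℝ) : ℂ := (rt α β θ : ℂ) * (ff (hu y A' A θ) : ℂ)
noncomputable def gL (α β : ℝ) (y A' A : ℝ) (θ : ℝ × ℝ) : ℂ := (rt α β θ : ℂ) * (LL (hu y A' A θ) : ℂ)
noncomputable def gP (α β : ℝ) (X : ℕ) (y A' A : ℝ) (θ : ℝ × ℝ) : ℂ := (rt α β θ : ℂ) * PO X (hu y A' A θ)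
noncomputable def gE (α β : ℝ) (X : ℕ) (y A' A : ℝ) (θ : ℝ × ℝ) : ℂ :=
  gF α β y A' A θ - gL α β y A' A θ - gP α β X y A' A θ

lemma hu_maps {α β γ y A' A : ℝ} (hα : 0 < α) (hA : 0 < A) (hA' : 0 ≤ A') (hy : 0 ≤ y) :
    MapsTo (hu y A' A) (bx α β γ) (Ioi 0) := by
  intro θ hθ
  have := hu_lb hy hA' hA.le hθ
  have h2 : 0 < α * A := by positivity
  exact lt_of_lt_of_le h2 this

lemma gF_cont {α β γ y A' A : ℝ} : ContinuousOn (gF α β y A' A) (bx α β γ) := by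
  unfold gF
  exact (rtc α β _).mul (Complex.continuous_ofReal.comp (ff_cont.comp (hu_cont y A' A))).continuousOn

lemma gL_cont {α β γ y A' A : ℝ} (hα : 0 < α) (hA : 0 < A) (hA' : 0 ≤ A') (hy : 0 ≤ y) :
    ContinuousOn (gL α β y A' A) (bx α β γ) := by
  unfold gL
  exact (rtc α β _).mul (Complex.continuous_ofReal.comp_continuousOn
    (LL_cont.comp (hu_cont y A' A).continuousOn (hu_maps hα hA hA' hy)))

lemma gP_cont {α β γ y A' A : ℝ} {X : ℕ} (hα : 0 < α) (hA : 0 < A) (hA' : 0 ≤ A') (hy : 0 ≤ y) :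
    ContinuousOn (gP α β X y A' A) (bx α β γ) := by
  unfold gP
  exact (rtc α β _).mul ((PO_cont X).comp (hu_cont y A' A).continuousOn (hu_maps hα hA hA' hy))

lemma gE_cont {α β γ y A' A : ℝ} {X : ℕ} (hα : 0 < α) (hA : 0 < A) (hA' : 0 ≤ A') (hy : 0 ≤ y) :
    ContinuousOn (gE α β X y A' A) (bx α β γ) := by
  unfold gE
  exact (gF_cont.sub (gL_cont hα hA hA' hy)).sub (gP_cont hα hA hA' hy)

/-- the fourth moment over the parameters -/
lemma numF (α β γ : ℝ) (hα : 0 < α) (hαβ : α ≤ β) (hγ : 0 ≤ γ) :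
    ∃ C : ℝ, 0 < C ∧ ∀ y A' A N : ℝ, 1 ≤ A' → A' ≤ A → 0 ≤ y → y + γ * A' + β * A ≤ N → 1000 ≤ N →
    ∫ θ in bx α β γ, ‖gF α β y A' A θ‖ ^ 2 ≤ C * (N / A * (1 + Real.log N) ^ 4) := by
  refine ⟨γ * (β - α) ^ 2 + 1, by positivity, fun y A' A N hA'1 hAA hy hN hN1 => ?_⟩
  have hA'0 : 0 < A' := by linarith
  have hA : 0 < A := by linarith
  have hN0 : 0 < N := by linarith
  have e0 : ∫ θ in bx α β γ, ‖gF α β y A' A θ‖ ^ 2 = ∫ θ in bx α β γ, eta α β θ.1 * ff (hu y A' A θ) ^ 2 := by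
    apply setIntegral_congr_fun (bx_cpt α β γ).measurableSet
    intro θ hθ
    simp only [gF]
    rw [norm_mul, Complex.norm_real, Complex.norm_real, mul_pow, Real.norm_eq_abs, Real.norm_eq_abs, sq_abs,
      sq_abs, ← rt_sq hθ]
    ring
  rw [e0]
  have hc : ContinuousOn (fun θ : ℝ × ℝ => eta α β θ.1 * ff (hu y A' A θ) ^ 2) (bx α β γ) := by
    apply Continuous.continuousOn
    apply Continuous.mul
    · unfold Pool.Agent.H471.QP.eta; fun_prop
    · exact (ff_cont.comp (hu_cont y A' A)).pow 2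
  rw [fubR hαβ hγ hc]
  have h1 : ∀ b ∈ Icc 0 γ, ∫ a in α..β, eta α β a * ff (hu y A' A (a, b)) ^ 2 ≤
      (β - α) ^ 2 * (N / A * Real.log N ^ 4) := by
    intro b hb
    have g1 : ∫ a in α..β, eta α β a * ff (hu y A' A (a, b)) ^ 2 ≤
        ∫ a in α..β, (β - α) ^ 2 * ff (hu y A' A (a, b)) ^ 2 := by
      apply intervalIntegral.integral_mono_on hαβ
      · apply Continuous.intervalIntegrable
        apply Continuous.mul
        · unfold Pool.Agent.H471.QP.eta; fun_prop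
        · exact (ff_cont.comp (by unfold hu; fun_prop)).pow 2
      · apply Continuous.intervalIntegrable
        exact continuous_const.mul ((ff_cont.comp (by unfold hu; fun_prop)).pow 2)
      · intro a ha
        have := (eta_le (α := α) (β := β) (γ := γ) (θ := (a, b)) ⟨ha, hb⟩).2
        simp only at this
        gcongr
    refine g1.trans ?_
    rw [intervalIntegral.integral_const_mul]
    refine mul_le_mul_of_nonneg_left ?_ (sq_nonneg _)
    have g2 : ∫ a in α..β, ff (hu y A' A (a, b)) ^ 2 =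
        A⁻¹ * ∫ v in (A * α + (y + b * A'))..(A * β + (y + b * A')), ff v ^ 2 := by
      rw [← smul_eq_mul, ← intervalIntegral.integral_comp_mul_add (fun v => ff v ^ 2) hA.ne']
      congr 1
      funext a
      unfold hu
      simp only
      congr 2
      ring
    have hbx : 0 ≤ b * A' := mul_nonneg hb.1 hA'0.le
    have hbx2 : b * A' ≤ γ * A' := mul_le_mul_of_nonneg_right hb.2 hA'0.le
    have hc2 : Continuous (fun v => ff v ^ 2) := ff_cont.pow 2
    have g3 : ∫ v in (A * α + (y + b * A'))..(A * β + (y + b * A')), ff v ^ 2 ≤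
        ∫ v in (0:ℝ)..N, ff v ^ 2 := by
      apply intervalIntegral.integral_mono_interval
      · positivity
      · gcongr
      · linarith
      · exact Filter.Eventually.of_forall fun v => by positivity
      · exact hc2.intervalIntegrable _ _
    have g4 := Pool.Agent.TH158.FM.fourth_all N hN1
    have g5 : ∫ v in (0:ℝ)..N, ff v ^ 2 =
        ∫ t in (0:ℝ)..N, ‖riemannZeta (Pool.Agent.TH158.FM.pt (1 / 2) t)‖ ^ 4 := by
      congr 1
      funext v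
      unfold ff Pool.Agent.TH158.FM.pt
      rw [← pow_mul]
      congr 3
      push_cast
      ring
    rw [← g5] at g4
    have hl : 0 ≤ Real.log N := Real.log_nonneg (by linarith)
    rw [g2, inv_mul_le_iff₀ hA]
    calc _ ≤ 4 / 5 * (N * Real.log N ^ 4) := g3.trans g4
      _ ≤ 1 * (N * Real.log N ^ 4) := by gcongr; norm_num
      _ = _ := by field_simp
  have hl : 0 ≤ Real.log N := Real.log_nonneg (by linarith)
  have h3 := intervalIntegral.norm_integral_le_of_norm_le_const (a := 0) (b := γ)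
    (C := (β - α) ^ 2 * (N / A * Real.log N ^ 4))
    (f := fun b : ℝ => ∫ a in α..β, eta α β a * ff (hu y A' A (a, b)) ^ 2) (by
      intro b hb
      rw [uIoc_of_le hγ] at hb
      have hb' : b ∈ Icc 0 γ := ⟨hb.1.le, hb.2⟩
      rw [Real.norm_of_nonneg]
      · exact h1 b hb'
      · apply intervalIntegral.integral_nonneg hαβ
        intro a ha
        have := (eta_le (α := α) (β := β) (γ := γ) (θ := (a, b)) ⟨ha, hb'⟩).1
        simp only at this
        positivity)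
  refine (Real.le_norm_self _).trans (h3.trans ?_)
  rw [sub_zero, abs_of_nonneg hγ]
  calc (β - α) ^ 2 * (N / A * Real.log N ^ 4) * γ = (γ * (β - α) ^ 2) * (N / A * Real.log N ^ 4) := by ring
    _ ≤ (γ * (β - α) ^ 2 + 1) * (N / A * (1 + Real.log N) ^ 4) := by
        gcongr
        · linarith
        · linarith

lemma numL (α β γ : ℝ) (_hα : 0 < α) (hαβ : α ≤ β) :
    ∃ C : ℝ, 0 < C ∧ ∀ y A' A N : ℝ, 0 ≤ A' → 0 < A → 0 ≤ y → 1 ≤ α * A → y + γ * A' + β * A ≤ N →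
    ∫ θ in bx α β γ, ‖gL α β y A' A θ‖ ^ 2 ≤ C * (1 + Real.log N) ^ 2 := by
  obtain ⟨V, hV⟩ : ∃ V : ℝ, V = volume.real (bx α β γ) := ⟨_, rfl⟩
  have hV0 : 0 ≤ V := by rw [hV]; exact measureReal_nonneg
  have hba : 0 ≤ β - α := by linarith
  refine ⟨((β - α) * 9) ^ 2 * V + 1, by positivity, fun y A' A N hA' hA hy hαA hN => ?_⟩
  by_cases hne : (bx α β γ).Nonempty
  · obtain ⟨θ0, hθ0⟩ := hne
    have hN1 : 1 ≤ N := by
      have h1 := hu_lb hy hA' hA.le hθ0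
      have h2 := hu_ub (y := y) hA' hA.le hθ0
      linarith
    have hl : 0 ≤ Real.log N := Real.log_nonneg hN1
    refine (sq_bd (M := (β - α) * (9 * (1 + Real.log N))) ?_).trans ?_
    · intro θ hθ
      have h1 := hu_lb hy hA' hA.le hθ
      have h2 := hu_ub (y := y) hA' hA.le hθ
      unfold gL
      rw [norm_mul, Complex.norm_real, Complex.norm_real, Real.norm_eq_abs, Real.norm_eq_abs]
      have k1 := rt_le hαβ hθ
      have k2 := LL_le (by linarith : 1 ≤ hu y A' A θ)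
      have k4 : Real.log (hu y A' A θ) ≤ Real.log N := Real.log_le_log (by linarith) (by linarith)
      have k6 : |LL (hu y A' A θ)| ≤ 9 * (1 + Real.log N) := by linarith
      exact mul_le_mul k1 k6 (abs_nonneg _) hba
    · rw [← hV]
      have : 0 ≤ (1 + Real.log N) ^ 2 := sq_nonneg _
      calc ((β - α) * (9 * (1 + Real.log N))) ^ 2 * V = ((β - α) * 9) ^ 2 * V * (1 + Real.log N) ^ 2 := by ring
        _ ≤ _ := by gcongr; linarith
  · rw [not_nonempty_iff_eq_empty] at hne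
    rw [hne, setIntegral_empty]
    positivity

lemma numE (α β γ ε : ℝ) (hα : 0 < α) (hαβ : α ≤ β) (hε : 0 < ε) (hε4 : ε ≤ 1 / 4) :
    ∃ C : ℝ, 0 < C ∧ ∀ (y A' A N : ℝ) (X : ℕ), 0 ≤ A' → 0 < A → 0 ≤ y → 1 ≤ α * A → y + γ * A' + β * A ≤ N →
    N ^ (1 + ε) ≤ (X : ℝ) →
    ∫ θ in bx α β γ, ‖gE α β X y A' A θ‖ ^ 2 ≤ C * A ^ (-1 + 2 * ε) := by
  obtain ⟨CE, hCE, hE⟩ := PO_err ε hε
  obtain ⟨V, hV⟩ : ∃ V : ℝ, V = volume.real (bx α β γ) := ⟨_, rfl⟩
  have hV0 : 0 ≤ V := by rw [hV]; exact measureReal_nonneg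
  have hba : 0 ≤ β - α := by linarith
  refine ⟨((β - α) * (CE * α ^ (-(1 / 2) + ε))) ^ 2 * V + 1, by positivity, fun y A' A N X hA' hA hy hαA hN hX => ?_⟩
  refine (sq_bd (M := (β - α) * (CE * (α ^ (-(1 / 2) + ε) * A ^ (-(1 / 2) + ε)))) ?_).trans ?_
  · intro θ hθ
    have h1 := hu_lb hy hA' hA.le hθ
    have h2 := hu_ub (y := y) hA' hA.le hθ
    have e1 : gE α β X y A' A θ = (rt α β θ : ℂ) *
        ((ff (hu y A' A θ) : ℂ) - (LL (hu y A' A θ) : ℂ) - PO X (hu y A' A θ)) := by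
      unfold gE gF gL gP
      ring
    rw [e1, norm_mul, Complex.norm_real, Real.norm_eq_abs]
    have k1 := rt_le hαβ hθ
    have k2 := hE X (hu y A' A θ) (by linarith) (by
      refine le_trans ?_ hX
      exact Real.rpow_le_rpow (by linarith) (by linarith) (by linarith))
    have k3 : hu y A' A θ ^ (-(1 / 2) + ε) ≤ α ^ (-(1 / 2) + ε) * A ^ (-(1 / 2) + ε) := by
      rw [← Real.mul_rpow hα.le hA.le]
      exact Real.rpow_le_rpow_of_nonpos (by positivity) h1 (by linarith)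
    have k5 : CE * hu y A' A θ ^ (-(1 / 2) + ε) ≤ CE * (α ^ (-(1 / 2) + ε) * A ^ (-(1 / 2) + ε)) := by gcongr
    exact mul_le_mul k1 (k2.trans k5) (norm_nonneg _) hba
  · rw [← hV]
    have k1 : (A ^ (-(1 / 2) + ε)) ^ 2 = A ^ (-1 + 2 * ε) := by
      rw [← Real.rpow_natCast, ← Real.rpow_mul hA.le]
      congr 1
      push_cast
      ring
    have : 0 ≤ A ^ (-1 + 2 * ε) := by positivity
    calc ((β - α) * (CE * (α ^ (-(1 / 2) + ε) * A ^ (-(1 / 2) + ε)))) ^ 2 * V =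
          ((β - α) * (CE * α ^ (-(1 / 2) + ε))) ^ 2 * V * (A ^ (-(1 / 2) + ε)) ^ 2 := by ring
      _ = ((β - α) * (CE * α ^ (-(1 / 2) + ε))) ^ 2 * V * A ^ (-1 + 2 * ε) := by rw [k1]
      _ ≤ _ := by gcongr; linarith

lemma numP {α β γ y A' A : ℝ} {X : ℕ} (hα : 0 < α) (hA : 0 < A) (hA' : 0 ≤ A') (hy : 0 ≤ y) :
    ∫ θ in bx α β γ, ‖gP α β X y A' A θ‖ ^ 2 ≤ 3 * (∫ θ in bx α β γ, ‖gF α β y A' A θ‖ ^ 2) +
      3 * (∫ θ in bx α β γ, ‖gL α β y A' A θ‖ ^ 2) + 3 * (∫ θ in bx α β γ, ‖gE α β X y A' A θ‖ ^ 2) :=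
  three gF_cont (gL_cont hα hA hA' hy) (gE_cont hα hA hA' hy) (gP_cont hα hA hA' hy)
    (fun θ => by unfold gE; ring)

/-- the kernel -/
lemma numK (α β γ : ℝ) (hα : 0 < α) (hαβ : α ≤ β) (hγ : 0 ≤ γ) : ∃ C : ℝ, 0 < C ∧
    ∀ (A A' B B' y1 y2 : ℝ) (X1 X2 : ℕ), 1 ≤ A' → A' ≤ A → 1 ≤ B' → B' ≤ B → 0 ≤ y1 → 0 ≤ y2 →
    A ≤ X1 → B ≤ X2 → 0 < |A' * B - A * B'| →
    ‖∫ θ in bx α β γ, gP α β X1 y1 A' A θ * (starRingEnd ℂ) (gP α β X2 y2 B' B θ)‖ ≤
    C * ((1 + Real.log X1) * (1 + Real.log X2)) ^ 3 * (√(X1 * X2) / |A' * B - A * B'|) := by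
  obtain ⟨C, hC, h⟩ := ker α β γ hα hαβ hγ
  refine ⟨C, hC, fun A A' B B' y1 y2 X1 X2 hA' hAA hB' hBB hy1 hy2 hX1 hX2 hΔ => ?_⟩
  have hA'0 : 0 < A' := by linarith
  have hA0 : 0 < A := by linarith
  have hB'0 : 0 < B' := by linarith
  have hB0 : 0 < B := by linarith
  have e1 : ∫ θ in bx α β γ, gP α β X1 y1 A' A θ * (starRingEnd ℂ) (gP α β X2 y2 B' B θ) =
      ∫ a in α..β, ∫ b in (0:ℝ)..γ, (eta α β a : ℂ) * (PO X1 (y1 + b * A' + a * A) *
      (starRingEnd ℂ) (PO X2 (y2 + b * B' + a * B))) := by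
    rw [fubC hαβ hγ]
    · apply intervalIntegral.integral_congr
      intro a ha
      rw [uIcc_of_le hαβ] at ha
      apply intervalIntegral.integral_congr
      intro b hb
      rw [uIcc_of_le hγ] at hb
      simp only [gP, hu]
      have k1 := rt_sq (α := α) (β := β) (γ := γ) (θ := (a, b)) ⟨ha, hb⟩
      have k2 : (eta α β a : ℂ) = (rt α β (a, b) : ℂ) * (rt α β (a, b) : ℂ) := by
        rw [← Complex.ofReal_mul, k1]
      rw [k2, map_mul, Complex.conj_ofReal]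
      ring
    · exact (gP_cont hα hA0 hA'0.le hy1).mul
        (RCLike.continuous_conj.comp_continuousOn (gP_cont hα hB0 hB'0.le hy2))
  rw [e1]
  exact h A A' B B' y1 y2 X1 X2 hA' hAA hB' hBB hy1 hy2 hX1 hX2 hΔ

end Pool.Agent.H471.ZP
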