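import Pool.Agent.H471.ZP.Equ
import Pool.Agent.H469.F4.SP7

set_option autoImplicit false

/-!
Exact order of the mixed moments, real orders at most four in the first factor.
-/

namespace Pool.Agent.H471.ZP

open MeasureTheory Set Filter Topology
open Pool.Agent.Y969.GP (ff)
open Pool.Agent.H471.QP (LL)
open Pool.Agent.Helper156_SP (az az_nonneg az_cont azp_cont azp_int mom_low)

/-- the moments of order at most four over dyadic intervals -/
lemma dy_ord (lam : ℝ) (hl : 0 < lam) (hl4 : lam ≤ 4) : ∃ c C T1 : ℝ, 0 < c ∧ 0 < C ∧ 4 ≤ T1 ∧ ∀ T : ℝ, T1 ≤ T →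
    c * (T * Real.log T ^ (lam ^ 2 / 4)) ≤ ∫ t in T..(2 * T), az t ^ lam ∧
    ∫ t in T..(2 * T), az t ^ lam ≤ C * (T * Real.log T ^ (lam ^ 2 / 4)) := by
  obtain ⟨c₀, c, C, hc0, hc, hC, h⟩ := Pool.Agent.H469.F4.joint_eu (A := 2) le_rfl
  have hlim : Tendsto (fun T : ℝ => c₀ * (Real.log T / Real.log (Real.log T)) ^ 2) atTop atTop := by
    have h1 : Tendsto (fun x : ℝ => x / Real.log x) atTop atTop := by
      have h2 : Tendsto (fun x : ℝ => Real.exp x / x ^ (1:ℕ)) atTop atTop := by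
        exact_mod_cast Real.tendsto_exp_div_pow_atTop 1
      have h3 := h2.comp Real.tendsto_log_atTop
      refine h3.congr' ?_
      filter_upwards [eventually_gt_atTop 0] with x hx
      simp only [Function.comp, pow_one]
      rw [Real.exp_log hx]
    have h2 := h1.comp Real.tendsto_log_atTop
    have h3 := (tendsto_pow_atTop (two_ne_zero)).comp h2
    exact h3.const_mul_atTop hc0
  obtain ⟨T1, hT1⟩ := eventually_atTop.1 ((h.and (hlim.eventually_ge_atTop 2)).and (eventually_ge_atTop 4))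
  refine ⟨c, C, T1, hc, hC, (hT1 T1 le_rfl).2, fun T hT => ?_⟩
  obtain ⟨⟨h1, h2⟩, h3⟩ := hT1 T hT
  have h4 := h1 2 le_rfl (by exact_mod_cast h2) (lam / 2) (by positivity) (by linarith) 0 (by norm_num)
  have hT0 : 0 < T := by linarith
  have e1 : (lam / 2) ^ 2 = lam ^ 2 / 4 := by ring
  have e2 : 2 * (lam / 2) * 0 + (0:ℝ) ^ 2 = 0 := by ring
  have e3 : Pool.Agent.H469.F4.jm (lam / 2) 0 2 T = (1 / T) * ∫ t in T..(2 * T), az t ^ lam := by
    unfold Pool.Agent.H469.F4.jm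
    congr 1
    apply intervalIntegral.integral_congr
    intro t _
    simp only [mul_zero, Real.rpow_zero, mul_one]
    rw [show 2 * (lam / 2) = lam by ring]
    rfl
  rw [e1, e2, e3, Real.rpow_zero, mul_one] at h4
  obtain ⟨h5, h6⟩ := h4
  constructor
  · have h7 := mul_le_mul_of_nonneg_left h5 hT0.le
    have e4 : T * (1 / T * ∫ t in T..(2 * T), az t ^ lam) = ∫ t in T..(2 * T), az t ^ lam := by
      rw [← mul_assoc, mul_one_div_cancel hT0.ne', one_mul]
    rw [e4] at h7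
    calc _ = T * (c * Real.log T ^ (lam ^ 2 / 4)) := by ring
      _ ≤ _ := h7
  · have h7 := mul_le_mul_of_nonneg_left h6 hT0.le
    have e4 : T * (1 / T * ∫ t in T..(2 * T), az t ^ lam) = ∫ t in T..(2 * T), az t ^ lam := by
      rw [← mul_assoc, mul_one_div_cancel hT0.ne', one_mul]
    rw [e4] at h7
    calc _ ≤ T * (C * Real.log T ^ (lam ^ 2 / 4)) := h7
      _ = _ := by ring

/-- the moments of order at most four -/
lemma ord4 (lam : ℝ) (hl : 0 < lam) (hl4 : lam ≤ 4) : ∃ c C T1 : ℝ, 0 < c ∧ 0 < C ∧ 4 ≤ T1 ∧ ∀ T : ℝ, T1 ≤ T →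
    c * (T * Real.log T ^ (lam ^ 2 / 4)) ≤ ∫ t in (2:ℝ)..T, az t ^ lam ∧
    ∫ t in (2:ℝ)..T, az t ^ lam ≤ C * (T * Real.log T ^ (lam ^ 2 / 4)) := by
  obtain ⟨c, C, T1, hc, hC, hT1, h⟩ := dy_ord lam hl hl4
  have hb : 0 ≤ lam ^ 2 / 4 := by positivity
  have hpos : ∀ a b : ℝ, a ≤ b → 0 ≤ ∫ t in a..b, az t ^ lam := by
    intro a b hab
    apply intervalIntegral.integral_nonneg hab
    intro t _
    have := az_nonneg t
    positivity
  have hadd : ∀ a b d : ℝ, (∫ t in a..b, az t ^ lam) + ∫ t in b..d, az t ^ lam = ∫ t in a..d, az t ^ lam :=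
    fun a b d => intervalIntegral.integral_add_adjacent_intervals (azp_int hl _ _) (azp_int hl _ _)
  obtain ⟨A, hA⟩ : ∃ A : ℝ, A = ∫ t in (2:ℝ)..(2 * T1), az t ^ lam := ⟨_, rfl⟩
  have hA0 : 0 ≤ A := by rw [hA]; exact hpos _ _ (by linarith)
  -- upper bound by induction
  have hup : ∀ n : ℕ, ∀ T : ℝ, T1 ≤ T → T < 2 ^ (n + 1) * T1 →
      ∫ t in (2:ℝ)..T, az t ^ lam ≤ A + C * (T * Real.log T ^ (lam ^ 2 / 4)) := by
    intro n
    induction n with
    | zero =>
      intro T hT hT2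
      have h1 := hadd 2 T (2 * T1)
      have h2 := hpos T (2 * T1) (by
        have : T < 2 * T1 := by simpa using hT2
        exact this.le)
      have h3 : 0 ≤ C * (T * Real.log T ^ (lam ^ 2 / 4)) := by
        have := Real.log_nonneg (show (1:ℝ) ≤ T by linarith)
        have : 0 ≤ T := by linarith
        positivity
      rw [← hA] at h1
      linarith
    | succ n ih =>
      intro T hT hT2
      by_cases hcs : T < 2 * T1
      · have h1 := hadd 2 T (2 * T1)
        have h2 := hpos T (2 * T1) hcs.le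
        have h3 : 0 ≤ C * (T * Real.log T ^ (lam ^ 2 / 4)) := by
          have := Real.log_nonneg (show (1:ℝ) ≤ T by linarith)
          have : 0 ≤ T := by linarith
          positivity
        rw [← hA] at h1
        linarith
      · push Not at hcs
        have h1 := ih (T / 2) (by linarith) (by
          rw [div_lt_iff₀ (by norm_num)]
          calc T < 2 ^ (n + 1 + 1) * T1 := hT2
            _ = 2 ^ (n + 1) * T1 * 2 := by ring)
        have h2 := (h (T / 2) (by linarith)).2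
        rw [show 2 * (T / 2) = T by ring] at h2
        have h3 := hadd 2 (T / 2) T
        have hlg : Real.log (T / 2) ≤ Real.log T := Real.log_le_log (by linarith) (by linarith)
        have h4 : Real.log (T / 2) ^ (lam ^ 2 / 4) ≤ Real.log T ^ (lam ^ 2 / 4) :=
          Real.rpow_le_rpow (Real.log_nonneg (by linarith)) hlg hb
        have h5 : T / 2 * Real.log (T / 2) ^ (lam ^ 2 / 4) ≤ T / 2 * Real.log T ^ (lam ^ 2 / 4) :=
          mul_le_mul_of_nonneg_left h4 (by linarith)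
        have h6 : C * (T / 2 * Real.log (T / 2) ^ (lam ^ 2 / 4)) ≤ C * (T / 2 * Real.log T ^ (lam ^ 2 / 4)) :=
          mul_le_mul_of_nonneg_left h5 hC.le
        have e1 : C * (T * Real.log T ^ (lam ^ 2 / 4)) =
            C * (T / 2 * Real.log T ^ (lam ^ 2 / 4)) + C * (T / 2 * Real.log T ^ (lam ^ 2 / 4)) := by ring
        linarith
  refine ⟨c / 2 * (1 / 2) ^ (lam ^ 2 / 4), A + C, 2 * T1, by positivity, by positivity, by linarith, fun T hT => ?_⟩
  have hT0 : 0 < T := by linarith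
  have hlT : 1 ≤ Real.log T := by
    rw [Real.le_log_iff_exp_le hT0]
    have := Real.exp_one_lt_d9
    linarith
  constructor
  · have h1 := (h (T / 2) (by linarith)).1
    rw [show 2 * (T / 2) = T by ring] at h1
    have h2 := hadd 2 (T / 2) T
    have h3 := hpos 2 (T / 2) (by linarith)
    have hlg : Real.log T * (1 / 2) ≤ Real.log (T / 2) := by
      have h4 : Real.log (T / 2) = Real.log T - Real.log 2 := Real.log_div hT0.ne' (by norm_num)
      have h5 : 2 * Real.log 2 ≤ Real.log T := by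
        rw [← Real.log_rpow (by norm_num)]
        apply Real.log_le_log (by positivity)
        norm_num
        linarith
      linarith
    have h4 : (Real.log T * (1 / 2)) ^ (lam ^ 2 / 4) ≤ Real.log (T / 2) ^ (lam ^ 2 / 4) :=
      Real.rpow_le_rpow (by positivity) hlg hb
    rw [Real.mul_rpow (by linarith) (by norm_num)] at h4
    have h5 : T / 2 * (Real.log T ^ (lam ^ 2 / 4) * (1 / 2) ^ (lam ^ 2 / 4)) ≤
        T / 2 * Real.log (T / 2) ^ (lam ^ 2 / 4) := mul_le_mul_of_nonneg_left h4 (by linarith)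
    have h6 := mul_le_mul_of_nonneg_left h5 hc.le
    have e1 : c / 2 * (1 / 2) ^ (lam ^ 2 / 4) * (T * Real.log T ^ (lam ^ 2 / 4)) =
        c * (T / 2 * (Real.log T ^ (lam ^ 2 / 4) * (1 / 2) ^ (lam ^ 2 / 4))) := by ring
    linarith
  · obtain ⟨n, hn⟩ := pow_unbounded_of_one_lt T (show (1:ℝ) < 2 by norm_num)
    have h1 := hup n T (by linarith) (by
      calc T < 2 ^ n := hn
        _ ≤ 2 ^ (n + 1) * T1 := by
            rw [pow_succ]
            have : (0:ℝ) < 2 ^ n := by positivity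
            nlinarith)
    have h2 : (1:ℝ) ≤ Real.log T ^ (lam ^ 2 / 4) := Real.one_le_rpow hlT hb
    have h3 : 1 ≤ T * Real.log T ^ (lam ^ 2 / 4) := by nlinarith
    have h4 : A * 1 ≤ A * (T * Real.log T ^ (lam ^ 2 / 4)) := mul_le_mul_of_nonneg_left h3 hA0
    calc _ ≤ A + C * (T * Real.log T ^ (lam ^ 2 / 4)) := h1
      _ ≤ A * (T * Real.log T ^ (lam ^ 2 / 4)) + C * (T * Real.log T ^ (lam ^ 2 / 4)) := by linarith
      _ = _ := by ring

/-- the weighted moment -/
lemma NN_ratio (k : ℕ) (lam : ℝ) (hl : 0 < lam) (hl4 : lam ≤ 4) :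
    Tendsto (fun T : ℝ => NN k lam T / (Real.log T ^ k * ∫ t in (2:ℝ)..T, az t ^ lam)) atTop (𝓝 1) := by
  obtain ⟨c, C, T1, hc, hC, hT1, h⟩ := ord4 lam hl hl4
  have hb : 0 ≤ lam ^ 2 / 4 := by positivity
  have hL := Real.tendsto_log_atTop
  have hS := sT_atTop 1
  have hr := sT_ratio 1
  have hlow : Tendsto (fun T : ℝ => (Real.log (T / Real.log T ^ (1:ℝ)) / Real.log T) ^ k * (1 - C / c / Real.log T)) atTop
      (𝓝 (1 ^ k * (1 - 0))) := by
    apply (hr.pow k).mul
    exact tendsto_const_nhds.sub (tendsto_const_nhds.div_atTop hL)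
  rw [one_pow, sub_zero, one_mul] at hlow
  refine tendsto_of_tendsto_of_tendsto_of_le_of_le' hlow tendsto_const_nhds ?_ ?_
  · filter_upwards [hS.eventually_ge_atTop (max T1 4), hL.eventually_ge_atTop 1, eventually_ge_atTop T1]
      with T hST hlT hTT
    obtain ⟨S, hSe⟩ : ∃ S : ℝ, S = T / Real.log T ^ (1:ℝ) := ⟨_, rfl⟩
    rw [← hSe] at hST ⊢
    have hS1 : T1 ≤ S := (le_max_left _ _).trans hST
    have hS4 : 4 ≤ S := (le_max_right _ _).trans hST
    have hT0 : 0 < T := by linarith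
    have hSe' : S = T / Real.log T := by rw [hSe, Real.rpow_one]
    have hSM : S ≤ T := by
      rw [hSe']
      exact div_le_self hT0.le hlT
    have hlS : 0 ≤ Real.log S := Real.log_nonneg (by linarith)
    have hlST : Real.log S ≤ Real.log T := Real.log_le_log (by linarith) hSM
    have hM := h T hTT
    have hMS := h S hS1
    have hMp : 0 < ∫ t in (2:ℝ)..T, az t ^ lam := lt_of_lt_of_le (by positivity) hM.1
    have hsplit : (∫ t in (2:ℝ)..S, az t ^ lam) + ∫ t in S..T, az t ^ lam = ∫ t in (2:ℝ)..T, az t ^ lam :=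
      intervalIntegral.integral_add_adjacent_intervals (azp_int hl _ _) (azp_int hl _ _)
    have hi1 := NN_int k lam hl S (by linarith)
    have hi2 := NN_int k lam hl T (by linarith)
    have hi3 := hi1.symm.trans hi2
    have hNsplit : (∫ t in (2:ℝ)..S, az t ^ lam * Real.log t ^ k) + ∫ t in S..T, az t ^ lam * Real.log t ^ k =
        NN k lam T := intervalIntegral.integral_add_adjacent_intervals hi1 hi3
    have hN1 : 0 ≤ ∫ t in (2:ℝ)..S, az t ^ lam * Real.log t ^ k := by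
      apply intervalIntegral.integral_nonneg (by linarith)
      intro t ht
      have := az_nonneg t
      have := Real.log_nonneg (show (1:ℝ) ≤ t by linarith [ht.1])
      positivity
    have hN2 : Real.log S ^ k * (∫ t in S..T, az t ^ lam) ≤ ∫ t in S..T, az t ^ lam * Real.log t ^ k := by
      rw [← intervalIntegral.integral_const_mul]
      apply intervalIntegral.integral_mono_on hSM ((azp_int hl _ _).const_mul _) hi3
      intro t ht
      have h1 := az_nonneg t
      have h2 : Real.log S ≤ Real.log t := Real.log_le_log (by linarith) ht.1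
      have h3 : Real.log S ^ k ≤ Real.log t ^ k := pow_le_pow_left₀ hlS h2 k
      have h4 : 0 ≤ az t ^ lam := by positivity
      nlinarith
    have hq : ∫ t in (2:ℝ)..S, az t ^ lam ≤ C / c / Real.log T * ∫ t in (2:ℝ)..T, az t ^ lam := by
      have h1 : Real.log S ^ (lam ^ 2 / 4) ≤ Real.log T ^ (lam ^ 2 / 4) := Real.rpow_le_rpow hlS hlST hb
      calc _ ≤ C * (S * Real.log S ^ (lam ^ 2 / 4)) := hMS.2
        _ ≤ C * (S * Real.log T ^ (lam ^ 2 / 4)) := by
            apply mul_le_mul_of_nonneg_left _ hC.le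
            exact mul_le_mul_of_nonneg_left h1 (by linarith)
        _ = C / c / Real.log T * (c * (T * Real.log T ^ (lam ^ 2 / 4))) := by
            rw [hSe']
            field_simp
        _ ≤ _ := mul_le_mul_of_nonneg_left hM.1 (by positivity)
    rw [le_div_iff₀ (by positivity)]
    have e1 : (Real.log S / Real.log T) ^ k * (1 - C / c / Real.log T) *
        (Real.log T ^ k * ∫ t in (2:ℝ)..T, az t ^ lam) =
        Real.log S ^ k * ((∫ t in (2:ℝ)..T, az t ^ lam) - C / c / Real.log T * ∫ t in (2:ℝ)..T, az t ^ lam) := by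
      have : Real.log T ^ k ≠ 0 := by positivity
      rw [div_pow]
      field_simp
    rw [e1, ← hNsplit]
    have h5 : Real.log S ^ k * ((∫ t in (2:ℝ)..T, az t ^ lam) - C / c / Real.log T * ∫ t in (2:ℝ)..T, az t ^ lam) ≤
        Real.log S ^ k * (∫ t in S..T, az t ^ lam) := by
      apply mul_le_mul_of_nonneg_left _ (by positivity)
      linarith
    linarith
  · filter_upwards [eventually_ge_atTop T1, hL.eventually_ge_atTop 1] with T hTT hlT
    have hM := h T hTT
    have hT0 : 0 < T := by linarith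
    have hMp : 0 < ∫ t in (2:ℝ)..T, az t ^ lam := lt_of_lt_of_le (by positivity) hM.1
    rw [div_le_one (by positivity)]
    unfold NN
    rw [← intervalIntegral.integral_const_mul]
    apply intervalIntegral.integral_mono_on (by linarith) (NN_int k lam hl T (by linarith))
      ((azp_int hl _ _).const_mul _)
    intro t ht
    have h1 := az_nonneg t
    have h2 : Real.log t ≤ Real.log T := Real.log_le_log (by linarith [ht.1]) ht.2
    have h3 : Real.log t ^ k ≤ Real.log T ^ k := pow_le_pow_left₀ (Real.log_nonneg (by linarith [ht.1])) h2 k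
    have h4 : 0 ≤ az t ^ lam := by positivity
    nlinarith

variable {k : ℕ} (θ η D : Fin k → ℝ) (m : Fin k → ℕ)

/-- **exact order and asymptotic independence, real orders at most four** -/
theorem ord_main (lam : ℝ) (hl : 0 < lam) (hl4 : lam ≤ 4) (hη : ∀ j, 0 < η j) (hηθ : ∀ j, η j ≤ θ j)
    (hm : ∀ j, η j < θ j ∨ 1 ≤ m j) (hD : ∀ j, θ j ≤ D j)
    (y : Fin k → ℝ → ℝ) (hym : ∀ j, Measurable (y j)) (Y : ℝ)
    (hy : ∀ j t, 2 ≤ t → 0 ≤ y j t ∧ y j t ≤ Y * t ^ D j) (c0 : ℝ) (hc0 : 0 < c0)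
    (hlow : ∀ j t, 2 ≤ t → c0 * t ^ D j ≤ y j t + t ^ θ j)
    (e : ℝ) (he1 : e ≤ 1) (he : ∀ j, e ≤ η j)
    (hδ : ∑ j, (D j - θ j) + (1 - e) + max 0 ((lam - 2) / 3) < 1) :
    ∀ᵐ c : Fin k → ℝ × ℝ, (∀ j, 0 < (c j).1) →
      (∀ T : ℝ, 2 ≤ T → IntervalIntegrable (fun t => az t ^ lam * ∏ j, ff (hgt θ η m y c j t)) volume 2 T) ∧
      Tendsto (fun T : ℝ => (∫ t in (2:ℝ)..T, az t ^ lam * ∏ j, ff (hgt θ η m y c j t)) /
        (Real.log T ^ k * ∫ t in (2:ℝ)..T, az t ^ lam)) atTop (𝓝 (∏ j, D j)) ∧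
      (∃ c1 C1 : ℝ, 0 < c1 ∧ 0 < C1 ∧ ∀ᶠ T : ℝ in atTop,
        c1 * (T * Real.log T ^ (lam ^ 2 / 4 + k)) ≤ ∫ t in (2:ℝ)..T, az t ^ lam * ∏ j, ff (hgt θ η m y c j t) ∧
        ∫ t in (2:ℝ)..T, az t ^ lam * ∏ j, ff (hgt θ η m y c j t) ≤ C1 * (T * Real.log T ^ (lam ^ 2 / 4 + k))) ∧
      (1 ≤ k → ∀ ε : ℝ, 0 < ε → ∀ᶠ T : ℝ in atTop,
        ∫ t in (2:ℝ)..T, az t ^ lam * ∏ j, ff (hgt θ η m y c j t) ≤
          ε * (T * Real.log T ^ ((lam / 2 + k) ^ 2))) := by
  have hwm : Measurable fun t : ℝ => ((az t ^ lam : ℝ) : ℂ) :=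
    Complex.measurable_ofReal.comp (azp_cont hl).measurable
  have h := real_main θ η D m lam hl hη hηθ hm hD y hym Y hy c0 hc0 hlow e he1 he hδ
    (fun t => ((az t ^ lam : ℝ) : ℂ)) hwm (by
      intro t _
      rw [Complex.norm_real, Real.norm_of_nonneg (by have := az_nonneg t; positivity)])
  filter_upwards [h] with c hc hj
  obtain ⟨-, hff, hlim⟩ := hc hj
  have hff' : ∀ T : ℝ, 2 ≤ T → IntervalIntegrable (fun t => az t ^ lam * ∏ j, ff (hgt θ η m y c j t)) volume 2 T := by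
    intro T hT
    have h1 := hff T hT
    have e2 : (fun t => ((az t ^ lam : ℝ) : ℂ) * ((∏ j, ff (hgt θ η m y c j t) : ℝ) : ℂ)) =
        fun t => ((az t ^ lam * ∏ j, ff (hgt θ η m y c j t) : ℝ) : ℂ) := by
      funext t
      push_cast
      rfl
    rw [e2, intervalIntegrable_iff] at h1
    rw [intervalIntegrable_iff]
    exact h1.re
  have hR : 0 < ∏ j, D j := Finset.prod_pos fun j _ => by linarith [hη j, hηθ j, hD j]
  obtain ⟨mix, hmix⟩ : ∃ mix : ℝ → ℝ, mix = fun T : ℝ => ∫ t in (2:ℝ)..T, az t ^ lam * ∏ j, ff (hgt θ η m y c j t) :=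
    ⟨_, rfl⟩
  have hmix' : ∀ T, ∫ t in (2:ℝ)..T, az t ^ lam * ∏ j, ff (hgt θ η m y c j t) = mix T := fun T => by rw [hmix]
  simp only [hmix']
  have e3 : ∀ T : ℝ, ∫ t in (2:ℝ)..T, ((az t ^ lam : ℝ) : ℂ) * ((∏ j, ff (hgt θ η m y c j t) : ℝ) : ℂ) = (mix T : ℂ) := by
    intro T
    rw [← hmix', ← intervalIntegral.integral_ofReal]
    congr 1
    funext t
    push_cast
    rfl
  have e4 : ∀ T : ℝ, ∫ t in (2:ℝ)..T, ((az t ^ lam : ℝ) : ℂ) * ((Real.log t ^ k : ℝ) : ℂ) = (NN k lam T : ℂ) := by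
    intro T
    unfold NN
    rw [← intervalIntegral.integral_ofReal]
    congr 1
    funext t
    push_cast
    rfl
  simp only [e3, e4] at hlim
  have h1 : Tendsto (fun T : ℝ => (mix T - (∏ j, D j) * NN k lam T) / NN k lam T) atTop (𝓝 0) := by
    have h2 := (Complex.continuous_re.tendsto (0:ℂ)).comp hlim
    rw [Complex.zero_re] at h2
    refine h2.congr fun T => ?_
    simp only [Function.comp]
    rw [← Complex.ofReal_mul, ← Complex.ofReal_sub, ← Complex.ofReal_div, Complex.ofReal_re]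
  obtain ⟨cm, Cm, T1, hcm, hCm, hT1, hord⟩ := ord4 lam hl hl4
  have hNpos : ∀ᶠ T : ℝ in atTop, 0 < NN k lam T := by
    filter_upwards [NN_low k lam hl (1 / 2) (by norm_num), eventually_gt_atTop 0] with T h2 h3
    exact lt_of_lt_of_le (by positivity) h2
  have h2 : Tendsto (fun T : ℝ => mix T / NN k lam T) atTop (𝓝 (∏ j, D j)) := by
    have h3 := h1.add_const (∏ j, D j)
    rw [zero_add] at h3
    refine h3.congr' ?_
    filter_upwards [hNpos] with T hT
    rw [sub_div, mul_div_assoc, div_self hT.ne', mul_one]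
    ring
  have h3 : Tendsto (fun T : ℝ => mix T / (Real.log T ^ k * ∫ t in (2:ℝ)..T, az t ^ lam)) atTop (𝓝 (∏ j, D j)) := by
    have h4 := h2.mul (NN_ratio k lam hl hl4)
    rw [mul_one] at h4
    refine h4.congr' ?_
    filter_upwards [hNpos] with T hT
    rw [div_mul_div_cancel₀ hT.ne']
  have h5 : ∀ᶠ T : ℝ in atTop, (∏ j, D j) / 2 * cm * (T * Real.log T ^ (lam ^ 2 / 4 + k)) ≤ mix T ∧
      mix T ≤ 2 * (∏ j, D j) * Cm * (T * Real.log T ^ (lam ^ 2 / 4 + k)) := by
    filter_upwards [(tendsto_order.1 h3).1 ((∏ j, D j) / 2) (by linarith),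
      (tendsto_order.1 h3).2 (2 * ∏ j, D j) (by linarith), eventually_ge_atTop T1,
      Real.tendsto_log_atTop.eventually_ge_atTop 1] with T h6 h7 hTT hlT
    have hT0 : 0 < T := by linarith
    obtain ⟨o1, o2⟩ := hord T hTT
    have hMp : 0 < ∫ t in (2:ℝ)..T, az t ^ lam := lt_of_lt_of_le (by positivity) o1
    have hlk : 0 < Real.log T ^ k := by positivity
    rw [lt_div_iff₀ (by positivity)] at h6
    rw [div_lt_iff₀ (by positivity)] at h7
    have e5 : Real.log T ^ (lam ^ 2 / 4 + k) = Real.log T ^ (lam ^ 2 / 4) * Real.log T ^ k := by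
      rw [Real.rpow_add (by linarith), Real.rpow_natCast]
    rw [e5]
    constructor
    · calc _ = (∏ j, D j) / 2 * (Real.log T ^ k * (cm * (T * Real.log T ^ (lam ^ 2 / 4)))) := by ring
        _ ≤ (∏ j, D j) / 2 * (Real.log T ^ k * ∫ t in (2:ℝ)..T, az t ^ lam) := by
            apply mul_le_mul_of_nonneg_left _ (by positivity)
            exact mul_le_mul_of_nonneg_left o1 hlk.le
        _ ≤ _ := h6.le
    · calc _ ≤ 2 * (∏ j, D j) * (Real.log T ^ k * ∫ t in (2:ℝ)..T, az t ^ lam) := h7.le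
        _ ≤ 2 * (∏ j, D j) * (Real.log T ^ k * (Cm * (T * Real.log T ^ (lam ^ 2 / 4)))) := by
            apply mul_le_mul_of_nonneg_left _ (by positivity)
            exact mul_le_mul_of_nonneg_left o2 hlk.le
        _ = _ := by ring
  refine ⟨hff', h3, ⟨(∏ j, D j) / 2 * cm, 2 * (∏ j, D j) * Cm, by positivity, by positivity, h5⟩, ?_⟩
  intro hk ε hε
  have hk1 : (1:ℝ) ≤ k := by exact_mod_cast hk
  have hgap : 0 < (lam / 2 + k) ^ 2 - (lam ^ 2 / 4 + k) := by nlinarith
  have h6 : Tendsto (fun T : ℝ => ε * Real.log T ^ ((lam / 2 + k) ^ 2 - (lam ^ 2 / 4 + k))) atTop atTop :=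
    ((tendsto_rpow_atTop hgap).comp Real.tendsto_log_atTop).const_mul_atTop hε
  filter_upwards [h5, h6.eventually_ge_atTop (2 * (∏ j, D j) * Cm), Real.tendsto_log_atTop.eventually_ge_atTop 1,
    eventually_ge_atTop 1] with T h7 h8 hlT hT1'
  have hlp : 0 < Real.log T := by linarith
  have e6 : Real.log T ^ ((lam / 2 + k) ^ 2) =
      Real.log T ^ ((lam / 2 + k) ^ 2 - (lam ^ 2 / 4 + k)) * Real.log T ^ (lam ^ 2 / 4 + k) := by
    rw [← Real.rpow_add hlp]
    congr 1
    ring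
  calc mix T ≤ 2 * (∏ j, D j) * Cm * (T * Real.log T ^ (lam ^ 2 / 4 + k)) := h7.2
    _ ≤ ε * Real.log T ^ ((lam / 2 + k) ^ 2 - (lam ^ 2 / 4 + k)) * (T * Real.log T ^ (lam ^ 2 / 4 + k)) :=
        mul_le_mul_of_nonneg_right h8 (by positivity)
    _ = _ := by rw [e6]; ring

lemma log_gap (b B C ε : ℝ) (hb : b < B) (hε : 0 < ε) :
    ∀ᶠ T : ℝ in atTop, C * (T * Real.log T ^ b) ≤ ε * (T * Real.log T ^ B) := by
  have h6 : Tendsto (fun T : ℝ => ε * Real.log T ^ (B - b)) atTop atTop :=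
    ((tendsto_rpow_atTop (by linarith)).comp Real.tendsto_log_atTop).const_mul_atTop hε
  filter_upwards [h6.eventually_ge_atTop C, Real.tendsto_log_atTop.eventually_ge_atTop 1,
    eventually_ge_atTop 1] with T h8 hlT hT1'
  have hlp : 0 < Real.log T := by linarith
  have e6 : Real.log T ^ B = Real.log T ^ (B - b) * Real.log T ^ b := by
    rw [← Real.rpow_add hlp]
    congr 1
    ring
  calc C * (T * Real.log T ^ b) ≤ ε * Real.log T ^ (B - b) * (T * Real.log T ^ b) :=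
        mul_le_mul_of_nonneg_right h8 (by positivity)
    _ = _ := by rw [e6]; ring

/-- **all real orders at once** -/
theorem ord_all (hη : ∀ j, 0 < η j) (hηθ : ∀ j, η j ≤ θ j)
    (hm : ∀ j, η j < θ j ∨ 1 ≤ m j) (hD : ∀ j, θ j ≤ D j)
    (y : Fin k → ℝ → ℝ) (hym : ∀ j, Measurable (y j)) (Y : ℝ)
    (hy : ∀ j t, 2 ≤ t → 0 ≤ y j t ∧ y j t ≤ Y * t ^ D j) (c0 : ℝ) (hc0 : 0 < c0)
    (hlow : ∀ j t, 2 ≤ t → c0 * t ^ D j ≤ y j t + t ^ θ j)
    (e : ℝ) (he1 : e ≤ 1) (he : ∀ j, e ≤ η j) (hk : 1 ≤ k)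
    (hδ : ∑ j, (D j - θ j) + (1 - e) < 1 / 3) :
    ∀ᵐ c : Fin k → ℝ × ℝ, (∀ j, 0 < (c j).1) → ∀ lam : ℝ, 0 < lam → lam ≤ 4 → ∀ ε : ℝ, 0 < ε →
      ∀ᶠ T : ℝ in atTop, ∫ t in (2:ℝ)..T, az t ^ lam * ∏ j, ff (hgt θ η m y c j t) ≤
          ε * (T * Real.log T ^ ((lam / 2 + k) ^ 2)) := by
  have h : ∀ᵐ c : Fin k → ℝ × ℝ, ∀ q : ℚ, (0:ℝ) < q → (q:ℝ) ≤ 4 → (∀ j, 0 < (c j).1) →
      (∀ T : ℝ, 2 ≤ T → IntervalIntegrable (fun t => az t ^ (q:ℝ) * ∏ j, ff (hgt θ η m y c j t)) volume 2 T) ∧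
      (∃ C1 : ℝ, ∀ᶠ T : ℝ in atTop,
        ∫ t in (2:ℝ)..T, az t ^ (q:ℝ) * ∏ j, ff (hgt θ η m y c j t) ≤ C1 * (T * Real.log T ^ ((q:ℝ) ^ 2 / 4 + k))) := by
    rw [ae_all_iff]
    intro q
    by_cases h0 : (0:ℝ) < q
    · by_cases h4 : (q:ℝ) ≤ 4
      · have h1 := ord_main θ η D m (q:ℝ) h0 h4 hη hηθ hm hD y hym Y hy c0 hc0 hlow e he1 he (by
          have : max 0 (((q:ℝ) - 2) / 3) ≤ 2 / 3 := max_le (by norm_num) (by linarith)
          linarith)
        filter_upwards [h1] with c hc _ _ hj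
        obtain ⟨i1, -, ⟨c1, C1, -, -, i2⟩, -⟩ := hc hj
        refine ⟨i1, C1, ?_⟩
        filter_upwards [i2] with T hT
        exact hT.2
      · exact Eventually.of_forall fun c _ h => absurd h h4
    · exact Eventually.of_forall fun c h => absurd h h0
  filter_upwards [h] with c hc hj lam hl hl4 ε hε
  have hk1 : (1:ℝ) ≤ k := by exact_mod_cast hk
  obtain ⟨g, hg⟩ : ∃ g : ℝ, g = (lam / 2 + k) ^ 2 - (lam ^ 2 / 4 + k) := ⟨_, rfl⟩
  have hgap : 0 < g := by rw [hg]; nlinarith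
  obtain ⟨q1, hq1, hq1'⟩ := exists_rat_btwn hl
  -- a rational order above `lam`
  obtain ⟨q2, hq2, hq24, hq2g⟩ : ∃ q2 : ℚ, lam ≤ q2 ∧ (q2:ℝ) ≤ 4 ∧ (q2:ℝ) ^ 2 / 4 + k < (lam / 2 + k) ^ 2 := by
    rcases eq_or_lt_of_le hl4 with h4 | h4
    · refine ⟨4, by rw [h4]; norm_num, by norm_num, ?_⟩
      rw [h4] at hg ⊢
      push_cast
      nlinarith
    · obtain ⟨q2, h1, h2⟩ := exists_rat_btwn (show lam < lam + min (4 - lam) (g / 4) by
        have : 0 < min (4 - lam) (g / 4) := lt_min (by linarith) (by positivity)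
        linarith)
      have h3 : (q2:ℝ) < 4 := by
        have := min_le_left (4 - lam) (g / 4)
        linarith
      have h5 : (q2:ℝ) - lam < g / 4 := by
        have := min_le_right (4 - lam) (g / 4)
        linarith
      refine ⟨q2, h1.le, h3.le, ?_⟩
      have h6 : ((q2:ℝ) ^ 2 - lam ^ 2) / 4 ≤ ((q2:ℝ) - lam) * 2 := by nlinarith
      nlinarith
  have hq2p : (0:ℝ) < q2 := by linarith
  obtain ⟨i1, C1, hC1⟩ := hc q1 hq1 (by linarith) hj
  obtain ⟨i2, C2, hC2⟩ := hc q2 hq2p hq24 hj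
  have hffn : ∀ t : ℝ, 0 ≤ ff t := by
    intro t
    unfold ff
    positivity
  have e1 : (q1:ℝ) ^ 2 / 4 + k < (lam / 2 + k) ^ 2 := by nlinarith
  filter_upwards [hC1, hC2, log_gap _ _ C1 (ε / 2) e1 (by positivity), log_gap _ _ C2 (ε / 2) hq2g (by positivity),
    eventually_ge_atTop 2] with T h1 h2 h3 h4 hT
  have h5 : ∫ t in (2:ℝ)..T, az t ^ lam * ∏ j, ff (hgt θ η m y c j t) ≤
      ∫ t in (2:ℝ)..T, (az t ^ (q1:ℝ) * ∏ j, ff (hgt θ η m y c j t) + az t ^ (q2:ℝ) * ∏ j, ff (hgt θ η m y c j t)) := by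
    by_cases hi : IntervalIntegrable (fun t => az t ^ lam * ∏ j, ff (hgt θ η m y c j t)) volume 2 T
    · apply intervalIntegral.integral_mono_on hT hi ((i1 T hT).add (i2 T hT))
      intro t _
      have h6 : 0 ≤ ∏ j, ff (hgt θ η m y c j t) := Finset.prod_nonneg fun j _ => hffn _
      have h7 := az_nonneg t
      rw [← add_mul]
      apply mul_le_mul_of_nonneg_right _ h6
      rcases le_total (az t) 1 with h8 | h8
      · rcases eq_or_lt_of_le h7 with h9 | h9
        · rw [← h9, Real.zero_rpow hl.ne', Real.zero_rpow hq1.ne', Real.zero_rpow hq2p.ne']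
          norm_num
        · have h10 : az t ^ lam ≤ az t ^ (q1:ℝ) := Real.rpow_le_rpow_of_exponent_ge h9 h8 hq1'.le
          have h11 : 0 ≤ az t ^ (q2:ℝ) := by positivity
          linarith
      · have h10 : az t ^ lam ≤ az t ^ (q2:ℝ) := Real.rpow_le_rpow_of_exponent_le h8 hq2
        have h11 : 0 ≤ az t ^ (q1:ℝ) := by positivity
        linarith
    · rw [intervalIntegral.integral_undef hi]
      apply intervalIntegral.integral_nonneg hT
      intro t _
      have h6 : 0 ≤ ∏ j, ff (hgt θ η m y c j t) := Finset.prod_nonneg fun j _ => hffn _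
      have h7 := az_nonneg t
      positivity
  rw [intervalIntegral.integral_add (i1 T hT) (i2 T hT)] at h5
  linarith

end Pool.Agent.H471.ZP
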