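import Pool.Agent.H471.ZP.Six

set_option autoImplicit false

/-!
Assembly: a fourth power at `t` and generic heights.
-/

namespace Pool.Agent.H471.ZP

open MeasureTheory Set Filter Topology
open Pool.Agent.Y969.GP (ff)
open Pool.Agent.H471.QP (LL)

variable {k : ℕ} (θ η D : Fin k → ℝ) (m : Fin k → ℕ)

lemma hgt_meas (y : Fin k → ℝ → ℝ) (hym : ∀ j, Measurable (y j)) (c : Fin k → ℝ × ℝ) (j : Fin k) :
    Measurable (hgt θ η m y c j) := by
  unfold hgt
  exact ((hym j).add ((fam_P_meas (θ j)).const_mul _)).add ((fam_Q_meas (η j) (m j)).const_mul _)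

lemma hgt_bdd (hη : ∀ j, 0 < η j) (hηθ : ∀ j, η j ≤ θ j) (hD : ∀ j, θ j ≤ D j) (y : Fin k → ℝ → ℝ) (Y : ℝ)
    (hy : ∀ j t, 2 ≤ t → 0 ≤ y j t ∧ y j t ≤ Y * t ^ D j) (c : Fin k → ℝ × ℝ) (j : Fin k) (T : ℝ) :
    ∃ M : ℝ, ∀ t ∈ Icc 2 T, |hgt θ η m y c j t| ≤ M := by
  refine ⟨|Y| * T ^ D j + |(c j).1| * T ^ θ j + |(c j).2| * (T ^ η j / Real.log 2 ^ m j), fun t ht => ?_⟩
  have ht2 := ht.1
  have htp : 0 < t := by linarith
  have hTp : 0 < T := htp.trans_le ht.2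
  have hθ0 : 0 < θ j := (hη j).trans_le (hηθ j)
  have hD0 : 0 < D j := hθ0.trans_le (hD j)
  have h1 := hy j t ht2
  have h2 : t ^ D j ≤ T ^ D j := Real.rpow_le_rpow htp.le ht.2 hD0.le
  have h3 : t ^ θ j ≤ T ^ θ j := Real.rpow_le_rpow htp.le ht.2 hθ0.le
  have h4 : t ^ η j ≤ T ^ η j := Real.rpow_le_rpow htp.le ht.2 (hη j).le
  have hl2 : 0 < Real.log 2 := Real.log_pos (by norm_num)
  have hl : Real.log 2 ≤ Real.log t := Real.log_le_log (by norm_num) ht2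
  have h5 : t ^ η j / Real.log t ^ m j ≤ T ^ η j / Real.log 2 ^ m j :=
    div_le_div₀ (by positivity) h4 (by positivity) (pow_le_pow_left₀ hl2.le hl _)
  have h6 : |y j t| ≤ |Y| * T ^ D j := by
    rw [abs_of_nonneg h1.1]
    refine h1.2.trans ((mul_le_mul_of_nonneg_right (le_abs_self Y) (by positivity)).trans ?_)
    exact mul_le_mul_of_nonneg_left h2 (abs_nonneg _)
  have h7 : |(c j).1 * t ^ θ j| ≤ |(c j).1| * T ^ θ j := by
    rw [abs_mul, abs_of_nonneg (show 0 ≤ t ^ θ j by positivity)]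
    exact mul_le_mul_of_nonneg_left h3 (abs_nonneg _)
  have h8 : |(c j).2 * (t ^ η j / Real.log t ^ m j)| ≤ |(c j).2| * (T ^ η j / Real.log 2 ^ m j) := by
    have h9 : 0 ≤ t ^ η j / Real.log t ^ m j := by
      have : 0 ≤ Real.log t := by linarith
      positivity
    rw [abs_mul, abs_of_nonneg h9]
    exact mul_le_mul_of_nonneg_left h5 (abs_nonneg _)
  unfold hgt
  calc |y j t + (c j).1 * t ^ θ j + (c j).2 * (t ^ η j / Real.log t ^ m j)|
      ≤ |y j t + (c j).1 * t ^ θ j| + |(c j).2 * (t ^ η j / Real.log t ^ m j)| := abs_add_le _ _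
    _ ≤ |y j t| + |(c j).1 * t ^ θ j| + |(c j).2 * (t ^ η j / Real.log t ^ m j)| :=
        add_le_add_left (abs_add_le _ _) _
    _ ≤ _ := by linarith

lemma ff_int (hη : ∀ j, 0 < η j) (hηθ : ∀ j, η j ≤ θ j) (hD : ∀ j, θ j ≤ D j) (y : Fin k → ℝ → ℝ)
    (hym : ∀ j, Measurable (y j)) (Y : ℝ)
    (hy : ∀ j t, 2 ≤ t → 0 ≤ y j t ∧ y j t ≤ Y * t ^ D j) (c : Fin k → ℝ × ℝ) (T : ℝ) (hT : 2 ≤ T) (w : ℝ → ℝ)
    (hw : Continuous w) :
    IntervalIntegrable (fun t => w t * ∏ j, ff (hgt θ η m y c j t)) volume 2 T := by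
  rw [intervalIntegrable_iff_integrableOn_Icc_of_le hT]
  have hb : ∀ j : Fin k, ∃ B : ℝ, ∀ t ∈ Icc 2 T, ‖ff (hgt θ η m y c j t)‖ ≤ B := by
    intro j
    obtain ⟨M, hM⟩ := hgt_bdd θ η D m hη hηθ hD y Y hy c j T
    obtain ⟨B, hB⟩ := (isCompact_Icc (a := -M) (b := M)).exists_bound_of_continuousOn ff_cont.continuousOn
    exact ⟨B, fun t ht => hB _ (abs_le.1 (hM t ht))⟩
  choose B hB using hb
  obtain ⟨W, hW⟩ := (isCompact_Icc (a := 2) (b := T)).exists_bound_of_continuousOn hw.continuousOn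
  apply Measure.integrableOn_of_bounded (M := W * ∏ j, B j)
  · exact measure_Icc_lt_top.ne
  · apply Measurable.aestronglyMeasurable
    apply hw.measurable.mul
    apply Finset.measurable_prod
    intro j _
    exact ff_cont.measurable.comp (hgt_meas θ η m y hym c j)
  · rw [ae_restrict_iff' measurableSet_Icc]
    apply Filter.Eventually.of_forall
    intro t ht
    rw [norm_mul, norm_prod]
    apply mul_le_mul (hW t ht) _ (Finset.prod_nonneg fun j _ => norm_nonneg _) ((norm_nonneg _).trans (hW t ht))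
    exact Finset.prod_le_prod (fun j _ => norm_nonneg _) fun j _ => hB j t ht

/-- **a fourth power and generic heights** -/
theorem six (hη : ∀ j, 0 < η j) (hηθ : ∀ j, η j ≤ θ j) (hm : ∀ j, η j < θ j ∨ 1 ≤ m j) (hD : ∀ j, θ j ≤ D j)
    (y : Fin k → ℝ → ℝ) (hym : ∀ j, Measurable (y j)) (Y : ℝ)
    (hy : ∀ j t, 2 ≤ t → 0 ≤ y j t ∧ y j t ≤ Y * t ^ D j) (c0 : ℝ) (hc0 : 0 < c0)
    (hlow : ∀ j t, 2 ≤ t → c0 * t ^ D j ≤ y j t + t ^ θ j)
    (e : ℝ) (he1 : e ≤ 1) (he : ∀ j, e ≤ η j) (hδ : ∑ j, (D j - θ j) + (1 - e) < 1 / 3) :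
    ∀ᵐ c : Fin k → ℝ × ℝ, (∀ j, 0 < (c j).1) →
      (∃ T0 : ℝ, 2 ≤ T0 ∧
        (∀ T : ℝ, T0 ≤ T → IntervalIntegrable (fun t => F4 t *
          (∏ j, ff (hgt θ η m y c j t) - ∏ j, LL (hgt θ η m y c j t))) volume T0 T) ∧
        ∀ ε : ℝ, 0 < ε → ∃ K : ℝ, ∀ T : ℝ, T0 ≤ T →
          |∫ t in T0..T, F4 t * (∏ j, ff (hgt θ η m y c j t) - ∏ j, LL (hgt θ η m y c j t))| ≤
            K * T ^ ((∑ j, (D j - θ j) + 1 - e + 5 / 3) / 2 + ε)) ∧
      (∀ T : ℝ, 2 ≤ T → IntervalIntegrable (fun t => F4 t * ∏ j, ff (hgt θ η m y c j t)) volume 2 T) ∧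
      Tendsto (fun T : ℝ => (∫ t in (2:ℝ)..T, F4 t * ∏ j, ff (hgt θ η m y c j t)) / (T * Real.log T ^ (4 + k)))
        atTop (𝓝 ((∏ j, D j) / (2 * Real.pi ^ 2))) := by
  have hF4m : Measurable fun t : ℝ => (F4 t : ℂ) := (Complex.continuous_ofReal.comp F4_cont).measurable
  have hnorm : ∀ t : ℝ, ‖(F4 t : ℂ)‖ ^ 2 = F4 t ^ 2 := by
    intro t
    rw [Complex.norm_real, Real.norm_eq_abs, sq_abs]
  have hs0 : 0 ≤ ∑ j, (D j - θ j) := Finset.sum_nonneg fun j _ => by linarith [hD j]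
  have h := gen θ η D m hη hηθ hm hD y hym Y hy e he1 he (fun t => (F4 t : ℂ)) hF4m (5 / 3) (by norm_num)
    (by
      intro T hT
      simp only [hnorm]
      rw [← intervalIntegrable_iff_integrableOn_Ioc_of_le hT]
      exact (F4_cont.pow 2).intervalIntegrable _ _)
    (by
      intro ε hε
      obtain ⟨C, hC⟩ := F4_sq ε hε
      refine ⟨C, fun T hT => ?_⟩
      simp only [hnorm]
      exact hC T hT)
  filter_upwards [h] with c hc hj
  have e1 : (fun t => (F4 t : ℂ) * (∏ j, (ff (hgt θ η m y c j t) : ℂ) - ∏ j, (LL (hgt θ η m y c j t) : ℂ))) =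
      fun t => ((F4 t * (∏ j, ff (hgt θ η m y c j t) - ∏ j, LL (hgt θ η m y c j t)) : ℝ) : ℂ) := by
    funext t
    push_cast
    rfl
  obtain ⟨T0, hT0, hint, hbd⟩ := fix _ ((∑ j, (D j - θ j) + 1 - e + 5 / 3) / 2) (by linarith) (hc hj)
  rw [e1] at hint hbd
  have hint' : ∀ T : ℝ, T0 ≤ T → IntervalIntegrable (fun t => F4 t *
      (∏ j, ff (hgt θ η m y c j t) - ∏ j, LL (hgt θ η m y c j t))) volume T0 T := by
    intro T hT
    have h1 := hint T hT
    rw [intervalIntegrable_iff] at h1 ⊢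
    exact h1.re
  have hbd' : ∀ ε : ℝ, 0 < ε → ∃ K : ℝ, ∀ T : ℝ, T0 ≤ T →
      |∫ t in T0..T, F4 t * (∏ j, ff (hgt θ η m y c j t) - ∏ j, LL (hgt θ η m y c j t))| ≤
        K * T ^ ((∑ j, (D j - θ j) + 1 - e + 5 / 3) / 2 + ε) := by
    intro ε hε
    obtain ⟨K, hK⟩ := hbd ε hε
    refine ⟨K, fun T hT => ?_⟩
    have h1 := hK T hT
    rw [intervalIntegral.integral_ofReal, Complex.norm_real, Real.norm_eq_abs] at h1
    exact h1
  have hff := ff_int θ η D m hη hηθ hD y hym Y hy c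
  refine ⟨⟨T0, hT0, hint', hbd'⟩, fun T hT => hff T hT F4 F4_cont, ?_⟩
  -- the asymptotic formula
  have hffT : ∀ T : ℝ, T0 ≤ T → IntervalIntegrable (fun t => F4 t * ∏ j, ff (hgt θ η m y c j t)) volume T0 T :=
    fun T hT => (hff T0 hT0 F4 F4_cont).symm.trans (hff T (hT0.trans hT) F4 F4_cont)
  have hLLi : ∀ T : ℝ, T0 ≤ T → IntervalIntegrable (fun t => F4 t * ∏ j, LL (hgt θ η m y c j t)) volume T0 T := by
    intro T hT
    have h1 := (hffT T hT).sub (hint' T hT)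
    refine h1.congr fun t _ => ?_
    ring
  have hLL : Tendsto (fun t => (∏ j, LL (hgt θ η m y c j t)) / Real.log t ^ k) atTop (𝓝 (∏ j, D j)) := by
    have h1 : ∀ j, Tendsto (fun t => LL (hgt θ η m y c j t) / Real.log t) atTop (𝓝 (D j)) := by
      intro j
      obtain ⟨c1, C1, hc1, hC1, h2⟩ := hgt_size (θ j) (η j) (D j) (m j) (hηθ j) (hm j) (hD j) (y j) Y c0 hc0
        (hy j) (hlow j) (c j).1 (c j).2 (hj j)
      exact LL_asy (D j) c1 C1 hc1 hC1 _ h2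
    have h2 := tendsto_finsetProd Finset.univ fun j _ => h1 j
    refine h2.congr fun t => ?_
    rw [Finset.prod_div_distrib, Finset.prod_const, Finset.card_univ, Fintype.card_fin]
  have h1 := asy_int F4 (fun t => ∏ j, LL (hgt θ η m y c j t)) k T0 hT0 (1 / (2 * Real.pi ^ 2)) (∏ j, D j)
    F4_nonneg (fun T _ => F4_cont.intervalIntegrable _ _) hLLi (ingham' T0) hLL
  have hL := Real.tendsto_log_atTop
  have hden : Tendsto (fun T : ℝ => T * Real.log T ^ (4 + k)) atTop atTop := by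
    apply Tendsto.atTop_mul_atTop₀ tendsto_id
    exact (tendsto_pow_atTop (by omega)).comp hL
  -- the error term
  have h2 : Tendsto (fun T : ℝ => (∫ t in T0..T, F4 t * (∏ j, ff (hgt θ η m y c j t) -
      ∏ j, LL (hgt θ η m y c j t))) / (T * Real.log T ^ (4 + k))) atTop (𝓝 0) := by
    obtain ⟨δ, hδe⟩ : ∃ δ : ℝ, δ = (1 / 3 - (∑ j, (D j - θ j) + (1 - e))) / 4 := ⟨_, rfl⟩
    have hδ0 : 0 < δ := by rw [hδe]; linarith
    obtain ⟨K, hK⟩ := hbd' δ hδ0
    have h3 : Tendsto (fun T : ℝ => |K| * T ^ (-δ)) atTop (𝓝 (|K| * 0)) :=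
      (tendsto_rpow_neg_atTop hδ0).const_mul _
    rw [mul_zero] at h3
    refine squeeze_zero_norm' ?_ h3
    filter_upwards [eventually_ge_atTop T0, hL.eventually_ge_atTop 1] with T hT hlT
    have hTp : 0 < T := by linarith
    have h4 := hK T hT
    have e2 : (∑ j, (D j - θ j) + 1 - e + 5 / 3) / 2 + δ = 1 - δ := by
      rw [hδe]
      ring
    rw [e2] at h4
    have h5 : (1:ℝ) ≤ Real.log T ^ (4 + k) := one_le_pow₀ hlT
    rw [norm_div, Real.norm_eq_abs, Real.norm_eq_abs, abs_of_pos (show 0 < T * Real.log T ^ (4 + k) by positivity),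
      div_le_iff₀ (by positivity)]
    have h6 : K * T ^ (1 - δ) ≤ |K| * T ^ (1 - δ) := mul_le_mul_of_nonneg_right (le_abs_self K) (by positivity)
    have e3 : T ^ (1 - δ) = T ^ (-δ) * T := by
      rw [show (1:ℝ) - δ = -δ + 1 by ring, Real.rpow_add hTp, Real.rpow_one]
    have h7 : |K| * T ^ (-δ) * T ≤ |K| * T ^ (-δ) * (T * Real.log T ^ (4 + k)) := by
      apply mul_le_mul_of_nonneg_left _ (by positivity)
      nlinarith
    calc _ ≤ K * T ^ (1 - δ) := h4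
      _ ≤ |K| * T ^ (1 - δ) := h6
      _ = |K| * T ^ (-δ) * T := by rw [e3]; ring
      _ ≤ _ := h7
  -- the beginning
  have h3 : Tendsto (fun T : ℝ => (∫ t in (2:ℝ)..T0, F4 t * ∏ j, ff (hgt θ η m y c j t)) /
      (T * Real.log T ^ (4 + k))) atTop (𝓝 0) := tendsto_const_nhds.div_atTop hden
  have h4 := (h1.add h2).add h3
  rw [add_zero, add_zero] at h4
  have e4 : 1 / (2 * Real.pi ^ 2) * ∏ j, D j = (∏ j, D j) / (2 * Real.pi ^ 2) := by ring
  rw [e4] at h4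
  refine h4.congr' ?_
  filter_upwards [eventually_ge_atTop T0] with T hT
  rw [← add_div, ← add_div, ← intervalIntegral.integral_add (hLLi T hT) (hint' T hT)]
  congr 1
  rw [add_comm, ← intervalIntegral.integral_add_adjacent_intervals (hff T0 hT0 F4 F4_cont) (hffT T hT)]
  congr 1
  congr 1
  funext t
  ring

end Pool.Agent.H471.ZP
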