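import Pool.Agent.H471.ZP.AsR
import Pool.Agent.H471.ZP.Sxt
import Pool.Graph.R_pool_sql_team_seeded_620a6dc7.Helper156_SP.Low

set_option autoImplicit false

/-!
Moments of real order: upper bounds.
-/

namespace Pool.Agent.H471.ZP

open MeasureTheory Set Filter Topology
open Pool.Agent.Y969.GP (ff)
open Pool.Agent.H471.QP (LL)
open Pool.Agent.Helper156_SP (az az_nonneg az_cont azp_cont azp_int mom_low)

lemma az_eq (t : ℝ) : az t = ‖riemannZeta (1 / 2 + Complex.I * t)‖ := by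
  unfold az
  rw [mul_comm]

lemma az_sup (ε : ℝ) (hε : 0 < ε) : ∃ M : ℝ, 1 ≤ M ∧ ∀ T : ℝ, 1 ≤ T → ∀ t ∈ Icc (0:ℝ) T,
    az t ≤ M * T ^ (1 / 6 + ε) := by
  obtain ⟨T0, hT0⟩ := Pool.Agent.W22.EH.ex (Pool.Agent.W903.EH.bk Pool.Agent.W347.EH.kt)
      Pool.Agent.W903.EH.b1 ε hε
  obtain ⟨B, hB⟩ := (isCompact_Icc (a := (0:ℝ)) (b := max T0 1)).exists_bound_of_continuousOn
    az_cont.continuousOn
  refine ⟨max B 1, le_max_right _ _, fun T hT t ht => ?_⟩
  have hTp : 1 ≤ T ^ (1 / 6 + ε) := Real.one_le_rpow hT (by positivity)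
  by_cases h : t ≤ max T0 1
  · have h1 := hB t ⟨ht.1, h⟩
    rw [Real.norm_of_nonneg (az_nonneg t)] at h1
    have hm : 0 ≤ max B 1 := le_trans zero_le_one (le_max_right _ _)
    calc az t ≤ B := h1
      _ ≤ max B 1 * 1 := by rw [mul_one]; exact le_max_left _ _
      _ ≤ _ := mul_le_mul_of_nonneg_left hTp hm
  · push Not at h
    have h2 : T0 ≤ t := (le_max_left _ _).trans h.le
    have h3 : 1 ≤ t := (le_max_right _ _).trans h.le
    have h4 := (hT0 t h2).1
    have h5 : az t ≤ t ^ (1 / 6 + ε) := h4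
    calc az t ≤ t ^ (1 / 6 + ε) := h5
      _ ≤ T ^ (1 / 6 + ε) := Real.rpow_le_rpow (by linarith) ht.2 (by positivity)
      _ ≤ max B 1 * T ^ (1 / 6 + ε) := le_mul_of_one_le_left (by linarith) (le_max_right _ _)

lemma az_four (ε : ℝ) (hε : 0 < ε) : ∃ D : ℝ, 0 < D ∧ ∀ T : ℝ, 1 ≤ T →
    ∫ t in (0:ℝ)..T, az t ^ 4 ≤ D * T ^ (1 + ε) := by
  obtain ⟨A, hA, hlog⟩ := Pool.Agent.Y360.SX.log4_le hε
  have hi : ∀ a b : ℝ, IntervalIntegrable (fun t => az t ^ 4) volume a b :=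
    fun a b => (az_cont.pow 4).intervalIntegrable a b
  have hn : ∀ a b : ℝ, a ≤ b → 0 ≤ ∫ t in a..b, az t ^ 4 := fun a b hab =>
    intervalIntegral.integral_nonneg hab fun t _ => by have := az_nonneg t; positivity
  refine ⟨4 / 5 * A + ∫ t in (0:ℝ)..1000, az t ^ 4, by
    have := hn 0 1000 (by norm_num); positivity, fun T hT => ?_⟩
  have hTp : 1 ≤ T ^ (1 + ε) := Real.one_le_rpow hT (by positivity)
  have hN := hn 0 1000 (by norm_num)
  by_cases h : 1000 ≤ T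
  · have h1 : ∫ t in (0:ℝ)..T, az t ^ 4 ≤ 4 / 5 * (T * Real.log T ^ 4) := by
      refine le_trans (le_of_eq ?_) (Pool.Agent.TH158.FM.fourth_all T h)
      congr 1
      funext t
      unfold az
      congr 3
      unfold Pool.Agent.TH158.FM.pt
      push_cast
      ring
    have h2 := hlog T hT
    have h3 : T * T ^ ε = T ^ (1 + ε) := by
      rw [Real.rpow_add (by linarith), Real.rpow_one]
    calc ∫ t in (0:ℝ)..T, az t ^ 4 ≤ 4 / 5 * (T * Real.log T ^ 4) := h1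
      _ ≤ 4 / 5 * (T * (A * T ^ ε)) := by gcongr
      _ = 4 / 5 * A * (T * T ^ ε) := by ring
      _ = 4 / 5 * A * T ^ (1 + ε) := by rw [h3]
      _ ≤ _ := by gcongr; linarith
  · push Not at h
    have h1 : ∫ t in (0:ℝ)..T, az t ^ 4 ≤ ∫ t in (0:ℝ)..1000, az t ^ 4 := by
      rw [← intervalIntegral.integral_add_adjacent_intervals (hi 0 T) (hi T 1000)]
      linarith [hn T 1000 h.le]
    calc ∫ t in (0:ℝ)..T, az t ^ 4 ≤ ∫ t in (0:ℝ)..1000, az t ^ 4 := h1
      _ ≤ (4 / 5 * A + ∫ t in (0:ℝ)..1000, az t ^ 4) * 1 := by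
          rw [mul_one]; linarith [mul_pos (by norm_num : (0:ℝ) < 4 / 5) hA]
      _ ≤ _ := by gcongr

/-- upper bounds for the moments of all real orders, from the fourth moment and Weyl's bound -/
theorem az_up (p : ℝ) (hp : 0 < p) (ε : ℝ) (hε : 0 < ε) : ∃ C : ℝ, ∀ T : ℝ, 2 ≤ T →
    ∫ t in (2:ℝ)..T, az t ^ p ≤ C * T ^ (1 + max 0 ((p - 4) / 6) + ε) := by
  obtain ⟨q, hq⟩ : ∃ q : ℝ, q = max 0 (p - 4) := ⟨_, rfl⟩
  have hq0 : 0 ≤ q := by rw [hq]; exact le_max_left _ _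
  have e0 : max 0 ((p - 4) / 6) = q / 6 := by
    rw [hq]
    rcases le_total 0 (p - 4) with h | h
    · rw [max_eq_right h, max_eq_right (by positivity)]
    · rw [max_eq_left h, max_eq_left (by linarith)]
      simp
  obtain ⟨ε1, hε1⟩ : ∃ ε1 : ℝ, ε1 = ε / (2 * (q + 1)) := ⟨_, rfl⟩
  have hε10 : 0 < ε1 := by rw [hε1]; positivity
  obtain ⟨M, hM1, hM⟩ := az_sup ε1 hε10
  obtain ⟨D, hD, hD4⟩ := az_four (ε / 2) (by positivity)
  have hM0 : 0 < M := by linarith
  refine ⟨M ^ q * (1 + D), fun T hT => ?_⟩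
  have hT1 : 1 ≤ T := by linarith
  have hT0 : 0 < T := by linarith
  have hpt : ∀ t ∈ Icc (2:ℝ) T, az t ^ p ≤ (M * T ^ (1 / 6 + ε1)) ^ q * (1 + az t ^ 4) := by
    intro t ht
    have h1 := hM T hT1 t ⟨by linarith [ht.1], ht.2⟩
    have h0 := az_nonneg t
    have hb1 : 1 ≤ M * T ^ (1 / 6 + ε1) :=
      one_le_mul_of_one_le_of_one_le hM1 (Real.one_le_rpow hT1 (by positivity))
    have hb2 : 1 ≤ (M * T ^ (1 / 6 + ε1)) ^ q := Real.one_le_rpow hb1 hq0
    rcases le_total (az t) 1 with h | h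
    · have h2 : az t ^ p ≤ 1 := Real.rpow_le_one h0 h hp.le
      have h3 : 0 ≤ az t ^ 4 := by positivity
      nlinarith
    · have h0' : 0 < az t := by linarith
      have h2 : az t ^ p ≤ az t ^ (q + 4) := Real.rpow_le_rpow_of_exponent_le h (by
        have := le_max_right 0 (p - 4)
        rw [← hq] at this
        linarith)
      have h3 : az t ^ (q + 4) = az t ^ q * az t ^ 4 := by
        rw [Real.rpow_add h0']
        congr 1
        exact_mod_cast Real.rpow_natCast (az t) 4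
      have h4 : az t ^ q ≤ (M * T ^ (1 / 6 + ε1)) ^ q := Real.rpow_le_rpow h0 h1 hq0
      have h5 : 0 ≤ az t ^ 4 := by positivity
      calc az t ^ p ≤ az t ^ q * az t ^ 4 := h2.trans h3.le
        _ ≤ (M * T ^ (1 / 6 + ε1)) ^ q * az t ^ 4 := mul_le_mul_of_nonneg_right h4 h5
        _ ≤ _ := by nlinarith
  have h1 : ∫ t in (2:ℝ)..T, az t ^ p ≤ ∫ t in (2:ℝ)..T, (M * T ^ (1 / 6 + ε1)) ^ q * (1 + az t ^ 4) := by
    apply intervalIntegral.integral_mono_on hT (azp_int hp _ _) _ hpt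
    exact (continuous_const.mul (continuous_const.add (az_cont.pow 4))).intervalIntegrable _ _
  have h2 : ∫ t in (2:ℝ)..T, (M * T ^ (1 / 6 + ε1)) ^ q * (1 + az t ^ 4) ≤
      (M * T ^ (1 / 6 + ε1)) ^ q * ((1 + D) * T ^ (1 + ε / 2)) := by
    rw [intervalIntegral.integral_const_mul]
    apply mul_le_mul_of_nonneg_left _ (by positivity)
    have hi4 : IntervalIntegrable (fun t => az t ^ 4) volume 2 T := (az_cont.pow 4).intervalIntegrable _ _
    have hi1 : IntervalIntegrable (fun _ : ℝ => (1:ℝ)) volume 2 T := continuous_const.intervalIntegrable _ _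
    rw [intervalIntegral.integral_add hi1 hi4]
    have h3 : ∫ t in (2:ℝ)..T, az t ^ 4 ≤ ∫ t in (0:ℝ)..T, az t ^ 4 := by
      apply intervalIntegral.integral_mono_interval (by norm_num) hT le_rfl
      · exact Filter.Eventually.of_forall fun t => by have := az_nonneg t; positivity
      · exact (az_cont.pow 4).intervalIntegrable _ _
    have h4 := hD4 T hT1
    have h5 : ∫ _t in (2:ℝ)..T, (1:ℝ) ≤ T ^ (1 + ε / 2) := by
      rw [intervalIntegral.integral_const, smul_eq_mul, mul_one]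
      have h6 : T ^ (1:ℝ) ≤ T ^ (1 + ε / 2) := Real.rpow_le_rpow_of_exponent_le hT1 (by linarith)
      rw [Real.rpow_one] at h6
      linarith
    have e5 : (1 + D) * T ^ (1 + ε / 2) = T ^ (1 + ε / 2) + D * T ^ (1 + ε / 2) := by ring
    rw [e5]
    exact add_le_add h5 (h3.trans h4)
  refine (h1.trans h2).trans ?_
  have e1 : (M * T ^ (1 / 6 + ε1)) ^ q = M ^ q * T ^ ((1 / 6 + ε1) * q) := by
    rw [Real.mul_rpow hM0.le (by positivity), ← Real.rpow_mul hT0.le]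
  have h6 : (1 / 6 + ε1) * q ≤ q / 6 + ε / 2 := by
    have h7 : ε1 * q ≤ ε / 2 := by
      rw [hε1]
      have h8 : q / (q + 1) ≤ 1 := (div_le_one (by positivity)).2 (by linarith)
      calc ε / (2 * (q + 1)) * q = ε / 2 * (q / (q + 1)) := by field_simp
        _ ≤ ε / 2 * 1 := mul_le_mul_of_nonneg_left h8 (by positivity)
        _ = ε / 2 := mul_one _
    linarith
  calc (M * T ^ (1 / 6 + ε1)) ^ q * ((1 + D) * T ^ (1 + ε / 2))
      = M ^ q * (1 + D) * (T ^ ((1 / 6 + ε1) * q) * T ^ (1 + ε / 2)) := by rw [e1]; ring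
    _ = M ^ q * (1 + D) * T ^ ((1 / 6 + ε1) * q + (1 + ε / 2)) := by
        rw [Real.rpow_add hT0 ((1 / 6 + ε1) * q) (1 + ε / 2)]
    _ ≤ M ^ q * (1 + D) * T ^ (1 + max 0 ((p - 4) / 6) + ε) := by
        apply mul_le_mul_of_nonneg_left _ (by positivity)
        apply Real.rpow_le_rpow_of_exponent_le hT1
        rw [e0]
        linarith

end Pool.Agent.H471.ZP
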