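import Pool.Agent.H471.ZP.Rea

set_option autoImplicit false

/-!
Moments of real order and generic heights.
-/

namespace Pool.Agent.H471.ZP

open MeasureTheory Set Filter Topology
open Pool.Agent.Y969.GP (ff)
open Pool.Agent.H471.QP (LL)
open Pool.Agent.Helper156_SP (az az_nonneg az_cont azp_cont azp_int mom_low)

/-- integrability of bounded measurable functions -/
lemma bint (w : ℝ → ℂ) (hw : Measurable w) (G : ℝ → ℝ) (hG : Measurable G) (T W B : ℝ) (hT : 2 ≤ T)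
    (hW : ∀ t ∈ Icc 2 T, ‖w t‖ ≤ W) (hB : ∀ t ∈ Icc 2 T, |G t| ≤ B) :
    IntervalIntegrable (fun t => w t * (G t : ℂ)) volume 2 T := by
  rw [intervalIntegrable_iff_integrableOn_Icc_of_le hT]
  apply Measure.integrableOn_of_bounded (M := W * B)
  · exact measure_Icc_lt_top.ne
  · exact (hw.mul (Complex.measurable_ofReal.comp hG)).aestronglyMeasurable
  · rw [ae_restrict_iff' measurableSet_Icc]
    apply Filter.Eventually.of_forall
    intro t ht
    rw [norm_mul, Complex.norm_real, Real.norm_eq_abs]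
    exact mul_le_mul (hW t ht) (hB t ht) (abs_nonneg _) ((norm_nonneg _).trans (hW t ht))

variable {k : ℕ} (θ η D : Fin k → ℝ) (m : Fin k → ℕ)

lemma prodff_meas (y : Fin k → ℝ → ℝ) (hym : ∀ j, Measurable (y j)) (c : Fin k → ℝ × ℝ) :
    Measurable fun t => ∏ j, ff (hgt θ η m y c j t) := by
  apply Finset.measurable_prod
  intro j _
  exact ff_cont.measurable.comp (hgt_meas θ η m y hym c j)

lemma prodff_bdd (hη : ∀ j, 0 < η j) (hηθ : ∀ j, η j ≤ θ j) (hD : ∀ j, θ j ≤ D j) (y : Fin k → ℝ → ℝ) (Y : ℝ)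
    (hy : ∀ j t, 2 ≤ t → 0 ≤ y j t ∧ y j t ≤ Y * t ^ D j) (c : Fin k → ℝ × ℝ) (T : ℝ) :
    ∃ B : ℝ, ∀ t ∈ Icc 2 T, |∏ j, ff (hgt θ η m y c j t)| ≤ B := by
  have hb : ∀ j : Fin k, ∃ B : ℝ, ∀ t ∈ Icc 2 T, |ff (hgt θ η m y c j t)| ≤ B := by
    intro j
    obtain ⟨M, hM⟩ := hgt_bdd θ η D m hη hηθ hD y Y hy c j T
    obtain ⟨B, hB⟩ := (isCompact_Icc (a := -M) (b := M)).exists_bound_of_continuousOn ff_cont.continuousOn
    exact ⟨B, fun t ht => hB _ (abs_le.1 (hM t ht))⟩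
  choose B hB using hb
  refine ⟨∏ j, B j, fun t ht => ?_⟩
  rw [Finset.abs_prod]
  exact Finset.prod_le_prod (fun j _ => abs_nonneg _) fun j _ => hB j t ht

lemma prodLL_asy (hηθ : ∀ j, η j ≤ θ j) (hm : ∀ j, η j < θ j ∨ 1 ≤ m j) (hD : ∀ j, θ j ≤ D j)
    (y : Fin k → ℝ → ℝ) (Y : ℝ)
    (hy : ∀ j t, 2 ≤ t → 0 ≤ y j t ∧ y j t ≤ Y * t ^ D j) (c0 : ℝ) (hc0 : 0 < c0)
    (hlow : ∀ j t, 2 ≤ t → c0 * t ^ D j ≤ y j t + t ^ θ j) (c : Fin k → ℝ × ℝ) (hj : ∀ j, 0 < (c j).1) :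
    Tendsto (fun t => (∏ j, LL (hgt θ η m y c j t)) / Real.log t ^ k) atTop (𝓝 (∏ j, D j)) := by
  have h1 : ∀ j, Tendsto (fun t => LL (hgt θ η m y c j t) / Real.log t) atTop (𝓝 (D j)) := by
    intro j
    obtain ⟨c1, C1, hc1, hC1, h2⟩ := hgt_size (θ j) (η j) (D j) (m j) (hηθ j) (hm j) (hD j) (y j) Y c0 hc0
      (hy j) (hlow j) (c j).1 (c j).2 (hj j)
    exact LL_asy (D j) c1 C1 hc1 hC1 _ h2
  have h2 := tendsto_finsetProd Finset.univ fun j _ => h1 j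
  refine h2.congr fun t => ?_
  rw [Finset.prod_div_distrib, Finset.prod_const, Finset.card_univ, Fintype.card_fin]

/-- the weight -/
noncomputable def NN (k : ℕ) (lam : ℝ) (T : ℝ) : ℝ := ∫ t in (2:ℝ)..T, az t ^ lam * Real.log t ^ k

lemma logk_cont (k : ℕ) (T : ℝ) : ContinuousOn (fun t : ℝ => Real.log t ^ k) (uIcc 2 (max 2 T)) := by
  apply ContinuousOn.pow
  apply Real.continuousOn_log.mono
  intro t ht
  rw [uIcc_of_le (le_max_left 2 T)] at ht
  simp only [mem_compl_iff, mem_singleton_iff]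
  have := ht.1
  linarith

lemma NN_int (k : ℕ) (lam : ℝ) (hl : 0 < lam) (T : ℝ) (hT : 2 ≤ T) :
    IntervalIntegrable (fun t => az t ^ lam * Real.log t ^ k) volume 2 T := by
  have h := (azp_int hl 2 T).mul_continuousOn (g := fun t : ℝ => Real.log t ^ k) (by
    have := logk_cont k T
    rwa [max_eq_right hT] at this)
  exact h

lemma NN_low (k : ℕ) (lam : ℝ) (hl : 0 < lam) (δ : ℝ) (hδ : 0 < δ) :
    ∀ᶠ T : ℝ in atTop, T ^ (1 - δ) ≤ NN k lam T := by
  obtain ⟨δ', hδ'⟩ : ∃ δ' : ℝ, δ' = min δ (1 / 2) := ⟨_, rfl⟩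
  have hδ'0 : 0 < δ' := by rw [hδ']; positivity
  have hδ'δ : δ' ≤ δ := by rw [hδ']; exact min_le_left _ _
  have hδ'2 : δ' ≤ 1 / 2 := by rw [hδ']; exact min_le_right _ _
  have h1 := mom_low hl hδ'0 2
  have h2 : Tendsto (fun T : ℝ => T ^ (1 - δ')) atTop atTop := tendsto_rpow_atTop (by linarith)
  filter_upwards [h1, h2.eventually_ge_atTop (∫ t in (0:ℝ)..3, az t ^ lam), eventually_ge_atTop 3] with T h3 h4 hT
  have e1 : ∫ t in (0:ℝ)..T, az t ^ lam = (∫ t in (0:ℝ)..3, az t ^ lam) + ∫ t in (3:ℝ)..T, az t ^ lam :=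
    (intervalIntegral.integral_add_adjacent_intervals (azp_int hl _ _) (azp_int hl _ _)).symm
  have hT2 : 2 ≤ T := by linarith
  have hi2 := NN_int k lam hl T hT2
  have hi3 : IntervalIntegrable (fun t => az t ^ lam * Real.log t ^ k) volume 2 3 := NN_int k lam hl 3 (by norm_num)
  have e2 : NN k lam T = (∫ t in (2:ℝ)..3, az t ^ lam * Real.log t ^ k) +
      ∫ t in (3:ℝ)..T, az t ^ lam * Real.log t ^ k :=
    (intervalIntegral.integral_add_adjacent_intervals hi3 (hi3.symm.trans hi2)).symm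
  have h5 : 0 ≤ ∫ t in (2:ℝ)..3, az t ^ lam * Real.log t ^ k := by
    apply intervalIntegral.integral_nonneg (by norm_num)
    intro t ht
    have := az_nonneg t
    have := Real.log_nonneg (show (1:ℝ) ≤ t by linarith [ht.1])
    positivity
  have h6 : ∫ t in (3:ℝ)..T, az t ^ lam ≤ ∫ t in (3:ℝ)..T, az t ^ lam * Real.log t ^ k := by
    apply intervalIntegral.integral_mono_on hT (azp_int hl _ _) (hi3.symm.trans hi2)
    intro t ht
    have h7 : 1 ≤ Real.log t := by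
      rw [Real.le_log_iff_exp_le (by linarith [ht.1])]
      have := Real.exp_one_lt_d9
      linarith [ht.1]
    have h8 : 0 ≤ az t ^ lam := by have := az_nonneg t; positivity
    exact le_mul_of_one_le_right h8 (one_le_pow₀ h7)
  have h9 : T ^ (1 - δ) ≤ T ^ (1 - δ') := Real.rpow_le_rpow_of_exponent_le (by linarith) (by linarith)
  linarith

/-- **generic heights, real orders: the error term and the asymptotic independence** -/
theorem real_main (lam : ℝ) (hl : 0 < lam) (hη : ∀ j, 0 < η j) (hηθ : ∀ j, η j ≤ θ j)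
    (hm : ∀ j, η j < θ j ∨ 1 ≤ m j) (hD : ∀ j, θ j ≤ D j)
    (y : Fin k → ℝ → ℝ) (hym : ∀ j, Measurable (y j)) (Y : ℝ)
    (hy : ∀ j t, 2 ≤ t → 0 ≤ y j t ∧ y j t ≤ Y * t ^ D j) (c0 : ℝ) (hc0 : 0 < c0)
    (hlow : ∀ j t, 2 ≤ t → c0 * t ^ D j ≤ y j t + t ^ θ j)
    (e : ℝ) (he1 : e ≤ 1) (he : ∀ j, e ≤ η j)
    (hδ : ∑ j, (D j - θ j) + (1 - e) + max 0 ((lam - 2) / 3) < 1)
    (w : ℝ → ℂ) (hw : Measurable w) (hwl : ∀ t, 2 ≤ t → ‖w t‖ ≤ az t ^ lam) :
    ∀ᵐ c : Fin k → ℝ × ℝ, (∀ j, 0 < (c j).1) →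
      (∃ T0 : ℝ, 2 ≤ T0 ∧
        (∀ T : ℝ, T0 ≤ T → IntervalIntegrable (fun t => w t *
          (∏ j, (ff (hgt θ η m y c j t) : ℂ) - ∏ j, (LL (hgt θ η m y c j t) : ℂ))) volume T0 T) ∧
        ∀ ε : ℝ, 0 < ε → ∃ K : ℝ, ∀ T : ℝ, T0 ≤ T →
          ‖∫ t in T0..T, w t * (∏ j, (ff (hgt θ η m y c j t) : ℂ) - ∏ j, (LL (hgt θ η m y c j t) : ℂ))‖ ≤
            K * T ^ ((∑ j, (D j - θ j) + 1 - e + (1 + max 0 ((lam - 2) / 3))) / 2 + ε)) ∧
      (∀ T : ℝ, 2 ≤ T → IntervalIntegrable (fun t => w t * ((∏ j, ff (hgt θ η m y c j t) : ℝ) : ℂ)) volume 2 T) ∧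
      Tendsto (fun T : ℝ => ((∫ t in (2:ℝ)..T, w t * ((∏ j, ff (hgt θ η m y c j t) : ℝ) : ℂ)) -
        ((∏ j, D j : ℝ) : ℂ) * ∫ t in (2:ℝ)..T, w t * ((Real.log t ^ k : ℝ) : ℂ)) / (NN k lam T : ℂ))
        atTop (𝓝 0) := by
  have hs0 : 0 ≤ ∑ j, (D j - θ j) := Finset.sum_nonneg fun j _ => by linarith [hD j]
  have hmx : 0 ≤ max 0 ((lam - 2) / 3) := le_max_left _ _
  have e0 : max 0 ((2 * lam - 4) / 6) = max 0 ((lam - 2) / 3) := by
    congr 1
    ring
  have hsq : ∀ t, 2 ≤ t → ‖w t‖ ^ 2 ≤ az t ^ (2 * lam) := by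
    intro t ht
    have h1 := hwl t ht
    have h2 := az_nonneg t
    calc ‖w t‖ ^ 2 ≤ (az t ^ lam) ^ 2 := pow_le_pow_left₀ (norm_nonneg _) h1 2
      _ = az t ^ (2 * lam) := by
          rw [← Real.rpow_natCast, ← Real.rpow_mul h2]
          congr 1
          push_cast
          ring
  have hwi : ∀ T, 2 ≤ T → IntegrableOn (fun t => ‖w t‖ ^ 2) (Ioc 2 T) := by
    intro T hT
    have h1 : IntegrableOn (fun t => az t ^ (2 * lam)) (Ioc 2 T) := by
      rw [← intervalIntegrable_iff_integrableOn_Ioc_of_le hT]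
      exact azp_int (by positivity) _ _
    apply Integrable.mono' h1
    · exact (hw.norm.pow_const 2).aestronglyMeasurable
    · rw [ae_restrict_iff' measurableSet_Ioc]
      apply Filter.Eventually.of_forall
      intro t ht
      rw [Real.norm_of_nonneg (by positivity)]
      exact hsq t ht.1.le
  have h := gen θ η D m hη hηθ hm hD y hym Y hy e he1 he w hw (1 + max 0 ((lam - 2) / 3)) (by positivity) hwi (by
      intro ε hε
      obtain ⟨C, hC⟩ := az_up (2 * lam) (by positivity) ε hε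
      rw [e0] at hC
      refine ⟨C, fun T hT => le_trans ?_ (hC T hT)⟩
      apply intervalIntegral.integral_mono_on hT _ (azp_int (by positivity) _ _) (fun t ht => hsq t ht.1)
      rw [intervalIntegrable_iff_integrableOn_Ioc_of_le hT]
      exact hwi T hT)
  filter_upwards [h] with c hc hj
  obtain ⟨T0, hT0, hint, hbd⟩ := fix _ ((∑ j, (D j - θ j) + 1 - e + (1 + max 0 ((lam - 2) / 3))) / 2)
    (by linarith) (hc hj)
  have hWb : ∀ T, ∃ W, ∀ t ∈ Icc 2 T, ‖w t‖ ≤ W := by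
    intro T
    obtain ⟨W, hW⟩ := (isCompact_Icc (a := 2) (b := T)).exists_bound_of_continuousOn (azp_cont hl).continuousOn
    refine ⟨W, fun t ht => (hwl t ht.1).trans ?_⟩
    have := hW t ht
    rwa [Real.norm_of_nonneg (by have := az_nonneg t; positivity)] at this
  have hff : ∀ T : ℝ, 2 ≤ T →
      IntervalIntegrable (fun t => w t * ((∏ j, ff (hgt θ η m y c j t) : ℝ) : ℂ)) volume 2 T := by
    intro T hT
    obtain ⟨W, hW⟩ := hWb T
    obtain ⟨B, hB⟩ := prodff_bdd θ η D m hη hηθ hD y Y hy c T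
    exact bint w hw _ (prodff_meas θ η m y hym c) T W B hT hW hB
  have hlg : ∀ T : ℝ, 2 ≤ T → IntervalIntegrable (fun t => w t * ((Real.log t ^ k : ℝ) : ℂ)) volume 2 T := by
    intro T hT
    obtain ⟨W, hW⟩ := hWb T
    have hc1 := logk_cont k T
    rw [max_eq_right hT, uIcc_of_le hT] at hc1
    obtain ⟨B, hB⟩ := isCompact_Icc.exists_bound_of_continuousOn hc1
    exact bint w hw _ (Real.measurable_log.pow_const k) T W B hT hW hB
  refine ⟨⟨T0, hT0, hint, hbd⟩, hff, ?_⟩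
  -- the asymptotic independence
  have hLL := prodLL_asy θ η D m hηθ hm hD y Y hy c0 hc0 hlow c hj
  have hffT : ∀ T : ℝ, T0 ≤ T →
      IntervalIntegrable (fun t => w t * ((∏ j, ff (hgt θ η m y c j t) : ℝ) : ℂ)) volume T0 T :=
    fun T hT => (hff T0 hT0).symm.trans (hff T (hT0.trans hT))
  have hlgT : ∀ T : ℝ, T0 ≤ T → IntervalIntegrable (fun t => w t * ((Real.log t ^ k : ℝ) : ℂ)) volume T0 T :=
    fun T hT => (hlg T0 hT0).symm.trans (hlg T (hT0.trans hT))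
  have hdi : ∀ T : ℝ, T0 ≤ T → IntervalIntegrable (fun t => w t *
      (((∏ j, LL (hgt θ η m y c j t)) - (∏ j, D j) * Real.log t ^ k : ℝ) : ℂ)) volume T0 T := by
    intro T hT
    have h1 := ((hffT T hT).sub (hint T hT)).sub ((hlgT T hT).const_mul ((∏ j, D j : ℝ) : ℂ))
    refine h1.congr fun t _ => ?_
    push_cast
    ring
  rw [Metric.tendsto_nhds]
  intro ε hε
  obtain ⟨δ, hδe⟩ : ∃ δ : ℝ, δ = (1 - (∑ j, (D j - θ j) + (1 - e) + max 0 ((lam - 2) / 3))) / 4 := ⟨_, rfl⟩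
  have hδ0 : 0 < δ := by rw [hδe]; linarith
  obtain ⟨K, hK⟩ := hbd δ hδ0
  have g1 : ∀ᶠ t in atTop, |(∏ j, LL (hgt θ η m y c j t)) / Real.log t ^ k - ∏ j, D j| < ε / 2 := by
    have := (Metric.tendsto_nhds.1 hLL) (ε / 2) (by positivity)
    simpa only [Real.dist_eq] using this
  obtain ⟨T1, hT1⟩ := eventually_atTop.1 (g1.and (eventually_ge_atTop (max T0 3)))
  have hT1' : max T0 3 ≤ T1 := (hT1 T1 le_rfl).2
  have hT10 : T0 ≤ T1 := (le_max_left _ _).trans hT1'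
  have hT13 : 3 ≤ T1 := (le_max_right _ _).trans hT1'
  obtain ⟨C1, hC1⟩ : ∃ C1 : ℝ, C1 = ‖(∫ t in (2:ℝ)..T0, w t * ((∏ j, ff (hgt θ η m y c j t) : ℝ) : ℂ)) -
    ((∏ j, D j : ℝ) : ℂ) * ∫ t in (2:ℝ)..T0, w t * ((Real.log t ^ k : ℝ) : ℂ)‖ := ⟨_, rfl⟩
  obtain ⟨C2, hC2⟩ : ∃ C2 : ℝ, C2 = ‖∫ t in T0..T1, w t *
      (((∏ j, LL (hgt θ η m y c j t)) - (∏ j, D j) * Real.log t ^ k : ℝ) : ℂ)‖ := ⟨_, rfl⟩
  have hC10 : 0 ≤ C1 := by rw [hC1]; positivity
  have hC20 : 0 ≤ C2 := by rw [hC2]; positivity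
  have hsmall : Tendsto (fun T : ℝ => (C1 + C2 + |K|) * T ^ (-(δ / 2))) atTop (𝓝 ((C1 + C2 + |K|) * 0)) :=
    (tendsto_rpow_neg_atTop (by positivity)).const_mul _
  rw [mul_zero] at hsmall
  have hsm2 : ∀ᶠ T : ℝ in atTop, (C1 + C2 + |K|) * T ^ (-(δ / 2)) < ε / 2 :=
    (tendsto_order.1 hsmall).2 _ (by positivity)
  filter_upwards [eventually_ge_atTop T1, NN_low k lam hl (δ / 2) (by positivity), hsm2] with T hT hNN hsm
  have hT0' : T0 ≤ T := hT10.trans hT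
  have hT2 : 2 ≤ T := hT0.trans hT0'
  have hTp : 0 < T := by linarith
  have hT1p : 1 ≤ T := by linarith
  have hNp : 0 < NN k lam T := lt_of_lt_of_le (by positivity) hNN
  have s1 : ∫ t in (2:ℝ)..T, w t * ((∏ j, ff (hgt θ η m y c j t) : ℝ) : ℂ) =
      (∫ t in (2:ℝ)..T0, w t * ((∏ j, ff (hgt θ η m y c j t) : ℝ) : ℂ)) +
        ∫ t in T0..T, w t * ((∏ j, ff (hgt θ η m y c j t) : ℝ) : ℂ) :=
    (intervalIntegral.integral_add_adjacent_intervals (hff T0 hT0) (hffT T hT0')).symm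
  have s2 : ∫ t in (2:ℝ)..T, w t * ((Real.log t ^ k : ℝ) : ℂ) =
      (∫ t in (2:ℝ)..T0, w t * ((Real.log t ^ k : ℝ) : ℂ)) + ∫ t in T0..T, w t * ((Real.log t ^ k : ℝ) : ℂ) :=
    (intervalIntegral.integral_add_adjacent_intervals (hlg T0 hT0) (hlgT T hT0')).symm
  have s3 : (∫ t in T0..T, w t * ((∏ j, ff (hgt θ η m y c j t) : ℝ) : ℂ)) -
      ((∏ j, D j : ℝ) : ℂ) * (∫ t in T0..T, w t * ((Real.log t ^ k : ℝ) : ℂ)) =
      (∫ t in T0..T, w t * (∏ j, (ff (hgt θ η m y c j t) : ℂ) - ∏ j, (LL (hgt θ η m y c j t) : ℂ))) +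
        ∫ t in T0..T, w t * (((∏ j, LL (hgt θ η m y c j t)) - (∏ j, D j) * Real.log t ^ k : ℝ) : ℂ) := by
    rw [← intervalIntegral.integral_const_mul, ← intervalIntegral.integral_sub (hffT T hT0')
      ((hlgT T hT0').const_mul _), ← intervalIntegral.integral_add (hint T hT0') (hdi T hT0')]
    congr 1
    funext t
    push_cast
    ring
  have s4 : ∫ t in T0..T, w t * (((∏ j, LL (hgt θ η m y c j t)) - (∏ j, D j) * Real.log t ^ k : ℝ) : ℂ) =
      (∫ t in T0..T1, w t * (((∏ j, LL (hgt θ η m y c j t)) - (∏ j, D j) * Real.log t ^ k : ℝ) : ℂ)) +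
        ∫ t in T1..T, w t * (((∏ j, LL (hgt θ η m y c j t)) - (∏ j, D j) * Real.log t ^ k : ℝ) : ℂ) :=
    (intervalIntegral.integral_add_adjacent_intervals (hdi T1 hT10) ((hdi T1 hT10).symm.trans (hdi T hT0'))).symm
  have b1 : ‖∫ t in T1..T, w t * (((∏ j, LL (hgt θ η m y c j t)) - (∏ j, D j) * Real.log t ^ k : ℝ) : ℂ)‖ ≤
      ε / 2 * NN k lam T := by
    have h1 : ‖∫ t in T1..T, w t * (((∏ j, LL (hgt θ η m y c j t)) - (∏ j, D j) * Real.log t ^ k : ℝ) : ℂ)‖ ≤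
        ∫ t in T1..T, ε / 2 * (az t ^ lam * Real.log t ^ k) := by
      apply intervalIntegral.norm_integral_le_of_norm_le hT
      · apply Filter.Eventually.of_forall
        intro t ht
        have ht1 : T1 ≤ t := ht.1.le
        have hlt : 0 < Real.log t := Real.log_pos (by linarith)
        have h3 := (hT1 t ht1).1
        have h4 := hwl t (by linarith)
        have e2 : (∏ j, LL (hgt θ η m y c j t)) - (∏ j, D j) * Real.log t ^ k =
            ((∏ j, LL (hgt θ η m y c j t)) / Real.log t ^ k - ∏ j, D j) * Real.log t ^ k := by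
          field_simp
        rw [norm_mul, Complex.norm_real, Real.norm_eq_abs, e2, abs_mul, abs_of_pos (pow_pos hlt k)]
        have h5 : 0 ≤ az t ^ lam := by have := az_nonneg t; positivity
        calc ‖w t‖ * (|(∏ j, LL (hgt θ η m y c j t)) / Real.log t ^ k - ∏ j, D j| * Real.log t ^ k)
            ≤ az t ^ lam * (ε / 2 * Real.log t ^ k) := by
              apply mul_le_mul h4 (mul_le_mul_of_nonneg_right h3.le (by positivity)) (by positivity) h5
          _ = ε / 2 * (az t ^ lam * Real.log t ^ k) := by ring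
      · exact ((NN_int k lam hl T1 (by linarith)).symm.trans (NN_int k lam hl T hT2)).const_mul _
    rw [intervalIntegral.integral_const_mul] at h1
    have h2 : ∫ t in T1..T, az t ^ lam * Real.log t ^ k ≤ NN k lam T := by
      have h3 := intervalIntegral.integral_add_adjacent_intervals (NN_int k lam hl T1 (by linarith))
        ((NN_int k lam hl T1 (by linarith)).symm.trans (NN_int k lam hl T hT2))
      have h4 : 0 ≤ ∫ t in (2:ℝ)..T1, az t ^ lam * Real.log t ^ k := by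
        apply intervalIntegral.integral_nonneg (by linarith)
        intro t ht
        have := az_nonneg t
        have := Real.log_nonneg (show (1:ℝ) ≤ t by linarith [ht.1])
        positivity
      unfold NN
      linarith
    exact h1.trans (mul_le_mul_of_nonneg_left h2 (by positivity))
  have b2 := hK T hT0'
  have e3 : (∑ j, (D j - θ j) + 1 - e + (1 + max 0 ((lam - 2) / 3))) / 2 + δ = 1 - δ := by
    rw [hδe]
    ring
  rw [e3] at b2
  have b3 : C1 + C2 + K * T ^ (1 - δ) ≤ (C1 + C2 + |K|) * T ^ (-(δ / 2)) * NN k lam T := by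
    have h1 : (C1 + C2 + |K|) * T ^ (-(δ / 2)) * T ^ (1 - δ / 2) ≤ (C1 + C2 + |K|) * T ^ (-(δ / 2)) * NN k lam T :=
      mul_le_mul_of_nonneg_left hNN (by positivity)
    have h2 : T ^ (-(δ / 2)) * T ^ (1 - δ / 2) = T ^ (1 - δ) := by
      rw [← Real.rpow_add hTp]
      congr 1
      ring
    have h3 : (C1 + C2 + |K|) * T ^ (-(δ / 2)) * T ^ (1 - δ / 2) = (C1 + C2 + |K|) * T ^ (1 - δ) := by
      rw [mul_assoc, h2]
    have h4 : 1 ≤ T ^ (1 - δ) := Real.one_le_rpow hT1p (by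
      rw [hδe]
      linarith)
    have h5 : K * T ^ (1 - δ) ≤ |K| * T ^ (1 - δ) := mul_le_mul_of_nonneg_right (le_abs_self K) (by positivity)
    nlinarith
  rw [dist_zero_right, norm_div, Complex.norm_real, Real.norm_of_nonneg hNp.le, div_lt_iff₀ hNp]
  have e4 : (∫ t in (2:ℝ)..T, w t * ((∏ j, ff (hgt θ η m y c j t) : ℝ) : ℂ)) -
      ((∏ j, D j : ℝ) : ℂ) * ∫ t in (2:ℝ)..T, w t * ((Real.log t ^ k : ℝ) : ℂ) =
      ((∫ t in (2:ℝ)..T0, w t * ((∏ j, ff (hgt θ η m y c j t) : ℝ) : ℂ)) -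
        ((∏ j, D j : ℝ) : ℂ) * ∫ t in (2:ℝ)..T0, w t * ((Real.log t ^ k : ℝ) : ℂ)) +
      ((∫ t in T0..T, w t * (∏ j, (ff (hgt θ η m y c j t) : ℂ) - ∏ j, (LL (hgt θ η m y c j t) : ℂ))) +
        ((∫ t in T0..T1, w t * (((∏ j, LL (hgt θ η m y c j t)) - (∏ j, D j) * Real.log t ^ k : ℝ) : ℂ)) +
        ∫ t in T1..T, w t * (((∏ j, LL (hgt θ η m y c j t)) - (∏ j, D j) * Real.log t ^ k : ℝ) : ℂ))) := by
    rw [s1, s2, ← s4, ← s3]
    ring
  rw [e4]
  refine lt_of_le_of_lt ((norm_add_le _ _).trans (add_le_add_right ((norm_add_le _ _).trans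
    (add_le_add_right (norm_add_le _ _) _)) _)) ?_
  rw [← hC1, ← hC2]
  have h6 : (C1 + C2 + |K|) * T ^ (-(δ / 2)) * NN k lam T < ε / 2 * NN k lam T :=
    mul_lt_mul_of_pos_right hsm hNp
  linarith

end Pool.Agent.H471.ZP
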