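import Pool.Agent.H471.ZP.Asy
import Pool.Graph.R_seed8.TH806.N4.Abs
import Pool.Graph.R_seed8.Y360.SX.F8

set_option autoImplicit false

/-!
The weight `|ζ(1/2 + it)| ^ 4`.
-/

namespace Pool.Agent.H471.ZP

open MeasureTheory Set Filter Topology
open Pool.Agent.Y969.GP (ff)
open Pool.Agent.H471.QP (LL)

/-- the fourth power -/
noncomputable def F4 (t : ℝ) : ℝ := ‖riemannZeta (1 / 2 + Complex.I * t)‖ ^ 4

lemma ff_cont : Continuous ff := by
  have h : ff = fun t : ℝ => Pool.Agent.Y969.SM.Xz t ^ 2 := by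
    funext t
    rw [Pool.Agent.Y360.SX.Xz_eq]
    unfold ff
    rw [mul_comm]
  rw [h]
  exact Pool.Agent.Y360.SX.Xz_cont.pow 2

lemma F4_eq (t : ℝ) : F4 t = Pool.Agent.Y969.SM.Xz t ^ 4 := by
  rw [Pool.Agent.Y360.SX.Xz_eq]
  unfold F4
  rw [mul_comm]

lemma F4_cont : Continuous F4 := by
  have h : F4 = fun t : ℝ => Pool.Agent.Y969.SM.Xz t ^ 4 := funext F4_eq
  rw [h]
  exact Pool.Agent.Y360.SX.Xz_cont.pow 4

lemma F4_nonneg (t : ℝ) : 0 ≤ F4 t := by
  unfold F4
  positivity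

lemma F4_sq (ε : ℝ) (hε : 0 < ε) : ∃ C : ℝ, ∀ T, 2 ≤ T → ∫ t in (2:ℝ)..T, F4 t ^ 2 ≤ C * T ^ (5 / 3 + ε) := by
  obtain ⟨C, hC, h⟩ := Pool.Agent.Y360.SX.t_F8 ε hε
  refine ⟨C, fun T hT => le_trans ?_ (h T (by linarith))⟩
  have e1 : (fun t => F4 t ^ 2) = fun t => Pool.Agent.Y969.SM.Xz t ^ 8 := by
    funext t
    rw [F4_eq]
    ring
  rw [e1]
  apply intervalIntegral.integral_mono_interval (by norm_num) hT le_rfl
  · exact Filter.Eventually.of_forall fun t => by positivity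
  · exact (Pool.Agent.Y360.SX.Xz_cont.pow 8).intervalIntegrable _ _

lemma aM_eq (T : ℝ) (hT : 0 < T) :
    Pool.Agent.TH806.N4.aM 4 0 T * T = ∫ t in (0:ℝ)..T, F4 t := by
  have h := intervalIntegral.integral_comp_mul_right (a := 0) (b := 1) F4 hT.ne'
  have e1 : Pool.Agent.TH806.N4.aM 4 0 T = ∫ u in (0:ℝ)..1, F4 (u * T) := by
    unfold Pool.Agent.TH806.N4.aM
    congr 1
    funext u
    unfold F4
    have e2 : (1 / 2 + ((0:ℝ):ℂ) * Complex.I + (u:ℂ) * (T:ℂ) * Complex.I) = 1 / 2 + Complex.I * ((u * T : ℝ) : ℂ) := by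
      push_cast
      ring
    rw [e2]
    exact_mod_cast Real.rpow_natCast _ 4
  rw [e1, h, zero_mul, one_mul, smul_eq_mul]
  field_simp

/-- Ingham's theorem -/
theorem ingham : Tendsto (fun T : ℝ => (∫ t in (0:ℝ)..T, F4 t) / (T * Real.log T ^ 4)) atTop
    (𝓝 (1 / (2 * Real.pi ^ 2))) := by
  rw [Metric.tendsto_nhds]
  intro ε hε
  obtain ⟨δ, hδ, h⟩ := Pool.Agent.TH806.N4.a_SHT.2 (ε / 2) (by positivity)
  filter_upwards [h 0, Real.tendsto_log_atTop.eventually_ge_atTop 1, eventually_gt_atTop 0] with T hT hL hT0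
  have h1 := hT.1 4 (by linarith) le_rfl
  have h2 := hT.2 4 le_rfl (by linarith)
  have e1 : Real.log T ^ ((4:ℝ) ^ 2 / 4) = Real.log T ^ 4 := by
    rw [show (4:ℝ) ^ 2 / 4 = ((4:ℕ):ℝ) by norm_num]
    exact Real.rpow_natCast _ 4
  rw [e1] at h1 h2
  have hl : 0 < Real.log T ^ 4 := by positivity
  have e2 : (∫ t in (0:ℝ)..T, F4 t) / (T * Real.log T ^ 4) = Pool.Agent.TH806.N4.aM 4 0 T / Real.log T ^ 4 := by
    rw [← aM_eq T hT0]
    field_simp
  rw [e2, Real.dist_eq, abs_lt]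
  constructor
  · have h3 : 1 / (2 * Real.pi ^ 2) - ε / 2 ≤ Pool.Agent.TH806.N4.aM 4 0 T / Real.log T ^ 4 := by
      rw [le_div_iff₀ hl]
      exact h2
    linarith
  · have h3 : Pool.Agent.TH806.N4.aM 4 0 T / Real.log T ^ 4 ≤ 1 / (2 * Real.pi ^ 2) + ε / 2 := by
      rw [div_le_iff₀ hl]
      exact h1
    linarith

/-- Ingham's theorem, from `T0` on -/
theorem ingham' (T0 : ℝ) : Tendsto (fun T : ℝ => (∫ t in T0..T, F4 t) / (T * Real.log T ^ 4)) atTop
    (𝓝 (1 / (2 * Real.pi ^ 2))) := by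
  have hden : Tendsto (fun T : ℝ => T * Real.log T ^ 4) atTop atTop := by
    apply Tendsto.atTop_mul_atTop₀ tendsto_id
    exact (tendsto_pow_atTop (by norm_num)).comp Real.tendsto_log_atTop
  have h1 : Tendsto (fun T : ℝ => (∫ t in (0:ℝ)..T0, F4 t) / (T * Real.log T ^ 4)) atTop (𝓝 0) :=
    tendsto_const_nhds.div_atTop hden
  have h2 := ingham.sub h1
  rw [sub_zero] at h2
  refine h2.congr fun T => ?_
  rw [← sub_div, intervalIntegral.integral_interval_sub_left (F4_cont.intervalIntegrable _ _)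
    (F4_cont.intervalIntegrable _ _)]

/-- size of the heights -/
lemma hgt_size (θ η D : ℝ) (m : ℕ) (hηθ : η ≤ θ) (hm : η < θ ∨ 1 ≤ m) (hD : θ ≤ D) (y : ℝ → ℝ) (Y c0 : ℝ)
    (hc0 : 0 < c0) (hy : ∀ t, 2 ≤ t → 0 ≤ y t ∧ y t ≤ Y * t ^ D) (hlow : ∀ t, 2 ≤ t → c0 * t ^ D ≤ y t + t ^ θ)
    (a b : ℝ) (ha : 0 < a) :
    ∃ c1 C1 : ℝ, 0 < c1 ∧ 0 < C1 ∧ ∀ᶠ t in atTop, c1 * t ^ D ≤ y t + a * t ^ θ + b * (t ^ η / Real.log t ^ m) ∧
      y t + a * t ^ θ + b * (t ^ η / Real.log t ^ m) ≤ C1 * t ^ D := by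
  obtain ⟨t1, h1⟩ := fam_inf θ η m hηθ hm (2 * (|b| + 1) / a) (by positivity)
  refine ⟨min 1 (a / 2) * c0, |Y| + 2 * a, by positivity, by positivity, ?_⟩
  filter_upwards [eventually_ge_atTop t1, eventually_ge_atTop 2] with t ht ht2
  have h2 := h1 t ht
  have hQ : 0 ≤ t ^ η / Real.log t ^ m := by
    have h3 : 0 ≤ Real.log t := Real.log_nonneg (by linarith)
    positivity
  have hP : 0 < t ^ θ := by positivity
  have h4 : (|b| + 1) * (t ^ η / Real.log t ^ m) ≤ a / 2 * t ^ θ := by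
    have e1 : (|b| + 1) * (t ^ η / Real.log t ^ m) = a / 2 * (2 * (|b| + 1) / a * (t ^ η / Real.log t ^ m)) := by
      field_simp
    rw [e1]
    exact mul_le_mul_of_nonneg_left h2 (by positivity)
  have h5 : |b * (t ^ η / Real.log t ^ m)| ≤ a / 2 * t ^ θ := by
    rw [abs_mul, abs_of_nonneg hQ]
    nlinarith [abs_nonneg b]
  have h6 := abs_le.1 h5
  have h7 := hy t ht2
  have h8 := hlow t ht2
  have h9 : t ^ θ ≤ t ^ D := Real.rpow_le_rpow_of_exponent_le (by linarith) hD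
  have hDp : 0 < t ^ D := by positivity
  constructor
  · have h10 : min 1 (a / 2) * (y t + t ^ θ) ≤ y t + a / 2 * t ^ θ := by
      have := min_le_left 1 (a / 2)
      have := min_le_right 1 (a / 2)
      nlinarith [h7.1, hP.le]
    have h11 : min 1 (a / 2) * c0 * t ^ D ≤ min 1 (a / 2) * (y t + t ^ θ) := by
      rw [mul_assoc]
      exact mul_le_mul_of_nonneg_left h8 (by positivity)
    linarith [h6.1]
  · have h12 : y t ≤ |Y| * t ^ D := h7.2.trans (mul_le_mul_of_nonneg_right (le_abs_self Y) hDp.le)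
    nlinarith [h6.2]

/-- the main term at one height -/
lemma LL_asy (D c1 C1 : ℝ) (hc1 : 0 < c1) (hC1 : 0 < C1) (u : ℝ → ℝ)
    (h : ∀ᶠ t in atTop, c1 * t ^ D ≤ u t ∧ u t ≤ C1 * t ^ D) :
    Tendsto (fun t => LL (u t) / Real.log t) atTop (𝓝 D) := by
  have hL := Real.tendsto_log_atTop
  have lim : ∀ K : ℝ, Tendsto (fun t : ℝ => D + K / Real.log t) atTop (𝓝 D) := by
    intro K
    have h1 : Tendsto (fun t : ℝ => K / Real.log t) atTop (𝓝 0) := tendsto_const_nhds.div_atTop hL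
    have h2 := (tendsto_const_nhds (x := D) (f := (atTop : Filter ℝ))).add h1
    rwa [add_zero] at h2
  refine tendsto_of_tendsto_of_tendsto_of_le_of_le'
    (lim (Real.log c1 - Real.log (2 * Real.pi) + 2 * Real.eulerMascheroniConstant))
    (lim (Real.log C1 - Real.log (2 * Real.pi) + 2 * Real.eulerMascheroniConstant)) ?_ ?_
  · filter_upwards [h, hL.eventually_ge_atTop 1, eventually_ge_atTop 1] with t ht hl ht1
    have hl0 : 0 < Real.log t := by linarith
    have htp : 0 < t := by linarith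
    have hpi := Real.pi_pos
    have hDp : 0 < t ^ D := by positivity
    have hu : 0 < u t := lt_of_lt_of_le (by positivity) ht.1
    have h2 : Real.log c1 + D * Real.log t ≤ Real.log (u t) := by
      rw [← Real.log_rpow htp, ← Real.log_mul hc1.ne' hDp.ne']
      exact Real.log_le_log (by positivity) ht.1
    rw [← sub_nonneg]
    have e1 : LL (u t) / Real.log t -
        (D + (Real.log c1 - Real.log (2 * Real.pi) + 2 * Real.eulerMascheroniConstant) / Real.log t) =
        (Real.log (u t) - (Real.log c1 + D * Real.log t)) / Real.log t := by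
      unfold LL
      rw [Real.log_div hu.ne' (by positivity)]
      field_simp
      ring
    rw [e1]
    exact div_nonneg (by linarith) hl0.le
  · filter_upwards [h, hL.eventually_ge_atTop 1, eventually_ge_atTop 1] with t ht hl ht1
    have hl0 : 0 < Real.log t := by linarith
    have htp : 0 < t := by linarith
    have hpi := Real.pi_pos
    have hDp : 0 < t ^ D := by positivity
    have hu : 0 < u t := lt_of_lt_of_le (by positivity) ht.1
    have h2 : Real.log (u t) ≤ Real.log C1 + D * Real.log t := by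
      rw [← Real.log_rpow htp, ← Real.log_mul hC1.ne' hDp.ne']
      exact Real.log_le_log hu ht.2
    rw [← sub_nonneg]
    have e1 : (D + (Real.log C1 - Real.log (2 * Real.pi) + 2 * Real.eulerMascheroniConstant) / Real.log t) -
        LL (u t) / Real.log t =
        ((Real.log C1 + D * Real.log t) - Real.log (u t)) / Real.log t := by
      unfold LL
      rw [Real.log_div hu.ne' (by positivity)]
      field_simp
      ring
    rw [e1]
    exact div_nonneg (by linarith) hl0.le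

end Pool.Agent.H471.ZP
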